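import Pool.Agent.N180.ZlK

/-!
# The zero-one law for the standard conjecture D: final form
-/

open CategoryTheory AlgebraicGeometry TensorProduct Function Module Filter

universe u v w w'

set_option linter.unusedSectionVars false

namespace Pool.Agent.N180.Zl

open Pool.Agent.H914 Pool.Agent.H914.VarClass Pool.Agent.H914.VarClass.Obj
  Pool.Agent.H914.WeilCohomology Pool.Agent.R908 Pool.Agent.R908.Km
  Pool.Agent.H281R3.HT Pool.Agent.N180.Cf

variable {k : Type u} [Field k] {𝒱 : VarClass k} {ops : CycleOps 𝒱}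
  {W : WeilCohomology.{u, v} ops} {X P Y Z V : 𝒱.Obj}

lemma homRank_pos (h : (1 : W.H V) ≠ 0) : 0 < homRank W V := by
  rw [homRank, Module.finrank_pos_iff_exists_ne_zero]
  have h1 : (1 : W.H V) ∈ allCycles W V := span_le_all (0 : ℤ) (one_span V)
  refine ⟨⟨1, h1⟩, fun h2 => h ?_⟩
  exact congrArg Subtype.val h2

lemma homRank_pX_pos (hX : (1 : W.H X) ≠ 0) (hP : (1 : W.H P) ≠ 0) :
    ∀ n : ℕ, 0 < homRank W (pX X P n) := by
  intro n
  induction n with
  | zero => exact homRank_pos hP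
  | succ n ih => exact lt_of_lt_of_le ih (homRank_le hX)

lemma rank_eq_of_hom (h : HomEqNum W V) : numRank W V = homRank W V := by
  have h1 := numRank_add (W := W) V
  have h2 : (allCycles W V ⊓ numC W V : Submodule W.K (W.H V)) = ⊥ := by
    rw [eq_bot_iff]
    rintro x ⟨hx, hxn⟩
    rw [sum_comp x]
    refine Submodule.sum_mem _ fun i _ => ?_
    obtain ⟨p, hp⟩ := gr_comp hx i
    rw [Submodule.mem_bot]
    exact num_whole h p _ hp (num_comp hxn i)
  rw [h2, finrank_bot, add_zero] at h1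
  exact h1

/-- One power decides. -/
theorem one_power (b m : ℕ) (c : ℝ) (hc : 0 < c) : ∃ n₀ : ℕ, ∀ {k : Type u} [Field k]
    {𝒱 : VarClass k} {ops : CycleOps 𝒱} (W : WeilCohomology.{u, v} ops) (X P : 𝒱.Obj),
    P.dim = 0 → SignOpAlgebraic W X → finrank W.K (W.H X) = b → ∀ n ≥ n₀,
    c * homRank W (pX X P n) ≤ numRank W (pX X P n) → HomEqNum W (pX X P m) := by
  obtain ⟨C, -, hC⟩ := zero_one.{u, v} b m
  set κ : ℝ := 1 / (4 * (2 * (b : ℝ) ^ (2 * m) + 1)) with hκ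
  have hκ0 : 0 < κ := by positivity
  have hlim : Tendsto (fun n : ℕ => (n : ℝ) ^ κ) atTop atTop :=
    (tendsto_rpow_atTop hκ0).comp tendsto_natCast_atTop_atTop
  obtain ⟨n₀, hn₀⟩ := eventually_atTop.1
    ((hlim.eventually_gt_atTop (C / c)).and (eventually_ge_atTop 1))
  refine ⟨n₀, ?_⟩
  intro k _ 𝒱 ops W X P hP hX hb n hn h
  by_contra hm
  obtain ⟨hP1, hX1⟩ := ne_of_not hP hm
  obtain ⟨h2, h3⟩ := hn₀ n hn
  have h4 := hC W X P hP hX hb hm n h3
  have h5 : (0 : ℝ) < homRank W (pX X P n) := by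
    exact_mod_cast homRank_pX_pos hX1 hP1 n
  have h6 : (0 : ℝ) < (n : ℝ) ^ κ := Real.rpow_pos_of_pos (by exact_mod_cast h3) κ
  have h7 : c * homRank W (pX X P n) * (n : ℝ) ^ κ ≤ C * homRank W (pX X P n) :=
    le_trans (mul_le_mul_of_nonneg_right h h6.le) h4
  have h8 : c * (n : ℝ) ^ κ ≤ C := by
    refine le_of_mul_le_mul_right ?_ h5
    linarith
  rw [div_lt_iff₀ hc] at h2
  linarith

/-- **The zero-one law.** -/
theorem zero_one_law (W : WeilCohomology.{u, v} ops) (X P : 𝒱.Obj) (hP : P.dim = 0)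
    (hX : SignOpAlgebraic W X) :
    List.TFAE [
      ∀ n, HomEqNum W (pX X P n),
      ∀ n, numRank W (pX X P n) = homRank W (pX X P n),
      ∃ c : ℝ, 0 < c ∧ ∃ᶠ n in atTop, c * homRank W (pX X P n) ≤ numRank W (pX X P n)] := by
  tfae_have 1 → 2 := fun h n => rank_eq_of_hom (h n)
  tfae_have 2 → 3 := by
    intro h
    refine ⟨1, one_pos, Frequently.of_forall fun n => ?_⟩
    rw [h n, one_mul]
  tfae_have 3 → 1 := by
    rintro ⟨c, hc, hfr⟩ m
    obtain ⟨n₀, h0⟩ := one_power.{u, v} (finrank W.K (W.H X)) m c hc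
    obtain ⟨n, hn, h2⟩ := (hfr.and_eventually (eventually_ge_atTop n₀)).exists
    exact h0 W X P hP hX rfl n h2 hn
  tfae_finish

/-- **The zero-one law**, all parts. -/
theorem zero_one_law_all :
    (∀ b m : ℕ, ∃ C : ℝ, ∀ {k : Type u} [Field k] {𝒱 : VarClass k} {ops : CycleOps 𝒱}
      (W : WeilCohomology.{u, v} ops) (X P : 𝒱.Obj), IsCase W X P b →
      ¬ HomEqNum W (pX X P m) → IsSmall C (exponent b m) (numRanks W X P) (homRanks W X P)) ∧
    (∀ (b m : ℕ) (c : ℝ), 0 < c → ∃ n₀ : ℕ, ∀ {k : Type u} [Field k] {𝒱 : VarClass k}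
      {ops : CycleOps 𝒱} (W : WeilCohomology.{u, v} ops) (X P : 𝒱.Obj), IsCase W X P b →
      ∀ n ≥ n₀, c * homRanks W X P n ≤ numRanks W X P n → HomEqNum W (pX X P m)) ∧
    ∀ {k : Type u} [Field k] {𝒱 : VarClass k} {ops : CycleOps 𝒱}
      (W : WeilCohomology.{u, v} ops) (X P : 𝒱.Obj) (b : ℕ), IsCase W X P b → List.TFAE [
        ∀ n, HomEqNum W (pX X P n),
        ∀ n, numRanks W X P n = homRanks W X P n,
        ∃ c : ℝ, 0 < c ∧ ∃ᶠ n in atTop, c * homRanks W X P n ≤ numRanks W X P n] := by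
  refine ⟨fun b m => ?_, fun b m c hc => ?_, ?_⟩
  · obtain ⟨C, -, hC⟩ := zero_one.{u, v} b m
    refine ⟨C, ?_⟩
    intro k _ 𝒱 ops W X P h hm n hn
    have h1 := hC W X P h.dim_eq h.sign h.betti hm n hn
    have h2 : exponent b m = 1 / (4 * (2 * (b : ℝ) ^ (2 * m) + 1)) := by
      rw [exponent]
      congr 1
      ring
    rw [h2]
    exact h1
  · obtain ⟨n₀, h0⟩ := one_power.{u, v} b m c hc
    refine ⟨n₀, ?_⟩
    intro k _ 𝒱 ops W X P h n hn h1
    exact h0 W X P h.dim_eq h.sign h.betti n hn h1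
  · intro k _ 𝒱 ops W X P b h
    exact zero_one_law W X P h.dim_eq h.sign

end Pool.Agent.N180.Zl
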