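import Mathlib

/-!
# A theorem of the alternative with strict and weak inequalities (Motzkin)
-/

namespace Pool.Agent.N180.Cf

open Finset

/-- The lemma of Farkas (over the rational numbers, after Bartl). -/
theorem farkas {E : Type*} [AddCommGroup E] [Module ℚ E] {ι : Type*} (s : Finset ι) :
    ∀ (A : ι → E →ₗ[ℚ] ℚ) (b : E →ₗ[ℚ] ℚ), (∀ x, (∀ i ∈ s, A i x ≤ 0) → b x ≤ 0) →
    ∃ c : ι → ℚ, (∀ i, 0 ≤ c i) ∧ b = ∑ i ∈ s, c i • A i := by
  classical
  induction s using Finset.induction_on with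
  | empty =>
    intro A b h
    refine ⟨0, fun i => le_rfl, ?_⟩
    rw [Finset.sum_empty]
    apply LinearMap.ext
    intro x
    have h1 := h x (fun i hi => absurd hi (Finset.notMem_empty i))
    have h2 := h (-x) (fun i hi => absurd hi (Finset.notMem_empty i))
    rw [map_neg] at h2
    rw [LinearMap.zero_apply]
    linarith
  | insert i₀ s hi₀ ih =>
    intro A b h
    by_cases hb : ∀ x, (∀ i ∈ s, A i x ≤ 0) → b x ≤ 0
    · obtain ⟨c, hc, hbc⟩ := ih A b hb
      refine ⟨Function.update c i₀ 0, fun i => ?_, ?_⟩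
      · by_cases hi : i = i₀
        · subst hi
          rw [Function.update_self]
        · rw [Function.update_of_ne hi]
          exact hc i
      · rw [Finset.sum_insert hi₀, Function.update_self, zero_smul, zero_add, hbc]
        refine Finset.sum_congr rfl fun i hi => ?_
        rw [Function.update_of_ne]
        rintro rfl
        exact hi₀ hi
    · push Not at hb
      obtain ⟨x₁, hx₁, hbx₁⟩ := hb
      have h1 : 0 < A i₀ x₁ := by
        by_contra hcon
        push Not at hcon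
        have h2 := h x₁ (fun i hi => by
          rcases Finset.mem_insert.1 hi with rfl | hi
          · exact hcon
          · exact hx₁ i hi)
        linarith
      set x₀ := (A i₀ x₁)⁻¹ • x₁ with hx₀
      have e1 : A i₀ x₀ = 1 := by
        rw [hx₀, map_smul, smul_eq_mul, inv_mul_cancel₀ h1.ne']
      have e2 : ∀ i ∈ s, A i x₀ ≤ 0 := by
        intro i hi
        rw [hx₀, map_smul, smul_eq_mul]
        exact mul_nonpos_of_nonneg_of_nonpos (inv_nonneg.2 h1.le) (hx₁ i hi)
      have e3 : 0 < b x₀ := by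
        rw [hx₀, map_smul, smul_eq_mul]
        exact mul_pos (inv_pos.2 h1) hbx₁
      obtain ⟨c, hc, hbc⟩ := ih (fun i => A i - (A i x₀) • A i₀) (b - b x₀ • A i₀) (by
        intro x hx
        have h2 := h (x - A i₀ x • x₀) (by
          intro i hi
          rcases Finset.mem_insert.1 hi with rfl | hi
          · rw [map_sub, map_smul, e1, smul_eq_mul, mul_one, sub_self]
          · have h3 := hx i hi
            rw [LinearMap.sub_apply, LinearMap.smul_apply, smul_eq_mul] at h3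
            rw [map_sub, map_smul, smul_eq_mul]
            linarith)
        rw [map_sub, map_smul, smul_eq_mul] at h2
        rw [LinearMap.sub_apply, LinearMap.smul_apply, smul_eq_mul]
        linarith)
      refine ⟨Function.update c i₀ (b x₀ - ∑ i ∈ s, c i * A i x₀), fun i => ?_, ?_⟩
      · by_cases hi : i = i₀
        · subst hi
          rw [Function.update_self]
          have h4 : ∑ j ∈ s, c j * A j x₀ ≤ 0 :=
            Finset.sum_nonpos fun j hj => mul_nonpos_of_nonneg_of_nonpos (hc j) (e2 j hj)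
          linarith
        · rw [Function.update_of_ne hi]
          exact hc i
      · rw [Finset.sum_insert hi₀, Function.update_self]
        have h5 : ∑ i ∈ s, Function.update c i₀ (b x₀ - ∑ i ∈ s, c i * A i x₀) i • A i =
            ∑ i ∈ s, c i • A i := by
          refine Finset.sum_congr rfl fun i hi => ?_
          rw [Function.update_of_ne]
          rintro rfl
          exact hi₀ hi
        rw [h5]
        apply LinearMap.ext
        intro x
        have h6 := congrArg (fun F => F x) hbc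
        simp only [LinearMap.sub_apply, LinearMap.smul_apply, smul_eq_mul, LinearMap.sum_apply,
          LinearMap.add_apply, mul_sub, Finset.sum_sub_distrib] at h6 ⊢
        have h7 : ∑ i ∈ s, c i * (A i x₀ * A i₀ x) = (∑ i ∈ s, c i * A i x₀) * A i₀ x := by
          rw [Finset.sum_mul]
          exact Finset.sum_congr rfl fun i _ => (mul_assoc _ _ _).symm
        rw [h7] at h6
        linarith


/-- A common denominator. -/
lemma exists_den {Λ : Type*} (s : Finset Λ) (w : Λ → ℚ) (hw : ∀ l, 0 ≤ w l) :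
    ∃ M : ℕ, 0 < M ∧ ∃ w' : Λ → ℕ, ∀ l ∈ s, (w' l : ℚ) = M * w l := by
  classical
  refine ⟨∏ l ∈ s, (w l).den, Finset.prod_pos fun l _ => (w l).den_pos, ?_⟩
  have h : ∀ l, l ∈ s → ∃ n : ℕ, (n : ℚ) = ((∏ l ∈ s, (w l).den : ℕ) : ℚ) * w l := by
    intro l hl
    obtain ⟨d, hd⟩ := Finset.dvd_prod_of_mem (fun l => (w l).den) hl
    refine ⟨d * (w l).num.toNat, ?_⟩
    rw [hd]
    push_cast
    have h4 : ((w l).den : ℚ) * w l = (w l).num := Rat.den_mul_eq_num _
    have h5 : (((w l).num.toNat : ℕ) : ℚ) = ((w l).num : ℚ) := by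
      have h6 : (((w l).num.toNat : ℕ) : ℤ) = (w l).num :=
        Int.toNat_of_nonneg (Rat.num_nonneg.2 (hw l))
      exact_mod_cast h6
    rw [h5, mul_comm ((w l).den : ℚ), mul_assoc, h4]
  choose! w' hw' using h
  exact ⟨w', hw'⟩

/-- The linear form given by an integral vector. -/
def lf {ι : Type*} [Fintype ι] (χ : ι → ℤ) : (ι → ℚ) →ₗ[ℚ] ℚ where
  toFun := fun x => ∑ i, (χ i : ℚ) * x i
  map_add' := fun x y => by
    rw [← Finset.sum_add_distrib]
    exact Finset.sum_congr rfl fun i _ => by rw [Pi.add_apply, mul_add]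
  map_smul' := fun c x => by
    rw [RingHom.id_apply, smul_eq_mul, Finset.mul_sum]
    exact Finset.sum_congr rfl fun i _ => by rw [Pi.smul_apply, smul_eq_mul]; ring

lemma lf_apply {ι : Type*} [Fintype ι] (χ : ι → ℤ) (x : ι → ℚ) :
    lf χ x = ∑ i, (χ i : ℚ) * x i := rfl

/-- One strict inequality. -/
theorem motzkin_one {ι : Type*} [Fintype ι] {Pos NN : (ι → ℤ) → Prop}
    (hadd : ∀ x y, NN x → NN y → NN (x + y)) (hadd' : ∀ x y, Pos x → NN y → Pos (x + y))
    (hPN : ∀ x, Pos x → NN x) (hN0 : NN 0) (h0 : ¬ Pos 0) {χ₀ : ι → ℤ} (hχ₀ : Pos χ₀)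
    (Q : Finset (ι → ℤ)) (hQ : ∀ χ ∈ Q, NN χ) :
    ∃ w : ι → ℚ, 0 < lf χ₀ w ∧ ∀ χ ∈ Q, 0 ≤ lf χ w := by
  classical
  by_contra hcon
  push Not at hcon
  obtain ⟨c, hc, hcb⟩ := farkas Q (fun χ => -lf χ) (lf χ₀) (by
    intro x hx
    by_contra h1
    push Not at h1
    obtain ⟨χ, hχ, h2⟩ := hcon x h1
    have h3 := hx χ hχ
    rw [LinearMap.neg_apply] at h3
    linarith)
  obtain ⟨M, hM, c', hc'⟩ := exists_den Q c hc
  apply h0
  have hNNn : ∀ (n : ℕ) (x : ι → ℤ), NN x → NN (n • x) := by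
    intro n x hx
    induction n with
    | zero => rw [zero_smul]; exact hN0
    | succ n ih => rw [succ_nsmul]; exact hadd _ _ ih hx
  have hNNs : ∀ T : Finset (ι → ℤ), T ⊆ Q → NN (∑ χ ∈ T, c' χ • χ) := by
    intro T
    induction T using Finset.induction_on with
    | empty => intro _; rw [Finset.sum_empty]; exact hN0
    | insert a T ha ih =>
      intro hT
      rw [Finset.sum_insert ha]
      exact hadd _ _ (hNNn _ _ (hQ _ (hT (Finset.mem_insert_self _ _))))
        (ih (fun x hx => hT (Finset.mem_insert_of_mem hx)))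
  have hPosn : ∀ n : ℕ, Pos ((n + 1) • χ₀) := by
    intro n
    induction n with
    | zero => rw [zero_add, one_smul]; exact hχ₀
    | succ n ih => rw [succ_nsmul]; exact hadd' _ _ ih (hPN _ hχ₀)
  have hkey : M • χ₀ + ∑ χ ∈ Q, c' χ • χ = 0 := by
    funext i
    have h1 := congrArg (fun F => F (Pi.single i 1)) hcb
    have hs : ∀ χ : ι → ℤ, lf χ (Pi.single i 1) = χ i := by
      intro χ
      rw [lf_apply, Finset.sum_eq_single i]
      · rw [Pi.single_eq_same, mul_one]
      · intro j _ hj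
        rw [Pi.single_eq_of_ne hj, mul_zero]
      · intro h
        exact absurd (Finset.mem_univ _) h
    beta_reduce at h1
    rw [LinearMap.sum_apply] at h1
    simp only [LinearMap.smul_apply, LinearMap.neg_apply, hs, smul_eq_mul] at h1
    have h2 : ((M • χ₀ + ∑ χ ∈ Q, c' χ • χ) i : ℤ) = M * χ₀ i + ∑ χ ∈ Q, c' χ * χ i := by
      rw [Pi.add_apply, Pi.smul_apply, Finset.sum_apply]
      simp only [Pi.smul_apply, nsmul_eq_mul]
    rw [h2, Pi.zero_apply]
    have h3 : ((M * χ₀ i + ∑ χ ∈ Q, c' χ * χ i : ℤ) : ℚ) = 0 := by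
      push_cast
      rw [h1, Finset.mul_sum, ← Finset.sum_add_distrib]
      apply Finset.sum_eq_zero
      intro χ hχ
      rw [hc' χ hχ]
      ring
    exact_mod_cast h3
  obtain ⟨M', rfl⟩ : ∃ M', M = M' + 1 := ⟨M - 1, by omega⟩
  rw [← hkey]
  exact hadd' _ _ (hPosn M') (hNNs Q subset_rfl)

/-- **A theorem of the alternative with strict and weak inequalities.** -/
theorem motzkin {ι : Type*} [Fintype ι] {Pos NN : (ι → ℤ) → Prop}
    (hadd : ∀ x y, NN x → NN y → NN (x + y)) (hadd' : ∀ x y, Pos x → NN y → Pos (x + y))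
    (hPN : ∀ x, Pos x → NN x) (hN0 : NN 0) (h0 : ¬ Pos 0) {P Q : Set (ι → ℤ)}
    (hPfin : P.Finite) (hQfin : Q.Finite) (hP : ∀ χ ∈ P, Pos χ) (hQ : ∀ χ ∈ Q, NN χ) :
    ∃ w : ι → ℝ, (∀ χ ∈ P, 0 < ∑ i, (χ i : ℝ) * w i) ∧ ∀ χ ∈ Q, 0 ≤ ∑ i, (χ i : ℝ) * w i := by
  classical
  have h1 : ∀ χ₀, χ₀ ∈ P → ∃ w : ι → ℚ, 0 < lf χ₀ w ∧ ∀ χ ∈ hPfin.toFinset ∪ hQfin.toFinset,
      0 ≤ lf χ w := by
    intro χ₀ hχ₀
    refine motzkin_one hadd hadd' hPN hN0 h0 (hP χ₀ hχ₀) _ ?_
    intro χ hχ
    rcases Finset.mem_union.1 hχ with h | h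
    · exact hPN _ (hP _ (hPfin.mem_toFinset.1 h))
    · exact hQ _ (hQfin.mem_toFinset.1 h)
  choose! w hw1 hw2 using h1
  set v : ι → ℚ := ∑ χ ∈ hPfin.toFinset, w χ with hv
  have h3 : ∀ χ : ι → ℤ, (∑ i, (χ i : ℝ) * ((v i : ℚ) : ℝ)) = ((lf χ v : ℚ) : ℝ) := by
    intro χ
    rw [lf_apply]
    push_cast
    rfl
  refine ⟨fun i => ((v i : ℚ) : ℝ), fun χ hχ => ?_, fun χ hχ => ?_⟩
  · rw [h3]
    have h4 : 0 < lf χ v := by
      rw [hv, map_sum]
      refine Finset.sum_pos' (fun ψ hψ => ?_) ⟨χ, hPfin.mem_toFinset.2 hχ, hw1 χ hχ⟩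
      exact hw2 ψ (hPfin.mem_toFinset.1 hψ) χ
        (Finset.mem_union_left _ (hPfin.mem_toFinset.2 hχ))
    exact_mod_cast h4
  · rw [h3]
    have h4 : 0 ≤ lf χ v := by
      rw [hv, map_sum]
      refine Finset.sum_nonneg (fun ψ hψ => ?_)
      exact hw2 ψ (hPfin.mem_toFinset.1 hψ) χ
        (Finset.mem_union_right _ (hQfin.mem_toFinset.2 hχ))
    exact_mod_cast h4

end Pool.Agent.N180.Cf
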