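import Pool.Agent.R908.KpA
import Pool.Agent.N180.CfA

/-!
# The theorem of Hilbert and Mumford for a tensor ideal in an algebra of tensors
-/

namespace Pool.Agent.N180.Cf

open Finset Function Pool.Agent.R908.Km

/-- A tensor ideal in an algebra of tensors. -/
structure TPair (K : Type*) [Field K] (ι : Type*) [Fintype ι] [DecidableEq ι] extends
    TIdeal K ι where
  /-- the algebra -/
  A : ∀ a : ℕ, Submodule K ((Fin a ⊕ Fin a → ι) → K)
  insA : ∀ {a : ℕ} {z : (Fin a ⊕ Fin a → ι) → K}, z ∈ A a → ins z ∈ A (a + 1)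
  mulA : ∀ {a b : ℕ} {z : (Fin a ⊕ Fin a → ι) → K} {w : (Fin b ⊕ Fin b → ι) → K}, z ∈ A a →
    w ∈ A b → tmul z w ∈ A (a + b)
  mulN : ∀ {a b : ℕ} {z : (Fin a ⊕ Fin a → ι) → K} {w : (Fin b ⊕ Fin b → ι) → K}, z ∈ N a →
    w ∈ A b → tmul z w ∈ N (a + b)

section Span

variable {K : Type*} [Field K] {ι : Type*} [Fintype ι] [DecidableEq ι]

/-- The span of the entries of the generic transforms. -/
noncomputable def MM (B : ∀ a : ℕ, Submodule K ((Fin a ⊕ Fin a → ι) → K)) (a : ℕ) :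
    Submodule K (Kap K ι) :=
  ⨆ I : Fin a ⊕ Fin a → ι, (B a).map (ftL I)

variable {B C D : ∀ a : ℕ, Submodule K ((Fin a ⊕ Fin a → ι) → K)}

lemma ft_mem {a : ℕ} {z : (Fin a ⊕ Fin a → ι) → K} (hz : z ∈ B a) (I : Fin a ⊕ Fin a → ι) :
    ft I z ∈ MM B a :=
  Submodule.mem_iSup_of_mem I ⟨z, hz, rfl⟩

lemma MM_le [Nonempty ι] (hB : ∀ (a : ℕ) (z : (Fin a ⊕ Fin a → ι) → K), z ∈ B a →
    ins z ∈ B (a + 1)) (a : ℕ) : MM B a ≤ MM B (a + 1) := by
  rw [MM, iSup_le_iff]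
  rintro I _ ⟨z, hz, rfl⟩
  obtain ⟨i⟩ := ‹Nonempty ι›
  have h1 : ftL I z = ft (ext i i I) (ins z) := (ft_ins i I z).symm
  rw [h1]
  exact ft_mem (hB a z hz) _

/-- The union of the spans. -/
noncomputable def MMi (B : ∀ a : ℕ, Submodule K ((Fin a ⊕ Fin a → ι) → K)) :
    Submodule K (Kap K ι) := ⨆ a, MM B a

lemma mem_MMi [Nonempty ι] (hB : ∀ (a : ℕ) (z : (Fin a ⊕ Fin a → ι) → K), z ∈ B a →
    ins z ∈ B (a + 1)) {x : Kap K ι} : x ∈ MMi B ↔ ∃ a, x ∈ MM B a := by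
  rw [MMi, Submodule.mem_iSup_of_directed _ (monotone_nat_of_le_succ (MM_le hB)).directed_le]

lemma mul_mem_MMi [Nonempty ι] (hB : ∀ (a : ℕ) (z : (Fin a ⊕ Fin a → ι) → K), z ∈ B a →
    ins z ∈ B (a + 1)) (hC : ∀ (a : ℕ) (z : (Fin a ⊕ Fin a → ι) → K), z ∈ C a →
    ins z ∈ C (a + 1)) (hD : ∀ (a : ℕ) (z : (Fin a ⊕ Fin a → ι) → K), z ∈ D a →
    ins z ∈ D (a + 1))
    (hm : ∀ (a b : ℕ) (z : (Fin a ⊕ Fin a → ι) → K) (w : (Fin b ⊕ Fin b → ι) → K), z ∈ B a →
      w ∈ C b → tmul z w ∈ D (a + b)) {x y : Kap K ι} (hx : x ∈ MMi B) (hy : y ∈ MMi C) :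
    x * y ∈ MMi D := by
  obtain ⟨a, hx⟩ := (mem_MMi hB).1 hx
  obtain ⟨b, hy⟩ := (mem_MMi hC).1 hy
  rw [mem_MMi hD]
  refine ⟨a + b, ?_⟩
  refine Submodule.iSup_induction (p := fun I => (B a).map (ftL I))
    (motive := fun x => x * y ∈ MM D (a + b)) hx ?_ ?_ ?_
  · rintro I _ ⟨z, hz, rfl⟩
    refine Submodule.iSup_induction (p := fun I => (C b).map (ftL I))
      (motive := fun y => ftL I z * y ∈ MM D (a + b)) hy ?_ ?_ ?_
    · rintro J _ ⟨w, hw, rfl⟩
      have h1 : ftL I z * ftL J w = ft (app I J) (tmul z w) := ft_mul I J z w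
      rw [h1]
      exact ft_mem (hm _ _ _ _ hz hw) _
    · rw [mul_zero]
      exact Submodule.zero_mem _
    · intro x y hx hy
      rw [mul_add]
      exact Submodule.add_mem _ hx hy
  · rw [zero_mul]
    exact Submodule.zero_mem _
  · intro x y hx hy
    rw [add_mul]
    exact Submodule.add_mem _ hx hy

end Span

namespace TPair

variable {K : Type*} [Field K] {ι : Type*} [Fintype ι] [DecidableEq ι] (T : TPair K ι)

lemma hN (a : ℕ) (z : (Fin a ⊕ Fin a → ι) → K) (hz : z ∈ T.N a) : ins z ∈ T.N (a + 1) :=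
  T.ins_mem hz

lemma hA (a : ℕ) (z : (Fin a ⊕ Fin a → ι) → K) (hz : z ∈ T.A a) : ins z ∈ T.A (a + 1) :=
  T.insA hz

lemma Mi_eq : T.toTIdeal.Mi = MMi T.N := rfl

/-- The subring of the scalars plus the span. -/
noncomputable def A0 [Nonempty ι] : Subring (Kap K ι) where
  carrier := {x | ∃ (c : K) (m : Kap K ι), m ∈ MMi T.A ∧ x = algebraMap K (Kap K ι) c + m}
  mul_mem' := by
    rintro _ _ ⟨c, m, hm, rfl⟩ ⟨d, n, hn, rfl⟩
    refine ⟨c * d, c • n + d • m + m * n, Submodule.add_mem _ (Submodule.add_mem _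
      (Submodule.smul_mem _ _ hn) (Submodule.smul_mem _ _ hm))
      (mul_mem_MMi T.hA T.hA T.hA (fun _ _ _ _ hz hw => T.mulA hz hw) hm hn), ?_⟩
    rw [Algebra.smul_def, Algebra.smul_def, map_mul]
    ring
  one_mem' := ⟨1, 0, Submodule.zero_mem _, by rw [map_one, add_zero]⟩
  add_mem' := by
    rintro _ _ ⟨c, m, hm, rfl⟩ ⟨d, n, hn, rfl⟩
    refine ⟨c + d, m + n, Submodule.add_mem _ hm hn, ?_⟩
    rw [map_add]
    ring
  zero_mem' := ⟨0, 0, Submodule.zero_mem _, by rw [map_zero, add_zero]⟩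
  neg_mem' := by
    rintro _ ⟨c, m, hm, rfl⟩
    refine ⟨-c, -m, Submodule.neg_mem _ hm, ?_⟩
    rw [map_neg]
    ring

/-- The ideal of the subring. -/
noncomputable def I0 [Nonempty ι] : Ideal T.A0 where
  carrier := {x | (x : Kap K ι) ∈ MMi T.N}
  add_mem' := by
    intro x y hx hy
    change (x : Kap K ι) + (y : Kap K ι) ∈ MMi T.N
    exact Submodule.add_mem _ hx hy
  zero_mem' := by
    change ((0 : T.A0) : Kap K ι) ∈ MMi T.N
    exact Submodule.zero_mem _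
  smul_mem' := by
    rintro ⟨_, c, m, hm, rfl⟩ y hy
    change (algebraMap K (Kap K ι) c + m) * (y : Kap K ι) ∈ MMi T.N
    rw [add_mul, ← Algebra.smul_def, mul_comm m]
    exact Submodule.add_mem _ (Submodule.smul_mem _ _ hy)
      (mul_mem_MMi T.hN T.hA T.hN (fun _ _ _ _ hz hw => T.mulN hz hw) hy hm)

theorem exists_valuation [CharZero K] [Nonempty ι] (hle : ∀ a, T.N a ≤ T.A a) :
    ∃ O : ValuationSubring (Kap K ι),
    (∀ c : K, algebraMap K (Kap K ι) c ∈ O) ∧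
    (∀ (a : ℕ), ∀ z ∈ T.A a, ∀ I, ft I z ∈ O) ∧
    ∀ (a : ℕ), ∀ z ∈ T.N a, ∀ I, ft I z ∈ O.nonunits := by
  have hI : T.I0 ≠ ⊤ := by
    intro h
    rw [Ideal.eq_top_iff_one] at h
    have h2 : ((1 : T.A0) : Kap K ι) ∈ T.toTIdeal.Mi := h
    exact T.toTIdeal.one_notMem_Mi h2
  obtain ⟨O, hO, hO'⟩ := Ideal.image_subset_nonunits_valuationSubring T.I0 hI
  have hA : ∀ (a : ℕ), ∀ z ∈ T.A a, ∀ I, ft I z ∈ T.A0 := by
    intro a z hz I
    exact ⟨0, ft I z, (mem_MMi T.hA).2 ⟨a, ft_mem hz I⟩, by rw [map_zero, zero_add]⟩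
  refine ⟨O, fun c => hO ⟨c, 0, Submodule.zero_mem _, by rw [add_zero]⟩,
    fun a z hz I => hO (hA a z hz I), ?_⟩
  intro a z hz I
  have h1 : ft I z ∈ MMi T.N := (mem_MMi T.hN).2 ⟨a, ft_mem hz I⟩
  have h2 : (⟨ft I z, hA a z (hle a hz) I⟩ : T.A0) ∈ T.I0 := by
    change ft I z ∈ MMi T.N
    exact h1
  exact hO' ⟨_, h2, rfl⟩

/-- **The theorem of Hilbert and Mumford for a tensor ideal in an algebra of tensors.** -/
theorem hilbert_mumford [CharZero K] [Nonempty ι] (hle : ∀ a, T.N a ≤ T.A a) (a : ℕ) :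
    ∃ (k k' : Matrix ι ι (AlgebraicClosure K)) (w : ι → ℝ), k * k' = 1 ∧
      (∀ z ∈ T.N a, ∀ I, act (mm k k') (fun J => algebraMap K (AlgebraicClosure K) (z J)) I ≠ 0 →
        0 < wt w I) ∧
      ∀ z ∈ T.A a, ∀ I, act (mm k k') (fun J => algebraMap K (AlgebraicClosure K) (z J)) I ≠ 0 →
        0 ≤ wt w I := by
  obtain ⟨O, hK, hOA, hO⟩ := T.exists_valuation hle
  obtain ⟨k₁, k₁', k₂, k₂', d, h1, h1', h2, h2', e1, e2, hd, hg⟩ :=
    smith O (gx K ι) det_gx
  have e1' : k₁' * k₁ = 1 := mul_eq_one_comm.1 e1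
  have e2' : k₂' * k₂ = 1 := mul_eq_one_comm.1 e2
  set D := Matrix.diagonal d with hD
  set D' := Matrix.diagonal (fun i => (d i)⁻¹) with hD'
  have hDD : D * D' = 1 := by
    rw [hD, hD', Matrix.diagonal_mul_diagonal, ← Matrix.diagonal_one]
    congr 1
    funext i
    exact mul_inv_cancel₀ (hd i)
  have hinv : (gx K ι)⁻¹ = k₂' * D' * k₁' := by
    apply Matrix.inv_eq_right_inv
    calc gx K ι * (k₂' * D' * k₁') = k₁ * (D * (k₂ * k₂') * D') * k₁' := by
          rw [hg]; simp only [Matrix.mul_assoc]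
      _ = 1 := by rw [e2, Matrix.mul_one, hDD, Matrix.mul_one, e1]
  have hrew : ∀ (z : (Fin a ⊕ Fin a → ι) → K) (I : Fin a ⊕ Fin a → ι),
      (∏ s, d (I (Sum.inl s))) * (∏ s, (d (I (Sum.inr s)))⁻¹) *
        act (mm k₂ k₂') (fun J => algebraMap K (Kap K ι) (z J)) I =
      ∑ J, (∏ s, mm k₁' k₁ s (I s) (J s)) * ft J z := by
    intro z I
    rw [← act_diag d (fun i => (d i)⁻¹)]
    have h3 : act (mm D D') (act (mm k₂ k₂') (fun J => algebraMap K (Kap K ι) (z J))) =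
        act (mm k₁' k₁) (fun I => ft I z) := by
      have h4 : (fun I => ft I z) = act (mm k₁ k₁') (act (mm D D') (act (mm k₂ k₂')
          (fun J => algebraMap K (Kap K ι) (z J)))) := by
        rw [act_mm, act_mm]
        funext I
        rw [ft]
        congr 1
        funext s
        have h5 : gm K ι a s = mm (gx K ι) (gx K ι)⁻¹ s := rfl
        rw [h5, hinv]
        rw [hg, Matrix.mul_assoc, Matrix.mul_assoc]
      rw [h4, act_mm k₁' k₁ k₁ k₁', e1', act_mm_one]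
    rw [h3, act]
  have hcoef : ∀ (I J : Fin a ⊕ Fin a → ι), ∏ s, mm k₁' k₁ s (I s) (J s) ∈ O := by
    intro I J
    refine prod_mem fun s _ => ?_
    rcases s with s | s
    · exact h1' _ _
    · exact h1 _ _
  have hsmall : ∀ z ∈ T.N a, ∀ I : Fin a ⊕ Fin a → ι,
      (∏ s, d (I (Sum.inl s))) * (∏ s, (d (I (Sum.inr s)))⁻¹) *
        act (mm k₂ k₂') (fun J => algebraMap K (Kap K ι) (z J)) I ∈ O.nonunits := by
    intro z hz I
    rw [hrew]
    exact sum_mem fun J _ => mul_nonunits (hcoef I J) (hO a z hz J)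
  have hint : ∀ z ∈ T.A a, ∀ I : Fin a ⊕ Fin a → ι,
      (∏ s, d (I (Sum.inl s))) * (∏ s, (d (I (Sum.inr s)))⁻¹) *
        act (mm k₂ k₂') (fun J => algebraMap K (Kap K ι) (z J)) I ∈ O := by
    intro z hz I
    rw [hrew]
    exact sum_mem fun J _ => mul_mem (hcoef I J) (hOA a z hz J)
  set du : ι → (Kap K ι)ˣ := fun i => Units.mk0 (d i) (hd i) with hdu
  have hprodadd : ∀ x y : ι → ℤ, ((∏ i, du i ^ (x + y) i : (Kap K ι)ˣ) : Kap K ι) =
      ((∏ i, du i ^ x i : (Kap K ι)ˣ) : Kap K ι) * ((∏ i, du i ^ y i : (Kap K ι)ˣ) : Kap K ι) := by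
    intro x y
    have h3 : ∏ i, du i ^ (x + y) i = (∏ i, du i ^ x i) * ∏ i, du i ^ y i := by
      rw [← Finset.prod_mul_distrib]
      refine Finset.prod_congr rfl fun i _ => ?_
      rw [Pi.add_apply, zpow_add]
    rw [h3, Units.val_mul]
  have hprod0 : ((∏ i, du i ^ (0 : ι → ℤ) i : (Kap K ι)ˣ) : Kap K ι) = 1 := by
    have h3 : ∏ i, du i ^ (0 : ι → ℤ) i = 1 := by simp
    rw [h3, Units.val_one]
  obtain ⟨w, hw, hw'⟩ := motzkin
    (Pos := fun χ : ι → ℤ => ((∏ i, du i ^ χ i : (Kap K ι)ˣ) : Kap K ι) ∈ O.nonunits)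
    (NN := fun χ : ι → ℤ => ((∏ i, du i ^ χ i : (Kap K ι)ˣ) : Kap K ι) ∈ O)
    (P := {χ | (∃ I : Fin a ⊕ Fin a → ι, ct I = χ) ∧
      ((∏ i, du i ^ χ i : (Kap K ι)ˣ) : Kap K ι) ∈ O.nonunits})
    (Q := {χ | (∃ I : Fin a ⊕ Fin a → ι, ct I = χ) ∧
      ((∏ i, du i ^ χ i : (Kap K ι)ˣ) : Kap K ι) ∈ O})
    (by
      intro x y hx hy
      rw [hprodadd]
      exact mul_mem hx hy)
    (by
      intro x y hx hy
      rw [hprodadd, mul_comm]
      exact mul_nonunits hy hx)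
    (by
      intro x hx
      rw [ValuationSubring.mem_nonunits_iff] at hx
      exact (O.valuation_le_one_iff _).1 hx.le)
    (by
      rw [hprod0]
      exact one_mem O)
    (by
      rw [hprod0, ValuationSubring.mem_nonunits_iff, map_one]
      exact lt_irrefl _)
    ((Set.finite_range (fun I : Fin a ⊕ Fin a → ι => ct I)).subset (fun χ hχ => hχ.1))
    ((Set.finite_range (fun I : Fin a ⊕ Fin a → ι => ct I)).subset (fun χ hχ => hχ.1))
    (fun χ hχ => hχ.2) (fun χ hχ => hχ.2)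
  have hdprod : ∀ I : Fin a ⊕ Fin a → ι, ((∏ i, du i ^ ct I i : (Kap K ι)ˣ) : Kap K ι) =
      (∏ s, d (I (Sum.inl s))) * ∏ s, (d (I (Sum.inr s)))⁻¹ := by
    intro I
    rw [prod_ct, Units.val_mul, Units.val_inv_eq_inv_val, Units.coe_prod, Units.coe_prod,
      Finset.prod_inv_distrib]
    rfl
  have hzero : ∀ z ∈ T.N a, ∀ I : Fin a ⊕ Fin a → ι, ¬ 0 < wt w I →
      act (mm k₂ k₂') (fun J => algebraMap K (Kap K ι) (z J)) I ∈ O.nonunits := by
    intro z hz I hI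
    refine nonunits_of_mul ?_ (hsmall z hz I)
    intro h3
    apply hI
    rw [← wt_eq]
    apply hw (ct I)
    refine ⟨⟨I, rfl⟩, ?_⟩
    rw [hdprod]
    exact h3
  have hzero' : ∀ z ∈ T.A a, ∀ I : Fin a ⊕ Fin a → ι, ¬ 0 ≤ wt w I →
      act (mm k₂ k₂') (fun J => algebraMap K (Kap K ι) (z J)) I ∈ O.nonunits := by
    intro z hz I hI
    have h3 : (∏ s, d (I (Sum.inl s))) * (∏ s, (d (I (Sum.inr s)))⁻¹) ∉ O := by
      intro h3
      apply hI
      rw [← wt_eq]
      apply hw' (ct I)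
      refine ⟨⟨I, rfl⟩, ?_⟩
      rw [hdprod]
      exact h3
    have h4 := hint z hz I
    rw [ValuationSubring.mem_nonunits_iff]
    rw [← O.valuation_le_one_iff, not_le] at h3
    rw [← O.valuation_le_one_iff, map_mul] at h4
    by_contra h5
    rw [not_lt] at h5
    have h6 : O.valuation ((∏ s, d (I (Sum.inl s))) * (∏ s, (d (I (Sum.inr s)))⁻¹)) ≤
        O.valuation ((∏ s, d (I (Sum.inl s))) * (∏ s, (d (I (Sum.inr s)))⁻¹)) *
          O.valuation (act (mm k₂ k₂') (fun J => algebraMap K (Kap K ι) (z J)) I) :=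
      le_mul_of_one_le_right' h5
    exact absurd (h6.trans h4) (not_le.2 h3)
  -- the residue field
  let κK : K →+* O :=
    { toFun := fun c => ⟨algebraMap K (Kap K ι) c, hK c⟩
      map_one' := Subtype.ext (map_one _)
      map_mul' := fun x y => Subtype.ext (map_mul _ x y)
      map_zero' := Subtype.ext (map_zero _)
      map_add' := fun x y => Subtype.ext (map_add _ x y) }
  let F := IsLocalRing.ResidueField O
  let ρ : O →+* F := IsLocalRing.residue O
  let _ : Algebra K F := (ρ.comp κK).toAlgebra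
  let m₂ : Matrix ι ι O := Matrix.of fun i j => ⟨k₂ i j, h2 i j⟩
  let m₂' : Matrix ι ι O := Matrix.of fun i j => ⟨k₂' i j, h2' i j⟩
  have hm : m₂ * m₂' = 1 := by
    ext i j
    have h3 := congrFun (congrFun e2 i) j
    have h4 : ((m₂ * m₂') i j : Kap K ι) = (k₂ * k₂') i j := by
      rw [Matrix.mul_apply, Matrix.mul_apply]
      push_cast
      rfl
    rw [h4, h3]
    by_cases hij : i = j
    · subst hij
      rw [Matrix.one_apply_eq, Matrix.one_apply_eq]
      rfl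
    · rw [Matrix.one_apply_ne hij, Matrix.one_apply_ne hij]
      rfl
  have hres : ∀ (z : (Fin a ⊕ Fin a → ι) → K) (I : Fin a ⊕ Fin a → ι),
      act (mm k₂ k₂') (fun J => algebraMap K (Kap K ι) (z J)) I ∈ O.nonunits →
      act (mm (m₂.map ρ) (m₂'.map ρ)) (fun J => algebraMap K F (z J)) I = 0 := by
    intro z I h3
    have h4 : ((act (mm m₂ m₂') (fun J => κK (z J)) I : O) : Kap K ι) =
        act (mm k₂ k₂') (fun J => algebraMap K (Kap K ι) (z J)) I :=
      act_mm_map (O.subtype) m₂ m₂' (fun J => κK (z J)) I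
    rw [← h4, ValuationSubring.coe_mem_nonunits_iff] at h3
    have h5 : ρ (act (mm m₂ m₂') (fun J => κK (z J)) I) = 0 := by
      rw [IsLocalRing.residue_eq_zero_iff]
      exact h3
    rw [act_mm_map] at h5
    exact h5
  have hmρ : m₂.map ρ * m₂'.map ρ = 1 := by
    rw [← Matrix.map_mul, hm, Matrix.map_one _ (map_zero ρ) (map_one ρ)]
  obtain ⟨B, hB, ⟨f⟩⟩ := exists_specialization (K := K) (F := F)
    (fun x : (ι × ι) ⊕ (ι × ι) => Sum.elim (fun x => (m₂.map ρ) x.1 x.2)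
      (fun x => (m₂'.map ρ) x.1 x.2) x)
  let b : Matrix ι ι B := Matrix.of fun i j => ⟨(m₂.map ρ) i j, hB (Sum.inl (i, j))⟩
  let b' : Matrix ι ι B := Matrix.of fun i j => ⟨(m₂'.map ρ) i j, hB (Sum.inr (i, j))⟩
  have hb : b * b' = 1 := by
    ext i j
    have h3 := congrFun (congrFun hmρ i) j
    have h4 : ((b * b') i j : F) = (m₂.map ρ * m₂'.map ρ) i j := by
      rw [Matrix.mul_apply, Matrix.mul_apply]
      push_cast
      rfl
    rw [h4, h3]
    by_cases hij : i = j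
    · subst hij
      rw [Matrix.one_apply_eq, Matrix.one_apply_eq]
      rfl
    · rw [Matrix.one_apply_ne hij, Matrix.one_apply_ne hij]
      rfl
  have hfin : ∀ (z : (Fin a ⊕ Fin a → ι) → K) (I : Fin a ⊕ Fin a → ι),
      act (mm k₂ k₂') (fun J => algebraMap K (Kap K ι) (z J)) I ∈ O.nonunits →
      act (mm (b.map f) (b'.map f)) (fun J => algebraMap K (AlgebraicClosure K) (z J)) I = 0 := by
    intro z I hI
    have h3 := hres z I hI
    have h4 : ((act (mm b b') (fun J => algebraMap K B (z J)) I : B) : F) =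
        act (mm (m₂.map ρ) (m₂'.map ρ)) (fun J => algebraMap K F (z J)) I :=
      act_mm_map (B.val.toRingHom) b b' (fun J => algebraMap K B (z J)) I
    have h5 : act (mm b b') (fun J => algebraMap K B (z J)) I = 0 := by
      apply Subtype.ext
      rw [h4, h3]
      rfl
    have h6 := act_mm_map (f.toRingHom) b b' (fun J => algebraMap K B (z J)) I
    rw [h5, map_zero] at h6
    have h7 : (fun J => f.toRingHom (algebraMap K B (z J))) =
        fun J => algebraMap K (AlgebraicClosure K) (z J) := by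
      funext J
      exact f.commutes (z J)
    rw [h7] at h6
    exact h6.symm
  refine ⟨b.map f, b'.map f, w, ?_, ?_, ?_⟩
  · have h3 : b.map f * b'.map f = (b * b').map f := (Matrix.map_mul (f := f.toRingHom)).symm
    rw [h3, hb]
    exact Matrix.map_one _ (map_zero f) (map_one f)
  · intro z hz I hI
    by_contra hcon
    exact hI (hfin z I (hzero z hz I hcon))
  · intro z hz I hI
    by_contra hcon
    exact hI (hfin z I (hzero' z hz I hcon))

end TPair

end Pool.Agent.N180.Cf
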