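import Pool.Agent.N180.CfB

/-!
# The optimal filtration with a constraint (Kempf)
-/

namespace Pool.Agent.N180.Cf

open Finset Function Pool.Agent.R908.Km

section Opt

variable {Ω : Type*} [Field Ω] {ι : Type*} [Fintype ι] [DecidableEq ι] {a : ℕ}

/-- The optimal filtrations for `Z` among those for which `Z'` has non-negative weights. -/
def Opt2 (Z Z' : Set ((Fin a ⊕ Fin a → ι) → Ω)) (k k' : Matrix ι ι Ω) (w : ι → ℝ) (γ : ℝ) :
    Prop :=
  k * k' = 1 ∧ nrm w ≤ 1 ∧ good Z k k' w γ ∧ good Z' k k' w 0 ∧ 0 < γ ∧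
    ∀ (l l' : Matrix ι ι Ω) (v : ι → ℝ) (δ : ℝ), l * l' = 1 → nrm v ≤ 1 → good Z l l' v δ →
      good Z' l l' v 0 → δ ≤ γ

lemma exists_best2 (S S' : Finset (Fin a ⊕ Fin a → ι)) (hS : S.Nonempty) :
    ∃ w : ι → ℝ, nrm w ≤ 1 ∧ (∀ I ∈ S', 0 ≤ wt w I) ∧ ∀ v : ι → ℝ, nrm v ≤ 1 →
      (∀ I ∈ S', 0 ≤ wt v I) →
      S.inf' hS (fun I => wt v I) ≤ S.inf' hS (fun I => wt w I) := by
  have h1 : Continuous fun w : ι → ℝ => S.inf' hS (fun I => wt w I) := by
    apply Continuous.finset_inf'_apply hS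
    intro I _
    unfold wt
    fun_prop
  have h2 : IsClosed {w : ι → ℝ | ∀ I ∈ S', 0 ≤ wt w I} := by
    have h3 : {w : ι → ℝ | ∀ I ∈ S', 0 ≤ wt w I} = ⋂ I ∈ S', {w : ι → ℝ | 0 ≤ wt w I} := by
      ext w
      simp
    rw [h3]
    refine isClosed_biInter fun I _ => isClosed_le continuous_const ?_
    unfold wt
    fun_prop
  have h3 : IsCompact ({w : ι → ℝ | nrm w ≤ 1} ∩ {w : ι → ℝ | ∀ I ∈ S', 0 ≤ wt w I}) :=
    isCompact_ball.inter_right h2
  obtain ⟨w, hw, hmax⟩ := h3.exists_isMaxOn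
    ⟨0, by simp [nrm], fun I _ => by simp [wt]⟩ h1.continuousOn
  exact ⟨w, hw.1, hw.2, fun v hv hv' => hmax ⟨hv, hv'⟩⟩

theorem exists_opt2 {Z Z' : Set ((Fin a ⊕ Fin a → ι) → Ω)} (hZ : ∃ z ∈ Z, z ≠ 0)
    (h : ∃ (k k' : Matrix ι ι Ω) (w : ι → ℝ), k * k' = 1 ∧
      (∀ z ∈ Z, ∀ I, act (mm k k') z I ≠ 0 → 0 < wt w I) ∧
      ∀ z ∈ Z', ∀ I, act (mm k k') z I ≠ 0 → 0 ≤ wt w I) :
    ∃ (k k' : Matrix ι ι Ω) (w : ι → ℝ) (γ : ℝ), Opt2 Z Z' k k' w γ := by
  classical
  set st : Matrix ι ι Ω → Matrix ι ι Ω → Finset (Fin a ⊕ Fin a → ι) := fun k k' =>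
    Finset.univ.filter fun I => ∃ z ∈ Z, act (mm k k') z I ≠ 0 with hst
  set st' : Matrix ι ι Ω → Matrix ι ι Ω → Finset (Fin a ⊕ Fin a → ι) := fun k k' =>
    Finset.univ.filter fun I => ∃ z ∈ Z', act (mm k k') z I ≠ 0 with hst'
  have hne : ∀ k k', k * k' = 1 → (st k k').Nonempty := by
    intro k k' hk
    obtain ⟨z, hz, hz0⟩ := hZ
    obtain ⟨I, hI⟩ := act_ne_zero hk hz0
    exact ⟨I, Finset.mem_filter.2 ⟨Finset.mem_univ _, z, hz, hI⟩⟩
  have hgood : ∀ k k' (hk : k * k' = 1) (w : ι → ℝ) (γ : ℝ), good Z k k' w γ ↔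
      γ ≤ (st k k').inf' (hne k k' hk) (fun I => wt w I) := by
    intro k k' hk w γ
    rw [Finset.le_inf'_iff]
    constructor
    · intro h I hI
      obtain ⟨-, z, hz, hI⟩ := Finset.mem_filter.1 hI
      exact h z hz I hI
    · intro h z hz I hI
      exact h I (Finset.mem_filter.2 ⟨Finset.mem_univ _, z, hz, hI⟩)
  have hgood' : ∀ k k' (w : ι → ℝ), good Z' k k' w 0 ↔ ∀ I ∈ st' k k', 0 ≤ wt w I := by
    intro k k' w
    constructor
    · intro h I hI
      obtain ⟨-, z, hz, hI⟩ := Finset.mem_filter.1 hI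
      exact h z hz I hI
    · intro h z hz I hI
      exact h I (Finset.mem_filter.2 ⟨Finset.mem_univ _, z, hz, hI⟩)
  choose! bst hb1 hb1' hb2 using fun (S : Finset (Fin a ⊕ Fin a → ι) × Finset (Fin a ⊕ Fin a → ι))
    (hS : S.1.Nonempty) => exists_best2 S.1 S.2 hS
  set val : Finset (Fin a ⊕ Fin a → ι) × Finset (Fin a ⊕ Fin a → ι) → ℝ := fun S =>
    if hS : S.1.Nonempty then S.1.inf' hS (fun I => wt (bst S) I) else 0 with hval
  obtain ⟨k₀, k₀', w₀, hk₀, hw₀, hw₀'⟩ := h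
  obtain ⟨S, hS, hmax⟩ := Finset.exists_max_image
    (Finset.univ.filter fun S => ∃ k k', k * k' = 1 ∧ (st k k', st' k k') = S) val
    ⟨(st k₀ k₀', st' k₀ k₀'), Finset.mem_filter.2 ⟨Finset.mem_univ _, k₀, k₀', hk₀, rfl⟩⟩
  obtain ⟨-, k, k', hk, rfl⟩ := Finset.mem_filter.1 hS
  have hall : ∀ (l l' : Matrix ι ι Ω) (v : ι → ℝ) (δ : ℝ), l * l' = 1 → nrm v ≤ 1 →
      good Z l l' v δ → good Z' l l' v 0 → δ ≤ val (st k k', st' k k') := by
    intro l l' v δ hl hv hg hg'
    have h1 := (hgood l l' hl v δ).1 hg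
    have h2 := hb2 (st l l', st' l l') (hne l l' hl) v hv ((hgood' l l' v).1 hg')
    have h3 := hmax (st l l', st' l l')
      (Finset.mem_filter.2 ⟨Finset.mem_univ _, l, l', hl, rfl⟩)
    have h4 : val (st l l', st' l l') = (st l l').inf' (hne l l' hl)
        (fun I => wt (bst (st l l', st' l l')) I) := by
      rw [hval]
      exact dif_pos _
    rw [h4] at h3
    exact h1.trans (h2.trans h3)
  refine ⟨k, k', bst (st k k', st' k k'), val (st k k', st' k k'), hk,
    hb1 _ (hne k k' hk), ?_, ?_, ?_, hall⟩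
  · rw [hgood k k' hk, hval]
    exact le_of_eq (dif_pos _)
  · rw [hgood']
    exact hb1' (st k k', st' k k') (hne k k' hk)
  · -- positivity
    set c : ℝ := 1 / (1 + nrm w₀) with hc
    have hn := nrm_nonneg w₀
    have hc0 : 0 < c := by positivity
    have hγ : 0 < (st k₀ k₀').inf' (hne k₀ k₀' hk₀) (fun I => wt w₀ I) := by
      rw [Finset.lt_inf'_iff]
      intro I hI
      obtain ⟨-, z, hz, hI⟩ := Finset.mem_filter.1 hI
      exact hw₀ z hz I hI
    have h1 := ((hgood k₀ k₀' hk₀ w₀ _).2 le_rfl).smul hc0.le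
    have h1' : good Z' k₀ k₀' (c • w₀) 0 := by
      have h3 : good Z' k₀ k₀' w₀ 0 := fun z hz I hI => hw₀' z hz I hI
      have h4 := h3.smul hc0.le
      rwa [mul_zero] at h4
    have h2 : nrm (c • w₀) ≤ 1 := by
      rw [nrm_smul, hc, div_pow, one_pow, div_mul_eq_mul_div, one_mul,
        div_le_one (by positivity)]
      nlinarith
    exact lt_of_lt_of_le (mul_pos hc0 hγ) (hall k₀ k₀' _ _ hk₀ h2 h1 h1')

theorem opt2_unique {Z Z' : Set ((Fin a ⊕ Fin a → ι) → Ω)} {k k' l l' : Matrix ι ι Ω}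
    {w v : ι → ℝ} {γ δ : ℝ} (h : Opt2 Z Z' k k' w γ) (h' : Opt2 Z Z' l l' v δ) (t : ℝ)
    (x : ι → Ω) : Fl k w t x ↔ Fl l v t x := by
  obtain ⟨hk, hw, hg, hgz, hγ, hmax⟩ := h
  obtain ⟨hl, hv, hg', hgz', hδ, hmax'⟩ := h'
  have hγδ : γ = δ := le_antisymm (hmax' _ _ _ _ hk hw hg hgz) (hmax _ _ _ _ hl hv hg' hgz')
  subst hγδ
  have hk2 : k' * k = 1 := mul_eq_one_comm.1 hk
  have hl2 : l' * l = 1 := mul_eq_one_comm.1 hl
  have hdet : (l * k').det ≠ 0 := by
    have h1 : (l * k') * (k * l') = 1 := by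
      rw [Matrix.mul_assoc, ← Matrix.mul_assoc k' k l', hk2, Matrix.one_mul, hl]
    have h2 := congrArg Matrix.det h1
    rw [Matrix.det_mul, Matrix.det_one] at h2
    exact left_ne_zero_of_mul (by rw [h2]; exact one_ne_zero)
  obtain ⟨p, p', q, q', σ, hp, hp', hq, hq', e1, e2, hpq⟩ := bruhat v w (l * k') hdet
  have e1' : p' * p = 1 := mul_eq_one_comm.1 e1
  have hc : p' * l = (q * k).submatrix σ id := by
    have h1 : l = p * (q.submatrix σ id) * k := by
      rw [← hpq, Matrix.mul_assoc, hk2, Matrix.mul_one]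
    rw [h1, Matrix.mul_assoc, ← Matrix.mul_assoc p' p, e1', Matrix.one_mul]
    ext i j
    simp [Matrix.mul_apply]
  have g1 : ∀ (Z : Set ((Fin a ⊕ Fin a → ι) → Ω)) (γ : ℝ), good Z k k' w γ →
      good Z ((q * k).submatrix σ id) ((k' * q').submatrix id σ) (fun i => w (σ i)) γ :=
    fun Z γ hg => (hg.up hq hq').perm σ
  have g2 : ∀ (Z : Set ((Fin a ⊕ Fin a → ι) → Ω)) (γ : ℝ), good Z l l' v γ →
      good Z (p' * l) (l' * p) v γ := fun Z γ hg => hg.up hp' hp
  have i1 : (q * k).submatrix σ id * (k' * q').submatrix id σ = 1 := by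
    have h1 : (q * k) * (k' * q') = 1 := by
      rw [Matrix.mul_assoc, ← Matrix.mul_assoc k k' q', hk, Matrix.one_mul, e2]
    have h2 : (q * k).submatrix σ id * (k' * q').submatrix id σ =
        ((q * k) * (k' * q')).submatrix σ σ := by
      ext i j
      simp [Matrix.mul_apply]
    rw [h2, h1, Matrix.submatrix_one_equiv]
  have i2 : (p' * l) * (l' * p) = 1 := by
    rw [Matrix.mul_assoc, ← Matrix.mul_assoc l l' p, hl, Matrix.one_mul, e1']
  have hc' : (k' * q').submatrix id σ = l' * p := by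
    have h1 : (l' * p) * (p' * l) = 1 := mul_eq_one_comm.1 i2
    calc (k' * q').submatrix id σ = ((l' * p) * (p' * l)) * (k' * q').submatrix id σ := by
          rw [h1, Matrix.one_mul]
      _ = (l' * p) * ((q * k).submatrix σ id * (k' * q').submatrix id σ) := by
          rw [hc, Matrix.mul_assoc]
      _ = l' * p := by rw [i1, Matrix.mul_one]
  have hwv : (fun i => w (σ i)) = v := by
    by_contra hne
    have j1 := g1 Z γ hg
    have j1' := g1 Z' 0 hgz
    rw [← hc, hc'] at j1 j1'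
    set w' : ι → ℝ := fun i => w (σ i) with hw'
    have hn1 : nrm w' ≤ 1 := by rw [hw', nrm_comp]; exact hw
    set u : ι → ℝ := (1 / 2 : ℝ) • (w' + v) with hu
    have g3 : good Z (p' * l) (l' * p) u γ := by
      have := (j1.add (g2 Z γ hg')).smul (c := 1 / 2) (by norm_num)
      have h2 : (1 / 2 : ℝ) * (γ + γ) = γ := by ring
      rwa [h2] at this
    have g3' : good Z' (p' * l) (l' * p) u 0 := by
      have := (j1'.add (g2 Z' 0 hgz')).smul (c := 1 / 2) (by norm_num)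
      have h2 : (1 / 2 : ℝ) * (0 + 0) = 0 := by ring
      rwa [h2] at this
    have hlt : nrm u < 1 := by
      have h1 : nrm (w' - v) = ∑ i, (w' i - v i) ^ 2 := rfl
      have h2 : 0 < ∑ i, (w' i - v i) ^ 2 := by
        obtain ⟨i, hi⟩ := Function.ne_iff.1 hne
        apply Finset.sum_pos' (fun _ _ => sq_nonneg _)
        exact ⟨i, Finset.mem_univ _, by
          have : w' i - v i ≠ 0 := sub_ne_zero.2 hi
          positivity⟩
      have h3 : nrm u = (1 / 2) * nrm w' + (1 / 2) * nrm v -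
          (1 / 4) * ∑ i, (w' i - v i) ^ 2 := by
        rw [hu, nrm_smul]
        simp only [nrm, Pi.add_apply, Finset.mul_sum, ← Finset.sum_add_distrib,
          ← Finset.sum_sub_distrib]
        refine Finset.sum_congr rfl fun i _ => ?_
        ring
      rw [h3]
      linarith
    have hn0 := nrm_nonneg u
    set r : ℝ := 2 / (1 + nrm u) with hr
    have hr1 : 1 < r := by
      rw [hr, lt_div_iff₀ (by linarith)]
      linarith
    have h4 : nrm (r • u) ≤ 1 := by
      rw [nrm_smul, hr, div_pow, div_mul_eq_mul_div, div_le_one (by positivity)]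
      nlinarith [sq_nonneg (1 - nrm u)]
    have g4 : good Z' (p' * l) (l' * p) (r • u) 0 := by
      have := g3'.smul (c := r) (by linarith)
      rwa [mul_zero] at this
    have h5 := hmax _ _ _ _ i2 h4 (g3.smul (c := r) (by linarith)) g4
    nlinarith
  rw [← Fl_up_iff (k := k) hq hq' e2, ← Fl_perm_iff (k := q * k) σ, ← hc, hwv,
    Fl_up_iff hp' hp e1']

end Opt

section Inv

variable {K : Type*} [Field K] {ι : Type*} [Fintype ι] [DecidableEq ι] {a : ℕ}
  {N A : Submodule K ((Fin a ⊕ Fin a → ι) → K)}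
  {k k' : Matrix ι ι (AlgebraicClosure K)} {w : ι → ℝ} {γ : ℝ}

lemma good.galois {N : Submodule K ((Fin a ⊕ Fin a → ι) → K)} {γ : ℝ}
    (hg : good (upS N) k k' w γ) (σ : AlgebraicClosure K ≃ₐ[K] AlgebraicClosure K) :
    good (upS N) (k.map σ) (k'.map σ) w γ := by
  rintro _ ⟨z, hz, rfl⟩ I hI
  apply hg (up z) ⟨z, hz, rfl⟩
  intro h0
  apply hI
  have h1 := act_mm_map σ.toRingHom k k' (up z) I
  have h2 : (fun J => σ.toRingHom (up z J)) = up z := by
    funext J
    exact σ.commutes (z J)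
  rw [h2, h0, map_zero] at h1
  exact h1.symm

lemma good.stab {N : Submodule K ((Fin a ⊕ Fin a → ι) → K)} {γ : ℝ}
    (hg : good (upS N) k k' w γ) {u u' : Matrix ι ι K}
    (hN : ∀ z ∈ N, act (mm u u') z ∈ N) :
    good (upS N) (k * upm u) (upm u' * k') w γ := by
  rintro _ ⟨z, hz, rfl⟩ I hI
  rw [← act_mm k k' (upm u) (upm u'), ← up_act] at hI
  exact hg _ ⟨_, hN z hz, rfl⟩ I hI

lemma good.dual {N : Submodule K ((Fin a ⊕ Fin a → ι) → K)} {γ : ℝ}
    (hg : good (upS N) k k' w γ) {C D : Matrix ι ι K}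
    (hN : ∀ z ∈ N, exch (act (mm C D) z) ∈ N) :
    good (upS N) (k'.transpose * upm C) (upm D * k.transpose) (-w) γ := by
  rintro _ ⟨z, hz, rfl⟩ I hI
  rw [← act_mm k'.transpose k.transpose (upm C) (upm D), ← up_act] at hI
  rw [wt_neg]
  apply hg (up (exch (act (mm C D) z))) ⟨_, hN z hz, rfl⟩
  have h3 : up (exch (act (mm C D) z)) = exch (up (act (mm C D) z)) := rfl
  rw [h3, act_exch]
  have h4 : (fun s : Fin a ⊕ Fin a => I s.swap.swap) = I := by
    funext s
    rw [Sum.swap_swap]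
  rw [h4]
  exact hI

lemma Opt2.galois (h : Opt2 (upS N) (upS A) k k' w γ)
    (σ : AlgebraicClosure K ≃ₐ[K] AlgebraicClosure K) :
    Opt2 (upS N) (upS A) (k.map σ) (k'.map σ) w γ := by
  obtain ⟨hk, hw, hg, hg', hγ, hmax⟩ := h
  refine ⟨?_, hw, good.galois hg σ, good.galois hg' σ, hγ, hmax⟩
  have h1 : k.map σ * k'.map σ = (k * k').map σ := (Matrix.map_mul (f := σ.toRingHom)).symm
  rw [h1, hk]
  exact Matrix.map_one _ (map_zero σ) (map_one σ)

lemma Opt2.stab (h : Opt2 (upS N) (upS A) k k' w γ) {u u' : Matrix ι ι K} (hu : u * u' = 1)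
    (hN : ∀ z ∈ N, act (mm u u') z ∈ N) (hA : ∀ z ∈ A, act (mm u u') z ∈ A) :
    Opt2 (upS N) (upS A) (k * upm u) (upm u' * k') w γ := by
  obtain ⟨hk, hw, hg, hg', hγ, hmax⟩ := h
  refine ⟨?_, hw, good.stab hg hN, good.stab hg' hA, hγ, hmax⟩
  rw [Matrix.mul_assoc, ← Matrix.mul_assoc (upm u), ← upm_mul, hu, upm_one, Matrix.one_mul, hk]

lemma Opt2.dual (h : Opt2 (upS N) (upS A) k k' w γ) {C D : Matrix ι ι K}
    (hCD : C * D = 1) (hN : ∀ z ∈ N, exch (act (mm C D) z) ∈ N)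
    (hA : ∀ z ∈ A, exch (act (mm C D) z) ∈ A) :
    Opt2 (upS N) (upS A) (k'.transpose * upm C) (upm D * k.transpose) (-w) γ := by
  obtain ⟨hk, hw, hg, hg', hγ, hmax⟩ := h
  refine ⟨?_, ?_, good.dual hg hN, good.dual hg' hA, hγ, hmax⟩
  · rw [Matrix.mul_assoc, ← Matrix.mul_assoc (upm C), ← upm_mul, hCD, upm_one, Matrix.one_mul,
      ← Matrix.transpose_mul, hk, Matrix.transpose_one]
  · have h1 : nrm (-w) = nrm w := by
      simp only [nrm, Pi.neg_apply, neg_sq]
    rw [h1]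
    exact hw

lemma opt2_gl (hopt : Opt2 (upS N) (upS A) k k' w γ) {u u' : Matrix ι ι K} (hu : u * u' = 1)
    (hN : ∀ z ∈ N, act (mm u u') z ∈ N) (hA : ∀ z ∈ A, act (mm u u') z ∈ A) {t : ℝ}
    {x : ι → AlgebraicClosure K} (hx : Fl k w t x) : Fl k w t ((upm u).mulVec x) := by
  rw [← Fl_mul]
  exact (opt2_unique hopt (hopt.stab hu hN hA) t _).1 hx

lemma opt2_slot [CharZero K] (hopt : Opt2 (upS N) (upS A) k k' w γ) {u : Matrix ι ι K}
    (hl : ∀ s, SlotSt N (Sum.inl s) u) (hr : ∀ s, SlotSt N (Sum.inr s) u.transpose)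
    (hl2 : ∀ s, SlotSt A (Sum.inl s) u) (hr2 : ∀ s, SlotSt A (Sum.inr s) u.transpose) {t : ℝ}
    {x : ι → AlgebraicClosure K} (hx : Fl k w t x) : Fl k w t ((upm u).mulVec x) := by
  obtain ⟨c, hc⟩ : ∃ c : K, u.charpoly.eval c ≠ 0 := by
    by_contra hcon
    push Not at hcon
    apply u.charpoly_monic.ne_zero
    apply Polynomial.funext
    intro r
    rw [hcon, Polynomial.eval_zero]
  rw [Matrix.eval_charpoly] at hc
  set P : Matrix ι ι K := Matrix.scalar ι c - u with hP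
  have hP' : P = c • (1 : Matrix ι ι K) + (-1 : K) • u := by
    rw [hP, neg_smul, one_smul, ← sub_eq_add_neg]
    congr 1
    ext i j
    by_cases h : i = j
    · subst h
      simp
    · simp [h]
  have hunit : IsUnit P.det := isUnit_iff_ne_zero.2 hc
  have hPP : P * P⁻¹ = 1 := Matrix.mul_nonsing_inv P hunit
  have hPP' : P⁻¹ * P = 1 := Matrix.nonsing_inv_mul P hunit
  have key : ∀ B : Submodule K ((Fin a ⊕ Fin a → ι) → K), (∀ s, SlotSt B (Sum.inl s) u) →
      (∀ s, SlotSt B (Sum.inr s) u.transpose) → ∀ z ∈ B, act (mm P P⁻¹) z ∈ B := by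
    intro B hl hr z hz
    have hl' : ∀ s, SlotSt B (Sum.inl s) P := by
      intro s
      rw [hP']
      exact SlotSt.lin SlotSt.one (hl s) c (-1)
    have hr' : ∀ s, SlotSt B (Sum.inr s) P.transpose := by
      intro s
      rw [hP', Matrix.transpose_add, Matrix.transpose_smul, Matrix.transpose_smul,
        Matrix.transpose_one]
      exact SlotSt.lin SlotSt.one (hr s) c (-1)
    apply act_mem_of_slots _ hz
    rintro (s | s)
    · exact hl' s
    · have h4 : P.transpose * (P⁻¹).transpose = 1 := by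
        rw [← Matrix.transpose_mul, hPP', Matrix.transpose_one]
      exact SlotSt.inv (hr' s) h4
  have h4 := opt2_gl hopt hPP (key N hl hr) (key A hl2 hr2) hx
  have h5 : (upm u).mulVec x = (algebraMap K (AlgebraicClosure K) c) • x +
      (-1 : AlgebraicClosure K) • (upm P).mulVec x := by
    have h6 : upm P = (algebraMap K (AlgebraicClosure K) c) •
        (1 : Matrix ι ι (AlgebraicClosure K)) + (-1 : AlgebraicClosure K) • upm u := by
      rw [hP']
      ext i j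
      simp only [Matrix.map_apply, Matrix.add_apply, Matrix.smul_apply, smul_eq_mul, map_add,
        map_mul, map_neg, map_one]
      by_cases h : i = j
      · subst h
        simp
      · simp [h]
    rw [h6, Matrix.add_mulVec, Matrix.smul_mulVec, Matrix.one_mulVec, Matrix.smul_mulVec,
      smul_add, smul_smul, smul_smul, neg_one_mul, neg_one_mul, neg_neg, one_smul, neg_smul,
      ← add_assoc, add_neg_cancel, zero_add]
  rw [h5]
  exact Fl_add (Fl_smul _ hx) (Fl_smul _ h4)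

end Inv

end Pool.Agent.N180.Cf
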