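import Pool.Agent.N180.CfC

/-!
# The canonical filtration over the ground field
-/

set_option linter.unusedSectionVars false

namespace Pool.Agent.N180.Cf

open Finset Function Pool.Agent.R908.Km

section Descent

variable {K : Type*} [Field K] {ι : Type*} [Fintype ι] [DecidableEq ι]

/-- The coordinates in the algebraic closure. -/
noncomputable def uv (x : ι → K) (i : ι) : AlgebraicClosure K :=
  algebraMap K (AlgebraicClosure K) (x i)

lemma uv_add (x y : ι → K) : uv (x + y) = uv x + uv y := by
  funext i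
  exact map_add _ _ _

lemma uv_smul (c : K) (x : ι → K) : uv (c • x) = algebraMap K (AlgebraicClosure K) c • uv x := by
  funext i
  exact map_mul _ _ _

lemma uv_zero : uv (0 : ι → K) = 0 := by
  funext i
  exact map_zero _

lemma uv_sum {J : Type*} (T : Finset J) (f : J → ι → K) :
    uv (∑ j ∈ T, f j) = ∑ j ∈ T, uv (f j) := by
  funext i
  rw [uv, Finset.sum_apply, Finset.sum_apply, map_sum]
  rfl

lemma uv_mulVec (u : Matrix ι ι K) (x : ι → K) : uv (u.mulVec x) = (upm u).mulVec (uv x) := by
  funext i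
  simp [uv, Matrix.mulVec, dotProduct]

lemma sum_closed {J : Type*} {F : (ι → AlgebraicClosure K) → Prop}
    (hadd : ∀ x y : ι → AlgebraicClosure K, F x → F y → F (x + y)) (h0 : F 0)
    (T : Finset J) (f : J → ι → AlgebraicClosure K) (hf : ∀ j ∈ T, F (f j)) :
    F (∑ j ∈ T, f j) := by
  classical
  induction T using Finset.induction_on with
  | empty => rw [Finset.sum_empty]; exact h0
  | insert a T ha ih =>
    rw [Finset.sum_insert ha]
    exact hadd _ _ (hf _ (Finset.mem_insert_self _ _))
      (ih (fun j hj => hf j (Finset.mem_insert_of_mem hj)))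

/-- **Descent**: a space stable under the Galois group is spanned by its rational vectors. -/
theorem descent [CharZero K] {F : (ι → AlgebraicClosure K) → Prop} {V : Submodule K (ι → K)}
    (hadd : ∀ x y : ι → AlgebraicClosure K, F x → F y → F (x + y)) (h0 : F 0)
    (hsmul : ∀ (c : AlgebraicClosure K) (x : ι → AlgebraicClosure K), F x → F (c • x))
    (hgal : ∀ (σ : AlgebraicClosure K ≃ₐ[K] AlgebraicClosure K) (x : ι → AlgebraicClosure K),
      F x → F (fun i => σ (x i)))
    (hV : ∀ x, x ∈ V ↔ F (uv x)) {y : ι → AlgebraicClosure K} (hy : F y) :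
    ∃ (n : ℕ) (a : Fin n → AlgebraicClosure K) (e : Fin n → ι → K), (∀ j, e j ∈ V) ∧
      y = ∑ j, a j • uv (e j) := by
  classical
  obtain ⟨C, hC⟩ := V.exists_isCompl
  set bV := Module.finBasis K V with hbV
  set bC := Module.finBasis K C with hbC
  -- every vector is a combination of the two bases
  have hspan : ∀ y : ι → AlgebraicClosure K, ∃ (a : Fin (Module.finrank K V) →
      AlgebraicClosure K) (c : Fin (Module.finrank K C) → AlgebraicClosure K),
      y = ∑ j, a j • uv (bV j : ι → K) + ∑ j, c j • uv (bC j : ι → K) := by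
    intro y
    have h1 : ∀ i : ι, ∃ (a : Fin (Module.finrank K V) → K) (c : Fin (Module.finrank K C) → K),
        (Pi.single i 1 : ι → K) = ∑ j, a j • (bV j : ι → K) + ∑ j, c j • (bC j : ι → K) := by
      intro i
      have h2 : (Pi.single i 1 : ι → K) ∈ V ⊔ C := by
        rw [hC.sup_eq_top]
        exact Submodule.mem_top
      obtain ⟨p, hp, q, hq, hpq⟩ := Submodule.mem_sup.1 h2
      refine ⟨bV.repr ⟨p, hp⟩, bC.repr ⟨q, hq⟩, ?_⟩
      have h3 := congrArg Subtype.val (bV.sum_repr ⟨p, hp⟩)
      have h4 := congrArg Subtype.val (bC.sum_repr ⟨q, hq⟩)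
      rw [AddSubmonoidClass.coe_finsetSum] at h3 h4
      rw [← hpq]
      exact (congrArg₂ (· + ·) h3 h4).symm
    choose a c hac using h1
    refine ⟨fun j => ∑ i, y i * algebraMap K _ (a i j), fun j => ∑ i, y i *
      algebraMap K _ (c i j), ?_⟩
    have h2 : y = ∑ i, y i • uv (Pi.single i 1 : ι → K) := by
      funext l
      rw [Finset.sum_apply, Finset.sum_eq_single l]
      · rw [Pi.smul_apply, uv, Pi.single_eq_same, map_one, smul_eq_mul, mul_one]
      · intro j _ hj
        rw [Pi.smul_apply, uv, Pi.single_eq_of_ne (Ne.symm hj), map_zero, smul_zero]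
      · intro h
        exact absurd (Finset.mem_univ _) h
    conv_lhs => rw [h2]
    have h3 : ∀ i, y i • uv (Pi.single i 1 : ι → K) =
        ∑ j, (y i * algebraMap K _ (a i j)) • uv (bV j : ι → K) +
        ∑ j, (y i * algebraMap K _ (c i j)) • uv (bC j : ι → K) := by
      intro i
      rw [hac i, uv_add, uv_sum, uv_sum, smul_add, Finset.smul_sum, Finset.smul_sum]
      congr 1
      · refine Finset.sum_congr rfl fun j _ => ?_
        rw [uv_smul, smul_smul]
      · refine Finset.sum_congr rfl fun j _ => ?_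
        rw [uv_smul, smul_smul]
    rw [Finset.sum_congr rfl fun i _ => h3 i, Finset.sum_add_distrib, Finset.sum_comm]
    congr 1
    · refine Finset.sum_congr rfl fun j _ => ?_
      rw [Finset.sum_smul]
    · rw [Finset.sum_comm]
      refine Finset.sum_congr rfl fun j _ => ?_
      rw [Finset.sum_smul]
  obtain ⟨a, c, hac⟩ := hspan y
  have hFV : F (∑ j, a j • uv (bV j : ι → K)) :=
    sum_closed hadd h0 _ _ (fun j _ => hsmul _ _ ((hV _).1 (bV j).2))
  have hFC : F (∑ j, c j • uv (bC j : ι → K)) := by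
    have h1 : ∑ j, c j • uv (bC j : ι → K) = y + (-1 : AlgebraicClosure K) •
        ∑ j, a j • uv (bV j : ι → K) := by
      rw [hac, neg_smul, one_smul]
      abel
    rw [h1]
    exact hadd _ _ hy (hsmul _ _ hFV)
  have hc0 : ∀ j, c j = 0 := by
    by_contra hcon
    push Not at hcon
    obtain ⟨j₀, hj₀⟩ := hcon
    obtain ⟨x, hx0, hx⟩ := exists_rational (K := K)
      (F := fun c : Fin (Module.finrank K C) → AlgebraicClosure K =>
        F (∑ j, c j • uv (bC j : ι → K)))
      (fun x y hx hy => by
        have h1 : ∑ j, (x + y) j • uv (bC j : ι → K) = ∑ j, x j • uv (bC j : ι → K) +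
            ∑ j, y j • uv (bC j : ι → K) := by
          rw [← Finset.sum_add_distrib]
          exact Finset.sum_congr rfl fun j _ => by rw [Pi.add_apply, add_smul]
        rw [h1]
        exact hadd _ _ hx hy)
      (fun c x hx => by
        have h1 : ∑ j, (c • x) j • uv (bC j : ι → K) = c • ∑ j, x j • uv (bC j : ι → K) := by
          rw [Finset.smul_sum]
          exact Finset.sum_congr rfl fun j _ => by rw [Pi.smul_apply, smul_eq_mul, mul_smul]
        rw [h1]
        exact hsmul _ _ hx)
      (fun σ x hx => by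
        have h1 : ∑ j, (σ (x j)) • uv (bC j : ι → K) =
            fun i => σ ((∑ j, x j • uv (bC j : ι → K)) i) := by
          funext i
          rw [Finset.sum_apply, Finset.sum_apply, map_sum]
          refine Finset.sum_congr rfl fun j _ => ?_
          rw [Pi.smul_apply, Pi.smul_apply, smul_eq_mul, smul_eq_mul, map_mul]
          congr 1
          exact (σ.commutes _).symm
        rw [h1]
        exact hgal σ _ hx)
      ⟨c, hFC, fun h => hj₀ (by rw [h]; rfl)⟩
    have h1 : ∑ j, algebraMap K (AlgebraicClosure K) (x j) • uv (bC j : ι → K) =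
        uv (∑ j, x j • (bC j : ι → K)) := by
      rw [uv_sum]
      exact Finset.sum_congr rfl fun j _ => by rw [uv_smul]
    rw [h1, ← hV] at hx
    have h2 : ∑ j, x j • (bC j : ι → K) ∈ C :=
      Submodule.sum_mem _ fun j _ => Submodule.smul_mem _ _ (bC j).2
    have h3 : ∑ j, x j • (bC j : ι → K) = 0 := by
      have h4 := Submodule.disjoint_def.1 hC.disjoint _ hx h2
      exact h4
    have h4 : ∑ j, x j • bC j = 0 := by
      apply Subtype.ext
      rw [AddSubmonoidClass.coe_finsetSum]
      exact h3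
    apply hx0
    funext j
    exact Fintype.linearIndependent_iff.1 bC.linearIndependent x h4 j
  refine ⟨_, a, fun j => bV j, fun j => (bV j).2, ?_⟩
  rw [hac, Finset.sum_eq_zero (s := Finset.univ) (f := fun j => c j • uv (bC j : ι → K)),
    add_zero]
  intro j _
  rw [hc0 j, zero_smul]

end Descent

section Value

variable {K : Type*} [Field K] {ι : Type*} [Fintype ι] [DecidableEq ι] {a : ℕ}

/-- The value of the multilinear form with coordinates `z` at the vectors `x`. -/
def vl {R : Type*} [CommRing R] (C : Matrix ι ι R) (z : (Fin a ⊕ Fin a → ι) → R)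
    (x : Fin a ⊕ Fin a → ι → R) : R :=
  ∑ J : Fin a ⊕ Fin a → ι, (∏ s, (if s.isLeft then (Matrix.vecMul (x s) C) (J s)
    else x s (J s))) * z J

/-- The transformation of the value under a change of the basis. -/
lemma vl_act {R : Type*} [CommRing R] (C k k' : Matrix ι ι R) (hk : k' * k = 1)
    (z : (Fin a ⊕ Fin a → ι) → R) (x : Fin a ⊕ Fin a → ι → R) :
    vl C z x = ∑ L : Fin a ⊕ Fin a → ι, (∏ s, (if s.isLeft then
      (Matrix.vecMul (Matrix.vecMul (x s) C) k') (L s) else (k.mulVec (x s)) (L s))) *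
        act (mm k k') z L := by
  have h1 : z = act (mm k' k) (act (mm k k') z) := by
    rw [act_mm, hk, act_mm_one]
  have h2 : ∀ J, z J = ∑ L, (∏ s, mm k' k s (J s) (L s)) * act (mm k k') z L := by
    intro J
    conv_lhs => rw [h1]
    rfl
  rw [vl]
  calc ∑ J : Fin a ⊕ Fin a → ι, (∏ s, (if s.isLeft then (Matrix.vecMul (x s) C) (J s)
        else x s (J s))) * z J
      = ∑ J : Fin a ⊕ Fin a → ι, ∑ L : Fin a ⊕ Fin a → ι,
          ((∏ s, (if s.isLeft then (Matrix.vecMul (x s) C) (J s) else x s (J s))) *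
          (∏ s, mm k' k s (J s) (L s))) * act (mm k k') z L := by
        refine Finset.sum_congr rfl fun J _ => ?_
        rw [h2 J, Finset.mul_sum]
        exact Finset.sum_congr rfl fun L _ => by ring
    _ = ∑ L : Fin a ⊕ Fin a → ι, ∑ J : Fin a ⊕ Fin a → ι,
          ((∏ s, (if s.isLeft then (Matrix.vecMul (x s) C) (J s) else x s (J s))) *
          (∏ s, mm k' k s (J s) (L s))) * act (mm k k') z L := by rw [Finset.sum_comm]
    _ = _ := by
        refine Finset.sum_congr rfl fun L _ => ?_
        rw [← Finset.sum_mul]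
        congr 1
        have h3 : ∀ J : Fin a ⊕ Fin a → ι, (∏ s, (if s.isLeft then (Matrix.vecMul (x s) C) (J s)
            else x s (J s))) * (∏ s, mm k' k s (J s) (L s)) =
            ∏ s, (if s.isLeft then (Matrix.vecMul (x s) C) (J s) else x s (J s)) *
              mm k' k s (J s) (L s) := by
          intro J
          rw [← Finset.prod_mul_distrib]
        rw [Finset.sum_congr rfl fun J _ => h3 J]
        have h4 := Finset.prod_univ_sum (fun _ : Fin a ⊕ Fin a => (Finset.univ : Finset ι))
          (fun s j => (if s.isLeft then (Matrix.vecMul (x s) C) j else x s j) *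
            mm k' k s j (L s))
        rw [Fintype.piFinset_univ] at h4
        rw [← h4]
        refine Finset.prod_congr rfl fun s _ => ?_
        rcases s with s | s
        · simp only [Sum.isLeft_inl, if_true]
          rfl
        · simp only [Sum.isLeft_inr, Bool.false_eq_true, if_false]
          rw [Matrix.mulVec, dotProduct]
          refine Finset.sum_congr rfl fun j _ => ?_
          rw [mul_comm]
          rfl

lemma vl_up (C : Matrix ι ι K) (z : (Fin a ⊕ Fin a → ι) → K) (x : Fin a ⊕ Fin a → ι → K) :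
    algebraMap K (AlgebraicClosure K) (vl C z x) = vl (upm C) (up z) (fun s => uv (x s)) := by
  rw [vl, vl, map_sum]
  refine Finset.sum_congr rfl fun J _ => ?_
  rw [map_mul, map_prod]
  congr 1
  refine Finset.prod_congr rfl fun s _ => ?_
  by_cases hs : s.isLeft
  · rw [if_pos hs, if_pos hs]
    simp [Matrix.vecMul, dotProduct, uv]
  · rw [if_neg hs, if_neg hs]
    rfl

end Value

section Filtration

variable {K : Type*} [Field K] {ι : Type*} [Fintype ι] [DecidableEq ι] {a : ℕ}

/-- The filtration over the ground field. -/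
noncomputable def Vt (k : Matrix ι ι (AlgebraicClosure K)) (w : ι → ℝ) (t : ℝ) :
    Submodule K (ι → K) where
  carrier := {x | Fl k w t (uv x)}
  add_mem' := by
    intro x y hx hy
    change Fl k w t _
    rw [uv_add]
    exact Fl_add hx hy
  zero_mem' := by
    change Fl k w t _
    rw [uv_zero]
    intro i hi
    rw [Matrix.mulVec_zero] at hi
    exact absurd rfl hi
  smul_mem' := by
    intro c x hx
    change Fl k w t _
    rw [uv_smul]
    exact Fl_smul _ hx

lemma mem_Vt {k : Matrix ι ι (AlgebraicClosure K)} {w : ι → ℝ} {t : ℝ} {x : ι → K} :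
    x ∈ Vt k w t ↔ Fl k w t (uv x) := Iff.rfl

lemma uv_inj {x : ι → K} (h : uv x = 0) : x = 0 := by
  funext i
  have h1 := congrFun h i
  exact (map_eq_zero (algebraMap K (AlgebraicClosure K))).1 h1

/-- The stability under all operators. -/
structure Stab (N : Submodule K ((Fin a ⊕ Fin a → ι) → K)) (u : Matrix ι ι K) : Prop where
  left : ∀ s, SlotSt N (Sum.inl s) u
  right : ∀ s, SlotSt N (Sum.inr s) u.transpose

/-- **The canonical filtration.** -/
theorem exists_filtration [CharZero K] (T : TPair K ι) (hle : ∀ a, T.N a ≤ T.A a)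
    {C D ρ : Matrix ι ι K} (hCD : C * D = 1) (hρ : C.transpose = C * ρ) {a : ℕ}
    (hN : ∀ z ∈ T.N a, exch (act (mm C D) z) ∈ T.N a)
    (hA : ∀ z ∈ T.A a, exch (act (mm C D) z) ∈ T.A a)
    (hρN : Stab (T.N a) ρ) (hρA : Stab (T.A a) ρ) (hne : ∃ z ∈ T.N a, z ≠ 0) :
    ∃ V : ℝ → Submodule K (ι → K), Antitone V ∧ (∃ c : ℝ, 0 < c ∧ V c = ⊥ ∧ V (-c) = ⊤) ∧
      (∃ S : Finset ℝ, ∀ x, x ≠ 0 → ∃ s ∈ S, x ∈ V s ∧ ∀ t, x ∈ V t → t ≤ s) ∧
      (∀ t x, x ∈ V t ↔ ∀ s, -t < s → ∀ y ∈ V s, y ⬝ᵥ C.mulVec x = 0) ∧
      (∀ u u' : Matrix ι ι K, u * u' = 1 → (∀ z ∈ T.N a, act (mm u u') z ∈ T.N a) →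
        (∀ z ∈ T.A a, act (mm u u') z ∈ T.A a) → ∀ t, ∀ x ∈ V t, u.mulVec x ∈ V t) ∧
      (∀ u : Matrix ι ι K, Stab (T.N a) u → Stab (T.A a) u → ∀ t, ∀ x ∈ V t,
        u.mulVec x ∈ V t) ∧
      (∀ b ≤ a, ∀ z ∈ T.N b, ∀ (x : Fin b ⊕ Fin b → ι → K) (t : Fin b ⊕ Fin b → ℝ),
        (∀ s, x s ∈ V (t s)) → vl C z x ≠ 0 → ∑ s, t s < 0) ∧
      (∀ b ≤ a, ∀ z ∈ T.A b, ∀ (x : Fin b ⊕ Fin b → ι → K) (t : Fin b ⊕ Fin b → ℝ),
        (∀ s, x s ∈ V (t s)) → vl C z x ≠ 0 → ∑ s, t s ≤ 0) := by
  classical
  have hι : Nonempty ι := by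
    by_contra hcon
    rw [not_nonempty_iff] at hcon
    obtain ⟨z, hz, hz0⟩ := hne
    cases a with
    | zero =>
      rw [T.zero, Submodule.mem_bot] at hz
      exact hz0 hz
    | succ a =>
      apply hz0
      funext I
      exact (hcon.false (I (Sum.inl 0))).elim
  obtain ⟨k₀, k₀', w₀, hk₀, h₀, h₀'⟩ := T.hilbert_mumford hle a
  obtain ⟨k, k', w, γ, hopt⟩ := exists_opt2 (Z := upS (T.N a)) (Z' := upS (T.A a))
    (by
      obtain ⟨z, hz, hz0⟩ := hne
      refine ⟨up z, ⟨z, hz, rfl⟩, fun h => hz0 ?_⟩
      funext I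
      have h1 := congrFun h I
      exact (map_eq_zero (algebraMap K (AlgebraicClosure K))).1 h1)
    ⟨k₀, k₀', w₀, hk₀, by
      rintro _ ⟨z, hz, rfl⟩ I hI
      exact h₀ z hz I hI, by
      rintro _ ⟨z, hz, rfl⟩ I hI
      exact h₀' z hz I hI⟩
  have hk : k * k' = 1 := hopt.1
  have hk2 : k' * k = 1 := mul_eq_one_comm.1 hk
  have hγ : 0 < γ := hopt.2.2.2.2.1
  have hdual := hopt.dual hCD hN hA
  have hFl0 : ∀ t, Fl k w t 0 := by
    intro t i hi
    rw [Matrix.mulVec_zero] at hi
    exact absurd rfl hi
  -- the weights in lower degrees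
  have hlow : ∀ (B : ∀ a : ℕ, Submodule K ((Fin a ⊕ Fin a → ι) → K)),
      (∀ a z, z ∈ B a → ins z ∈ B (a + 1)) → ∀ (γ : ℝ) (n b : ℕ), good (upS (B (b + n))) k k' w γ →
        good (upS (B b)) k k' w γ := by
    intro B hB γ n
    induction n with
    | zero => exact fun b h => h
    | succ n ih =>
      intro b h
      apply ih b
      rintro _ ⟨z, hz, rfl⟩ I hI
      obtain ⟨i⟩ := hι
      have h1 : act (mm k k') (up (ins z)) (ext i i I) = act (mm k k') (up z) I := by
        rw [act, sum_ext]
        have h1 : ∀ p q (J : Fin (b + n) ⊕ Fin (b + n) → ι),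
            (∏ s, mm k k' s (ext i i I s) (ext p q J s)) * up (ins z) (ext p q J) =
            if p = q then k i p * k' q i * ((∏ s, mm k k' s (I s) (J s)) * up z J) else 0 := by
          intro p q J
          rw [up, ins, ext_inl_zero, ext_inr_zero]
          have h3 : Pool.Agent.R908.Km.rest (ext p q J) = J := by
            funext s
            rcases s with s | s <;> rfl
          by_cases h : p = q
          · rw [if_pos h, if_pos h, h3, Fintype.prod_sum_type, Fin.prod_univ_succ,
              Fin.prod_univ_succ, Fintype.prod_sum_type]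
            simp only [ext_inl_zero, ext_inr_zero, ext_inl_succ, ext_inr_succ, mm, Sum.elim_inl,
              Sum.elim_inr, Matrix.transpose_apply, up]
            ring
          · rw [if_neg h, if_neg h, map_zero, mul_zero]
        simp only [h1]
        have h2 : ∀ p, ∑ q, ∑ J : Fin (b + n) ⊕ Fin (b + n) → ι, (if p = q then
            k i p * k' q i * ((∏ s, mm k k' s (I s) (J s)) * up z J) else 0) =
            k i p * k' p i * act (mm k k') (up z) I := by
          intro p
          rw [Finset.sum_eq_single p]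
          · simp only [if_true]
            rw [← Finset.mul_sum]
            rfl
          · intro q _ hq
            apply Finset.sum_eq_zero
            intro J _
            rw [if_neg hq.symm]
          · intro h
            exact absurd (Finset.mem_univ p) h
        simp only [h2]
        rw [← Finset.sum_mul]
        have h4 := congrFun (congrFun hk i) i
        rw [Matrix.mul_apply, Matrix.one_apply_eq] at h4
        rw [h4, one_mul]
      have h2 := h (up (ins z)) ⟨_, hB _ _ hz, rfl⟩ (ext i i I) (by rw [h1]; exact hI)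
      have h3 : wt w (ext i i I) = wt w I := by
        rw [wt, Fin.sum_univ_succ, Fin.sum_univ_succ, ext_inl_zero, ext_inr_zero, wt]
        simp only [ext_inl_succ, ext_inr_succ]
        ring
      rwa [h3] at h2
  -- descent
  have hdesc : ∀ t (y : ι → AlgebraicClosure K), Fl k w t y →
      ∃ (n : ℕ) (c : Fin n → AlgebraicClosure K) (e : Fin n → ι → K), (∀ j, e j ∈ Vt k w t) ∧
        y = ∑ j, c j • uv (e j) := by
    intro t y hy
    exact descent (F := Fl k w t) (fun x y hx hy => Fl_add hx hy) (hFl0 t)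
      (fun c x hx => Fl_smul c hx)
      (fun σ x hx => (opt2_unique hopt (hopt.galois σ) t _).2 ((Fl_map σ).2 hx))
      (fun x => mem_Vt) hy
  have hb' : ∀ i, Fl k w (w i) (k'.mulVec (Pi.single i 1)) := by
    intro i j hj
    rw [Matrix.mulVec_mulVec, hk, Matrix.one_mulVec] at hj
    by_cases h : j = i
    · rw [h]
    · rw [Pi.single_eq_of_ne h] at hj
      exact absurd rfl hj
  have hslot : ∀ u : Matrix ι ι K, Stab (T.N a) u → Stab (T.A a) u → ∀ t, ∀ x ∈ Vt k w t,
        u.mulVec x ∈ Vt k w t := by
    intro u hu hu' t x hx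
    rw [mem_Vt, uv_mulVec]
    exact opt2_slot hopt hu.left hu.right hu'.left hu'.right hx
  -- the values
  have hval : ∀ (B : ∀ a : ℕ, Submodule K ((Fin a ⊕ Fin a → ι) → K)),
      (∀ a z, z ∈ B a → ins z ∈ B (a + 1)) → ∀ γ : ℝ, good (upS (B a)) k k' w γ →
      ∀ b ≤ a, ∀ z ∈ B b, ∀ (x : Fin b ⊕ Fin b → ι → K) (t : Fin b ⊕ Fin b → ℝ),
        (∀ s, x s ∈ Vt k w (t s)) → vl C z x ≠ 0 → ∑ s, t s ≤ -γ := by
    intro B hB γ hg b hb z hz x t hx hv
    have hg' : good (upS (B b)) k k' w γ := by
      obtain ⟨n, rfl⟩ := Nat.exists_eq_add_of_le hb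
      exact hlow B hB γ n b hg
    have h1 : vl (upm C) (up z) (fun s => uv (x s)) ≠ 0 := by
      rw [← vl_up]
      exact fun h => hv ((map_eq_zero (algebraMap K (AlgebraicClosure K))).1 h)
    rw [vl_act _ k k' hk2] at h1
    obtain ⟨L, -, hL⟩ := Finset.exists_ne_zero_of_sum_ne_zero h1
    have h2 := left_ne_zero_of_mul hL
    rw [Finset.prod_ne_zero_iff] at h2
    have h3 := hg' (up z) ⟨z, hz, rfl⟩ L (right_ne_zero_of_mul hL)
    have hr : ∀ s : Fin b, t (Sum.inr s) ≤ w (L (Sum.inr s)) := by
      intro s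
      have h4 : (k.mulVec (uv (x (Sum.inr s)))) (L (Sum.inr s)) ≠ 0 :=
        h2 (Sum.inr s) (Finset.mem_univ _)
      exact hx (Sum.inr s) _ h4
    have hl : ∀ s : Fin b, t (Sum.inl s) ≤ -w (L (Sum.inl s)) := by
      intro s
      have h4 : (Matrix.vecMul (Matrix.vecMul (uv (x (Sum.inl s))) (upm C)) k')
          (L (Sum.inl s)) ≠ 0 := h2 (Sum.inl s) (Finset.mem_univ _)
      have h5 : Matrix.vecMul (Matrix.vecMul (uv (x (Sum.inl s))) (upm C)) k' =
          (k'.transpose * upm C).mulVec (uv (ρ.mulVec (x (Sum.inl s)))) := by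
        rw [uv_mulVec, ← Matrix.mulVec_transpose, ← Matrix.mulVec_transpose,
          Matrix.mulVec_mulVec, Matrix.mulVec_mulVec]
        congr 1
        have h6 : (upm C).transpose = upm C * upm ρ := by
          rw [← upm_mul, ← hρ]
          rfl
        rw [h6, Matrix.mul_assoc]
      rw [h5] at h4
      have h6 : Fl (k'.transpose * upm C) (-w) (t (Sum.inl s))
          (uv (ρ.mulVec (x (Sum.inl s)))) :=
        (opt2_unique hopt hdual _ _).1 (hslot ρ hρN hρA _ _ (hx (Sum.inl s)))
      have h7 := h6 _ h4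
      rwa [Pi.neg_apply] at h7
    rw [wt] at h3
    rw [Fintype.sum_sum_type]
    have h4 := Finset.sum_le_sum fun (s : Fin b) (_ : s ∈ Finset.univ) => hl s
    have h5 := Finset.sum_le_sum fun (s : Fin b) (_ : s ∈ Finset.univ) => hr s
    rw [Finset.sum_neg_distrib] at h4
    linarith
  refine ⟨Vt k w, ?_, ?_, ?_, ?_, ?_, hslot, ?_, ?_⟩
  · -- antitone
    intro t t' htt x hx i hi
    exact htt.trans (hx i hi)
  · -- bounds
    obtain ⟨i₀, -, hi₀⟩ := Finset.exists_max_image Finset.univ (fun i => |w i|)
      Finset.univ_nonempty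
    refine ⟨|w i₀| + 1, by positivity, ?_, ?_⟩
    · rw [eq_bot_iff]
      intro x hx
      rw [Submodule.mem_bot]
      apply uv_inj
      have h1 : k.mulVec (uv x) = 0 := by
        funext i
        by_contra hi
        have h2 := hx i hi
        have h3 := hi₀ i (Finset.mem_univ _)
        have h4 := le_abs_self (w i)
        linarith
      have h2 := congrArg k'.mulVec h1
      rwa [Matrix.mulVec_mulVec, hk2, Matrix.one_mulVec, Matrix.mulVec_zero] at h2
    · rw [eq_top_iff]
      intro x _ i _
      have h3 := hi₀ i (Finset.mem_univ _)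
      have h4 := neg_abs_le (w i)
      linarith
  · -- jumps
    refine ⟨Finset.univ.image w, fun x hx => ?_⟩
    have hne : (Finset.univ.filter fun i => k.mulVec (uv x) i ≠ 0).Nonempty := by
      by_contra hcon
      rw [Finset.not_nonempty_iff_eq_empty, Finset.filter_eq_empty_iff] at hcon
      apply hx
      apply uv_inj
      have h1 : k.mulVec (uv x) = 0 := by
        funext i
        have h2 := hcon (Finset.mem_univ i)
        rwa [not_not] at h2
      have h2 := congrArg k'.mulVec h1
      rwa [Matrix.mulVec_mulVec, hk2, Matrix.one_mulVec, Matrix.mulVec_zero] at h2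
    obtain ⟨i, hi, hmin⟩ := Finset.exists_min_image _ w hne
    refine ⟨w i, Finset.mem_image_of_mem _ (Finset.mem_univ _), ?_, ?_⟩
    · intro j hj
      exact hmin j (Finset.mem_filter.2 ⟨Finset.mem_univ _, hj⟩)
    · intro t ht
      exact ht i (Finset.mem_filter.1 hi).2
  · -- duality
    intro t x
    have hpair : ∀ y : ι → AlgebraicClosure K, y ⬝ᵥ (upm C).mulVec (uv x) =
        ∑ i, k.mulVec y i * (k'.transpose * upm C).mulVec (uv x) i := by
      intro y
      have h4 : k.mulVec y ⬝ᵥ (k'.transpose * upm C).mulVec (uv x) =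
          y ⬝ᵥ (upm C).mulVec (uv x) := by
        rw [← Matrix.mulVec_mulVec, Matrix.dotProduct_mulVec, Matrix.vecMul_transpose,
          Matrix.mulVec_mulVec, hk2, Matrix.one_mulVec]
      rw [← h4]
      rfl
    have hrat : ∀ y : ι → K, uv y ⬝ᵥ (upm C).mulVec (uv x) =
        algebraMap K (AlgebraicClosure K) (y ⬝ᵥ C.mulVec x) := by
      intro y
      simp [dotProduct, Matrix.mulVec, uv, map_sum, map_mul]
    constructor
    · intro hx s hs y hy
      have h1 : Fl (k'.transpose * upm C) (-w) t (uv x) := (opt2_unique hopt hdual _ _).1 hx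
      have h2 : algebraMap K (AlgebraicClosure K) (y ⬝ᵥ C.mulVec x) = 0 := by
        rw [← hrat, hpair]
        apply Finset.sum_eq_zero
        intro i _
        by_cases h3 : k.mulVec (uv y) i = 0
        · rw [h3, zero_mul]
        by_cases h4 : (k'.transpose * upm C).mulVec (uv x) i = 0
        · rw [h4, mul_zero]
        have h5 := hy i h3
        have h6 := h1 i h4
        rw [Pi.neg_apply] at h6
        linarith
      exact (map_eq_zero _).1 h2
    · intro h
      rw [mem_Vt, opt2_unique hopt hdual]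
      intro i hi
      by_contra hcon
      rw [Pi.neg_apply, not_le] at hcon
      apply hi
      obtain ⟨n, c, e, he, hce⟩ := hdesc (w i) _ (hb' i)
      have h1 : k'.mulVec (Pi.single i 1) ⬝ᵥ (upm C).mulVec (uv x) =
          (k'.transpose * upm C).mulVec (uv x) i := by
        rw [hpair, Matrix.mulVec_mulVec, hk, Matrix.one_mulVec, Finset.sum_eq_single i]
        · rw [Pi.single_eq_same, one_mul]
        · intro j _ hj
          rw [Pi.single_eq_of_ne hj, zero_mul]
        · intro h
          exact absurd (Finset.mem_univ _) h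
      rw [← h1, hce, sum_dotProduct]
      apply Finset.sum_eq_zero
      intro j _
      rw [smul_dotProduct, hrat, h (w i) (by linarith) (e j) (he j), map_zero, smul_zero]
  · -- automorphisms
    intro u u' hu hst hst' t x hx
    rw [mem_Vt, uv_mulVec]
    exact opt2_gl hopt hu hst hst' hx
  · intro b hb z hz x t hx hv
    have h1 := hval T.N T.hN γ hopt.2.2.1 b hb z hz x t hx hv
    linarith
  · intro b hb z hz x t hx hv
    have h1 := hval T.A T.hA 0 hopt.2.2.2.1 b hb z hz x t hx hv
    rwa [neg_zero] at h1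

end Filtration

end Pool.Agent.N180.Cf
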