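import Pool.Agent.R908.AnisoDefs
import Pool.Agent.H914R2.DDefs
import Pool.Agent.R908.KnB

/-!
# Weight filtrations on the cohomology of a variety: definitions
-/

open CategoryTheory AlgebraicGeometry

universe u v

namespace Pool.Agent.N180.Cf

section Alg

variable {K : Type*} [Field K] {A : Type*} [Ring A] [Algebra K A] {B : Type*} [Ring B]
  [Algebra K B] {C : Type*} [Ring C] [Algebra K C]

/-- The subspaces `F t`, for real numbers `t`, form a decreasing exhaustive and separated
filtration with finitely many jumps: every `x ≠ 0` lies in `F t` for a largest `t`, and these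
numbers `t` form a finite set. -/
structure IsFiltration (F : ℝ → Submodule K A) : Prop where
  antitone : Antitone F
  top : ∃ t, F t = ⊤
  bot : ∃ t, F t = ⊥
  jumps : ∃ S : Finset ℝ, ∀ x, x ≠ 0 → ∃ s ∈ S, x ∈ F s ∧ ∀ t, x ∈ F t → t ≤ s

/-- The filtration is self-dual: `F t` is the orthogonal complement of the union of the `F s`
with `s > -t`, for the form `(a, b) ↦ tr (a * b)`. -/
def IsSelfDual (tr : A →ₗ[K] K) (F : ℝ → Submodule K A) : Prop :=
  ∀ t x, x ∈ F t ↔ ∀ s, -t < s → ∀ y ∈ F s, tr (y * x) = 0

/-- The filtration is a filtration of the algebra. -/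
structure IsMultiplicative (F : ℝ → Submodule K A) : Prop where
  one_mem : 1 ∈ F 0
  mul_mem : ∀ s t a b, a ∈ F s → b ∈ F t → a * b ∈ F (s + t)

/-- The filtration is compatible with the grading. -/
def IsHomogeneous (gr : ℕ → Submodule K A) (F : ℝ → Submodule K A) : Prop :=
  ∀ t, F t = ⨆ i, F t ⊓ gr i

/-- The filtration is trivial: everything has weight `0`. -/
def IsTrivial (F : ℝ → Submodule K A) : Prop :=
  ∀ t, (t ≤ 0 → F t = ⊤) ∧ (0 < t → F t = ⊥)

/-- The filtration is stable under the maps in `S`. -/
def IsStableUnder (F : ℝ → Submodule K A) (S : Set (A → A)) : Prop :=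
  ∀ φ ∈ S, ∀ t, ∀ x ∈ F t, φ x ∈ F t

/-- The map `φ` is multiplication by `(-1) ^ i` on the elements of degree `i`. -/
def IsSignOp (gr : ℕ → Submodule K A) (φ : A → A) : Prop :=
  ∀ i, ∀ a ∈ gr i, φ a = (-1 : K) ^ i • a

/-- The filtration `F` of `B` detects the property `P` of the elements of `S`, for the map `f`:
the images of all elements of `S` have weight at least `0`, and `α` in `S` has the property `P` if
and only if `f α` has positive weight. -/
def DetectsOn (F : ℝ → Submodule K B) (f : A →ₐ[K] B) (P : A → Prop) (S : Submodule K A) :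
    Prop :=
  ∀ α ∈ S, f α ∈ F 0 ∧ (P α ↔ ∃ s > 0, f α ∈ F s)

/-- The external product of `a` and `b`. -/
def extMul (p : A →ₐ[K] C) (q : B →ₐ[K] C) (a : A) (b : B) : C := p a * q b

/-- The filtration of `C` given by the span of the products `m x y`, where `x 0, …, x (n - 1)` have
weights `s i` with sum at least `t`. -/
def prodSpan (F : ℝ → Submodule K A) {n : ℕ} (m : (Fin n → A) → B → C) (t : ℝ) :
    Submodule K C :=
  Submodule.span K {c | ∃ (x : Fin n → A) (s : Fin n → ℝ) (y : B),
    (∀ i, x i ∈ F (s i)) ∧ t ≤ ∑ i, s i ∧ m x y = c}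

/-- The element `α` is orthogonal to `U`. -/
def IsOrth (tr : A →ₗ[K] K) (U : Submodule K A) (α : A) : Prop := ∀ β ∈ U, tr (α * β) = 0

/-- The map `f` maps some element of `U` to a nonzero multiple of `1`. -/
def HitsOne (f : A →ₗ[K] B) (U : Submodule K A) : Prop := ∃ β ∈ U, ∃ c : K, c ≠ 0 ∧ f β = c • 1

end Alg

open Pool.Agent.H914 Pool.Agent.H914.VarClass Pool.Agent.H914.VarClass.Obj
  Pool.Agent.H914.WeilCohomology Pool.Agent.R908

variable {k : Type u} [Field k] {𝒱 : VarClass k} {ops : CycleOps 𝒱}

/-- The maps from `H(X)` to itself given by the `K`-linear combinations of algebraic cycles of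
codimension `p` on `X × X`. -/
def kCorr (W : WeilCohomology.{u, v} ops) (X : 𝒱.Obj) (p : ℕ) : Set (W.H X → W.H X) :=
  {φ | ∃ γ ∈ spanCycles W (X.prod X) p, ⇑(W.corr γ) = φ}

/-- Some `K`-linear combination of algebraic correspondences of degree `0` from `X` to itself is
multiplication by `(-1) ^ i` on `H^i(X)`, for all `i`. -/
def SignOpAlgebraic (W : WeilCohomology.{u, v} ops) (X : 𝒱.Obj) : Prop :=
  ∃ φ ∈ kCorr W X X.dim, IsSignOp (W.gr X) φ

/-- The action on `H(X)` of the symmetries of the Weil cohomology theory. -/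
def symms (W : WeilCohomology.{u, v} ops) (X : 𝒱.Obj) : Set (W.H X → W.H X) :=
  {φ | ∃ S : Symmetry W, ⇑(S.σ X) = φ}

/-- The external product of the classes `x 0, …, x (n - 1)` on `X` and of the class `y` on `Y`,
a class on `X ^ n × Y`. -/
noncomputable def box (W : WeilCohomology.{u, v} ops) {X Y : 𝒱.Obj} :
    ∀ n : ℕ, (Fin n → W.H X) → W.H Y → W.H (pX X Y n)
  | 0, _, y => y
  | n + 1, x, y => extMul (W.map (fst X (pX X Y n))) (W.map (snd X (pX X Y n))) (x 0)
      (box W n (fun i => x i.succ) y)

/-- The `n`-th tensor power of the filtration `F` of `H(X)`, on the cohomology of `X ^ n × Y`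
(`H(Y)` has weight `0`): the span of the external products of `n` classes on `X` of weights
`s i` with sum at least `t` and of a class on `Y`. -/
noncomputable def prodFil (W : WeilCohomology.{u, v} ops) {X : 𝒱.Obj}
    (F : ℝ → Submodule W.K (W.H X)) (Y : 𝒱.Obj) (n : ℕ) (t : ℝ) :
    Submodule W.K (W.H (pX X Y n)) :=
  prodSpan F (box W (Y := Y) n) t

/-- Some `K`-linear combination of classes of cycles on `X` is mapped by `g_*` to a nonzero multiple
of the fundamental class of `V` (this holds if `g` is surjective). -/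
def IsDominating (W : WeilCohomology.{u, v} ops) {X V : 𝒱.Obj} (g : X ⟶ V) : Prop :=
  ∃ p : ℕ, HitsOne (W.push g) (spanCycles W X p)

/-- The class `α` is numerically equivalent to zero: its intersection numbers with all cycles (in
the complementary codimension) are zero. -/
def NumZero (W : WeilCohomology.{u, v} ops) (V : 𝒱.Obj) (α : W.H V) : Prop :=
  ∀ q : ℕ, IsOrth (W.tr V) (spanCycles W V q) α

/-- The filtration `F` of `H(X)` is a weight filtration: a filtration which is self-dual,
multiplicative, compatible with the degrees, and stable under the algebraic correspondences (of all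
degrees) and under the symmetries of `W`. -/
structure IsWeightFiltration (W : WeilCohomology.{u, v} ops) (X : 𝒱.Obj)
    (F : ℝ → Submodule W.K (W.H X)) : Prop where
  isFiltration : IsFiltration F
  isSelfDual : IsSelfDual (W.tr X) F
  isMultiplicative : IsMultiplicative F
  isHomogeneous : IsHomogeneous (W.gr X) F
  corr : ∀ p, IsStableUnder F (kCorr W X p)
  symm : IsStableUnder F (symms W X)

/-- The filtration `F` detects numerical equivalence on `V`, for the morphism `g` from `X ^ n × Y`
to `V`: all `K`-linear combinations `α` of classes of algebraic cycles of codimension `p` on `V`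
have pull-backs of weight at least `0`, and `α` is numerically equivalent to zero if and only if
its pull-back has positive weight. -/
def Detects (W : WeilCohomology.{u, v} ops) {X : 𝒱.Obj} (F : ℝ → Submodule W.K (W.H X))
    {Y V : 𝒱.Obj} {n : ℕ} (g : pX X Y n ⟶ V) : Prop :=
  ∀ p : ℕ, DetectsOn (prodFil W F Y n) (W.map g) (NumZero W V) (spanCycles W V p)

/-- The property `P` holds for all dominating morphisms from `X ^ n × Y`, where `n ≤ N` and `Y` is
a product of members of `𝒴`. -/
def ForDominated (W : WeilCohomology.{u, v} ops) (X : 𝒱.Obj) (𝒴 : Set 𝒱.Obj) (N : ℕ)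
    (P : ∀ (n : ℕ) (Y V : 𝒱.Obj), (pX X Y n ⟶ V) → Prop) : Prop :=
  ∀ n ≤ N, ∀ Y, IsProductOf 𝒴 Y → ∀ (V : 𝒱.Obj) (g : pX X Y n ⟶ V), IsDominating W g → P n Y V g

end Pool.Agent.N180.Cf
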