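import Pool.Agent.R908.KpB
import Pool.Agent.N180.CfD

/-!
# The canonical filtration of a family of forms
-/

set_option linter.unusedSectionVars false

namespace Pool.Agent.N180.Cf

open Finset Function Pool.Agent.R908.Km Pool.Agent.R908.Km.FIdeal

variable {K : Type*} [Field K] {V : Type*} [AddCommGroup V] [Module K V] {ι : Type*}
  [Fintype ι] [DecidableEq ι]

/-- The families `b` and `c` are dual bases for the form `ψ`. -/
structure DualP (ψ : V →ₗ[K] V →ₗ[K] K) (b c : ι → V) : Prop where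
  delta : ∀ i j, ψ (c i) (b j) = if i = j then 1 else 0
  exp_b : ∀ x, x = ∑ i, ψ (c i) x • b i
  exp_c : ∀ x, x = ∑ i, ψ x (b i) • c i

section FFs

/-- The spaces for an arbitrary finite set of variables. -/
def FFs (F : ∀ m : ℕ, Submodule K ((Fin m → V) → K)) (S : Type) :
    Submodule K ((S → V) → K) where
  carrier := {f | ∀ (m : ℕ) (e : Fin m ≃ S), (fun v : Fin m → V => f (v ∘ e.symm)) ∈ F m}
  add_mem' := fun hf hg m e => (F m).add_mem (hf m e) (hg m e)
  zero_mem' := fun m _ => (F m).zero_mem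
  smul_mem' := fun r _ hf m e => (F m).smul_mem r (hf m e)

variable {F G H : ∀ m : ℕ, Submodule K ((Fin m → V) → K)} {S S' : Type}

/-- Closure under permutations. -/
def PermSt (F : ∀ m : ℕ, Submodule K ((Fin m → V) → K)) : Prop :=
  ∀ (m : ℕ) (f : (Fin m → V) → K) (π : Equiv.Perm (Fin m)), f ∈ F m →
    (fun v => f (v ∘ π)) ∈ F m

lemma mem_FFs (hp : PermSt F) {m : ℕ} (e : Fin m ≃ S) {f : (S → V) → K} :
    f ∈ FFs F S ↔ (fun v : Fin m → V => f (v ∘ e.symm)) ∈ F m := by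
  constructor
  · intro h
    exact h m e
  · intro h m' e'
    have h1 : m' = m := by
      have h2 := Fintype.card_congr (e'.trans e.symm)
      rwa [Fintype.card_fin, Fintype.card_fin] at h2
    subst h1
    have h2 := hp _ _ (e.trans e'.symm) h
    have h3 : (fun v : Fin m' → V => f ((v ∘ (e.trans e'.symm)) ∘ e.symm)) =
        fun v => f (v ∘ e'.symm) := by
      funext v
      congr 1
      funext s
      simp
    rw [← h3]
    exact h2

lemma FFs_reindex (e : S ≃ S') {f : (S → V) → K} (hf : f ∈ FFs F S) :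
    (fun v : S' → V => f (v ∘ e)) ∈ FFs F S' := by
  intro m e'
  exact hf m (e'.trans e.symm)

lemma FFs_ins (hp : PermSt F) {ψ : V →ₗ[K] V →ₗ[K] K}
    (hi : ∀ (m : ℕ) (f : (Fin m → V) → K), f ∈ F m →
      (fun v : Fin (m + 2) → V => ψ (v 0) (v 1) * f (fun j => v j.succ.succ)) ∈ F (m + 2))
    [Finite S] {f : (S → V) → K} (hf : f ∈ FFs F S) :
    (fun v : Option (Option S) → V => ψ (v none) (v (some none)) *
      f (fun s => v (some (some s)))) ∈ FFs F (Option (Option S)) := by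
  classical
  obtain ⟨m, ⟨e'⟩⟩ := Finite.exists_equiv_fin S
  set e := e'.symm
  rw [mem_FFs hp (e2 e)]
  have h1 := hi _ _ (hf m e)
  have h2 : (fun v : Fin (m + 2) → V => ψ (v 0) (v 1) * f ((fun j => v (Fin.succ (Fin.succ j))) ∘
      e.symm)) = fun v => ψ ((v ∘ (e2 e).symm) none) ((v ∘ (e2 e).symm) (some none)) *
        f (fun s => (v ∘ (e2 e).symm) (some (some s))) := by
    funext v
    have h3 : ((fun j => v (Fin.succ (Fin.succ j))) ∘ e.symm) =
        fun s => (v ∘ (e2 e).symm) (some (some s)) := by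
      funext s
      exact (congrArg v (e2_some_some e s)).symm
    rw [Function.comp_apply, Function.comp_apply, e2_none, e2_some_none, h3]
  rw [← h2]
  exact h1

lemma FFs_mul (hp : PermSt H)
    (hm : ∀ (m n : ℕ) (f : (Fin m → V) → K) (g : (Fin n → V) → K), f ∈ F m → g ∈ G n →
      (fun v : Fin (m + n) → V => f (fun i => v (Fin.castAdd n i)) *
        g (fun j => v (Fin.natAdd m j))) ∈ H (m + n))
    [Finite S] [Finite S'] {f : (S → V) → K} {g : (S' → V) → K} (hf : f ∈ FFs F S)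
    (hg : g ∈ FFs G S') :
    (fun v : S ⊕ S' → V => f (fun s => v (Sum.inl s)) * g (fun s => v (Sum.inr s))) ∈
      FFs H (S ⊕ S') := by
  classical
  obtain ⟨m, ⟨e'⟩⟩ := Finite.exists_equiv_fin S
  obtain ⟨n, ⟨e''⟩⟩ := Finite.exists_equiv_fin S'
  set e := e'.symm
  set e₁ := e''.symm
  rw [mem_FFs hp (finSumFinEquiv.symm.trans (Equiv.sumCongr e e₁))]
  have h1 := hm _ _ _ _ (hf m e) (hg n e₁)
  have h2 : (fun v : Fin (m + n) → V => f ((fun i => v (Fin.castAdd n i)) ∘ e.symm) *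
      g ((fun j => v (Fin.natAdd m j)) ∘ e₁.symm)) =
      fun v => f (fun s => (v ∘ (finSumFinEquiv.symm.trans (Equiv.sumCongr e e₁)).symm)
        (Sum.inl s)) * g (fun s => (v ∘ (finSumFinEquiv.symm.trans
          (Equiv.sumCongr e e₁)).symm) (Sum.inr s)) := rfl
  rw [← h2]
  exact h1

/-- All members are multilinear. -/
def MultiSt (F : ∀ m : ℕ, Submodule K ((Fin m → V) → K)) : Prop :=
  ∀ (m : ℕ) (f : (Fin m → V) → K), f ∈ F m →
    ∃ g : MultilinearMap K (fun _ : Fin m => V) K, ∀ v, g v = f v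

lemma FFs_multi (hF : MultiSt F) [Finite S] {f : (S → V) → K} (hf : f ∈ FFs F S) :
    ∃ g : MultilinearMap K (fun _ : S => V) K, ∀ v, g v = f v := by
  classical
  obtain ⟨m, ⟨e'⟩⟩ := Finite.exists_equiv_fin S
  obtain ⟨g, hg⟩ := hF _ _ (hf m e'.symm)
  refine ⟨g.domDomCongr e'.symm, fun v => ?_⟩
  rw [MultilinearMap.domDomCongr_apply, hg]
  congr 1
  funext s
  exact congrArg v (e'.symm_apply_apply s)

/-- All spaces are stable under the substitution of `u x` for one variable `x`. -/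
def VarS (F : ∀ m : ℕ, Submodule K ((Fin m → V) → K)) (u : V → V) : Prop :=
  ∀ (m : ℕ) (f : (Fin m → V) → K), f ∈ F m → ∀ s : Fin m,
    (fun v => f (update v s (u (v s)))) ∈ F m

lemma VarS.ff {u : V → V} (hu : VarS F u) {S : Type} [Finite S] [DecidableEq S]
    {f : (S → V) → K} (hf : f ∈ FFs F S) (s : S) :
    (fun v : S → V => f (update v s (u (v s)))) ∈ FFs F S := by
  classical
  intro m e
  have h1 := hu m _ (hf m e) (e.symm s)
  have h2 : (fun v : Fin m → V => f (update v (e.symm s) (u (v (e.symm s))) ∘ e.symm)) =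
      fun v => f (update (v ∘ e.symm) s (u ((v ∘ e.symm) s))) := by
    funext v
    congr 1
    funext r
    by_cases h3 : r = s
    · subst h3
      rw [Function.comp_apply, update_self, update_self]
      rfl
    · rw [Function.comp_apply, update_of_ne (fun h4 => h3 (e.symm.injective h4)),
        update_of_ne h3]
      rfl
  rw [← h2]
  exact h1

/-- The coordinates of the forms. -/
def CC (F : ∀ m : ℕ, Submodule K ((Fin m → V) → K)) (b c : ι → V) (a : ℕ) :
    Submodule K ((Fin a ⊕ Fin a → ι) → K) :=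
  (FFs F (Fin a ⊕ Fin a)).map (crd b c a)

variable {b c : ι → V}

lemma VarS.slot (hF : MultiSt F) {u : V → V} (hu : VarS F u) {a : ℕ} (s : Fin a ⊕ Fin a)
    {M : Matrix ι ι K} (hM : ∀ p, u (if s.isLeft then c p else b p) =
      ∑ q, M p q • (if s.isLeft then c q else b q)) : SlotSt (CC F b c a) s M := by
  classical
  rintro z ⟨f, hf, rfl⟩
  refine ⟨_, hu.ff hf s, ?_⟩
  funext I
  rw [crd_apply, act]
  rw [crd_subst b c (FFs_multi hF hf) _ (fun t q => oneAt s M t (I t) q)]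
  intro t
  by_cases h : t = s
  · subst h
    rw [update_self, oneAt_self]
    exact hM (I t)
  · rw [update_of_ne h, oneAt_ne h, Finset.sum_eq_single (I t), Matrix.one_apply_eq, one_smul]
    · rfl
    · intro q _ hq
      rw [Matrix.one_apply_ne (Ne.symm hq), zero_smul]
    · intro h0
      exact absurd (Finset.mem_univ _) h0

lemma CC_ins (hp : PermSt F) {ψ : V →ₗ[K] V →ₗ[K] K} (h : DualP ψ b c)
    (hi : ∀ (m : ℕ) (f : (Fin m → V) → K), f ∈ F m →
      (fun v : Fin (m + 2) → V => ψ (v 0) (v 1) * f (fun j => v j.succ.succ)) ∈ F (m + 2))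
    {a : ℕ} {z : (Fin a ⊕ Fin a → ι) → K} (hz : z ∈ CC F b c a) :
    R908.Km.ins z ∈ CC F b c (a + 1) := by
  obtain ⟨f, hf, rfl⟩ := hz
  refine ⟨_, FFs_reindex (eC a) (FFs_ins hp hi hf), ?_⟩
  funext I
  have h1 : (vv b c I ∘ (eC a)) none = c (I (Sum.inl 0)) := rfl
  have h2 : (vv b c I ∘ (eC a)) (some none) = b (I (Sum.inr 0)) := rfl
  rw [crd_apply, R908.Km.ins, h1, h2, h.delta]
  have h3 : (fun s => (vv b c I ∘ (eC a)) (some (some s))) = vv b c (rest I) := by
    funext s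
    rcases s with s | s <;> rfl
  rw [h3]
  by_cases h4 : I (Sum.inl 0) = I (Sum.inr 0)
  · rw [if_pos h4, if_pos h4, one_mul]
    rfl
  · rw [if_neg h4, if_neg h4, zero_mul]

lemma CC_mul (hp : PermSt H)
    (hm : ∀ (m n : ℕ) (f : (Fin m → V) → K) (g : (Fin n → V) → K), f ∈ F m → g ∈ G n →
      (fun v : Fin (m + n) → V => f (fun i => v (Fin.castAdd n i)) *
        g (fun j => v (Fin.natAdd m j))) ∈ H (m + n))
    {m n : ℕ} {z : (Fin m ⊕ Fin m → ι) → K} {w : (Fin n ⊕ Fin n → ι) → K}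
    (hz : z ∈ CC F b c m) (hw : w ∈ CC G b c n) : tmul z w ∈ CC H b c (m + n) := by
  obtain ⟨f, hf, rfl⟩ := hz
  obtain ⟨g, hg, rfl⟩ := hw
  refine ⟨_, FFs_reindex ((Equiv.sumSumSumComm (Fin m) (Fin m) (Fin n) (Fin n)).trans
    (Equiv.sumCongr finSumFinEquiv finSumFinEquiv)) (FFs_mul hp hm hf hg), ?_⟩
  funext I
  rw [crd_apply, tmul, crd_apply, crd_apply]
  congr 2
  · funext s
    rcases s with s | s <;> rfl
  · funext s
    rcases s with s | s <;> rfl

end FFs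

/-- A family of forms as in `FIdeal` with an algebra of forms acting on it. -/
structure FPair (ψ : V →ₗ[K] V →ₗ[K] K) (b c : ι → V) extends FIdeal ψ b c where
  /-- the algebra -/
  G : ∀ m : ℕ, Submodule K ((Fin m → V) → K)
  multiG : MultiSt G
  permG : PermSt G
  insG : ∀ (m : ℕ) (f : (Fin m → V) → K), f ∈ G m →
    (fun v : Fin (m + 2) → V => ψ (v 0) (v 1) * f (fun j => v j.succ.succ)) ∈ G (m + 2)
  mulG : ∀ (m n : ℕ) (f : (Fin m → V) → K) (g : (Fin n → V) → K), f ∈ G m → g ∈ G n →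
    (fun v : Fin (m + n) → V => f (fun i => v (Fin.castAdd n i)) *
      g (fun j => v (Fin.natAdd m j))) ∈ G (m + n)
  mulFG : ∀ (m n : ℕ) (f : (Fin m → V) → K) (g : (Fin n → V) → K), f ∈ F m → g ∈ G n →
    (fun v : Fin (m + n) → V => f (fun i => v (Fin.castAdd n i)) *
      g (fun j => v (Fin.natAdd m j))) ∈ F (m + n)
  le : ∀ m, F m ≤ G m

namespace FPair

variable {ψ : V →ₗ[K] V →ₗ[K] K} {b c : ι → V} (𝓕 : FPair ψ b c)

lemma permF : PermSt 𝓕.F := fun _ _ π hf => 𝓕.perm π hf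

lemma multiF : MultiSt 𝓕.F := fun _ _ hf => 𝓕.multi hf

lemma NN_eq (a : ℕ) : 𝓕.toFIdeal.NN a = CC 𝓕.F b c a := rfl

lemma CC_prm {F : ∀ m : ℕ, Submodule K ((Fin m → V) → K)} {a : ℕ}
    {z : (Fin a ⊕ Fin a → ι) → K} (hz : z ∈ CC F b c a)
    (π : Equiv.Perm (Fin a ⊕ Fin a)) (hπ : ∀ s, (π s).isLeft = s.isLeft) :
    prm π z ∈ CC F b c a := by
  obtain ⟨f, hf, rfl⟩ := hz
  refine ⟨_, FFs_reindex π hf, ?_⟩
  funext I
  rw [prm, crd_apply, crd_apply, vv_comp b c I π hπ]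

lemma CC_tau (h : DualP ψ b c) {a : ℕ} {z : (Fin a ⊕ Fin a → ι) → K} (hz : z ∈ CC 𝓕.F b c a)
    (i j : Fin a) : tau (Sum.inl i) (Sum.inr j) z ∈ CC 𝓕.F b c a := by
  classical
  cases a with
  | zero => exact i.elim0
  | succ a =>
    set π : Equiv.Perm (Fin (a + 1) ⊕ Fin (a + 1)) :=
      Equiv.sumCongr (Equiv.swap 0 i) (Equiv.swap 0 j) with hπ
    have hl : ∀ s, (π s).isLeft = s.isLeft := by
      rintro (s | s) <;> rfl
    have hl' : ∀ s, (π.symm s).isLeft = s.isLeft := by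
      rintro (s | s) <;> rfl
    have h1 : π (Sum.inl 0) = Sum.inl i := by
      change Sum.inl (Equiv.swap 0 i 0) = _
      rw [Equiv.swap_apply_left]
    have h2 : π (Sum.inr 0) = Sum.inr j := by
      change Sum.inr (Equiv.swap 0 j 0) = _
      rw [Equiv.swap_apply_left]
    have h3 : prm π (prm π.symm z) = z := by
      funext I
      rw [prm, prm]
      congr 1
      funext s
      rw [Function.comp_apply, Function.comp_apply, Equiv.apply_symm_apply]
    have h4 := tau_prm π (Sum.inl 0) (Sum.inr 0) (prm π.symm z)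
    rw [h3, h1, h2, tau_zero] at h4
    rw [h4]
    exact CC_prm (CC_ins 𝓕.permF h (fun _ _ hf => 𝓕.ins hf)
      (𝓕.toFIdeal.NN_cz (CC_prm hz π.symm hl'))) π hl

/-- **The tensor ideal in the algebra of tensors.** -/
def toTP (h : DualP ψ b c) : TPair K ι where
  N := CC 𝓕.F b c
  A := CC 𝓕.G b c
  zero := by
    rw [eq_bot_iff]
    rintro z ⟨f, hf, rfl⟩
    rw [𝓕.toFIdeal.FF_zero hf, map_zero]
    exact Submodule.zero_mem _
  sw_mem := by
    intro a z s t hz hst hl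
    refine CC_prm hz (Equiv.swap s t) (fun r => ?_)
    by_cases h1 : r = s
    · rw [h1, Equiv.swap_apply_left, hl]
    by_cases h2 : r = t
    · rw [h2, Equiv.swap_apply_right, hl]
    · rw [Equiv.swap_apply_of_ne_of_ne h1 h2]
  tau_mem := by
    intro a z s t hz hl
    rcases s with i | i
    · rcases t with j | j
      · exact absurd rfl hl
      · exact 𝓕.CC_tau h hz i j
    · rcases t with j | j
      · rw [tau_symm _ _ (by simp)]
        exact 𝓕.CC_tau h hz j i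
      · exact absurd rfl hl
  cz_mem := fun hz => 𝓕.toFIdeal.NN_cz hz
  ins_mem := fun hz => CC_ins 𝓕.permF h (fun _ _ hf => 𝓕.ins hf) hz
  mul_mem := fun hz hw => CC_mul 𝓕.permF (fun _ _ _ _ hf hg => 𝓕.mul hf hg) hz hw
  insA := fun hz => CC_ins 𝓕.permG h 𝓕.insG hz
  mulA := fun hz hw => CC_mul 𝓕.permG 𝓕.mulG hz hw
  mulN := fun hz hw => CC_mul 𝓕.permF 𝓕.mulFG hz hw

lemma toTP_le (h : DualP ψ b c) (a : ℕ) : (𝓕.toTP h).N a ≤ (𝓕.toTP h).A a := by
  rintro z ⟨f, hf, rfl⟩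
  exact ⟨f, fun m e => 𝓕.le m (hf m e), rfl⟩

end FPair

section Dual

variable {ψ : V →ₗ[K] V →ₗ[K] K} {b c : ι → V} (h : DualP ψ b c)
include h

lemma DualP.c_LL (x : ι → K) (i : ι) : ψ (c i) (LL K b x) = x i := by
  rw [LL_apply, map_sum, Finset.sum_eq_single i]
  · rw [map_smul, h.delta, if_pos rfl, smul_eq_mul, mul_one]
  · intro j _ hj
    rw [map_smul, h.delta, if_neg (Ne.symm hj), smul_zero]
  · intro h0
    exact absurd (Finset.mem_univ _) h0

lemma DualP.LL_inj {x y : ι → K} (hxy : LL K b x = LL K b y) : x = y := by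
  funext i
  rw [← h.c_LL x i, hxy, h.c_LL]

lemma DualP.LL_surj (x : V) : ∃ y, LL K b y = x := by
  refine ⟨fun i => ψ (c i) x, ?_⟩
  rw [LL_apply]
  exact (h.exp_b x).symm

lemma DualP.LL_u (u : V →ₗ[K] V) (x : ι → K) :
    u (LL K b x) = LL K b ((mt ψ b c u).mulVec x) := by
  rw [LL_apply, LL_apply, map_sum]
  have e1 : ∀ j, u (x j • b j) = ∑ i, (x j * mt ψ b c u i j) • b i := by
    intro j
    rw [map_smul]
    conv_lhs => rw [h.exp_b (u (b j))]
    rw [Finset.smul_sum]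
    refine Finset.sum_congr rfl fun i _ => ?_
    rw [smul_smul]
    rfl
  rw [Finset.sum_congr rfl fun j _ => e1 j, Finset.sum_comm]
  refine Finset.sum_congr rfl fun i _ => ?_
  rw [Matrix.mulVec, dotProduct, ← Finset.sum_smul]
  congr 1
  refine Finset.sum_congr rfl fun j _ => ?_
  rw [mul_comm]

lemma DualP.psi_LL (x y : ι → K) : ψ (LL K b x) (LL K b y) = x ⬝ᵥ (gram ψ b).mulVec y := by
  rw [LL_apply x, map_sum, LinearMap.sum_apply, dotProduct]
  refine Finset.sum_congr rfl fun i _ => ?_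
  rw [map_smul, LinearMap.smul_apply, LL_apply y, map_sum, smul_eq_mul, Matrix.mulVec,
    dotProduct]
  congr 1
  refine Finset.sum_congr rfl fun j _ => ?_
  rw [map_smul, smul_eq_mul, mul_comm]
  rfl

lemma DualP.crd_inj {a : ℕ} {f : (Fin a ⊕ Fin a → V) → K}
    (hf : ∃ g : MultilinearMap K (fun _ : Fin a ⊕ Fin a => V) K, ∀ v, g v = f v)
    (h0 : crd b c a f = 0) : f = 0 := by
  funext w
  rw [crd_subst b c hf w (fun s q => if s.isLeft then ψ (w s) (b q) else ψ (c q) (w s)), h0]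
  · simp
  · intro s
    by_cases hs : s.isLeft
    · simp only [if_pos hs]
      exact h.exp_c (w s)
    · simp only [if_neg hs]
      exact h.exp_b (w s)

lemma DualP.value {a : ℕ} {f : (Fin a ⊕ Fin a → V) → K}
    (hf : ∃ g : MultilinearMap K (fun _ : Fin a ⊕ Fin a => V) K, ∀ v, g v = f v)
    (x : Fin a ⊕ Fin a → ι → K) :
    vl (gram ψ b) (crd b c a f) x = f (fun s => LL K b (x s)) := by
  rw [vl, crd_subst b c hf (fun s => LL K b (x s))
    (fun s q => if s.isLeft then (Matrix.vecMul (x s) (gram ψ b)) q else x s q)]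
  intro s
  by_cases hs : s.isLeft
  · simp only [if_pos hs]
    conv_lhs => rw [h.exp_c (LL K b (x s))]
    refine Finset.sum_congr rfl fun q _ => ?_
    congr 1
    rw [LL_apply, map_sum, LinearMap.sum_apply, Matrix.vecMul, dotProduct]
    refine Finset.sum_congr rfl fun i _ => ?_
    rw [map_smul, LinearMap.smul_apply, smul_eq_mul]
    rfl
  · simp only [if_neg hs]
    exact LL_apply _

lemma DualP.exch_mem {a : ℕ} {f : (Fin a ⊕ Fin a → V) → K}
    (hf : ∃ g : MultilinearMap K (fun _ : Fin a ⊕ Fin a => V) K, ∀ v, g v = f v) :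
    exch (act (mm (gram ψ b) (gram ψ c)) (crd b c a f)) =
      crd b c a (fun v => f (v ∘ Equiv.sumComm (Fin a) (Fin a))) := by
  funext I
  rw [exch, act, crd_apply]
  rw [crd_subst b c hf (vv b c I ∘ Equiv.sumComm (Fin a) (Fin a))
    (fun s q => mm (gram ψ b) (gram ψ c) s (I s.swap) q)]
  intro s
  rcases s with s | s
  · change vv b c I (Sum.inr s) = ∑ q, ψ (b (I (Sum.inr s))) (b q) • c q
    exact h.exp_c _
  · change vv b c I (Sum.inl s) = ∑ q, ψ (c q) (c (I (Sum.inl s))) • b q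
    exact h.exp_b _

/-- Stability of the coordinates under an operator with an adjoint. -/
lemma DualP.stab {F : ∀ m : ℕ, Submodule K ((Fin m → V) → K)} (hF : MultiSt F)
    {u u' : V →ₗ[K] V} (hadj : ∀ x y, ψ (u' x) y = ψ x (u y)) (hu : VarS F u)
    (hu' : VarS F u') (a : ℕ) : Stab (CC F b c a) (mt ψ b c u) where
  left := by
    intro s
    refine hu'.slot hF (Sum.inl s) (fun p => ?_)
    change u' (c p) = ∑ q, mt ψ b c u p q • c q
    conv_lhs => rw [h.exp_c (u' (c p))]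
    refine Finset.sum_congr rfl fun q _ => ?_
    rw [hadj]
    rfl
  right := by
    intro s
    refine hu.slot hF (Sum.inr s) (fun p => ?_)
    change u (b p) = ∑ q, mt ψ b c u q p • b q
    exact h.exp_b (u (b p))

end Dual

namespace FPair

variable {ψ : V →ₗ[K] V →ₗ[K] K} {b c : ι → V} (𝓕 : FPair ψ b c)

/-- **The canonical filtration of a family of forms.** -/
theorem exists_filtration [CharZero K] (h : DualP ψ b c) {ρ ρ' : V →ₗ[K] V}
    (hρ : ∀ x y, ψ x y = ψ y (ρ x)) (hρ' : ∀ x y, ψ (ρ' x) y = ψ x (ρ y))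
    (h1 : VarS 𝓕.F ρ) (h2 : VarS 𝓕.F ρ') (h3 : VarS 𝓕.G ρ) (h4 : VarS 𝓕.G ρ') (n : ℕ)
    (hne : ∃ m ≤ n, ∃ f ∈ 𝓕.F m, f ≠ 0) :
    ∃ U : ℝ → Submodule K V, Antitone U ∧ (∃ c : ℝ, 0 < c ∧ U c = ⊥ ∧ U (-c) = ⊤) ∧
      (∃ S : Finset ℝ, ∀ x, x ≠ 0 → ∃ s ∈ S, x ∈ U s ∧ ∀ t, x ∈ U t → t ≤ s) ∧
      (∀ t x, x ∈ U t ↔ ∀ s, -t < s → ∀ y ∈ U s, ψ y x = 0) ∧
      (∀ u u' : V →ₗ[K] V, (∀ x y, ψ (u' x) y = ψ x (u y)) → VarS 𝓕.F u → VarS 𝓕.F u' →
        VarS 𝓕.G u → VarS 𝓕.G u' → ∀ t, ∀ x ∈ U t, u x ∈ U t) ∧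
      (∀ (σ : V →ₗ[K] V) (χ : K), χ ≠ 0 → (∀ x y, ψ (σ x) (σ y) = χ * ψ x y) →
        (∀ (m : ℕ) (f : (Fin m → V) → K), f ∈ 𝓕.F m → (fun v => f (σ ∘ v)) ∈ 𝓕.F m) →
        (∀ (m : ℕ) (f : (Fin m → V) → K), f ∈ 𝓕.G m → (fun v => f (σ ∘ v)) ∈ 𝓕.G m) →
        ∀ t, ∀ x ∈ U t, σ x ∈ U t) ∧
      (∀ m ≤ n, ∀ f ∈ 𝓕.F m, ∀ (x : Fin m → V) (t : Fin m → ℝ), (∀ s, x s ∈ U (t s)) →
        f x ≠ 0 → ∑ s, t s < 0) ∧
      (∀ m ≤ n, ∀ f ∈ 𝓕.G m, ∀ (x : Fin m → V) (t : Fin m → ℝ), (∀ s, x s ∈ U (t s)) →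
        f x ≠ 0 → ∑ s, t s ≤ 0) := by
  classical
  set T := 𝓕.toTP h with hT
  -- the Gram matrix is invertible
  set C := gram ψ b with hC
  set D := gram ψ c with hD
  set P := mt ψ b c ρ with hP
  have hCD : C * D = P.transpose := by
    ext i j
    rw [Matrix.mul_apply]
    have e1 : ψ (b i) (c j) = ∑ q, ψ (b i) (b q) * ψ (c q) (c j) := by
      conv_lhs => rw [h.exp_b (c j)]
      rw [map_sum]
      refine Finset.sum_congr rfl fun q _ => ?_
      rw [map_smul, smul_eq_mul, mul_comm]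
    have e2 : ∑ q, C i q * D q j = ψ (b i) (c j) := e1.symm
    rw [e2, hρ]
    rfl
  have hCP : C.transpose = C * P := by
    ext i j
    rw [Matrix.mul_apply]
    change ψ (b j) (b i) = ∑ q, ψ (b i) (b q) * ψ (c q) (ρ (b j))
    rw [hρ]
    conv_lhs => rw [h.exp_b (ρ (b j))]
    rw [map_sum]
    refine Finset.sum_congr rfl fun q _ => ?_
    rw [map_smul, smul_eq_mul, mul_comm]
  have hCinj : Function.Injective C.mulVec := by
    intro x y hxy
    apply h.LL_inj
    rw [← sub_eq_zero, ← map_sub]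
    rw [h.exp_b (LL K b (x - y))]
    apply Finset.sum_eq_zero
    intro i _
    obtain ⟨z, hz⟩ := h.LL_surj (c i)
    rw [← hz, h.psi_LL, ← hC, Matrix.mulVec_sub, sub_eq_zero.2 hxy, dotProduct_zero, zero_smul]
  have hCunit : IsUnit C := Matrix.mulVec_injective_iff_isUnit.1 hCinj
  have hCdet : IsUnit C.det := (Matrix.isUnit_iff_isUnit_det C).1 hCunit
  have hCC : C * C⁻¹ = 1 := Matrix.mul_nonsing_inv C hCdet
  have hPunit : IsUnit P := by
    have e1 : P = C⁻¹ * C.transpose := by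
      rw [hCP, ← Matrix.mul_assoc, Matrix.nonsing_inv_mul C hCdet, Matrix.one_mul]
    rw [e1]
    refine IsUnit.mul ?_ ?_
    · exact (Matrix.isUnit_nonsing_inv_iff).2 hCunit
    · exact (Matrix.isUnit_iff_isUnit_det _).2 (by rw [Matrix.det_transpose]; exact hCdet)
  have hPdet : IsUnit P.det := (Matrix.isUnit_iff_isUnit_det P).1 hPunit
  have hPP : P * P⁻¹ = 1 := Matrix.mul_nonsing_inv P hPdet
  have hPP' : P⁻¹ * P = 1 := Matrix.nonsing_inv_mul P hPdet
  have hCi : C⁻¹ = D * (P⁻¹).transpose := by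
    apply Matrix.inv_eq_right_inv
    rw [← Matrix.mul_assoc, hCD, ← Matrix.transpose_mul, hPP', Matrix.transpose_one]
  have hstF : ∀ a, Stab (T.N a) P := fun a => h.stab 𝓕.multiF hρ' h1 h2 a
  have hstG : ∀ a, Stab (T.A a) P := fun a => h.stab 𝓕.multiG hρ' h3 h4 a
  have hexch : ∀ (B : ∀ m : ℕ, Submodule K ((Fin m → V) → K)), MultiSt B →
      (∀ a, Stab (CC B b c a) P) → ∀ a, ∀ z ∈ CC B b c a,
        exch (act (mm C C⁻¹) z) ∈ CC B b c a := by
    intro B hB hst a z hz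
    have e1 : act (mm C C⁻¹) z = act (mm 1 (P⁻¹).transpose) (act (mm C D) z) := by
      rw [act_mm, Matrix.one_mul, hCi]
    have e2 : exch (act (mm 1 (P⁻¹).transpose) (act (mm C D) z)) =
        act (mm P⁻¹ 1) (exch (act (mm C D) z)) := by
      funext I
      rw [act_exch, Matrix.transpose_one]
      rfl
    rw [e1, e2]
    have e3 : exch (act (mm C D) z) ∈ CC B b c a := by
      obtain ⟨f, hf, rfl⟩ := hz
      rw [h.exch_mem (FFs_multi hB hf)]
      exact ⟨_, FFs_reindex (Equiv.sumComm (Fin a) (Fin a)) hf, rfl⟩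
    apply act_mem_of_slots _ e3
    rintro (s | s)
    · exact SlotSt.inv ((hst a).left s) hPP
    · change SlotSt _ _ (Matrix.transpose 1)
      rw [Matrix.transpose_one]
      exact SlotSt.one
  have hNe : ∃ z ∈ T.N n, z ≠ 0 := by
    obtain ⟨m, hm, f, hf, hf0⟩ := hne
    have hsq : (fun v : Fin m ⊕ Fin m → V => f (fun s => v (Sum.inl s)) *
        f (fun s => v (Sum.inr s))) ∈ FFs 𝓕.F (Fin m ⊕ Fin m) :=
      FFs_mul 𝓕.permF (fun _ _ _ _ hf hg => 𝓕.mul hf hg)
        ((mem_FFs 𝓕.permF (Equiv.refl _)).2 hf) ((mem_FFs 𝓕.permF (Equiv.refl _)).2 hf)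
    obtain ⟨w, hw⟩ := Function.ne_iff.1 hf0
    have hz : crd b c m (fun v : Fin m ⊕ Fin m → V => f (fun s => v (Sum.inl s)) *
        f (fun s => v (Sum.inr s))) ≠ 0 := by
      intro hz
      have e1 := h.crd_inj (FFs_multi 𝓕.multiF hsq) hz
      have e2 := congrFun e1 (fun s => Sum.elim w w s)
      exact (mul_ne_zero hw hw) e2
    have hm0 : m ≠ 0 := by
      rintro rfl
      exact hf0 (𝓕.zero hf)
    obtain ⟨I₀, -⟩ := Function.ne_iff.1 hz
    obtain ⟨l, rfl⟩ := Nat.exists_eq_add_of_le hm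
    have key : ∀ l, ∃ z ∈ T.N (m + l), z ≠ 0 := by
      intro l
      induction l with
      | zero => exact ⟨_, ⟨_, hsq, rfl⟩, hz⟩
      | succ l ih =>
        obtain ⟨z, hz, hz0⟩ := ih
        refine ⟨_, T.ins_mem hz, fun h0 => hz0 ?_⟩
        funext I
        have i : ι := I₀ (Sum.inl ⟨0, Nat.pos_of_ne_zero hm0⟩)
        have e1 := congrFun h0 (ext i i I)
        rw [R908.Km.ins, ext_inl_zero, ext_inr_zero, if_pos rfl] at e1
        have e2 : R908.Km.rest (ext i i I) = I := by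
          funext s
          rcases s with s | s <;> rfl
        rw [e2] at e1
        exact e1
    exact key l
  obtain ⟨U', hU1, ⟨c₀, hc₀, hU2, hU2'⟩, ⟨S, hS⟩, hU3, hU4, hU5, hU6, hU7⟩ :=
    Cf.exists_filtration T (𝓕.toTP_le h) hCC hCP (hexch _ 𝓕.multiF hstF n)
      (hexch _ 𝓕.multiG hstG n) (hstF n) (hstG n) hNe
  have hval : ∀ (B : ∀ m : ℕ, Submodule K ((Fin m → V) → K)), MultiSt B → PermSt B →
      (∀ (m n : ℕ) (f : (Fin m → V) → K) (g : (Fin n → V) → K), f ∈ B m → g ∈ B n →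
        (fun v : Fin (m + n) → V => f (fun i => v (Fin.castAdd n i)) *
          g (fun j => v (Fin.natAdd m j))) ∈ B (m + n)) → ∀ m, ∀ f ∈ B m,
      ∀ (x : Fin m → V) (t : Fin m → ℝ), (∀ s, x s ∈ (U' (t s)).map (LL K b)) → f x ≠ 0 →
      ∃ z ∈ CC B b c m, ∃ x' : Fin m ⊕ Fin m → ι → K, (∀ s, x' s ∈ U' (Sum.elim t t s)) ∧
        vl C z x' ≠ 0 := by
    intro B hB hp hmul m f hf x t hx hfx
    have hsq : (fun v : Fin m ⊕ Fin m → V => f (fun s => v (Sum.inl s)) *
        f (fun s => v (Sum.inr s))) ∈ FFs B (Fin m ⊕ Fin m) :=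
      FFs_mul hp hmul ((mem_FFs hp (Equiv.refl _)).2 hf) ((mem_FFs hp (Equiv.refl _)).2 hf)
    choose y hy hyx using hx
    refine ⟨_, ⟨_, hsq, rfl⟩, Sum.elim y y, ?_, ?_⟩
    · rintro (s | s)
      · exact hy s
      · exact hy s
    · rw [h.value (FFs_multi hB hsq)]
      have e1 : (fun s => LL K b (Sum.elim y y (Sum.inl s))) = x := funext hyx
      have e2 : (fun s => LL K b (Sum.elim y y (Sum.inr s))) = x := funext hyx
      rw [e1, e2]
      exact mul_ne_zero hfx hfx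
  refine ⟨fun t => (U' t).map (LL K b), ?_, ⟨c₀, hc₀, ?_, ?_⟩, ⟨S, ?_⟩, ?_, ?_, ?_, ?_, ?_⟩
  · intro t t' htt
    exact Submodule.map_mono (hU1 htt)
  · beta_reduce
    rw [hU2, Submodule.map_bot]
  · beta_reduce
    rw [hU2', Submodule.map_top, LinearMap.range_eq_top]
    exact h.LL_surj
  · intro x hx
    obtain ⟨y, rfl⟩ := h.LL_surj x
    obtain ⟨s, hs, hys, hmax⟩ := hS y (fun h0 => hx (by rw [h0, map_zero]))
    refine ⟨s, hs, ⟨y, hys, rfl⟩, ?_⟩
    rintro t ⟨y', hy', hyy⟩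
    rw [h.LL_inj hyy] at hy'
    exact hmax t hy'
  · intro t x
    obtain ⟨y, rfl⟩ := h.LL_surj x
    constructor
    · rintro ⟨y', hy', hyy⟩ s hs _ ⟨z, hz, rfl⟩
      rw [h.LL_inj hyy] at hy'
      rw [h.psi_LL]
      exact (hU3 t y).1 hy' s hs z hz
    · intro hall
      refine ⟨y, (hU3 t y).2 (fun s hs z hz => ?_), rfl⟩
      have e1 := hall s hs (LL K b z) ⟨z, hz, rfl⟩
      rwa [h.psi_LL] at e1
  · rintro u u' hadj hu hu' hv hv' t _ ⟨x, hx, rfl⟩
    rw [h.LL_u]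
    exact ⟨_, hU5 _ (h.stab 𝓕.multiF hadj hu hu' n) (h.stab 𝓕.multiG hadj hv hv' n) t x hx, rfl⟩
  · rintro σ χ hχ hσ hst hst' t _ ⟨x, hx, rfl⟩
    set Q : Matrix ι ι K := mt ψ b c σ with hQ
    set Q'' : Matrix ι ι K := fun p q => ψ (σ (c p)) (b q) with hQ''
    have hQQ : Q'' * (χ⁻¹ • Q) = 1 := by
      ext p r
      rw [Matrix.mul_smul, Matrix.smul_apply, Matrix.mul_apply, smul_eq_mul]
      have e1 : ∑ q, Q'' p q * Q q r = ψ (σ (c p)) (σ (b r)) := by
        conv_rhs => rw [h.exp_b (σ (b r))]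
        rw [map_sum]
        refine Finset.sum_congr rfl fun q _ => ?_
        rw [map_smul, smul_eq_mul, mul_comm]
        rfl
      rw [e1, hσ, ← mul_assoc, inv_mul_cancel₀ hχ, one_mul, h.delta, Matrix.one_apply]
    have hstab : ∀ (B : ∀ m : ℕ, Submodule K ((Fin m → V) → K)), MultiSt B →
        (∀ (m : ℕ) (f : (Fin m → V) → K), f ∈ B m → (fun v => f (σ ∘ v)) ∈ B m) →
        ∀ z ∈ CC B b c n, act (mm Q'' (χ⁻¹ • Q)) z ∈ CC B b c n := by
      rintro B hB hst z ⟨g, hg, rfl⟩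
      have e1 : act (mm Q'' (χ⁻¹ • Q)) (crd b c n g) =
          (χ⁻¹) ^ n • crd b c n (fun v => g (σ ∘ v)) := by
        funext I
        rw [act_smul_right, Pi.smul_apply, smul_eq_mul, crd_apply]
        congr 1
        rw [act]
        rw [crd_subst b c (FFs_multi hB hg) _ (fun s q => mm Q'' Q s (I s) q)]
        intro s
        rcases s with s | s
        · change σ (c (I (Sum.inl s))) = ∑ q, ψ (σ (c (I (Sum.inl s)))) (b q) • c q
          exact h.exp_c _
        · change σ (b (I (Sum.inr s))) = ∑ q, ψ (c q) (σ (b (I (Sum.inr s)))) • b q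
          exact h.exp_b _
      rw [e1]
      refine Submodule.smul_mem _ _ ⟨_, ?_, rfl⟩
      intro m e
      exact hst m _ (hg m e)
    have hV1 := hU4 Q'' (χ⁻¹ • Q) hQQ (hstab _ 𝓕.multiF hst) (hstab _ 𝓕.multiG hst') t
    have hinj : Function.Injective (Q''.mulVecLin.restrict hV1) := by
      intro y y' hyy
      have e1 : Q''.mulVec y.1 = Q''.mulVec y'.1 := congrArg Subtype.val hyy
      have e2 := congrArg (χ⁻¹ • Q).mulVec e1
      rw [Matrix.mulVec_mulVec, Matrix.mulVec_mulVec, mul_eq_one_comm.1 hQQ, Matrix.one_mulVec,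
        Matrix.one_mulVec] at e2
      exact Subtype.ext e2
    obtain ⟨y, hy⟩ := LinearMap.injective_iff_surjective.1 hinj ⟨x, hx⟩
    have e1 : Q''.mulVec y.1 = x := congrArg Subtype.val hy
    have e2 : Q.mulVec x = χ • y.1 := by
      have e3 := congrArg (χ⁻¹ • Q).mulVec e1
      rw [Matrix.mulVec_mulVec, mul_eq_one_comm.1 hQQ, Matrix.one_mulVec,
        Matrix.smul_mulVec] at e3
      rw [e3, smul_smul, mul_inv_cancel₀ hχ, one_smul]
    rw [h.LL_u]
    refine ⟨_, ?_, rfl⟩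
    change Q.mulVec x ∈ U' t
    rw [e2]
    exact (U' t).smul_mem _ y.2
  · intro m hm f hf x t hx hfx
    obtain ⟨z, hz, x', hx', hv⟩ := hval _ 𝓕.multiF 𝓕.permF
      (fun _ _ _ _ hf hg => 𝓕.mul hf hg) m f hf x t hx hfx
    have e1 := hU6 m hm z hz x' (fun s => Sum.elim t t s) hx' hv
    rw [Fintype.sum_sum_type] at e1
    simp only [Sum.elim_inl, Sum.elim_inr] at e1
    linarith
  · intro m hm f hf x t hx hfx
    obtain ⟨z, hz, x', hx', hv⟩ := hval _ 𝓕.multiG 𝓕.permG 𝓕.mulG m f hf x t hx hfx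
    have e1 := hU7 m hm z hz x' (fun s => Sum.elim t t s) hx' hv
    rw [Fintype.sum_sum_type] at e1
    simp only [Sum.elim_inl, Sum.elim_inr] at e1
    linarith

end FPair

end Pool.Agent.N180.Cf
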