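import Pool.Agent.R908.KnG
import Pool.Agent.R908.KqA
import Pool.Agent.N180.CfE

/-!
# Plain permutations of the factors, for varieties with an algebraic sign operator
-/

open CategoryTheory AlgebraicGeometry TensorProduct Function

universe u v w w'

set_option linter.unusedSectionVars false

namespace Pool.Agent.N180.Cf

open Pool.Agent.H914 Pool.Agent.H914.VarClass Pool.Agent.H914.VarClass.Obj
  Pool.Agent.H914.WeilCohomology Pool.Agent.R908 Pool.Agent.R908.Km

variable {k : Type u} [Field k] {𝒱 : VarClass k} {ops : CycleOps 𝒱}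
  {W : WeilCohomology.{u, v} ops} {X Y Z X' Y' Z' : 𝒱.Obj}

/-- The operator `κ` is an algebraic operator which is multiplication by `(-1) ^ i` in degree
`i`. -/
structure IsSign (W : WeilCohomology.{u, v} ops) (X : 𝒱.Obj) (κ : W.H X →ₗ[W.K] W.H X) :
    Prop where
  mem : κ ∈ KOp W X X 0
  apply : ∀ i, ∀ a ∈ W.gr X i, κ a = (-1 : W.K) ^ i • a

namespace IsSign

variable {κ : W.H X →ₗ[W.K] W.H X} (hκ : IsSign W X κ)
include hκ

lemma sq (a : W.H X) : κ (κ a) = a := by
  refine gr_induction (W.isInternal X) (p := fun a => κ (κ a) = a) ?_ ?_ a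
  · intro i a ha
    rw [hκ.apply i a ha, map_smul, hκ.apply i a ha, smul_smul, ← pow_add, ← two_mul, pow_mul,
      neg_one_sq, one_pow, one_smul]
  · intro a b ha hb
    rw [map_add, map_add, ha, hb]

/-- The projector to the part of parity `p`. -/
noncomputable def _root_.Pool.Agent.N180.Cf.pr (κ : W.H X →ₗ[W.K] W.H X) (p : ℕ) :
    W.H X →ₗ[W.K] W.H X :=
  (2 : W.K)⁻¹ • (LinearMap.id + (-1 : W.K) ^ p • κ)

lemma pr_mem (p : ℕ) : pr κ p ∈ KOp W X X 0 :=
  Submodule.smul_mem _ _ (Submodule.add_mem _ (KOp.id X) (Submodule.smul_mem _ _ hκ.mem))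

lemma pr_apply (p : ℕ) {i : ℕ} {a : W.H X} (ha : a ∈ W.gr X i) :
    pr κ p a = if Even (i + p) then a else 0 := by
  rw [pr, LinearMap.smul_apply, LinearMap.add_apply, LinearMap.smul_apply, hκ.apply i a ha,
    LinearMap.id_apply, smul_smul, ← pow_add, add_comm p i]
  by_cases he : Even (i + p)
  · rw [if_pos he, he.neg_one_pow, one_smul, ← two_smul W.K a, smul_smul,
      inv_mul_cancel₀ two_ne_zero, one_smul]
  · rw [if_neg he, (Nat.not_even_iff_odd.1 he).neg_one_pow, neg_smul, one_smul, add_neg_cancel,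
      smul_zero]

lemma pr_sum (a : W.H X) : pr κ 0 a + pr κ 1 a = a := by
  rw [pr, pr, pow_zero, pow_one, one_smul, LinearMap.smul_apply, LinearMap.smul_apply,
    LinearMap.add_apply, LinearMap.add_apply, LinearMap.smul_apply, neg_smul, one_smul,
    LinearMap.id_apply, ← smul_add, add_add_add_comm, add_neg_cancel, add_zero,
    ← two_smul W.K a, smul_smul, inv_mul_cancel₀ two_ne_zero, one_smul]

lemma comp_pr_sum (f : W.H X →ₗ[W.K] W.K) : f = f ∘ₗ pr κ 0 + f ∘ₗ pr κ 1 := by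
  apply LinearMap.ext
  intro a
  rw [LinearMap.add_apply, LinearMap.comp_apply, LinearMap.comp_apply, ← map_add, hκ.pr_sum]

lemma par_pr (f : W.H X →ₗ[W.K] W.K) (p : ℕ) : Par W p (f ∘ₗ pr κ p) := by
  intro i a ha hodd
  rw [LinearMap.comp_apply, hκ.pr_apply p ha, if_neg (Nat.not_even_iff_odd.2 hodd), map_zero]

/-- Linear forms of parity `p`. -/
lemma par_comp {p : ℕ} {f : W.H X →ₗ[W.K] W.K} (hf : Par W p f) :
    f ∘ₗ κ = ((-1 : W.K) ^ p) • f := by
  apply gr_ext (W.isInternal X)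
  intro i a ha
  rw [LinearMap.comp_apply, LinearMap.smul_apply, hκ.apply i a ha, map_smul]
  by_cases hodd : Odd (i + p)
  · rw [hf i a ha hodd, smul_zero, smul_zero]
  · rw [Nat.not_odd_iff_even] at hodd
    congr 1
    rcases Nat.even_or_odd p with hp | hp
    · rw [hp.neg_one_pow, ((Nat.even_add.1 hodd).2 hp).neg_one_pow]
    · have hi : Odd i := by
        rw [← Nat.not_even_iff_odd] at hp ⊢
        exact fun h => hp ((Nat.even_add.1 hodd).1 h)
      rw [hp.neg_one_pow, hi.neg_one_pow]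

/-- The commutation of the two arguments of the form. -/
lemma tr_comm (a b : W.H X) : W.tr X (a * b) = W.tr X (b * κ a) := by
  refine gr_induction (W.isInternal X) (p := fun a => W.tr X (a * b) = W.tr X (b * κ a)) ?_ ?_ a
  swap
  · intro a a' ha ha'
    rw [add_mul, map_add, map_add, mul_add, map_add, ha, ha']
  intro i a ha
  refine gr_induction (W.isInternal X) (p := fun b => W.tr X (a * b) = W.tr X (b * κ a)) ?_ ?_ b
  swap
  · intro b b' hb hb'
    rw [mul_add, map_add, add_mul, map_add, hb, hb']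
  intro j b hb
  rw [hκ.apply i a ha, mul_smul_comm, map_smul, W.comm ha hb, map_smul, smul_eq_mul,
    smul_eq_mul]
  by_cases hij : i + j = 2 * X.dim
  · congr 1
    have h1 : (Even i ↔ Even j) := Nat.even_add.1 ⟨X.dim, by omega⟩
    rcases Nat.even_or_odd i with hi | hi
    · rw [(hi.mul_right j).neg_one_pow, hi.neg_one_pow]
    · have hj : Odd j := Nat.not_even_iff_odd.1
        (fun h => (Nat.not_even_iff_odd.2 hi) (h1.2 h))
      rw [(hi.mul hj).neg_one_pow, hi.neg_one_pow]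
  · rw [W.tr_eq_zero (W.mul_mem hb ha) (by omega), mul_zero, mul_zero]

/-- The sign operator is self-adjoint. -/
lemma tr_adj (a b : W.H X) : W.tr X (κ a * b) = W.tr X (a * κ b) := by
  rw [hκ.tr_comm (κ a) b, hκ.sq, hκ.tr_comm a (κ b)]
  have h1 : W.tr X (κ b * κ a) = W.tr X (b * κ (κ a)) := by
    refine gr_induction (W.isInternal X)
      (p := fun a => W.tr X (κ b * κ a) = W.tr X (b * κ (κ a))) ?_ ?_ a
    swap
    · intro a a' ha ha'
      rw [map_add, mul_add, map_add, map_add, mul_add, map_add, ha, ha']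
    intro i a ha
    refine gr_induction (W.isInternal X)
      (p := fun b => W.tr X (κ b * κ a) = W.tr X (b * κ (κ a))) ?_ ?_ b
    swap
    · intro b b' hb hb'
      rw [map_add, add_mul, map_add, add_mul, map_add, hb, hb']
    intro j b hb
    rw [hκ.sq, hκ.apply i a ha, hκ.apply j b hb, smul_mul_assoc, mul_smul_comm, map_smul,
      map_smul, smul_smul, ← pow_add]
    by_cases hij : j + i = 2 * X.dim
    · rw [hij, (even_two_mul _).neg_one_pow, one_smul]
    · rw [W.tr_eq_zero (W.mul_mem hb ha) hij, smul_zero]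
  rw [h1, hκ.sq]

/-- Left adjoints. -/
lemma exists_left {δ : ℤ} {φ : W.H X →ₗ[W.K] W.H X} (hφ : φ ∈ KOp W X X δ) :
    ∃ φ' ∈ KOp W X X δ, ∀ a b, W.tr X (φ' a * b) = W.tr X (a * φ b) := by
  obtain ⟨ξ, hξ, h⟩ := KOp.exists_adjoint hφ
  refine ⟨κ ∘ₗ ξ ∘ₗ κ, KOp.cast (KOp.comp hκ.mem (KOp.comp hξ hκ.mem)) (by ring),
    fun a b => ?_⟩
  rw [LinearMap.comp_apply, LinearMap.comp_apply, hκ.tr_adj, ← hκ.tr_comm, ← h, ← hκ.tr_comm]

end IsSign

section Swap

variable {κ : W.H X →ₗ[W.K] W.H X}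

/-- Moving a form of parity `q` past a factor with an algebraic sign operator. -/
lemma exists_move (hκ : IsSign W X κ) (Y Z : 𝒱.Obj) (q : ℕ) :
    ∃ Φ ∈ KOp W (Y.prod (X.prod Z)) (X.prod (Y.prod Z)) 0,
      ∀ (f : W.H X →ₗ[W.K] W.K) (g : W.H Y →ₗ[W.K] W.K) (h : W.H Z →ₗ[W.K] W.K),
        Par W q g → tens W f (tens W g h) ∘ₗ Φ = tens W g (tens W f h) := by
  obtain ⟨Φ₀, hΦ₀, h0⟩ := exists_swap3 (W := W) Y X Z
  have key : ∃ T ∈ KOp W (X.prod Z) (X.prod Z) 0,
      ∀ (p : ℕ) (f : W.H X →ₗ[W.K] W.K) (h : W.H Z →ₗ[W.K] W.K), Par W p f →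
        tens W f h ∘ₗ T = ((-1 : W.K) ^ (q * p)) • tens W f h := by
    rcases Nat.even_or_odd q with hq | hq
    · refine ⟨LinearMap.id, KOp.id _, fun p f h hf => ?_⟩
      rw [LinearMap.comp_id, (hq.mul_right p).neg_one_pow, one_smul]
    · refine ⟨extHom W κ LinearMap.id, KOp.cast (KOp.extHom hκ.mem (KOp.id _)) (by ring),
        fun p f h hf => ?_⟩
      rw [tens_extHom, hκ.par_comp hf, LinearMap.comp_id, tens_smul_left]
      congr 1
      rcases Nat.even_or_odd p with hp | hp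
      · rw [hp.neg_one_pow, (hp.mul_left q).neg_one_pow]
      · rw [hp.neg_one_pow, (hq.mul hp).neg_one_pow]
  obtain ⟨T, hT, h1⟩ := key
  refine ⟨Φ₀ ∘ₗ extHom W LinearMap.id T, KOp.cast (KOp.comp hΦ₀ (KOp.extHom (KOp.id _) hT))
    (by ring), ?_⟩
  have main : ∀ (p : ℕ) (f : W.H X →ₗ[W.K] W.K) (g : W.H Y →ₗ[W.K] W.K)
      (h : W.H Z →ₗ[W.K] W.K), Par W q g → Par W p f →
      tens W f (tens W g h) ∘ₗ (Φ₀ ∘ₗ extHom W LinearMap.id T) = tens W g (tens W f h) := by
    intro p f g h hg hf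
    rw [← LinearMap.comp_assoc, h0 q p g f h hg hf, LinearMap.smul_comp, tens_extHom,
      LinearMap.comp_id, h1 p f h hf, tens_smul_right, smul_smul, ← pow_add, ← two_mul, pow_mul,
      neg_one_sq, one_pow, one_smul]
  intro f g h hg
  rw [hκ.comp_pr_sum f, tens_add_left, tens_add_left, LinearMap.add_comp,
    main 0 _ g h hg (hκ.par_pr f 0), main 1 _ g h hg (hκ.par_pr f 1), tens_add_right]

/-- The exchange of two factors with an algebraic sign operator, without signs. -/
lemma exists_swap (hκ : IsSign W X κ) (Z : 𝒱.Obj) :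
    ∃ Φ ∈ KOp W (X.prod (X.prod Z)) (X.prod (X.prod Z)) 0,
      ∀ (f g : W.H X →ₗ[W.K] W.K) (h : W.H Z →ₗ[W.K] W.K),
        tens W f (tens W g h) ∘ₗ Φ = tens W g (tens W f h) := by
  obtain ⟨Φ₀, hΦ₀, h0⟩ := exists_swap3 (W := W) X X Z
  set T : W.H (X.prod (X.prod Z)) →ₗ[W.K] W.H (X.prod (X.prod Z)) :=
    (2 : W.K)⁻¹ • (extHom W LinearMap.id LinearMap.id + extHom W κ LinearMap.id +
      extHom W LinearMap.id (extHom W κ LinearMap.id) +
        (-1 : W.K) • extHom W κ (extHom W κ LinearMap.id)) with hTd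
  have hT : T ∈ KOp W (X.prod (X.prod Z)) (X.prod (X.prod Z)) 0 := by
    refine Submodule.smul_mem _ _ (Submodule.add_mem _ (Submodule.add_mem _
      (Submodule.add_mem _ ?_ ?_) ?_) (Submodule.smul_mem _ _ ?_))
    · exact KOp.cast (KOp.extHom (KOp.id _) (KOp.id _)) (by ring)
    · exact KOp.cast (KOp.extHom hκ.mem (KOp.id _)) (by ring)
    · exact KOp.cast (KOp.extHom (KOp.id _) (KOp.extHom hκ.mem (KOp.id _))) (by ring)
    · exact KOp.cast (KOp.extHom hκ.mem (KOp.extHom hκ.mem (KOp.id _))) (by ring)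
  have h1 : ∀ (p q : ℕ) (f g : W.H X →ₗ[W.K] W.K) (h : W.H Z →ₗ[W.K] W.K), Par W p f →
      Par W q g → tens W f (tens W g h) ∘ₗ T = ((-1 : W.K) ^ (p * q)) • tens W f (tens W g h) := by
    intro p q f g h hf hg
    rw [hTd, LinearMap.comp_smul, LinearMap.comp_add, LinearMap.comp_add, LinearMap.comp_add,
      LinearMap.comp_smul]
    simp only [tens_extHom, hκ.par_comp hf, hκ.par_comp hg, LinearMap.comp_id, tens_smul_left,
      tens_smul_right, smul_smul]
    rw [← one_smul W.K (tens W f (tens W g h)), smul_smul, smul_smul, smul_smul, ← add_smul,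
      ← add_smul, ← add_smul, smul_smul, smul_smul]
    congr 1
    have h2 : (2 : W.K) ≠ 0 := two_ne_zero
    rcases Nat.even_or_odd p with hp | hp <;> rcases Nat.even_or_odd q with hq | hq
    · rw [hp.neg_one_pow, hq.neg_one_pow, (hp.mul_right q).neg_one_pow]
      field_simp
      ring
    · rw [hp.neg_one_pow, hq.neg_one_pow, (hp.mul_right q).neg_one_pow]
      field_simp
      ring
    · rw [hp.neg_one_pow, hq.neg_one_pow, (hq.mul_left p).neg_one_pow]
      field_simp
      ring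
    · rw [hp.neg_one_pow, hq.neg_one_pow, (hp.mul hq).neg_one_pow]
      field_simp
      ring
  refine ⟨Φ₀ ∘ₗ T, KOp.cast (KOp.comp hΦ₀ hT) (by ring), ?_⟩
  have main : ∀ (p q : ℕ) (f g : W.H X →ₗ[W.K] W.K) (h : W.H Z →ₗ[W.K] W.K), Par W p f →
      Par W q g → tens W f (tens W g h) ∘ₗ (Φ₀ ∘ₗ T) = tens W g (tens W f h) := by
    intro p q f g h hf hg
    rw [← LinearMap.comp_assoc, h0 q p g f h hg hf, LinearMap.smul_comp, h1 q p g f h hg hf,
      smul_smul, ← pow_add, ← two_mul, pow_mul, neg_one_sq, one_pow, one_smul]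
  intro f g h
  rw [hκ.comp_pr_sum f, hκ.comp_pr_sum g]
  simp only [tens_add_left, tens_add_right, LinearMap.add_comp]
  rw [main 0 0 _ _ h (hκ.par_pr f 0) (hκ.par_pr g 0),
    main 0 1 _ _ h (hκ.par_pr f 0) (hκ.par_pr g 1),
    main 1 0 _ _ h (hκ.par_pr f 1) (hκ.par_pr g 0),
    main 1 1 _ _ h (hκ.par_pr f 1) (hκ.par_pr g 1)]
  abel

/-- Adjacent transpositions, without signs. -/
lemma exists_adjP (hκ : IsSign W X κ) (Y : 𝒱.Obj) : ∀ (m : ℕ) (s : Fin m),
    ∃ Φ ∈ KOp W (pX X Y (m + 1)) (pX X Y (m + 1)) 0,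
    ∀ (f : Fin (m + 1) → (W.H X →ₗ[W.K] W.K)) (g : W.H Y →ₗ[W.K] W.K),
      msl W (m + 1) f g ∘ₗ Φ = msl W (m + 1) (f ∘ Equiv.swap s.castSucc s.succ) g := by
  intro m
  induction m with
  | zero => exact fun s => s.elim0
  | succ m ih =>
    intro s
    refine Fin.cases ?_ (fun s => ?_) s
    · obtain ⟨Φ, hΦ, h⟩ := exists_swap hκ (pX X Y m)
      refine ⟨Φ, hΦ, fun f g => ?_⟩
      have h1 := h (f 0) (f 1) (msl W m (fun i => f i.succ.succ) g)
      have h2 : msl W (m + 1 + 1) f g =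
        tens W (f 0) (tens W (f 1) (msl W m (fun i => f i.succ.succ) g)) := rfl
      have h3 : msl W (m + 1 + 1) (f ∘ Equiv.swap (0 : Fin (m + 1)).castSucc
          (0 : Fin (m + 1)).succ) g =
        tens W (f 1) (tens W (f 0) (msl W m (fun i => f i.succ.succ) g)) := by
        rw [msl_succ, msl_succ]
        have e1 : (f ∘ Equiv.swap (0 : Fin (m + 1)).castSucc (0 : Fin (m + 1)).succ) 0 = f 1 :=
          congrArg f (Equiv.swap_apply_left _ _)
        have e2 : (f ∘ Equiv.swap (0 : Fin (m + 1)).castSucc (0 : Fin (m + 1)).succ)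
            (0 : Fin (m + 1)).succ = f 0 := congrArg f (Equiv.swap_apply_right _ _)
        have e3 : (fun i : Fin m => (f ∘ Equiv.swap (0 : Fin (m + 1)).castSucc
            (0 : Fin (m + 1)).succ) i.succ.succ) = fun i : Fin m => f i.succ.succ := by
          funext i
          refine congrArg f (Equiv.swap_apply_of_ne_of_ne ?_ ?_)
          · intro h'
            exact (Fin.succ_ne_zero _) h'
          · intro h'
            exact (Fin.succ_ne_zero _) (Fin.succ_injective _ h')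
        rw [e1, e2, e3]
      rw [h2, h3]
      exact h1
    · obtain ⟨Φ, hΦ, h⟩ := ih s
      refine ⟨extHom W LinearMap.id Φ, KOp.cast (KOp.extHom (KOp.id _) hΦ) (zero_add 0),
        fun f g => ?_⟩
      have e1 : (f ∘ Equiv.swap s.succ.castSucc s.succ.succ) 0 = f 0 := by
        refine congrArg f (Equiv.swap_apply_of_ne_of_ne ?_ ?_)
        · intro h'
          exact Fin.succ_ne_zero s (Fin.castSucc_injective _ h'.symm)
        · exact (Fin.succ_ne_zero _).symm
      have e2 : (fun i : Fin (m + 1) => (f ∘ Equiv.swap s.succ.castSucc s.succ.succ) i.succ) =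
          (fun i : Fin (m + 1) => f i.succ) ∘ Equiv.swap s.castSucc s.succ := by
        funext i
        rw [Function.comp_apply, Function.comp_apply]
        congr 1
        rw [Equiv.swap_apply_def, Equiv.swap_apply_def]
        have c1 : i.succ = s.succ.castSucc ↔ i = s.castSucc := by
          rw [← Fin.succ_castSucc, Fin.succ_inj]
        have c2 : i.succ = s.succ.succ ↔ i = s.succ := Fin.succ_inj
        by_cases h1 : i = s.castSucc
        · rw [if_pos (c1.2 h1), if_pos h1]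
        · rw [if_neg (fun h' => h1 (c1.1 h')), if_neg h1]
          by_cases h2 : i = s.succ
          · rw [if_pos (c2.2 h2), if_pos h2, ← Fin.succ_castSucc]
          · rw [if_neg (fun h' => h2 (c2.1 h')), if_neg h2]
      have e3 : msl W (m + 1 + 1) (f ∘ Equiv.swap s.succ.castSucc s.succ.succ) g =
          tens W (f 0) (msl W (m + 1) ((fun i : Fin (m + 1) => f i.succ) ∘
            Equiv.swap s.castSucc s.succ) g) := by
        rw [← e1, ← e2]
        rfl
      rw [e3]
      change tens W (f 0) (msl W (m + 1) (fun i => f i.succ) g) ∘ₗ extHom W LinearMap.id Φ = _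
      rw [tens_extHom, LinearMap.comp_id, h _ g]

/-- Permutations of the slots, without signs. -/
lemma exists_permP (hκ : IsSign W X κ) (Y : 𝒱.Obj) : ∀ (m : ℕ) (π : Equiv.Perm (Fin m)),
    ∃ Φ ∈ KOp W (pX X Y m) (pX X Y m) 0,
    ∀ (f : Fin m → (W.H X →ₗ[W.K] W.K)) (g : W.H Y →ₗ[W.K] W.K),
      msl W m f g ∘ₗ Φ = msl W m (f ∘ π) g := by
  intro m
  cases m with
  | zero =>
    intro π
    refine ⟨LinearMap.id, KOp.id _, fun f g => ?_⟩
    rw [LinearMap.comp_id]
    rfl
  | succ m =>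
    intro π
    have h1 : π ∈ Submonoid.closure (Set.range fun i : Fin m ↦
        Equiv.swap i.castSucc i.succ) := by
      rw [Equiv.Perm.mclosure_swap_castSucc_succ]
      exact Submonoid.mem_top π
    induction h1 using Submonoid.closure_induction with
    | mem x hx =>
      obtain ⟨s, rfl⟩ := hx
      exact exists_adjP hκ Y m s
    | one =>
      refine ⟨LinearMap.id, KOp.id _, fun f g => ?_⟩
      rw [LinearMap.comp_id]
      rfl
    | mul x y _ _ hx hy =>
      obtain ⟨Φ, hΦ, h⟩ := hx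
      obtain ⟨Φ', hΦ', h'⟩ := hy
      refine ⟨Φ ∘ₗ Φ', KOp.cast (KOp.comp hΦ hΦ') (add_zero 0), fun f g => ?_⟩
      rw [← LinearMap.comp_assoc, h f g, h' (f ∘ x) g]
      rfl

/-- Moving a factor behind the slots. -/
lemma exists_prod_zeroP (hκ : IsSign W X κ) (Y Y' : 𝒱.Obj) (q : ℕ) : ∀ n : ℕ,
    ∃ Φ ∈ KOp W (Y.prod (pX X Y' n)) (pX X (Y.prod Y') n) 0,
      ∀ (f : Fin n → (W.H X →ₗ[W.K] W.K)) (g : W.H Y →ₗ[W.K] W.K) (g' : W.H Y' →ₗ[W.K] W.K),
        Par W q g → msl W n f (tens W g g') ∘ₗ Φ = tens W g (msl W n f g') := by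
  intro n
  induction n with
  | zero =>
    refine ⟨LinearMap.id, KOp.id _, fun f g g' _ => ?_⟩
    rw [LinearMap.comp_id]
    rfl
  | succ n ih =>
    obtain ⟨Φ, hΦ, h⟩ := ih
    obtain ⟨Ψ, hΨ, h'⟩ := exists_move hκ Y (pX X Y' n) q
    refine ⟨extHom W LinearMap.id Φ ∘ₗ Ψ, KOp.cast (KOp.comp (KOp.extHom (KOp.id _) hΦ) hΨ)
      (by ring), fun f g g' hg => ?_⟩
    have h2 : msl W (n + 1) f (tens W g g') =
      tens W (f 0) (msl W n (fun i => f i.succ) (tens W g g')) := rfl
    have h3 : msl W (n + 1) f g' = tens W (f 0) (msl W n (fun i => f i.succ) g') := rfl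
    rw [h2, h3, ← LinearMap.comp_assoc, tens_extHom, LinearMap.comp_id, h _ g g' hg,
      h' (f 0) g _ hg]

/-- Products of multilinear forms. -/
lemma exists_prodP (hκ : IsSign W X κ) (Y Y' : 𝒱.Obj) (q n : ℕ) : ∀ m : ℕ,
    ∃ Φ ∈ KOp W ((pX X Y m).prod (pX X Y' n)) (pX X (Y.prod Y') (n + m)) 0,
      ∀ (f : Fin (n + m) → (W.H X →ₗ[W.K] W.K)) (g : W.H Y →ₗ[W.K] W.K)
        (g' : W.H Y' →ₗ[W.K] W.K), Par W q g →
          msl W (n + m) f (tens W g g') ∘ₗ Φ =
            tens W (msl W m (fun i => f ⟨i, by omega⟩) g)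
              (msl W n (fun j => f ⟨m + j, by omega⟩) g') := by
  intro m
  induction m with
  | zero =>
    obtain ⟨Φ, hΦ, h⟩ := exists_prod_zeroP hκ Y Y' q n
    refine ⟨Φ, hΦ, fun f g g' hg => ?_⟩
    have h2 : (fun j : Fin n => f ⟨0 + j, by omega⟩) = f := by
      funext j
      congr 1
      apply Fin.ext
      exact zero_add _
    rw [h2]
    exact h f g g' hg
  | succ m ih =>
    obtain ⟨Φ, hΦ, h⟩ := ih
    refine ⟨extHom W LinearMap.id Φ ∘ₗ
      (W.map (Mot.assocR X (pX X Y m) (pX X Y' n))).toLinearMap,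
      KOp.cast (KOp.comp (KOp.extHom (KOp.id _) hΦ) (KOp.mapHom _)) (by ring),
      fun f g g' hg => ?_⟩
    have h2 : msl W (n + (m + 1)) f (tens W g g') =
      tens W (f 0) (msl W (n + m) (fun i => f i.succ) (tens W g g')) := rfl
    have h3 : msl W (m + 1) (fun i => f ⟨i, by omega⟩) g =
      tens W (f 0) (msl W m (fun i => f ⟨i + 1, by omega⟩) g) := rfl
    rw [h2, h3, ← LinearMap.comp_assoc, tens_extHom, LinearMap.comp_id,
      h _ g g' hg, tens_assocR]
    congr 2
    funext j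
    congr 1
    apply Fin.ext
    change m + j + 1 = m + 1 + j
    omega

end Swap

end Pool.Agent.N180.Cf
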