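import Pool.Agent.N180.CfF

/-!
# The families of multilinear forms given by algebraic classes and by numerically trivial classes
-/

open CategoryTheory AlgebraicGeometry TensorProduct Function

universe u v w w'

set_option linter.unusedSectionVars false

namespace Pool.Agent.N180.Cf

open Pool.Agent.H914 Pool.Agent.H914.VarClass Pool.Agent.H914.VarClass.Obj
  Pool.Agent.H914.WeilCohomology Pool.Agent.R908 Pool.Agent.R908.Km

variable {k : Type u} [Field k] {𝒱 : VarClass k} {ops : CycleOps 𝒱}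
  {W : WeilCohomology.{u, v} ops} {X Y Z X' Y' Z' : 𝒱.Obj} {𝒴 : Set 𝒱.Obj} {b b' : Prop}

/-- The multilinear forms given by an algebraic class on `X ^ m × Y`, numerically trivial if `b`
holds. -/
def IsG (W : WeilCohomology.{u, v} ops) (X : 𝒱.Obj) (𝒴 : Set 𝒱.Obj) (b : Prop) (m : ℕ)
    (F : (Fin m → W.H X) → W.K) : Prop :=
  ∃ (Y : 𝒱.Obj) (q : ℕ) (g : W.H Y →ₗ[W.K] W.K) (j : ℤ) (x : W.H (pX X Y m)),
    IsProductOf 𝒴 Y ∧ Par W q g ∧ x ∈ spanCycles W _ j ∧ (b → NumTriv W _ x) ∧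
      F = fun v => msl W m (fun s => bil W X (v s)) g x

/-- The spaces of multilinear forms. -/
def GF (W : WeilCohomology.{u, v} ops) (X : 𝒱.Obj) (𝒴 : Set 𝒱.Obj) (b : Prop) (m : ℕ) :
    Submodule W.K ((Fin m → W.H X) → W.K) :=
  Submodule.span W.K {F | IsG W X 𝒴 b m F}

lemma GF_gen {m : ℕ} {F : (Fin m → W.H X) → W.K} (h : IsG W X 𝒴 b m F) : F ∈ GF W X 𝒴 b m :=
  Submodule.subset_span h

lemma GF_map {m n : ℕ} (L : ((Fin m → W.H X) → W.K) →ₗ[W.K] ((Fin n → W.H X) → W.K))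
    (hL : ∀ F, IsG W X 𝒴 b m F → L F ∈ GF W X 𝒴 b n) {F : (Fin m → W.H X) → W.K}
    (hF : F ∈ GF W X 𝒴 b m) : L F ∈ GF W X 𝒴 b n := by
  have h1 : GF W X 𝒴 b m ≤ (GF W X 𝒴 b n).comap L := Submodule.span_le.2 hL
  exact h1 hF

lemma GF_multi {m : ℕ} {F : (Fin m → W.H X) → W.K} (hF : F ∈ GF W X 𝒴 b m) :
    ∃ g : MultilinearMap W.K (fun _ : Fin m => W.H X) W.K, ∀ v, g v = F v := by
  induction hF using Submodule.span_induction with
  | mem F hF =>
    obtain ⟨Y, q, g, j, x, hY, hq, hx, hn, rfl⟩ := hF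
    have hup : ∀ (v : Fin m → W.H X) (s : Fin m) (t : W.H X),
        (fun r => bil W X (update v s t r)) = update (fun r => bil W X (v r)) s (bil W X t) := by
      intro v s t
      funext r
      by_cases hr : r = s
      · subst hr
        rw [update_self, update_self]
      · rw [update_of_ne hr, update_of_ne hr]
    refine ⟨MultilinearMap.mk' (fun v => msl W m (fun s => bil W X (v s)) g x) ?_ ?_,
      fun v => rfl⟩
    · intro v s t t'
      have h1 := msl_lin m (fun r => bil W X (v r)) g s 1 (bil W X t) (bil W X t')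
      rw [one_smul, one_smul] at h1
      rw [hup, hup, hup, map_add, h1, LinearMap.add_apply]
    · intro v s c t
      have h1 := msl_lin m (fun r => bil W X (v r)) g s c (bil W X t) 0
      have h2 := msl_lin m (fun r => bil W X (v r)) g s 1 0 0
      rw [one_smul, one_smul, add_zero] at h2
      have h3 : msl W m (update (fun r => bil W X (v r)) s 0) g = 0 := left_eq_add.1 h2
      rw [h3, add_zero, add_zero] at h1
      rw [hup, hup, map_smul, h1, LinearMap.smul_apply]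
  | zero => exact ⟨0, fun v => rfl⟩
  | add F F' _ _ hF hF' =>
    obtain ⟨g, hg⟩ := hF
    obtain ⟨g', hg'⟩ := hF'
    exact ⟨g + g', fun v => by rw [_root_.add_apply, hg, hg']; rfl⟩
  | smul c F _ hF =>
    obtain ⟨g, hg⟩ := hF
    exact ⟨c • g, fun v => by rw [_root_.smul_apply, hg]; rfl⟩

lemma GF_mono (h : b' → b) (m : ℕ) : GF W X 𝒴 b m ≤ GF W X 𝒴 b' m := by
  apply Submodule.span_mono
  rintro F ⟨Y, q, g, j, x, hY, hq, hx, hn, rfl⟩
  exact ⟨Y, q, g, j, x, hY, hq, hx, fun hb => hn (h hb), rfl⟩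

lemma GF_zero (hY : ∀ Y, IsProductOf 𝒴 Y → HomEqNum W Y) {F : (Fin 0 → W.H X) → W.K}
    (hF : F ∈ GF W X 𝒴 True 0) : F = 0 := by
  induction hF using Submodule.span_induction with
  | mem F hF =>
    obtain ⟨Y, q, g, j, x, hYY, hq, hx, hn, rfl⟩ := hF
    funext v
    change g x = 0
    have h2 : x = 0 := num_whole (hY Y hYY) j x hx (hn trivial)
    rw [h2, map_zero]
  | zero => rfl
  | add F F' _ _ hF hF' => rw [hF, hF', add_zero]
  | smul c F _ hF => rw [hF, smul_zero]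

/-- Precomposition with a map of the variables. -/
def preG (W : WeilCohomology.{u, v} ops) (X : 𝒱.Obj) {m n : ℕ}
    (φ : (Fin n → W.H X) → (Fin m → W.H X)) :
    ((Fin m → W.H X) → W.K) →ₗ[W.K] ((Fin n → W.H X) → W.K) where
  toFun := fun F v => F (φ v)
  map_add' := fun _ _ => rfl
  map_smul' := fun _ _ => rfl

lemma GF_perm {κ : W.H X →ₗ[W.K] W.H X} (hκ : IsSign W X κ) {m : ℕ}
    {F : (Fin m → W.H X) → W.K} (π : Equiv.Perm (Fin m)) (hF : F ∈ GF W X 𝒴 b m) :
    (fun v => F (v ∘ π)) ∈ GF W X 𝒴 b m := by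
  refine GF_map (preG W X (fun v => v ∘ π)) ?_ hF
  rintro F ⟨Y, q, g, j, x, hY, hq, hx, hn, rfl⟩
  obtain ⟨Φ, hΦ, h1⟩ := exists_permP hκ Y m π
  have h2 : preG W X (fun v => v ∘ π) (fun v => msl W m (fun s => bil W X (v s)) g x) =
      fun v => msl W m (fun s => bil W X (v s)) g (Φ x) := by
    funext v
    have h3 := congrArg (fun G => G x) (h1 (fun s => bil W X (v s)) g)
    beta_reduce at h3
    rw [LinearMap.comp_apply] at h3
    rw [h3]
    rfl
  rw [h2]
  exact GF_gen ⟨Y, q, g, _, Φ x, hY, hq, KOp.map_span hΦ hx, fun hb => NumTriv.op hΦ (hn hb),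
    rfl⟩

/-- The class of the contraction. -/
lemma exists_ctrG (W : WeilCohomology.{u, v} ops) (X : 𝒱.Obj) :
    ∃ (i : ℤ) (d : W.H (X.prod X)), d ∈ spanCycles W _ i ∧
      ∀ a b, W.tr (X.prod X) (d * (W.map (fst X X) a * W.map (snd X X) b)) = bil W X a b := by
  obtain ⟨d, hd, he⟩ := mem_KOp_iff.1 (KOp.id (W := W) X)
  refine ⟨_, d, hd, fun a b => ?_⟩
  have e1 : W.tr (X.prod X) (d * (W.map (fst X X) a * W.map (snd X X) b)) =
      W.tr X ((LinearMap.id : W.H X →ₗ[W.K] W.H X) a * b) := by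
    rw [← he, corr_apply, W.tr_push, mul_assoc]
  rw [e1]
  rfl

/-- The class of the insertion. -/
lemma exists_insG {κ : W.H X →ₗ[W.K] W.H X} (hκ : IsSign W X κ) :
    ∃ (i : ℤ) (d : W.H (X.prod X)), d ∈ spanCycles W _ i ∧
      ∀ a b, tens W (bil W X a) (bil W X b) d = bil W X a b := by
  obtain ⟨d, hd, he⟩ := mem_KOp_iff.1 hκ.mem
  refine ⟨_, d, hd, fun a b => ?_⟩
  have e2 : sl W (bil W X a) d = κ a := by
    rw [sl_bil, ← span_comm hd]
    have e3 : W.push (snd X X) (d * W.map (fst X X) a) = W.corr d a := (corr_apply _ _ _).symm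
    rw [e3, he]
  rw [tens, LinearMap.comp_apply, e2, bil_apply, bil_apply, ← hκ.tr_comm]

lemma bil_expand {n : ℕ} {β γ : Fin n → W.H X} (h : DualP (bil W X) β γ) (x y : W.H X) :
    bil W X x y = ∑ i, bil W X (γ i) x * bil W X (β i) y := by
  conv_lhs => rw [h.exp_b x]
  rw [map_sum, LinearMap.sum_apply]
  refine Finset.sum_congr rfl fun i _ => ?_
  rw [map_smul, LinearMap.smul_apply, smul_eq_mul]

lemma GF_contr {n : ℕ} {β γ : Fin n → W.H X}
    (hbc : DualP (bil W X) β γ) {m : ℕ} {F : (Fin (m + 2) → W.H X) → W.K}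
    (hF : F ∈ GF W X 𝒴 b (m + 2)) :
    (fun v : Fin m → W.H X => ∑ i, F (Fin.cons (γ i) (Fin.cons (β i) v : Fin (m + 1) → W.H X) :
      Fin (m + 2) → W.H X)) ∈ GF W X 𝒴 b m := by
  have e1 : (fun v : Fin m → W.H X => ∑ i, F (Fin.cons (γ i) (Fin.cons (β i) v :
      Fin (m + 1) → W.H X) : Fin (m + 2) → W.H X)) =
        (∑ i, preG W X (fun v : Fin m → W.H X =>
        (Fin.cons (γ i) (Fin.cons (β i) v : Fin (m + 1) → W.H X) :
          Fin (m + 2) → W.H X))) F := by
    funext v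
    rw [LinearMap.sum_apply, Finset.sum_apply]
    rfl
  rw [e1]
  refine GF_map _ ?_ hF
  rintro F ⟨Y, q, g, j, x, hY, hq, hx, hn, rfl⟩
  obtain ⟨l, d, hd, h1⟩ := exists_ctrG W X
  have h2 : (∑ i, preG W X (fun v : Fin m → W.H X =>
        (Fin.cons (γ i) (Fin.cons (β i) v : Fin (m + 1) → W.H X) : Fin (m + 2) → W.H X)))
      (fun v => msl W (m + 2) (fun s => bil W X (v s)) g x) =
      fun v => msl W m (fun s => bil W X (v s)) g (ctr W (pX X Y m) d x) := by
    funext v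
    have h3 := comp_ctr (W := W) (d := d) (f := fun i => bil W X (γ i))
      (f' := fun i => bil W X (β i)) (by
        intro y z
        rw [h1, bil_expand hbc])
      (msl W m (fun s => bil W X (v s)) g)
    have h4 := congrArg (fun G => G x) h3
    beta_reduce at h4
    rw [LinearMap.comp_apply, LinearMap.sum_apply] at h4
    rw [h4, LinearMap.sum_apply, Finset.sum_apply]
    rfl
  rw [h2]
  obtain ⟨j', hj'⟩ := ctr_span hd hx
  exact GF_gen ⟨Y, q, g, _, _, hY, hq, hj', fun hb => ctr_num hd (hn hb), rfl⟩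

lemma GF_ins {κ : W.H X →ₗ[W.K] W.H X} (hκ : IsSign W X κ) {m : ℕ}
    {F : (Fin m → W.H X) → W.K} (hF : F ∈ GF W X 𝒴 b m) :
    (fun v : Fin (m + 2) → W.H X => bil W X (v 0) (v 1) * F (fun j => v j.succ.succ)) ∈
      GF W X 𝒴 b (m + 2) := by
  set L : ((Fin m → W.H X) → W.K) →ₗ[W.K] ((Fin (m + 2) → W.H X) → W.K) :=
    { toFun := fun F v => bil W X (v 0) (v 1) * F (fun j => v j.succ.succ)
      map_add' := fun _ _ => by funext v; exact mul_add _ _ _
      map_smul' := fun _ _ => by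
        funext v
        rw [Pi.smul_apply, Pi.smul_apply, RingHom.id_apply, smul_eq_mul, smul_eq_mul]
        ring } with hL
  refine GF_map L ?_ hF
  rintro F ⟨Y, q, g, j, x, hY, hq, hx, hn, rfl⟩
  obtain ⟨l, d, hd, h1⟩ := exists_insG hκ
  have h2 : L (fun v => msl W m (fun s => bil W X (v s)) g x) =
      fun v => msl W (m + 2) (fun s => bil W X (v s)) g (insC W d x) := by
    funext v
    have h3 : msl W (m + 2) (fun s => bil W X (v s)) g (insC W d x) =
        tens W (bil W X (v 0)) (tens W (bil W X (v 1))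
          (msl W m (fun s => bil W X (v s.succ.succ)) g)) (insC W d x) := rfl
    rw [h3, tens_insC, h1]
    rfl
  rw [h2]
  exact GF_gen ⟨Y, q, g, _, _, hY, hq, insC_span hd hx, fun hb => insC_num hd hx (hn hb), rfl⟩

/-- The product of two forms. -/
def mulG (W : WeilCohomology.{u, v} ops) (X : 𝒱.Obj) {m n : ℕ} (F : (Fin m → W.H X) → W.K)
    (F' : (Fin n → W.H X) → W.K) (v : Fin (n + m) → W.H X) : W.K :=
  F (fun i => v ⟨i, by omega⟩) * F' (fun j => v ⟨m + j, by omega⟩)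

lemma GF_mul_gen {κ : W.H X →ₗ[W.K] W.H X} (hκ : IsSign W X κ) (hb : b → b')
    {m n : ℕ} {F : (Fin m → W.H X) → W.K} {F' : (Fin n → W.H X) → W.K}
    (hF : IsG W X 𝒴 b' m F) (hF' : IsG W X 𝒴 False n F') :
    mulG W X F F' ∈ GF W X 𝒴 b (n + m) := by
  obtain ⟨Y, q, g, j, x, hY, hq, hx, hn, rfl⟩ := hF
  obtain ⟨Y', q', g', j', x', hY', hq', hx', -, rfl⟩ := hF'
  obtain ⟨Φ, hΦ, h1⟩ := exists_prodP hκ Y Y' q n m
  set y : W.H ((pX X Y m).prod (pX X Y' n)) :=
    W.map (fst _ _) x * W.map (snd _ _) x' with hy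
  have h2 : mulG W X (fun v => msl W m (fun s => bil W X (v s)) g x)
      (fun v => msl W n (fun s => bil W X (v s)) g' x') =
      fun v => msl W (n + m) (fun s => bil W X (v s)) (tens W g g') (Φ y) := by
    funext v
    have h3 := congrArg (fun G => G y) (h1 (fun s => bil W X (v s)) g g' hq)
    beta_reduce at h3
    rw [LinearMap.comp_apply, hy, tens_tmul] at h3
    rw [hy, h3]
    rfl
  rw [h2]
  exact GF_gen ⟨Y.prod Y', q + q', tens W g g', _, Φ y, IsProductOf.prod hY hY', hq.tens hq',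
    KOp.map_span hΦ (span_mul (span_map _ hx) (span_map _ hx')),
    fun h => NumTriv.op hΦ (NumTriv.prod hx (hn (hb h)) hx'), rfl⟩

lemma GF_mul {κ : W.H X →ₗ[W.K] W.H X} (hκ : IsSign W X κ)
    {m n : ℕ} {F : (Fin m → W.H X) → W.K} {F' : (Fin n → W.H X) → W.K}
    (hF : F ∈ GF W X 𝒴 b m) (hF' : F' ∈ GF W X 𝒴 False n) :
    mulG W X F F' ∈ GF W X 𝒴 b (n + m) := by
  induction hF using Submodule.span_induction with
  | mem F hF =>
    induction hF' using Submodule.span_induction with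
    | mem F' hF' => exact GF_mul_gen hκ id hF hF'
    | zero =>
      have h1 : mulG W X F (0 : (Fin n → W.H X) → W.K) = 0 := by
        funext v
        exact mul_zero _
      rw [h1]
      exact Submodule.zero_mem _
    | add G G' _ _ hG hG' =>
      have h1 : mulG W X F (G + G') = mulG W X F G + mulG W X F G' := by
        funext v
        exact mul_add _ _ _
      rw [h1]
      exact Submodule.add_mem _ hG hG'
    | smul c G _ hG =>
      have h1 : mulG W X F (c • G) = c • mulG W X F G := by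
        funext v
        rw [Pi.smul_apply, mulG, mulG, Pi.smul_apply, smul_eq_mul, smul_eq_mul, mul_left_comm]
      rw [h1]
      exact Submodule.smul_mem _ _ hG
  | zero =>
    have h1 : mulG W X (0 : (Fin m → W.H X) → W.K) F' = 0 := by
      funext v
      exact zero_mul _
    rw [h1]
    exact Submodule.zero_mem _
  | add G G' _ _ hG hG' =>
    have h1 : mulG W X (G + G') F' = mulG W X G F' + mulG W X G' F' := by
      funext v
      exact add_mul _ _ _
    rw [h1]
    exact Submodule.add_mem _ hG hG'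
  | smul c G _ hG =>
    have h1 : mulG W X (c • G) F' = c • mulG W X G F' := by
      funext v
      rw [Pi.smul_apply, mulG, mulG, Pi.smul_apply, smul_eq_mul, smul_eq_mul, mul_assoc]
    rw [h1]
    exact Submodule.smul_mem _ _ hG

lemma GF_mul' {κ : W.H X →ₗ[W.K] W.H X} (hκ : IsSign W X κ)
    {m n : ℕ} {F : (Fin m → W.H X) → W.K} {F' : (Fin n → W.H X) → W.K}
    (hF : F ∈ GF W X 𝒴 b m) (hF' : F' ∈ GF W X 𝒴 False n) : ∀ l, ∀ hl : l = n + m,
      (fun v : Fin l → W.H X => F (fun i => v ⟨i, by omega⟩) *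
        F' (fun j => v ⟨m + j, by omega⟩)) ∈ GF W X 𝒴 b l := by
  rintro l rfl
  exact GF_mul hκ hF hF'

/-- **The family of forms given by algebraic classes and by numerically trivial classes.** -/
def fPair {κ : W.H X →ₗ[W.K] W.H X} (hκ : IsSign W X κ)
    (hY : ∀ Y, IsProductOf 𝒴 Y → HomEqNum W Y) {n : ℕ} {β γ : Fin n → W.H X}
    (hbc : DualP (bil W X) β γ) : FPair (bil W X) β γ where
  F := GF W X 𝒴 True
  multi := GF_multi
  zero := GF_zero hY
  perm := fun π hF => GF_perm hκ π hF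
  contr := fun hF => GF_contr hbc hF
  ins := fun hF => GF_ins hκ hF
  mul := fun hF hF' => GF_mul' hκ hF (GF_mono (fun h => h.elim) _ hF') _ (Nat.add_comm _ _)
  G := GF W X 𝒴 False
  multiG := fun _ _ hF => GF_multi hF
  permG := fun _ _ π hF => GF_perm hκ π hF
  insG := fun _ _ hF => GF_ins hκ hF
  mulG := fun _ _ _ _ hF hF' => GF_mul' hκ hF hF' _ (Nat.add_comm _ _)
  mulFG := fun _ _ _ _ hF hF' => GF_mul' hκ hF hF' _ (Nat.add_comm _ _)
  le := fun m => GF_mono (fun h => h.elim) m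

/-- Substitution of an algebraic operator. -/
lemma GF_subst {δ : ℤ} {φ : W.H X →ₗ[W.K] W.H X} (hφ : φ ∈ KOp W X X δ) {m : ℕ} (s : Fin m)
    {F : (Fin m → W.H X) → W.K} (hF : F ∈ GF W X 𝒴 b m) :
    (fun v => F (update v s (φ (v s)))) ∈ GF W X 𝒴 b m := by
  refine GF_map (preG W X (fun v => update v s (φ (v s)))) ?_ hF
  rintro F ⟨Y, q, g, j, x, hY, hq, hx, hn, rfl⟩
  obtain ⟨Φ, hΦ, hadj⟩ := KOp.exists_adjoint hφ
  obtain ⟨Ψ, hΨ, h1⟩ := exists_slot (W := W) (X := X) (Y := Y) hΦ m s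
  refine GF_gen ⟨Y, q, g, _, Ψ x, hY, hq, KOp.map_span hΨ hx,
    fun h => NumTriv.op hΨ (hn h), ?_⟩
  funext v
  have h2 := congrArg (fun G => G x) (h1 (fun r => bil W X (v r)) g)
  beta_reduce at h2
  rw [LinearMap.comp_apply] at h2
  rw [h2]
  have h3 : (fun r => bil W X (update v s (φ (v s)) r)) =
      update (fun r => bil W X (v r)) s (bil W X (v s) ∘ₗ Φ) := by
    funext r
    by_cases hr : r = s
    · subst hr
      rw [update_self, update_self]
      apply LinearMap.ext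
      intro y
      rw [LinearMap.comp_apply, bil_apply, bil_apply, hadj]
    · rw [update_of_ne hr, update_of_ne hr]
  change msl W m (fun r => bil W X (update v s (φ (v s)) r)) g x = _
  rw [h3]

lemma GF_varS {δ : ℤ} {φ : W.H X →ₗ[W.K] W.H X} (hφ : φ ∈ KOp W X X δ) :
    VarS (GF W X 𝒴 b) φ := fun _ _ hF s => GF_subst hφ s hF

/-- Symmetries. -/
lemma GF_sym (S : Symmetry W) {m : ℕ} {F : (Fin m → W.H X) → W.K}
    (hF : F ∈ GF W X 𝒴 b m) : (fun v => F (S.L X ∘ v)) ∈ GF W X 𝒴 b m := by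
  refine GF_map (preG W X (fun v => S.L X ∘ v)) ?_ hF
  rintro F ⟨Y, q, g, j, x, hY, hq, hx, hn, rfl⟩
  have h2 : preG W X (fun v => S.L X ∘ v) (fun v => msl W m (fun s => bil W X (v s)) g x) =
      S.c X ^ m • fun v => msl W m (fun s => bil W X (v s)) (g ∘ₗ S.L Y)
        (S.inv.L (pX X Y m) x) := by
    funext v
    have h3 : (fun s => bil W X ((S.L X ∘ v) s)) =
        fun s => S.c X • (bil W X (v s) ∘ₗ S.inv.L X) := by
      funext s
      apply LinearMap.ext
      intro y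
      rw [Function.comp_apply, LinearMap.smul_apply, LinearMap.comp_apply, smul_eq_mul,
        bil_apply, bil_apply, ← S.tr, map_mul (S.σ X)]
      congr 2
      exact (S.L_inv y).symm
    have h4 : g = (g ∘ₗ S.L Y) ∘ₗ S.inv.L Y := by
      apply LinearMap.ext
      intro y
      rw [LinearMap.comp_apply, LinearMap.comp_apply, S.L_inv]
    change msl W m (fun s => bil W X ((S.L X ∘ v) s)) g x = _
    rw [h3, msl_smul_all, LinearMap.smul_apply, Pi.smul_apply]
    congr 1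
    conv_lhs => rw [h4]
    rw [← S.inv.msl_L]
    rfl
  rw [h2]
  exact Submodule.smul_mem _ _ (GF_gen ⟨Y, q, g ∘ₗ S.L Y, j, _, hY, S.par hq,
    S.inv.span hx, fun h => S.inv.num (hn h), rfl⟩)

/-- Surjectivity of the duality. -/
lemma bil_surj (f : W.H X →ₗ[W.K] W.K) : ∃ u, bil W X u = f := by
  have hinj : Function.Injective (bil W X) := by
    rw [injective_iff_map_eq_zero]
    intro a ha
    apply W.nondeg
    intro b
    exact congrArg (fun F => F b) ha
  exact (LinearMap.injective_iff_surjective_of_finrank_eq_finrank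
      (Subspace.dual_finrank_eq (K := W.K) (V := W.H X)).symm).1 hinj f

/-- Dual bases. -/
lemma exists_dualP (W : WeilCohomology.{u, v} ops) (X : 𝒱.Obj) :
    ∃ (n : ℕ) (β γ : Fin n → W.H X), DualP (bil W X) β γ := by
  set β := Module.finBasis W.K (W.H X) with hβ
  choose γ hγ using fun i => bil_surj (W := W) (β.coord i)
  have hdelta : ∀ i j, bil W X (γ i) (β j) = if i = j then 1 else 0 := by
    intro i j
    rw [hγ, Module.Basis.coord_apply, Module.Basis.repr_self, Finsupp.single_apply]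
    by_cases hij : i = j
    · rw [if_pos hij, if_pos hij.symm]
    · rw [if_neg hij, if_neg (Ne.symm hij)]
  refine ⟨_, β, γ, hdelta, ?_, ?_⟩
  · intro x
    conv_lhs => rw [← β.sum_repr x]
    refine Finset.sum_congr rfl fun i _ => ?_
    rw [hγ]
    rfl
  · intro x
    have h0 : ∀ a : W.H X, bil W X a = 0 → a = 0 := by
      intro a ha
      apply W.nondeg
      intro b
      exact congrArg (fun F => F b) ha
    rw [← sub_eq_zero]
    apply h0
    apply β.ext
    intro j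
    rw [map_sub, LinearMap.sub_apply, map_sum, LinearMap.sum_apply, LinearMap.zero_apply,
      Finset.sum_eq_single j, map_smul, LinearMap.smul_apply, hdelta, if_pos rfl, smul_eq_mul,
      mul_one, sub_self]
    · intro i _ hi
      rw [map_smul, LinearMap.smul_apply, hdelta, if_neg hi, smul_zero]
    · intro h0
      exact absurd (Finset.mem_univ _) h0

/-- **The filtration.** -/
theorem exists_fil {κ : W.H X →ₗ[W.K] W.H X} (hκ : IsSign W X κ)
    (hY : ∀ Y, IsProductOf 𝒴 Y → HomEqNum W Y) (n : ℕ)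
    (hne : ∃ m ≤ n, ∃ F ∈ GF W X 𝒴 True m, F ≠ 0) :
    ∃ U : ℝ → Submodule W.K (W.H X), Antitone U ∧ (∃ c : ℝ, 0 < c ∧ U c = ⊥ ∧ U (-c) = ⊤) ∧
      (∃ S : Finset ℝ, ∀ x, x ≠ 0 → ∃ s ∈ S, x ∈ U s ∧ ∀ t, x ∈ U t → t ≤ s) ∧
      (∀ t x, x ∈ U t ↔ ∀ s, -t < s → ∀ y ∈ U s, W.tr X (y * x) = 0) ∧
      (∀ (δ : ℤ) (φ : W.H X →ₗ[W.K] W.H X), φ ∈ KOp W X X δ → ∀ t, ∀ x ∈ U t, φ x ∈ U t) ∧
      (∀ (S : Symmetry W) (t : ℝ), ∀ x ∈ U t, S.σ X x ∈ U t) ∧
      (∀ m ≤ n, ∀ F ∈ GF W X 𝒴 True m, ∀ (x : Fin m → W.H X) (t : Fin m → ℝ),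
        (∀ s, x s ∈ U (t s)) → F x ≠ 0 → ∑ s, t s < 0) ∧
      (∀ m ≤ n, ∀ F ∈ GF W X 𝒴 False m, ∀ (x : Fin m → W.H X) (t : Fin m → ℝ),
        (∀ s, x s ∈ U (t s)) → F x ≠ 0 → ∑ s, t s ≤ 0) := by
  obtain ⟨l, β, γ, hbc⟩ := exists_dualP W X
  obtain ⟨U, h1, h2, h3, h4, h5, h6, h7, h8⟩ := (fPair hκ hY hbc).exists_filtration hbc
    (ρ := κ) (ρ' := κ) (fun x y => hκ.tr_comm x y) (fun x y => hκ.tr_adj x y)
    (GF_varS hκ.mem) (GF_varS hκ.mem) (GF_varS hκ.mem) (GF_varS hκ.mem) n hne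
  refine ⟨U, h1, h2, h3, h4, ?_, ?_, h7, h8⟩
  · intro δ φ hφ
    obtain ⟨φ', hφ', hadj⟩ := hκ.exists_left hφ
    exact h5 φ φ' hadj (GF_varS hφ) (GF_varS hφ') (GF_varS hφ) (GF_varS hφ')
  · intro S
    refine h6 (S.L X) (S.c X) (S.c_ne_zero X) ?_ (fun m f hf => GF_sym S hf)
      (fun m f hf => GF_sym S hf)
    intro x y
    rw [bil_apply, bil_apply, S.L_apply, S.L_apply, ← map_mul, S.tr]

end Pool.Agent.N180.Cf
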