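import Mathlib

/-!
# Bases adapted to a filtration
-/

open Function

namespace Pool.Agent.N180.Cf

section Adapted

variable {K V : Type*} [Field K] [AddCommGroup V] [Module K V] [Module.Finite K V]

/-- **Bases adapted to a filtration.** -/
theorem exists_adapted (U : ℝ → Submodule K V)
    (hj : ∃ S : Finset ℝ, ∀ x, x ≠ 0 → ∃ s ∈ S, x ∈ U s ∧ ∀ t, x ∈ U t → t ≤ s) :
    ∃ (l : ℕ) (e : Module.Basis (Fin l) K V) (w : Fin l → ℝ), (∀ i, e i ∈ U (w i)) ∧
      ∀ t, ∀ x ∈ U t, ∀ i, e.coord i x ≠ 0 → t ≤ w i := by
  classical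
  obtain ⟨S, hS⟩ := hj
  set l := Module.finrank K V with hl
  set P : Set (Fin l → S) := {f | ∃ e : Module.Basis (Fin l) K V, ∀ i, e i ∈ U (f i)} with hP
  have hne : P.Nonempty := by
    set e0 := Module.finBasis K V with he0
    choose s hs hs1 _ using fun i => hS (e0 i) (e0.ne_zero i)
    exact ⟨fun i => ⟨s i, hs i⟩, e0, hs1⟩
  obtain ⟨f, ⟨e, he⟩, hmax⟩ := Set.exists_max_image P (fun f => ∑ i, (f i : ℝ))
    (Set.toFinite P) hne
  refine ⟨l, e, fun i => f i, he, ?_⟩
  intro t x hx j hxj
  by_contra hlt
  push Not at hlt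
  have hx0 : x ≠ 0 := by
    rintro rfl
    exact hxj (map_zero _)
  obtain ⟨s, hsS, hxs, hmx⟩ := hS x hx0
  have hts := hmx t hx
  set T : V →ₗ[K] V := LinearMap.id + (e.coord j).smulRight (x - e j) with hT
  have hTa : ∀ v, T v = v + e.coord j v • (x - e j) := fun v => rfl
  have hcj : e.coord j (e j) = 1 := by
    rw [Module.Basis.coord_apply, Module.Basis.repr_self, Finsupp.single_eq_same]
  have hinj : Injective T := by
    rw [injective_iff_map_eq_zero]
    intro v hv
    rw [hTa] at hv
    have h1 := congrArg (e.coord j) hv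
    rw [map_add, map_smul, map_sub, hcj, map_zero, smul_eq_mul, mul_sub, mul_one,
      add_sub_cancel] at h1
    have h2 : e.coord j v = 0 := (mul_eq_zero.1 h1).resolve_right hxj
    rw [h2, zero_smul, add_zero] at hv
    exact hv
  set e' := e.map (LinearEquiv.ofInjectiveEndo T hinj) with he'
  have he'a : ∀ i, e' i = T (e i) := fun i => by
    rw [he', Module.Basis.map_apply]
    rfl
  have he'j : e' j = x := by
    rw [he'a, hTa, hcj, one_smul, add_sub_cancel]
  have he'i : ∀ i, i ≠ j → e' i = e i := by
    intro i hi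
    have h1 : e.coord j (e i) = 0 := by
      rw [Module.Basis.coord_apply, Module.Basis.repr_self, Finsupp.single_eq_of_ne (Ne.symm hi)]
    rw [he'a, hTa, h1, zero_smul, add_zero]
  have hf' : update f j ⟨s, hsS⟩ ∈ P := by
    refine ⟨e', fun i => ?_⟩
    by_cases hi : i = j
    · subst hi
      rw [he'j, update_self]
      exact hxs
    · rw [he'i i hi, update_of_ne hi]
      exact he i
  have h1 := hmax _ hf'
  have h2 : ∑ i, (f i : ℝ) < ∑ i, ((update f j ⟨s, hsS⟩) i : ℝ) := by
    apply Finset.sum_lt_sum
    · intro i _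
      by_cases hi : i = j
      · subst hi
        rw [update_self]
        exact (lt_of_lt_of_le hlt hts).le
      · rw [update_of_ne hi]
    · refine ⟨j, Finset.mem_univ _, ?_⟩
      rw [update_self]
      exact lt_of_lt_of_le hlt hts
  exact absurd h2 (not_lt.2 h1)

/-- A positive lower bound for the positive values of finitely many sums. -/
lemma exists_pos_le {ι : Type*} [Finite ι] (f : ι → ℝ) :
    ∃ s : ℝ, 0 < s ∧ ∀ i, 0 < f i → s ≤ f i := by
  classical
  have := Fintype.ofFinite ι
  set T : Finset ℝ := (Finset.univ.image f).filter (fun r => 0 < r) with hT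
  by_cases hne : T.Nonempty
  · refine ⟨T.min' hne, (Finset.mem_filter.1 (T.min'_mem hne)).2, fun i hi => ?_⟩
    exact T.min'_le _ (Finset.mem_filter.2 ⟨Finset.mem_image_of_mem _ (Finset.mem_univ _), hi⟩)
  · refine ⟨1, one_pos, fun i hi => ?_⟩
    exact absurd ⟨f i, Finset.mem_filter.2
      ⟨Finset.mem_image_of_mem _ (Finset.mem_univ _), hi⟩⟩ hne

/-- Subspaces stable under an operator are stable under the polynomials in it. -/
lemma aeval_stable {U : Submodule K V} {T : Module.End K V} (h : ∀ x ∈ U, T x ∈ U)
    (P : Polynomial K) : ∀ x ∈ U, Polynomial.aeval T P x ∈ U := by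
  induction P using Polynomial.induction_on' with
  | add P Q hP hQ =>
    intro x hx
    rw [map_add, LinearMap.add_apply]
    exact U.add_mem (hP x hx) (hQ x hx)
  | monomial n a =>
    have h1 : ∀ n : ℕ, ∀ x ∈ U, (T ^ n) x ∈ U := by
      intro n
      induction n with
      | zero => exact fun x hx => hx
      | succ n ih =>
        intro x hx
        rw [pow_succ, Module.End.mul_apply]
        exact ih _ (h x hx)
    intro x hx
    rw [Polynomial.aeval_monomial, Module.End.mul_apply, Module.algebraMap_end_apply]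
    exact U.smul_mem _ (h1 n x hx)

lemma aeval_eigen {T : Module.End K V} {x : V} {c : K} (h : T x = c • x) (P : Polynomial K) :
    Polynomial.aeval T P x = P.eval c • x := by
  induction P using Polynomial.induction_on' with
  | add P Q hP hQ => rw [map_add, LinearMap.add_apply, hP, hQ, Polynomial.eval_add, add_smul]
  | monomial n a =>
    have h1 : ∀ n : ℕ, (T ^ n) x = c ^ n • x := by
      intro n
      induction n with
      | zero => rw [pow_zero, pow_zero, one_smul]; rfl
      | succ n ih => rw [pow_succ, Module.End.mul_apply, h, map_smul, ih, smul_smul, pow_succ']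
    rw [Polynomial.aeval_monomial, Module.End.mul_apply, Module.algebraMap_end_apply, h1,
      Polynomial.eval_monomial, smul_smul]

end Adapted

end Pool.Agent.N180.Cf
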