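import Pool.Agent.N180.CfF
import Pool.Agent.N180.CfH
import Pool.Agent.N180.CfDefs

/-!
# The symmetries given by the grading
-/

open CategoryTheory AlgebraicGeometry TensorProduct Function

universe u v w w'

set_option linter.unusedSectionVars false

namespace Pool.Agent.N180.Cf

open Pool.Agent.H914 Pool.Agent.H914.VarClass Pool.Agent.H914.VarClass.Obj
  Pool.Agent.H914.WeilCohomology Pool.Agent.R908 Pool.Agent.R908.Km
  Pool.Agent.H281R3.HT

variable {k : Type u} [Field k] {𝒱 : VarClass k} {ops : CycleOps 𝒱}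
  {W : WeilCohomology.{u, v} ops} {X Y Z X' Y' Z' : 𝒱.Obj}

/-- Multiplication by `c ^ i` in degree `i`. -/
noncomputable def gsHom (W : WeilCohomology.{u, v} ops) (c : W.K) (X : 𝒱.Obj) :
    W.H X →ₐ[W.K] W.H X :=
  AlgHom.ofLinearMap (scal (W.isInternal X) (fun i => c ^ i))
    (by rw [scal_apply _ _ (W.one_mem X), pow_zero, one_smul])
    (by
      intro a b
      refine gr_induction (W.isInternal X) (p := fun a =>
        scal (W.isInternal X) (fun i => c ^ i) (a * b) =
          scal (W.isInternal X) (fun i => c ^ i) a * scal (W.isInternal X) (fun i => c ^ i) b)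
        ?_ ?_ a
      swap
      · intro a a' ha ha'
        rw [add_mul, map_add, map_add, ha, ha', add_mul]
      intro i a ha
      refine gr_induction (W.isInternal X) (p := fun b =>
        scal (W.isInternal X) (fun i => c ^ i) (a * b) =
          scal (W.isInternal X) (fun i => c ^ i) a * scal (W.isInternal X) (fun i => c ^ i) b)
        ?_ ?_ b
      swap
      · intro b b' hb hb'
        rw [mul_add, map_add, map_add, hb, hb', mul_add]
      intro j b hb
      rw [scal_apply _ _ ha, scal_apply _ _ hb, scal_apply _ _ (W.mul_mem ha hb),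
        smul_mul_smul_comm, pow_add])

lemma gsHom_apply (c : W.K) {i : ℕ} {a : W.H X} (ha : a ∈ W.gr X i) :
    gsHom W c X a = c ^ i • a := scal_apply _ _ ha

lemma gsHom_mem (c : W.K) {i : ℕ} {a : W.H X} (ha : a ∈ W.gr X i) :
    gsHom W c X a ∈ W.gr X i := by
  rw [gsHom_apply c ha]
  exact Submodule.smul_mem _ _ ha

lemma gsHom_inv {c c' : W.K} (h : c * c' = 1) (a : W.H X) : gsHom W c X (gsHom W c' X a) = a := by
  refine gr_induction (W.isInternal X) (p := fun a => gsHom W c X (gsHom W c' X a) = a) ?_ ?_ a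
  · intro i a ha
    rw [gsHom_apply c' ha, map_smul, gsHom_apply c ha, smul_smul, ← mul_pow, mul_comm c' c, h,
      one_pow, one_smul]
  · intro a b ha hb
    rw [map_add, map_add, ha, hb]

lemma gsHom_map (c : W.K) (f : X ⟶ Y) (a : W.H Y) :
    W.map f (gsHom W c Y a) = gsHom W c X (W.map f a) := by
  refine gr_induction (W.isInternal Y)
    (p := fun a => W.map f (gsHom W c Y a) = gsHom W c X (W.map f a)) ?_ ?_ a
  · intro i a ha
    rw [gsHom_apply c ha, map_smul, gsHom_apply c (W.map_mem f ha)]
  · intro a b ha hb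
    rw [map_add, map_add, ha, hb, map_add, map_add]

/-- The automorphism multiplying by `c ^ i` in degree `i`. -/
noncomputable def gs (W : WeilCohomology.{u, v} ops) {c : W.K} (hc : c ≠ 0) (X : 𝒱.Obj) :
    W.H X ≃ₐ[W.K] W.H X :=
  AlgEquiv.ofAlgHom (gsHom W c X) (gsHom W c⁻¹ X)
    (AlgHom.ext fun a => gsHom_inv (mul_inv_cancel₀ hc) a)
    (AlgHom.ext fun a => gsHom_inv (inv_mul_cancel₀ hc) a)

lemma gs_eq {c : W.K} (hc : c ≠ 0) (a : W.H X) : gs W hc X a = gsHom W c X a := rfl

lemma gsHom_span (c : W.K) {p : ℕ} {a : W.H X} (ha : a ∈ spanCycles W X p) :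
    gsHom W c X a ∈ spanCycles W X p := by
  rw [gsHom_apply c (span_gr ha)]
  exact Submodule.smul_mem _ _ ha

/-- **The symmetry given by the grading.** -/
noncomputable def gSym (W : WeilCohomology.{u, v} ops) {c : W.K} (hc : c ≠ 0) : Symmetry W where
  σ := fun X => gs W hc X
  c := fun X => c ^ (2 * X.dim)
  sim := fun X =>
    { ne_zero := pow_ne_zero _ hc
      gr := fun i a => ⟨fun h => by
          have h1 := gsHom_mem c⁻¹ h
          rw [gs_eq, gsHom_inv (inv_mul_cancel₀ hc)] at h1
          exact h1, fun h => gsHom_mem c h⟩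
      tr := fun a => by
        refine gr_induction (W.isInternal X)
          (p := fun a => W.tr X (gs W hc X a) = c ^ (2 * X.dim) * W.tr X a) ?_ ?_ a
        · intro i a ha
          rw [gs_eq, gsHom_apply c ha, map_smul, smul_eq_mul]
          by_cases hi : i = 2 * X.dim
          · rw [hi]
          · rw [W.tr_eq_zero ha hi, mul_zero, mul_zero]
        · intro a b ha hb
          rw [map_add, map_add, ha, hb, map_add, mul_add] }
  monoidal := fun X Y => ⟨fun a => gsHom_map c (fst X Y) a, fun a => gsHom_map c (snd X Y) a⟩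
  cycles := fun X p a => ⟨fun h => by
      have h1 := gsHom_span c⁻¹ h
      rw [gs_eq, gsHom_inv (inv_mul_cancel₀ hc)] at h1
      exact h1, fun h => gsHom_span c h⟩

/-- Subspaces stable under the symmetry for `c = 2` are homogeneous. -/
lemma proj_stable {U : Submodule W.K (W.H X)} (h : ∀ x ∈ U, gsHom W 2 X x ∈ U) (i : ℕ) :
    ∀ x ∈ U, proj (W.isInternal X) i x ∈ U := by
  classical
  by_cases hi : i ∈ Finset.range (2 * X.dim + 1)
  swap
  · intro x _
    have h1 := proj_mem (W.isInternal X) i x
    rw [Finset.mem_range, not_lt] at hi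
    rw [W.gr_eq_bot X i (by omega), Submodule.mem_bot] at h1
    rw [h1]
    exact U.zero_mem
  have hinj : Set.InjOn (fun j : ℕ => (2 : W.K) ^ j) (Finset.range (2 * X.dim + 1)) := by
    intro a _ b _ hab
    have h1 : ((2 ^ a : ℕ) : W.K) = ((2 ^ b : ℕ) : W.K) := by
      push_cast
      exact hab
    exact Nat.pow_right_injective (le_refl 2) (Nat.cast_injective h1)
  set P : Polynomial W.K := Lagrange.basis (Finset.range (2 * X.dim + 1))
    (fun j : ℕ => (2 : W.K) ^ j) i with hP
  have key : Polynomial.aeval (gsHom W 2 X).toLinearMap P = proj (W.isInternal X) i := by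
    apply gr_ext (W.isInternal X)
    intro j a ha
    rw [aeval_eigen (c := (2 : W.K) ^ j) (gsHom_apply 2 ha)]
    by_cases hj : j ∈ Finset.range (2 * X.dim + 1)
    · by_cases hij : i = j
      · subst hij
        rw [hP, Lagrange.eval_basis_self hinj hj, one_smul, proj_same _ ha]
      · rw [hP, Lagrange.eval_basis_of_ne hij hj, zero_smul, proj_ne _ ha (Ne.symm hij)]
    · rw [Finset.mem_range, not_lt] at hj
      rw [W.gr_eq_bot X j (by omega), Submodule.mem_bot] at ha
      rw [ha, smul_zero, map_zero]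
  intro x hx
  rw [← key]
  exact aeval_stable (T := (gsHom W 2 X).toLinearMap) h P x hx

lemma homogeneous_of {U : ℝ → Submodule W.K (W.H X)}
    (h : ∀ (S : Symmetry W) (t : ℝ), ∀ x ∈ U t, S.σ X x ∈ U t) : IsHomogeneous (W.gr X) U := by
  intro t
  have h2 : (2 : W.K) ≠ 0 := two_ne_zero
  apply le_antisymm
  · intro x hx
    have h1 : x = ∑ i ∈ Finset.range (2 * X.dim + 1), proj (W.isInternal X) i x := by
      have h3 := sum_proj (W.isInternal X) (N := 2 * X.dim + 1)
        (fun i hi => W.gr_eq_bot X i (by omega))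
      have h4 := congrArg (fun F : Module.End W.K (W.H X) => F x) h3
      beta_reduce at h4
      rw [LinearMap.sum_apply, Module.End.one_apply] at h4
      exact h4.symm
    rw [h1]
    refine Submodule.sum_mem _ fun i _ => ?_
    exact Submodule.mem_iSup_of_mem i
      ⟨proj_stable (fun x hx => h (gSym W h2) t x hx) i x hx, proj_mem _ _ _⟩
  · exact iSup_le fun i => inf_le_left

/-- The commutation of external products. -/
lemma comm_ext {κ : W.H X →ₗ[W.K] W.H X} (hκ : IsSign W X κ) (a : W.H X) (b : W.H Y) :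
    W.map (fst X Y) a * W.map (snd X Y) b =
      W.map (snd X Y) b * W.map (fst X Y) (pr κ 0 a) +
        W.map (snd X Y) (gsHom W (-1) Y b) * W.map (fst X Y) (pr κ 1 a) := by
  refine gr_induction (W.isInternal X) (p := fun a => W.map (fst X Y) a * W.map (snd X Y) b =
      W.map (snd X Y) b * W.map (fst X Y) (pr κ 0 a) +
        W.map (snd X Y) (gsHom W (-1) Y b) * W.map (fst X Y) (pr κ 1 a)) ?_ ?_ a
  swap
  · intro a a' ha ha'
    rw [map_add, add_mul, ha, ha', map_add (pr κ 0), map_add (pr κ 1), map_add, map_add, mul_add,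
      mul_add]
    abel
  intro i a ha
  refine gr_induction (W.isInternal Y) (p := fun b => W.map (fst X Y) a * W.map (snd X Y) b =
      W.map (snd X Y) b * W.map (fst X Y) (pr κ 0 a) +
        W.map (snd X Y) (gsHom W (-1) Y b) * W.map (fst X Y) (pr κ 1 a)) ?_ ?_ b
  swap
  · intro b b' hb hb'
    rw [map_add, mul_add, hb, hb', map_add (gsHom W (-1) Y), map_add, add_mul, add_mul]
    abel
  intro j b hb
  rw [W.comm (W.map_mem (fst X Y) ha) (W.map_mem (snd X Y) hb), hκ.pr_apply 0 ha,
    hκ.pr_apply 1 ha, gsHom_apply (-1) hb, map_smul]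
  rcases Nat.even_or_odd i with hi | hi
  · have h1 : ¬ Even (i + 1) := Nat.not_even_iff_odd.2 hi.add_one
    rw [if_pos (by simpa using hi), if_neg h1, map_zero, mul_zero, add_zero,
      (hi.mul_right j).neg_one_pow, one_smul]
  · have h1 : Even (i + 1) := hi.add_one
    rw [if_neg (by rw [add_zero]; exact Nat.not_even_iff_odd.2 hi), if_pos h1, map_zero, mul_zero,
      zero_add, smul_mul_assoc]
    congr 1
    rcases Nat.even_or_odd j with hj | hj
    · rw [(hj.mul_left i).neg_one_pow, hj.neg_one_pow]
    · rw [(hi.mul hj).neg_one_pow, hj.neg_one_pow]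

lemma gsHom_neg {κ : W.H X →ₗ[W.K] W.H X} (hκ : IsSign W X κ) (a : W.H X) :
    gsHom W (-1) X a = κ a := by
  refine gr_induction (W.isInternal X) (p := fun a => gsHom W (-1) X a = κ a) ?_ ?_ a
  · intro i a ha
    rw [gsHom_apply _ ha, hκ.apply i a ha]
  · intro a b ha hb
    rw [map_add, map_add, ha, hb]

end Pool.Agent.N180.Cf
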