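import Pool.Agent.N180.CfG
import Pool.Agent.N180.CfI

/-!
# The filtration and its multiplicativity
-/

open CategoryTheory AlgebraicGeometry TensorProduct Function

universe u v w w'

set_option linter.unusedSectionVars false

namespace Pool.Agent.N180.Cf

open Pool.Agent.H914 Pool.Agent.H914.VarClass Pool.Agent.H914.VarClass.Obj
  Pool.Agent.H914.WeilCohomology Pool.Agent.R908 Pool.Agent.R908.Km
  Pool.Agent.H281R3.HT

variable {k : Type u} [Field k] {𝒱 : VarClass k} {ops : CycleOps 𝒱}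
  {W : WeilCohomology.{u, v} ops} {X Y Z X' Y' Z' : 𝒱.Obj} {𝒴 : Set 𝒱.Obj}

/-- The properties of the filtration. -/
structure Good (W : WeilCohomology.{u, v} ops) (X : 𝒱.Obj) (𝒴 : Set 𝒱.Obj) (n : ℕ)
    (U : ℝ → Submodule W.K (W.H X)) : Prop where
  anti : Antitone U
  bds : ∃ c : ℝ, 0 < c ∧ U c = ⊥ ∧ U (-c) = ⊤
  jumps : ∃ S : Finset ℝ, ∀ x, x ≠ 0 → ∃ s ∈ S, x ∈ U s ∧ ∀ t, x ∈ U t → t ≤ s
  dual : ∀ t x, x ∈ U t ↔ ∀ s, -t < s → ∀ y ∈ U s, W.tr X (y * x) = 0
  kop : ∀ (δ : ℤ) (φ : W.H X →ₗ[W.K] W.H X), φ ∈ KOp W X X δ → ∀ t, ∀ x ∈ U t, φ x ∈ U t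
  symm : ∀ (S : Symmetry W) (t : ℝ), ∀ x ∈ U t, S.σ X x ∈ U t
  tform : ∀ m ≤ n, ∀ F ∈ GF W X 𝒴 True m, ∀ (x : Fin m → W.H X) (t : Fin m → ℝ),
    (∀ s, x s ∈ U (t s)) → F x ≠ 0 → ∑ s, t s < 0
  fform : ∀ m ≤ n, ∀ F ∈ GF W X 𝒴 False m, ∀ (x : Fin m → W.H X) (t : Fin m → ℝ),
    (∀ s, x s ∈ U (t s)) → F x ≠ 0 → ∑ s, t s ≤ 0

/-- The trivial filtration. -/
noncomputable def trivU (K : Type*) (V : Type*) [Field K] [AddCommGroup V] [Module K V] (t : ℝ) :
    Submodule K V := if t ≤ 0 then ⊤ else ⊥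

section

variable {K V : Type*} [Field K] [AddCommGroup V] [Module K V]

lemma trivU_le {t : ℝ} (h : t ≤ 0) : trivU K V t = ⊤ := if_pos h

lemma trivU_gt {t : ℝ} (h : 0 < t) : trivU K V t = ⊥ := if_neg (not_le.2 h)

lemma trivU_mem {t : ℝ} {x : V} (h : x ∈ trivU K V t) (hx : x ≠ 0) : t ≤ 0 := by
  by_contra hcon
  push Not at hcon
  rw [trivU_gt hcon, Submodule.mem_bot] at h
  exact hx h

lemma trivU_map {t : ℝ} {x : V} (h : x ∈ trivU K V t) {V' : Type*} [AddCommGroup V']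
    [Module K V'] {f : V → V'} (hf : f 0 = 0) : f x ∈ trivU K V' t := by
  by_cases ht : t ≤ 0
  · rw [trivU_le ht]
    exact Submodule.mem_top
  · push Not at ht
    rw [trivU_gt ht, Submodule.mem_bot] at h ⊢
    rw [h, hf]

end

lemma tr_right_nondeg {κ : W.H X →ₗ[W.K] W.H X} (hκ : IsSign W X κ) {x : W.H X}
    (h : ∀ y, W.tr X (y * x) = 0) : x = 0 := by
  apply W.nondeg
  intro b
  have h1 := hκ.tr_comm (κ b) x
  rw [hκ.sq] at h1
  rw [← h1]
  exact h _

lemma good_triv {κ : W.H X →ₗ[W.K] W.H X} (hκ : IsSign W X κ) {n : ℕ}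
    (h0 : ∀ m ≤ n, ∀ F ∈ GF W X 𝒴 True m, F = 0) : Good W X 𝒴 n (trivU W.K (W.H X)) where
  anti := by
    intro s t hst
    by_cases ht : t ≤ 0
    · rw [trivU_le ht, trivU_le (hst.trans ht)]
    · push Not at ht
      rw [trivU_gt ht]
      exact bot_le
  bds := ⟨1, one_pos, trivU_gt one_pos, trivU_le (by norm_num)⟩
  jumps := by
    refine ⟨{0}, fun x hx => ⟨0, Finset.mem_singleton_self _, ?_, fun t ht => trivU_mem ht hx⟩⟩
    rw [trivU_le (le_refl 0)]
    exact Submodule.mem_top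
  dual := by
    intro t x
    by_cases ht : t ≤ 0
    · rw [trivU_le ht]
      refine ⟨fun _ s hs y hy => ?_, fun _ => Submodule.mem_top⟩
      rw [trivU_gt (by linarith), Submodule.mem_bot] at hy
      rw [hy, zero_mul, map_zero]
    · push Not at ht
      rw [trivU_gt ht, Submodule.mem_bot]
      refine ⟨fun h s _ y _ => by rw [h, mul_zero, map_zero], fun h => ?_⟩
      apply tr_right_nondeg hκ
      intro y
      refine h 0 (by linarith) y ?_
      rw [trivU_le (le_refl 0)]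
      exact Submodule.mem_top
  kop := fun δ φ _ t x hx => trivU_map hx (map_zero φ)
  symm := fun S t x hx => trivU_map hx (map_zero (S.σ X))
  tform := by
    intro m hm F hF x t _ hFx
    rw [h0 m hm F hF] at hFx
    exact absurd rfl hFx
  fform := by
    intro m hm F hF x t hx hFx
    obtain ⟨g, hg⟩ := GF_multi hF
    apply Finset.sum_nonpos
    intro s _
    refine trivU_mem (hx s) ?_
    intro hs
    apply hFx
    rw [← hg]
    exact g.map_coord_zero s hs

/-- **The filtration.** -/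
theorem exists_good {κ : W.H X →ₗ[W.K] W.H X} (hκ : IsSign W X κ)
    (hY : ∀ Y, IsProductOf 𝒴 Y → HomEqNum W Y) (n : ℕ) :
    ∃ U : ℝ → Submodule W.K (W.H X), Good W X 𝒴 n U ∧
      ((∀ m ≤ n, ∀ F ∈ GF W X 𝒴 True m, F = 0) → U = trivU W.K (W.H X)) := by
  by_cases h0 : ∀ m ≤ n, ∀ F ∈ GF W X 𝒴 True m, F = 0
  · exact ⟨_, good_triv hκ h0, fun _ => rfl⟩
  · have hne : ∃ m ≤ n, ∃ F ∈ GF W X 𝒴 True m, F ≠ 0 := by
      push Not at h0
      exact h0
    obtain ⟨U, h1, h2, h3, h4, h5, h6, h7, h8⟩ := exists_fil hκ hY n hne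
    exact ⟨U, ⟨h1, h2, h3, h4, h5, h6, h7, h8⟩, fun h => absurd h h0⟩

/-! ### Multiplicativity -/

lemma tens_zero_right (f : W.H X →ₗ[W.K] W.K) : tens W f (0 : W.H Y →ₗ[W.K] W.K) = 0 := by
  rw [tens, LinearMap.zero_comp]

lemma msl_zero_right : ∀ (n : ℕ) (f : Fin n → (W.H X →ₗ[W.K] W.K)),
    msl W n f (0 : W.H Y →ₗ[W.K] W.K) = 0 := by
  intro n
  induction n with
  | zero => exact fun _ => rfl
  | succ n ih =>
    intro f
    rw [msl_succ, ih, tens_zero_right]

/-- If some form is not zero, then some `H(Y)` is not zero. -/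
lemma exists_nontriv {b : Prop} {m : ℕ} {F : (Fin m → W.H X) → W.K} (hF : F ∈ GF W X 𝒴 b m)
    (h0 : F ≠ 0) : ∃ Y, IsProductOf 𝒴 Y ∧ (1 : W.H Y) ≠ 0 := by
  by_contra hcon
  push Not at hcon
  apply h0
  have h1 : GF W X 𝒴 b m ≤ ⊥ := by
    refine Submodule.span_le.2 ?_
    rintro F ⟨Y, q, g, j, x, hY, -, -, -, rfl⟩
    have h2 := hcon Y hY
    have h3 : g = 0 := by
      apply LinearMap.ext
      intro a
      rw [← one_mul a, h2, zero_mul, map_zero, map_zero]
    rw [h3]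
    change (fun v : Fin m → W.H X => msl W m (fun s => bil W X (v s)) (0 : W.H Y →ₗ[W.K] W.K) x) = 0
    funext v
    rw [msl_zero_right]
    rfl
  exact (Submodule.mem_bot W.K).1 (h1 hF)

/-- A class in the top degree with trace `1`. -/
lemma exists_top (h1 : (1 : W.H Y) ≠ 0) : ∃ y ∈ W.gr Y (2 * Y.dim), W.tr Y y = 1 := by
  have h2 : ∃ b, W.tr Y (1 * b) ≠ 0 := by
    by_contra hcon
    push Not at hcon
    exact h1 (W.nondeg 1 hcon)
  obtain ⟨b, hb⟩ := h2
  rw [one_mul] at hb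
  have h3 : W.tr Y b = W.tr Y (proj (W.isInternal Y) (2 * Y.dim) b) := by
    refine gr_induction (W.isInternal Y)
      (p := fun b => W.tr Y b = W.tr Y (proj (W.isInternal Y) (2 * Y.dim) b)) ?_ ?_ b
    · intro i a ha
      by_cases hi : i = 2 * Y.dim
      · subst hi
        rw [proj_same _ ha]
      · rw [proj_ne _ ha hi, map_zero, W.tr_eq_zero ha hi]
    · intro a a' ha ha'
      rw [map_add, map_add, map_add, ha, ha']
  refine ⟨(W.tr Y b)⁻¹ • proj (W.isInternal Y) (2 * Y.dim) b,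
    Submodule.smul_mem _ _ (proj_mem _ _ _), ?_⟩
  rw [map_smul, ← h3, smul_eq_mul, inv_mul_cancel₀ hb]

lemma par_bil {i : ℕ} {y : W.H Y} (hy : y ∈ W.gr Y i) : Par W i (bil W Y y) := by
  intro j a ha hodd
  apply bil_eq_zero hy ha
  intro h
  have h1 : Even (j + i) := by
    rw [add_comm, h]
    exact even_two_mul _
  exact (Nat.not_even_iff_odd.2 hodd) h1

lemma one_span (V : 𝒱.Obj) : (1 : W.H V) ∈ spanCycles W V 0 :=
  Submodule.subset_span ⟨0, rfl, V.V.fundCycle, V.V.fundCycle_mem, W.cl_fund V⟩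

/-- The forms given by the multiplication. -/
lemma exists_mulForm (hY : IsProductOf 𝒴 Y) (h1 : (1 : W.H Y) ≠ 0) (n : ℕ) :
    ∃ F ∈ GF W X 𝒴 False n, ∀ t : Fin n → W.H X,
      F (fun i => t i.rev) = W.tr X (List.ofFn t).prod := by
  obtain ⟨y, hy, hty⟩ := exists_top h1
  have h2 := KOp.map_span (KOp.pushHom (fX X Y n)) (one_span (W := W) (X.prod Y))
  refine ⟨_, GF_gen ⟨Y, _, bil W Y y, _, W.push (fX X Y n) 1, hY, par_bil hy, h2,
    fun h => h.elim, rfl⟩, fun t => ?_⟩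
  have h3 := tr_component (one_span (W := W) (X.prod Y)) t y
  rw [mul_one] at h3
  have h4 : W.tr (X.prod Y) (W.map (snd X Y) y * W.map (fst X Y) (List.ofFn t).prod) =
      W.tr X (List.ofFn t).prod := by
    have h5 := W.even_comm (W.map_mem (snd X Y) hy) (W.map (fst X Y) (List.ofFn t).prod)
    rw [h5, W.tr_prod, hty, mul_one]
  rw [← h4, h3]

lemma Good.mult {U : ℝ → Submodule W.K (W.H X)} {n : ℕ} (hn : 3 ≤ n) (hU : Good W X 𝒴 n U)
    (hY : IsProductOf 𝒴 Y) (h1 : (1 : W.H Y) ≠ 0) : IsMultiplicative U where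
  one_mem := by
    rw [hU.dual]
    intro s hs y hy
    rw [mul_one]
    obtain ⟨F, hF, hFv⟩ := exists_mulForm (X := X) hY h1 1
    by_contra hne
    have h2 := hFv (fun _ => y)
    rw [List.ofFn_succ, List.ofFn_zero, List.prod_singleton] at h2
    have h3 := hU.fform 1 (by omega) F hF (fun _ => y) (fun _ => s) (fun _ => hy)
      (by rw [h2]; exact hne)
    rw [Fin.sum_univ_one] at h3
    linarith
  mul_mem := by
    intro s t a b ha hb
    rw [hU.dual]
    intro r hr y hy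
    obtain ⟨F, hF, hFv⟩ := exists_mulForm (X := X) hY h1 3
    by_contra hne
    have h2 := hFv (![y, a, b])
    have h4 : (List.ofFn ![y, a, b]).prod = y * (a * b) := by
      simp [List.ofFn_succ]
    rw [h4] at h2
    have h3 := hU.fform 3 hn F hF _ (fun i => ![r, s, t] i.rev) ?_ (by rw [h2]; exact hne)
    · rw [Fin.sum_univ_three] at h3
      have e0 : ![r, s, t] (Fin.rev 0) = t := rfl
      have e1 : ![r, s, t] (Fin.rev 1) = s := rfl
      have e2 : ![r, s, t] (Fin.rev 2) = r := rfl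
      rw [e0, e1, e2] at h3
      linarith
    · intro i
      fin_cases i
      · exact hb
      · exact ha
      · exact hy

lemma trivU_mult : IsMultiplicative (trivU W.K (W.H X)) where
  one_mem := by
    rw [trivU_le (le_refl 0)]
    exact Submodule.mem_top
  mul_mem := by
    intro s t a b ha hb
    by_cases ha0 : a = 0
    · rw [ha0, zero_mul]
      exact Submodule.zero_mem _
    by_cases hb0 : b = 0
    · rw [hb0, mul_zero]
      exact Submodule.zero_mem _
    have h1 := trivU_mem ha ha0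
    have h2 := trivU_mem hb hb0
    rw [trivU_le (by linarith)]
    exact Submodule.mem_top

/-- The filtration is multiplicative. -/
lemma Good.isMultiplicative {U : ℝ → Submodule W.K (W.H X)} {n : ℕ} (hn : 3 ≤ n)
    (hU : Good W X 𝒴 n U)
    (htriv : (∀ m ≤ n, ∀ F ∈ GF W X 𝒴 True m, F = 0) → U = trivU W.K (W.H X)) :
    IsMultiplicative U := by
  by_cases h0 : ∀ m ≤ n, ∀ F ∈ GF W X 𝒴 True m, F = 0
  · rw [htriv h0]
    exact trivU_mult
  · push Not at h0
    obtain ⟨m, _, F, hF, hne⟩ := h0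
    obtain ⟨Y, hY, h1⟩ := exists_nontriv hF hne
    exact hU.mult hn hY h1

end Pool.Agent.N180.Cf
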