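import Pool.Agent.N180.CfJ

/-!
# The filtration on products
-/

open CategoryTheory AlgebraicGeometry TensorProduct Function

universe u v w w'

set_option linter.unusedSectionVars false

namespace Pool.Agent.N180.Cf

open Pool.Agent.H914 Pool.Agent.H914.VarClass Pool.Agent.H914.VarClass.Obj
  Pool.Agent.H914.WeilCohomology Pool.Agent.R908 Pool.Agent.R908.Km
  Pool.Agent.H281R3.HT

variable {k : Type u} [Field k] {𝒱 : VarClass k} {ops : CycleOps 𝒱}
  {W : WeilCohomology.{u, v} ops} {X Y Z X' Y' Z' : 𝒱.Obj} {𝒴 : Set 𝒱.Obj}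

/-- Iterated slices. -/
noncomputable def msr (W : WeilCohomology.{u, v} ops) {X Y : 𝒱.Obj} :
    ∀ n : ℕ, (Fin n → (W.H X →ₗ[W.K] W.K)) → (W.H (pX X Y n) →ₗ[W.K] W.H Y)
  | 0, _ => LinearMap.id
  | n + 1, f => msr W n (fun i => f i.succ) ∘ₗ sl W (f 0)

lemma msl_msr : ∀ (n : ℕ) (f : Fin n → (W.H X →ₗ[W.K] W.K)) (g : W.H Y →ₗ[W.K] W.K)
    (a : W.H (pX X Y n)), msl W n f g a = g (msr W n f a) := by
  intro n
  induction n with
  | zero => exact fun _ _ _ => rfl
  | succ n ih =>
    intro f g a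
    exact ih (fun i => f i.succ) g (sl W (f 0) a)

lemma slice_sum {l : ℕ} (e : Module.Basis (Fin l) W.K (W.H X)) (y : W.H (X.prod Y)) :
    y = ∑ j, W.map (fst X Y) (e j) * W.map (snd X Y) (sl W (e.coord j) y) := by
  have key : (LinearMap.id : W.H (X.prod Y) →ₗ[W.K] W.H (X.prod Y)) =
      ∑ i, LinearMap.mulLeft W.K (W.map (fst X Y) (e i)) ∘ₗ (W.map (snd X Y)).toLinearMap ∘ₗ
        sl W (e.coord i) := by
    apply ext_kunneth_lin
    intro a c
    rw [LinearMap.sum_apply, LinearMap.id_apply]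
    have h1 : ∀ i, (LinearMap.mulLeft W.K (W.map (fst X Y) (e i)) ∘ₗ
        (W.map (snd X Y)).toLinearMap ∘ₗ sl W (e.coord i))
        (W.map (fst X Y) a * W.map (snd X Y) c) =
        W.map (fst X Y) (e.coord i a • e i) * W.map (snd X Y) c := by
      intro i
      rw [LinearMap.comp_apply, LinearMap.comp_apply, sl_tmul, LinearMap.mulLeft_apply,
        AlgHom.toLinearMap_apply, map_smul, map_smul, mul_smul_comm, smul_mul_assoc]
    rw [Finset.sum_congr rfl (fun i _ => h1 i), ← Finset.sum_mul, ← map_sum]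
    congr 2
    exact (e.sum_repr a).symm
  have h2 := congrArg (fun F => F y) key
  beta_reduce at h2
  rw [LinearMap.sum_apply, LinearMap.id_apply] at h2
  exact h2

lemma prodFil_ext {U : ℝ → Submodule W.K (W.H X)} {n : ℕ} {s t r : ℝ} {a : W.H X}
    (ha : a ∈ U s) {b : W.H (pX X Y n)} (hb : b ∈ prodFil W U Y n t) (hr : r ≤ s + t) :
    W.map (fst X (pX X Y n)) a * W.map (snd X (pX X Y n)) b ∈ prodFil W U Y (n + 1) r := by
  induction hb using Submodule.span_induction with
  | mem b hb =>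
    obtain ⟨x, s', y, hx, hs, rfl⟩ := hb
    refine Submodule.subset_span ⟨(Fin.cons a x : Fin (n + 1) → W.H X),
      (Fin.cons s s' : Fin (n + 1) → ℝ), y, ?_, ?_, rfl⟩
    · intro i
      refine Fin.cases ?_ (fun i => ?_) i
      · exact ha
      · exact hx i
    · rw [Fin.sum_univ_succ]
      simp only [Fin.cons_zero, Fin.cons_succ]
      linarith
  | zero => rw [map_zero, mul_zero]; exact Submodule.zero_mem _
  | add b b' _ _ hb hb' =>
    rw [map_add, mul_add]
    exact Submodule.add_mem _ hb hb'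
  | smul c b _ hb =>
    rw [map_smul, mul_smul_comm]
    exact Submodule.smul_mem _ _ hb

/-- Membership in the filtration, from the slices. -/
lemma mem_prodFil {U : ℝ → Submodule W.K (W.H X)} {l : ℕ}
    (e : Module.Basis (Fin l) W.K (W.H X)) (w : Fin l → ℝ) (he : ∀ i, e i ∈ U (w i)) :
    ∀ (n : ℕ) (t : ℝ) (a : W.H (pX X Y n)),
      (∀ I : Fin n → Fin l, msr W n (fun i => e.coord (I i)) a ≠ 0 → t ≤ ∑ i, w (I i)) →
        a ∈ prodFil W U Y n t := by
  intro n
  induction n with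
  | zero =>
    intro t a h
    by_cases ha : a = 0
    · rw [ha]
      exact Submodule.zero_mem _
    · have h1 := h (fun i => i.elim0) ha
      refine Submodule.subset_span ⟨fun i => i.elim0, fun i => i.elim0, a, fun i => i.elim0, ?_,
        rfl⟩
      rw [Fin.sum_univ_zero] at h1 ⊢
      exact h1
  | succ n ih =>
    intro t a h
    rw [slice_sum e a]
    refine Submodule.sum_mem _ fun j _ => ?_
    refine prodFil_ext (he j) (ih (t - w j) (sl W (e.coord j) a) fun I hI => ?_) (by linarith)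
    have h1 := h (Fin.cons j I : Fin (n + 1) → Fin l) hI
    rw [Fin.sum_univ_succ] at h1
    simp only [Fin.cons_zero, Fin.cons_succ] at h1
    linarith

/-- Every non-zero class is detected by a linear form with a parity. -/
lemma exists_par {y : W.H Y} (hy : y ≠ 0) : ∃ (q : ℕ) (g : W.H Y →ₗ[W.K] W.K),
    Par W q g ∧ g y ≠ 0 := by
  have h1 : ∃ i, proj (W.isInternal Y) i y ≠ 0 := by
    by_contra hcon
    push Not at hcon
    apply hy
    have h3 := sum_proj (W.isInternal Y) (N := 2 * Y.dim + 1)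
      (fun i hi => W.gr_eq_bot Y i (by omega))
    have h4 := congrArg (fun F : Module.End W.K (W.H Y) => F y) h3
    beta_reduce at h4
    rw [LinearMap.sum_apply, Module.End.one_apply] at h4
    rw [← h4]
    exact Finset.sum_eq_zero fun i _ => hcon i
  obtain ⟨i, hi⟩ := h1
  obtain ⟨f, hf⟩ : ∃ f : W.H Y →ₗ[W.K] W.K, f (proj (W.isInternal Y) i y) ≠ 0 := by
    by_contra hcon
    push Not at hcon
    exact hi ((Module.forall_dual_apply_eq_zero_iff W.K _).1 hcon)
  refine ⟨i, f ∘ₗ proj (W.isInternal Y) i, ?_, hf⟩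
  intro j a ha hodd
  have hij : j ≠ i := by
    rintro rfl
    exact (Nat.not_even_iff_odd.2 hodd) ⟨j, rfl⟩
  rw [LinearMap.comp_apply, proj_ne _ ha hij, map_zero]

/-- The dual of an adapted basis. -/
lemma exists_dual {κ : W.H X →ₗ[W.K] W.H X} (hκ : IsSign W X κ)
    {U : ℝ → Submodule W.K (W.H X)} {N : ℕ} (hU : Good W X 𝒴 N U) {l : ℕ}
    (e : Module.Basis (Fin l) W.K (W.H X)) (w : Fin l → ℝ)
    (hw : ∀ t, ∀ x ∈ U t, ∀ i, e.coord i x ≠ 0 → t ≤ w i) (j : Fin l) :
    ∃ u ∈ U (-w j), bil W X u = e.coord j := by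
  obtain ⟨u, hu⟩ := bil_surj (W := W) (e.coord j)
  refine ⟨u, ?_, hu⟩
  rw [hU.dual]
  intro s hs y hy
  rw [neg_neg] at hs
  have h1 : W.tr X (y * u) = e.coord j (κ y) := by
    rw [hκ.tr_comm y u, ← hu]
    rfl
  rw [h1]
  by_contra hne
  exact absurd (hw s (κ y) (hU.kop 0 κ hκ.mem s y hy) j hne) (not_le.2 hs)

/-- **The weights of the algebraic classes.** -/
lemma mem_zero_of_span {κ : W.H X →ₗ[W.K] W.H X} (hκ : IsSign W X κ)
    {U : ℝ → Submodule W.K (W.H X)} {N : ℕ} (hU : Good W X 𝒴 N U) {n : ℕ} (hn : n ≤ N)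
    (hY : IsProductOf 𝒴 Y) {j : ℤ} {α : W.H (pX X Y n)}
    (hα : α ∈ spanCycles W (pX X Y n) j) : α ∈ prodFil W U Y n 0 := by
  obtain ⟨l, e, w, he, hw⟩ := exists_adapted U hU.jumps
  choose u hu hbu using exists_dual hκ hU e w hw
  refine mem_prodFil e w he n 0 α fun I hI => ?_
  obtain ⟨q, g, hq, hg⟩ := exists_par hI
  have h1 := hU.fform n hn _ (GF_gen ⟨Y, q, g, j, α, hY, hq, hα, fun h => h.elim, rfl⟩)
    (fun i => u (I i)) (fun i => - w (I i)) (fun i => hu (I i)) (by
      have h2 : (fun i => bil W X (u (I i))) = fun i => e.coord (I i) := by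
        funext i
        exact hbu _
      rw [h2, msl_msr]
      exact hg)
  rw [Finset.sum_neg_distrib] at h1
  linarith

/-- **The weights of the numerically trivial classes.** -/
lemma exists_pos_of_num {κ : W.H X →ₗ[W.K] W.H X} (hκ : IsSign W X κ)
    {U : ℝ → Submodule W.K (W.H X)} {N : ℕ} (hU : Good W X 𝒴 N U) {n : ℕ} (hn : n ≤ N)
    (hY : IsProductOf 𝒴 Y) {j : ℤ} {α : W.H (pX X Y n)}
    (hα : α ∈ spanCycles W (pX X Y n) j) (hnum : NumTriv W _ α) :
    ∃ s > 0, α ∈ prodFil W U Y n s := by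
  obtain ⟨l, e, w, he, hw⟩ := exists_adapted U hU.jumps
  choose u hu hbu using exists_dual hκ hU e w hw
  obtain ⟨s, hs, hs1⟩ := exists_pos_le (fun I : Fin n → Fin l => ∑ i, w (I i))
  refine ⟨s, hs, mem_prodFil e w he n s α fun I hI => ?_⟩
  obtain ⟨q, g, hq, hg⟩ := exists_par hI
  have h1 := hU.tform n hn _ (GF_gen ⟨Y, q, g, j, α, hY, hq, hα, fun _ => hnum, rfl⟩)
    (fun i => u (I i)) (fun i => - w (I i)) (fun i => hu (I i)) (by
      have h2 : (fun i => bil W X (u (I i))) = fun i => e.coord (I i) := by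
        funext i
        exact hbu _
      rw [h2, msl_msr]
      exact hg)
  rw [Finset.sum_neg_distrib] at h1
  exact hs1 I (by linarith)

/-- The span of the products `tv`. -/
noncomputable def tvFil (W : WeilCohomology.{u, v} ops) {X : 𝒱.Obj} (U : ℝ → Submodule W.K (W.H X))
    (Y : 𝒱.Obj) (n : ℕ) (s : Fin n → ℝ) : Submodule W.K (W.H (pX X Y n)) :=
  Submodule.span W.K {c | ∃ (x : Fin n → W.H X) (j : ℕ) (y : W.H Y),
    (∀ i, x i ∈ U (s i)) ∧ y ∈ W.gr Y j ∧ tv W n x y = c}

lemma gsHom_tv {κ : W.H X →ₗ[W.K] W.H X} (hκ : IsSign W X κ) :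
    ∀ (n : ℕ) (x : Fin n → W.H X) (y : W.H Y),
      gsHom W (-1) (pX X Y n) (tv W n x y) = tv W n (fun i => κ (x i)) (gsHom W (-1) Y y) := by
  intro n
  induction n with
  | zero => exact fun _ _ => rfl
  | succ n ih =>
    intro x y
    change gsHom W (-1) (X.prod (pX X Y n)) (W.map (snd X (pX X Y n))
      (tv W n (fun i => x i.succ) y) * W.map (fst X (pX X Y n)) (x 0)) =
      W.map (snd X (pX X Y n)) (tv W n (fun i => κ (x i.succ)) (gsHom W (-1) Y y)) *
        W.map (fst X (pX X Y n)) (κ (x 0))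
    rw [map_mul, ← gsHom_map, ← gsHom_map, ih, gsHom_neg hκ]

lemma Good.pr_mem {κ : W.H X →ₗ[W.K] W.H X} (hκ : IsSign W X κ)
    {U : ℝ → Submodule W.K (W.H X)} {N : ℕ} (hU : Good W X 𝒴 N U) (p : ℕ) {t : ℝ} {x : W.H X}
    (hx : x ∈ U t) : pr κ p x ∈ U t := hU.kop 0 _ (hκ.pr_mem p) t x hx

lemma box_mem {κ : W.H X →ₗ[W.K] W.H X} (hκ : IsSign W X κ)
    {U : ℝ → Submodule W.K (W.H X)} {N : ℕ} (hU : Good W X 𝒴 N U) :
    ∀ (n : ℕ) (x : Fin n → W.H X) (s : Fin n → ℝ) (y : W.H Y), (∀ i, x i ∈ U (s i)) →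
      box W n x y ∈ tvFil W U Y n s := by
  intro n
  induction n with
  | zero =>
    intro x s y _
    change y ∈ _
    refine gr_induction (W.isInternal Y) (p := fun y => y ∈ tvFil W U Y 0 s) ?_ ?_ y
    · intro i a ha
      exact Submodule.subset_span ⟨x, i, a, fun i => i.elim0, ha, rfl⟩
    · intro a b ha hb
      exact Submodule.add_mem _ ha hb
  | succ n ih =>
    intro x s y hx
    have h1 := ih (fun i => x i.succ) (fun i => s i.succ) y (fun i => hx _)
    change W.map (fst X (pX X Y n)) (x 0) *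
      W.map (snd X (pX X Y n)) (box W n (fun i => x i.succ) y) ∈ _
    generalize box W n (fun i => x i.succ) y = b0 at h1
    induction h1 using Submodule.span_induction with
    | mem b hb =>
      obtain ⟨x', j, y', hx', hy', rfl⟩ := hb
      rw [comm_ext hκ, gsHom_tv hκ]
      refine Submodule.add_mem _ ?_ ?_
      · refine Submodule.subset_span ⟨(Fin.cons (pr κ 0 (x 0)) x' : Fin (n + 1) → W.H X), j, y',
          ?_, hy', rfl⟩
        intro i
        refine Fin.cases ?_ (fun i => ?_) i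
        · exact hU.pr_mem hκ 0 (hx 0)
        · exact hx' i
      · refine Submodule.subset_span ⟨(Fin.cons (pr κ 1 (x 0)) (fun i => κ (x' i)) :
          Fin (n + 1) → W.H X), j, gsHom W (-1) Y y', ?_, gsHom_mem _ hy', rfl⟩
        intro i
        refine Fin.cases ?_ (fun i => ?_) i
        · exact hU.pr_mem hκ 1 (hx 0)
        · exact hU.kop 0 κ hκ.mem _ _ (hx' i)
    | zero => rw [map_zero, mul_zero]; exact Submodule.zero_mem _
    | add b b' _ _ hb hb' =>
      rw [map_add, mul_add]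
      exact Submodule.add_mem _ hb hb'
    | smul c b _ hb =>
      rw [map_smul, mul_smul_comm]
      exact Submodule.smul_mem _ _ hb

/-- **Classes of positive weight are numerically trivial.** -/
lemma num_of_pos {κ : W.H X →ₗ[W.K] W.H X} (hκ : IsSign W X κ)
    {U : ℝ → Submodule W.K (W.H X)} {N : ℕ} (hU : Good W X 𝒴 N U) {n : ℕ} (hn : n ≤ N)
    (hY : IsProductOf 𝒴 Y) {s : ℝ} (hs : 0 < s) {α : W.H (pX X Y n)}
    (hα : α ∈ prodFil W U Y n s) : NumTriv W _ α := by
  intro j β hβ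
  induction hα using Submodule.span_induction with
  | mem α hα =>
    obtain ⟨x, s', y, hx, hs', rfl⟩ := hα
    have h1 := box_mem hκ hU n x s' y hx
    generalize box W n x y = b0 at h1
    induction h1 using Submodule.span_induction with
    | mem c hc =>
      obtain ⟨x', i, y', hx', hy', rfl⟩ := hc
      rw [tr_tv]
      by_contra hne
      have h2 := hU.fform n hn _ (GF_gen ⟨Y, i, bil W Y y', j, β, hY, par_bil hy', hβ,
        fun h => h.elim, rfl⟩) x' s' hx' hne
      linarith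
    | zero => rw [zero_mul, map_zero]
    | add c c' _ _ hc hc' => rw [add_mul, map_add, hc, hc', add_zero]
    | smul r c _ hc => rw [smul_mul_assoc, map_smul, hc, smul_zero]
  | zero => rw [zero_mul, map_zero]
  | add c c' _ _ hc hc' => rw [add_mul, map_add, hc, hc', add_zero]
  | smul r c _ hc => rw [smul_mul_assoc, map_smul, hc, smul_zero]

lemma box_zero : ∀ (n : ℕ) (x : Fin n → W.H X) (y : W.H Y) (i : Fin n), x i = 0 →
    box W n x y = 0 := by
  intro n
  induction n with
  | zero => exact fun _ _ i => i.elim0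
  | succ n ih =>
    intro x y i
    refine Fin.cases (fun hi => ?_) (fun i hi => ?_) i
    · change W.map (fst X (pX X Y n)) (x 0) * _ = 0
      rw [hi, map_zero, zero_mul]
    · change _ * W.map (snd X (pX X Y n)) (box W n (fun i => x i.succ) y) = 0
      rw [ih _ y i hi, map_zero, mul_zero]

lemma prodFil_triv {n : ℕ} {s : ℝ} (hs : 0 < s) :
    prodFil W (trivU W.K (W.H X)) Y n s = ⊥ := by
  rw [eq_bot_iff]
  refine Submodule.span_le.2 ?_
  rintro c ⟨x, s', y, hx, hs', rfl⟩
  have h1 : ∃ i, 0 < s' i := by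
    by_contra hcon
    push Not at hcon
    have h2 := Finset.sum_nonpos (s := Finset.univ) (fun i _ => hcon i)
    linarith
  obtain ⟨i, hi⟩ := h1
  have h3 := hx i
  rw [trivU_gt hi, Submodule.mem_bot] at h3
  rw [box_zero n x y i h3]
  exact Submodule.zero_mem _

end Pool.Agent.N180.Cf
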