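import Pool.Agent.N180.CfK
import Pool.Agent.R908.Orbit

/-!
# The weight filtration
-/

open CategoryTheory AlgebraicGeometry TensorProduct Function

universe u v w w'

set_option linter.unusedSectionVars false

namespace Pool.Agent.N180.Cf

open Pool.Agent.H914 Pool.Agent.H914.VarClass Pool.Agent.H914.VarClass.Obj
  Pool.Agent.H914.WeilCohomology Pool.Agent.R908 Pool.Agent.R908.Km
  Pool.Agent.H281R3.HT

variable {k : Type u} [Field k] {𝒱 : VarClass k} {ops : CycleOps 𝒱}
  {W : WeilCohomology.{u, v} ops} {X Y Z V : 𝒱.Obj} {𝒴 : Set 𝒱.Obj}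

/-- The two descriptions of numerically trivial classes. -/
lemma numZero_iff {α : W.H V} : NumZero W V α ↔ NumTriv W V α := by
  constructor
  · intro h j g hg
    induction hg using Submodule.span_induction with
    | mem g hg =>
      obtain ⟨q, -, w, hw, rfl⟩ := hg
      exact h q _ (Submodule.subset_span ⟨q, rfl, w, hw, rfl⟩)
    | zero => rw [mul_zero, map_zero]
    | add c c' _ _ hc hc' => rw [mul_add, map_add, hc, hc', add_zero]
    | smul r c _ hc => rw [mul_smul_comm, map_smul, hc, smul_zero]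
  · intro h q β hβ
    exact h q β hβ

/-- Numerically trivial cycles have numerically trivial classes. -/
lemma numTriv_of_deg {j : ℕ} {z : V.Cycles} (hz : V.IsCyc j z)
    (h : ∀ w, V.IsCyc (V.dim - j) w → V.V.degCycle (ops.mul z w) = 0) :
    NumTriv W V (W.cl V z) := by
  intro q β hβ
  induction hβ using Submodule.span_induction with
  | mem g hg =>
    obtain ⟨q, -, w, hw, rfl⟩ := hg
    by_cases hpq : j + q = V.dim
    · have h1 := ops.mul_mem hz hw
      rw [hpq] at h1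
      rw [← W.cl_mul, W.tr_cl h1, h w (by rwa [show V.dim - j = q by omega]), Rat.cast_zero]
    · exact W.tr_eq_zero (W.mul_mem (W.cl_mem hz) (W.cl_mem hw)) (by omega)
  | zero => rw [mul_zero, map_zero]
  | add c c' _ _ hc hc' => rw [mul_add, map_add, hc, hc', add_zero]
  | smul r c _ hc => rw [mul_smul_comm, map_smul, hc, smul_zero]

lemma trivU_isTrivial : IsTrivial (trivU W.K (W.H X)) := fun _ => ⟨trivU_le, trivU_gt⟩

lemma IsTrivial.eq {U : ℝ → Submodule W.K (W.H X)} (h : IsTrivial U) :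
    U = trivU W.K (W.H X) := by
  funext t
  by_cases ht : t ≤ 0
  · rw [(h t).1 ht, trivU_le ht]
  · push Not at ht
    rw [(h t).2 ht, trivU_gt ht]

lemma IsDominating.id (X : 𝒱.Obj) : IsDominating W (𝟙 X) := by
  refine ⟨0, 1, one_span X, 1, one_ne_zero, ?_⟩
  rw [one_smul]
  have h1 : W.push (𝟙 X) (1 : W.H X) - 1 = 0 := by
    apply W.nondeg
    intro b
    rw [sub_mul, map_sub, W.tr_push, W.map_id, sub_self]
  exact sub_eq_zero.1 h1

lemma IsDominating.tr {g : X ⟶ V} (hg : IsDominating W g) : ∃ (p : ℕ) (w : W.H X) (c : W.K),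
    w ∈ spanCycles W X p ∧ c ≠ 0 ∧ ∀ a, c * W.tr V a = W.tr X (w * W.map g a) := by
  obtain ⟨p, w, hw, c, hc, h⟩ := hg
  refine ⟨p, w, c, hw, hc, fun a => ?_⟩
  rw [← W.tr_push, h, smul_mul_assoc, one_mul, map_smul, smul_eq_mul]

lemma IsDominating.num {g : X ⟶ V} (hg : IsDominating W g) {α : W.H V} :
    NumTriv W V α ↔ NumTriv W X (W.map g α) := by
  constructor
  · intro h
    exact NumTriv.op (KOp.mapHom g) h
  · intro h j β hβ
    obtain ⟨p, w, c, hw, hc, htr⟩ := hg.tr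
    have h1 := htr (α * β)
    rw [map_mul (W.map g), span_comm hw, mul_assoc, ← span_comm hw,
      h _ _ (span_mul hw (span_map g hβ))] at h1
    exact (mul_eq_zero.1 h1).resolve_left hc

lemma IsDominating.inj {g : X ⟶ V} (hg : IsDominating W g) {α : W.H V} (h : W.map g α = 0) :
    α = 0 := by
  apply W.nondeg
  intro b
  obtain ⟨p, w, c, hw, hc, htr⟩ := hg.tr
  have h1 := htr (α * b)
  rw [map_mul (W.map g), h, zero_mul, mul_zero, map_zero] at h1
  exact (mul_eq_zero.1 h1).resolve_left hc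

/-- **The weight filtration.** -/
theorem weightFiltration (W : WeilCohomology.{u, v} ops) (X : 𝒱.Obj)
    (hX : SignOpAlgebraic W X) (𝒴 : Set 𝒱.Obj)
    (h𝒴 : ∀ Y, IsProductOf 𝒴 Y → HomEqNum W Y) (N : ℕ) (hN : 3 ≤ N) :
    ∃ F : ℝ → Submodule W.K (W.H X), IsWeightFiltration W X F ∧
      ForDominated W X 𝒴 N (fun _ _ _ g => Detects W F g) ∧
      List.TFAE [
        ∀ n ≤ N, ∀ Y, IsProductOf 𝒴 Y → HomEqNum W (pX X Y n),
        ForDominated W X 𝒴 N (fun _ _ V _ => HomEqNum W V),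
        IsTrivial F] := by
  obtain ⟨_, ⟨γ, hγ, rfl⟩, hγs⟩ := hX
  have hκ : IsSign W X (W.corr γ) :=
    { mem := mem_KOp_iff.2 ⟨γ, by rw [add_zero]; exact hγ, rfl⟩
      apply := hγs }
  obtain ⟨F, hF, htriv⟩ := exists_good hκ h𝒴 N
  have hmain : ∀ n ≤ N, ∀ Y, IsProductOf 𝒴 Y → ∀ (V : 𝒱.Obj) (g : pX X Y n ⟶ V),
      IsDominating W g → ∀ p : ℕ, ∀ α ∈ spanCycles W V p, W.map g α ∈ prodFil W F Y n 0 ∧
          (NumZero W V α ↔ ∃ s > 0, W.map g α ∈ prodFil W F Y n s) := by
    intro n hn Y hY V g hg p α hα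
    have hα' := span_map g hα
    refine ⟨mem_zero_of_span hκ hF hn hY hα', ?_⟩
    rw [numZero_iff, hg.num]
    constructor
    · exact exists_pos_of_num hκ hF hn hY hα'
    · rintro ⟨s, hs, h⟩
      exact num_of_pos hκ hF hn hY hs h
  refine ⟨F, ⟨⟨hF.anti, ?_, ?_, hF.jumps⟩, hF.dual, hF.isMultiplicative hN htriv,
    homogeneous_of hF.symm, ?_, ?_⟩, hmain, ?_⟩
  · obtain ⟨c, -, -, h⟩ := hF.bds
    exact ⟨-c, h⟩
  · obtain ⟨c, -, h, -⟩ := hF.bds
    exact ⟨c, h⟩
  · rintro p _ ⟨δ, hδ, rfl⟩ t x hx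
    refine hF.kop ((p : ℤ) - X.dim) (W.corr δ) (mem_KOp_iff.2 ⟨δ, ?_, rfl⟩) t x hx
    rw [add_sub_cancel]
    exact hδ
  · rintro _ ⟨S, rfl⟩
    exact hF.symm S
  · tfae_have 2 → 1 := fun h n hn Y hY => h n hn Y hY _ (𝟙 _) (IsDominating.id _)
    tfae_have 1 → 3 := by
      intro hD
      rw [htriv ?_]
      · exact trivU_isTrivial
      intro m hm G hG
      have h1 : GF W X 𝒴 True m ≤ ⊥ := by
        refine Submodule.span_le.2 ?_
        rintro G ⟨Y, q, g, j, x, hY, hq, hx, hn, rfl⟩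
        have h2 : x = 0 := num_whole (hD m hm Y hY) j x hx (hn trivial)
        rw [h2]
        change (fun v : Fin m → W.H X => msl W m (fun s => bil W X (v s)) g 0) = 0
        funext v
        rw [map_zero]
        rfl
      exact (Submodule.mem_bot W.K).1 (h1 hG)
    tfae_have 3 → 2 := by
      intro hT n hn Y hY V g hg j hj z hz hdeg
      have hα : W.cl V z ∈ spanCycles W V j := Submodule.subset_span ⟨j, rfl, z, hz, rfl⟩
      obtain ⟨s, hs, h⟩ := (hmain n hn Y hY V g hg j _ hα).2.1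
        (numZero_iff.2 (numTriv_of_deg (W := W) hz hdeg))
      rw [hT.eq, prodFil_triv hs] at h
      exact hg.inj ((Submodule.mem_bot W.K).1 h)
    tfae_finish

end Pool.Agent.N180.Cf
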