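import Mathlib
import Pool.Agent.TH623.SA.Nil

/-!
# Dimensions of spaces of homomorphisms of semisimple modules
-/

open Module

universe u v w

set_option linter.unusedSectionVars false

namespace Pool.Agent.N180.Zl

section Hom

variable {K : Type u} [Field K] {R : Type v} [Ring R] [Algebra K R]

section Basic

variable {A B A' B' C : Type w} [AddCommGroup A] [Module R A] [Module K A] [IsScalarTower K R A]
  [AddCommGroup B] [Module R B] [Module K B] [IsScalarTower K R B]
  [AddCommGroup A'] [Module R A'] [Module K A'] [IsScalarTower K R A']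
  [AddCommGroup B'] [Module R B'] [Module K B'] [IsScalarTower K R B']
  [AddCommGroup C] [Module R C] [Module K C] [IsScalarTower K R C]

lemma hom_finite [Module.Finite K A] [Module.Finite K B] : Module.Finite K (A →ₗ[R] B) :=
  Module.Finite.of_injective (LinearMap.restrictScalarsₗ K R A B K)
    (LinearMap.restrictScalars_injective K)

/-- Homomorphisms and isomorphisms. -/
noncomputable def homCongr (e : A ≃ₗ[R] A') (e' : B ≃ₗ[R] B') : (A →ₗ[R] B) ≃ₗ[K] (A' →ₗ[R] B') where
  toFun f := e'.toLinearMap ∘ₗ f ∘ₗ e.symm.toLinearMap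
  invFun f := e'.symm.toLinearMap ∘ₗ f ∘ₗ e.toLinearMap
  left_inv f := by ext x; simp
  right_inv f := by ext x; simp
  map_add' f g := by ext x; simp
  map_smul' c f := by
    ext x
    have h1 : e' (c • f (e.symm x)) = c • e' (f (e.symm x)) := by
      rw [← algebraMap_smul R c (f (e.symm x)), map_smul, algebraMap_smul]
    simpa using h1

lemma finrank_homCongr (e : A ≃ₗ[R] A') (e' : B ≃ₗ[R] B') :
    finrank K (A →ₗ[R] B) = finrank K (A' →ₗ[R] B') := (homCongr (K := K) e e').finrank_eq

lemma finrank_hom_prod_left [Module.Finite K A] [Module.Finite K A'] [Module.Finite K B] :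
    finrank K (A × A' →ₗ[R] B) = finrank K (A →ₗ[R] B) + finrank K (A' →ₗ[R] B) := by
  have := hom_finite (K := K) (R := R) (A := A) (B := B)
  have := hom_finite (K := K) (R := R) (A := A') (B := B)
  rw [← (LinearMap.coprodEquiv (R := R) (M := A) (M₂ := A') (M₃ := B) K).finrank_eq,
    Module.finrank_prod]

lemma finrank_hom_prod_right [Module.Finite K A] [Module.Finite K B] [Module.Finite K B'] :
    finrank K (A →ₗ[R] B × B') = finrank K (A →ₗ[R] B) + finrank K (A →ₗ[R] B') := by
  have := hom_finite (K := K) (R := R) (A := A) (B := B)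
  have := hom_finite (K := K) (R := R) (A := A) (B := B')
  rw [← (LinearMap.prodEquiv (R := R) (M := A) (M₂ := B) (M₃ := B') K).finrank_eq,
    Module.finrank_prod]

end Basic

/-- The splitting of a homomorphism. -/
lemma exists_split [IsSemisimpleRing R] {A B : Type w} [AddCommGroup A] [Module R A]
    [AddCommGroup B] [Module R B] (f : A →ₗ[R] B) :
    Nonempty (A ≃ₗ[R] LinearMap.ker f × LinearMap.range f) ∧
      ∃ D : Submodule R B, Nonempty (B ≃ₗ[R] LinearMap.range f × D) := by
  constructor
  · obtain ⟨q, hq⟩ := exists_isCompl (LinearMap.ker f)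
    have e1 := Submodule.prodEquivOfIsCompl _ _ hq
    have e2 := Submodule.quotientEquivOfIsCompl _ _ hq
    have e3 := f.quotKerEquivRange
    exact ⟨e1.symm.trans (LinearEquiv.prodCongr (LinearEquiv.refl R _) (e2.symm.trans e3))⟩
  · obtain ⟨q, hq⟩ := exists_isCompl (LinearMap.range f)
    exact ⟨q, ⟨(Submodule.prodEquivOfIsCompl _ _ hq).symm⟩⟩

/-- **The basic inequality.** -/
theorem hom_add_hom_le [IsSemisimpleRing R] : ∀ (n : ℕ) (A B : Type w) [AddCommGroup A]
    [Module R A] [Module K A] [IsScalarTower K R A] [Module.Finite K A] [AddCommGroup B]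
    [Module R B] [Module K B] [IsScalarTower K R B] [Module.Finite K B],
    finrank K A + finrank K B ≤ n →
    finrank K (A →ₗ[R] B) + finrank K (B →ₗ[R] A) ≤
      finrank K (A →ₗ[R] A) + finrank K (B →ₗ[R] B) := by
  intro n
  induction n with
  | zero =>
    intro A B _ _ _ _ _ _ _ _ _ _ h
    have hA : finrank K A = 0 := by omega
    have hB : finrank K B = 0 := by omega
    have hA' : Subsingleton A := Module.finrank_zero_iff.1 hA
    have hB' : Subsingleton B := Module.finrank_zero_iff.1 hB
    have h1 : finrank K (A →ₗ[R] B) = 0 := Module.finrank_zero_of_subsingleton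
    have h2 : finrank K (B →ₗ[R] A) = 0 := Module.finrank_zero_of_subsingleton
    omega
  | succ n ih =>
    have key : ∀ (A B : Type w) [AddCommGroup A]
        [Module R A] [Module K A] [IsScalarTower K R A] [Module.Finite K A] [AddCommGroup B]
        [Module R B] [Module K B] [IsScalarTower K R B] [Module.Finite K B] (f : A →ₗ[R] B),
        f ≠ 0 → finrank K A + finrank K B ≤ n + 1 →
        finrank K (A →ₗ[R] B) + finrank K (B →ₗ[R] A) ≤
          finrank K (A →ₗ[R] A) + finrank K (B →ₗ[R] B) := by
      intro A B _ _ _ _ _ _ _ _ _ _ f hf h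
      obtain ⟨⟨e⟩, D, ⟨e'⟩⟩ := exists_split f
      have hP : Module.Finite K (LinearMap.ker f) :=
        Module.Finite.of_injective ((LinearMap.ker f).subtype.restrictScalars K)
          Subtype.val_injective
      have hC : Module.Finite K (LinearMap.range f) :=
        Module.Finite.of_injective ((LinearMap.range f).subtype.restrictScalars K)
          Subtype.val_injective
      have hD : Module.Finite K D :=
        Module.Finite.of_injective (D.subtype.restrictScalars K) Subtype.val_injective
      have h1 : finrank K A = finrank K (LinearMap.ker f) + finrank K (LinearMap.range f) := by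
        rw [← Module.finrank_prod]
        exact (e.restrictScalars K).finrank_eq
      have h2 : finrank K B = finrank K (LinearMap.range f) + finrank K D := by
        rw [← Module.finrank_prod]
        exact (e'.restrictScalars K).finrank_eq
      have h3 : 0 < finrank K (LinearMap.range f) := by
        rw [Module.finrank_pos_iff]
        by_contra hcon
        rw [not_nontrivial_iff_subsingleton] at hcon
        apply hf
        ext x
        have h4 : (⟨f x, LinearMap.mem_range_self f x⟩ : LinearMap.range f) = 0 :=
          Subsingleton.elim _ _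
        exact congrArg Subtype.val h4
      have h5 := ih (LinearMap.ker f) D (by omega)
      rw [finrank_homCongr (K := K) e e', finrank_homCongr (K := K) e' e,
        finrank_homCongr (K := K) e e, finrank_homCongr (K := K) e' e']
      simp only [finrank_hom_prod_left, finrank_hom_prod_right]
      omega
    intro A B _ _ _ _ _ _ _ _ _ _ h
    by_cases h1 : ∃ f : A →ₗ[R] B, f ≠ 0
    · obtain ⟨f, hf⟩ := h1
      exact key A B f hf h
    by_cases h2 : ∃ f : B →ₗ[R] A, f ≠ 0
    · obtain ⟨f, hf⟩ := h2
      have h3 := key B A f hf (by omega)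
      omega
    push Not at h1 h2
    have h3 : Subsingleton (A →ₗ[R] B) := ⟨fun x y => by rw [h1 x, h1 y]⟩
    have h4 : Subsingleton (B →ₗ[R] A) := ⟨fun x y => by rw [h2 x, h2 y]⟩
    have h5 : finrank K (A →ₗ[R] B) = 0 := Module.finrank_zero_of_subsingleton
    have h6 : finrank K (B →ₗ[R] A) = 0 := Module.finrank_zero_of_subsingleton
    omega

/-- Homomorphisms between powers. -/
lemma finrank_hom_pow {A B : Type w} [AddCommGroup A] [Module R A] [Module K A]
    [IsScalarTower K R A] [Module.Finite K A] [AddCommGroup B] [Module R B] [Module K B]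
    [IsScalarTower K R B] [Module.Finite K B] (s t : ℕ) :
    finrank K ((Fin s → A) →ₗ[R] (Fin t → B)) = s * t * finrank K (A →ₗ[R] B) := by
  have h1 : ∀ t, finrank K (A →ₗ[R] (Fin t → B)) = t * finrank K (A →ₗ[R] B) := by
    intro t
    induction t with
    | zero =>
      rw [zero_mul]
      exact Module.finrank_zero_of_subsingleton
    | succ t ih =>
      have e : (Fin (t + 1) → B) ≃ₗ[R] B × (Fin t → B) := (Fin.consLinearEquiv R fun _ => B).symm
      rw [finrank_homCongr (K := K) (LinearEquiv.refl R A) e, finrank_hom_prod_right, ih]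
      ring
  induction s with
  | zero =>
    rw [zero_mul, zero_mul]
    exact Module.finrank_zero_of_subsingleton
  | succ s ih =>
    have e : (Fin (s + 1) → A) ≃ₗ[R] A × (Fin s → A) := (Fin.consLinearEquiv R fun _ => A).symm
    rw [finrank_homCongr (K := K) e (LinearEquiv.refl R (Fin t → B)), finrank_hom_prod_left, ih,
      h1]
    ring

/-- **The Cauchy-Schwarz inequality for dimensions of spaces of homomorphisms.** -/
theorem hom_sq_le [IsSemisimpleRing R] (A B : Type w) [AddCommGroup A]
    [Module R A] [Module K A] [IsScalarTower K R A] [Module.Finite K A] [AddCommGroup B]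
    [Module R B] [Module K B] [IsScalarTower K R B] [Module.Finite K B] :
    (finrank K (A →ₗ[R] B) + finrank K (B →ₗ[R] A)) ^ 2 ≤
      4 * (finrank K (A →ₗ[R] A) * finrank K (B →ₗ[R] B)) := by
  set a := finrank K (A →ₗ[R] A) with ha
  set b := finrank K (B →ₗ[R] B) with hb
  set c := finrank K (A →ₗ[R] B) + finrank K (B →ₗ[R] A) with hc
  have key : ∀ s t : ℕ, s * t * c ≤ s * s * a + t * t * b := by
    intro s t
    have h1 := hom_add_hom_le (K := K) (R := R) _ (Fin s → A) (Fin t → B) (le_refl _)
    rw [finrank_hom_pow, finrank_hom_pow, finrank_hom_pow, finrank_hom_pow] at h1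
    rw [hc, ha, hb]
    nlinarith [h1]
  rcases Nat.eq_zero_or_pos a with h0 | h0
  · have h1 := key (b + 1) 1
    rw [h0] at h1
    have h2 : c = 0 := by
      by_contra hne
      have h3 : 1 ≤ c := Nat.one_le_iff_ne_zero.2 hne
      nlinarith
    rw [h2, h0]
    simp
  · have h1 := key c (2 * a)
    have h2 : a * c ^ 2 ≤ a * (4 * (a * b)) := by nlinarith
    exact Nat.le_of_mul_le_mul_left h2 h0

end Hom

end Pool.Agent.N180.Zl
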