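import Pool.Agent.N180.ZlA

/-!
# Algebras with a trace
-/

open Module

universe u v w

set_option linter.unusedSectionVars false

namespace Pool.Agent.N180.Zl

section NR

variable {K : Type u} [Field K] {M : Type v} [AddCommGroup M] [Module K M] {M' : Type w}
  [AddCommGroup M'] [Module K M']

/-- The dimension of the image of `X` modulo `N`. -/
noncomputable def nr (X N : Submodule K M) : ℕ := finrank K (X.map N.mkQ)

lemma rk_add_ker [Module.Finite K M] (X : Submodule K M) (ψ : M →ₗ[K] M') :
    finrank K (X.map ψ) + finrank K (LinearMap.ker (ψ.domRestrict X)) = finrank K X := by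
  have h2 := LinearMap.finrank_range_add_finrank_ker (ψ.domRestrict X)
  rwa [LinearMap.range_domRestrict] at h2

lemma nr_eq [Module.Finite K M] {X N : Submodule K M} (φ : M →ₗ[K] M')
    (h : ∀ x ∈ X, φ x = 0 ↔ x ∈ N) : nr X N = finrank K (X.map φ) := by
  have h3 := rk_add_ker X N.mkQ
  have h4 := rk_add_ker X φ
  have h5 : LinearMap.ker (N.mkQ.domRestrict X) = LinearMap.ker (φ.domRestrict X) := by
    ext x
    rw [LinearMap.mem_ker, LinearMap.mem_ker, LinearMap.domRestrict_apply,
      LinearMap.domRestrict_apply, Submodule.mkQ_apply, Submodule.Quotient.mk_eq_zero]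
    exact (h x x.2).symm
  rw [h5] at h3
  rw [nr]
  omega

lemma nr_congr [Module.Finite K M] [Module.Finite K M'] {X N : Submodule K M}
    {X' N' : Submodule K M'} (φ : M →ₗ[K] M') (hX : X.map φ = X')
    (h : ∀ x ∈ X, φ x ∈ N' ↔ x ∈ N) : nr X N = nr X' N' := by
  rw [nr_eq (N'.mkQ ∘ₗ φ) (fun x hx => by
    rw [LinearMap.comp_apply, Submodule.mkQ_apply, Submodule.Quotient.mk_eq_zero]
    exact h x hx), Submodule.map_comp, hX]
  rfl

lemma nr_mono [Module.Finite K M] {X X' N : Submodule K M} (h : X ≤ X') : nr X N ≤ nr X' N :=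
  Submodule.finrank_mono (Submodule.map_mono h)

lemma nr_le [Module.Finite K M] (X N : Submodule K M) : nr X N ≤ finrank K X :=
  Submodule.finrank_map_le _ _

lemma nr_add [Module.Finite K M] (X N : Submodule K M) :
    nr X N + finrank K (X ⊓ N : Submodule K M) = finrank K X := by
  have h2 := LinearMap.finrank_range_add_finrank_ker (N.mkQ.domRestrict X)
  rw [LinearMap.range_domRestrict] at h2
  have h3 : finrank K (LinearMap.ker (N.mkQ.domRestrict X)) =
      finrank K (X ⊓ N : Submodule K M) := by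
    refine LinearEquiv.finrank_eq ?_
    refine LinearEquiv.ofBijective
      (LinearMap.codRestrict (X ⊓ N) (X.subtype ∘ₗ (LinearMap.ker (N.mkQ.domRestrict X)).subtype)
        ?_) ⟨?_, ?_⟩
    · intro x
      have h4 := x.2
      rw [LinearMap.mem_ker, LinearMap.domRestrict_apply, Submodule.mkQ_apply,
        Submodule.Quotient.mk_eq_zero] at h4
      exact ⟨x.1.2, h4⟩
    · intro x y hxy
      have h5 := congrArg Subtype.val hxy
      exact Subtype.ext (Subtype.ext h5)
    · intro y
      refine ⟨⟨⟨y.1, y.2.1⟩, ?_⟩, rfl⟩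
      rw [LinearMap.mem_ker, LinearMap.domRestrict_apply, Submodule.mkQ_apply,
        Submodule.Quotient.mk_eq_zero]
      exact y.2.2
  rw [h3] at h2
  exact h2

end NR

section Cor

variable {K : Type u} [Field K] {R : Type v} [Ring R] [Algebra K R]

variable (K) in
/-- The space `e R f`. -/
def cor (e f : R) : Submodule K R where
  carrier := {x | e * x = x ∧ x * f = x}
  add_mem' := by
    rintro x y ⟨h1, h2⟩ ⟨h3, h4⟩
    exact ⟨by rw [mul_add, h1, h3], by rw [add_mul, h2, h4]⟩
  zero_mem' := ⟨mul_zero _, zero_mul _⟩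
  smul_mem' := by
    rintro c x ⟨h1, h2⟩
    exact ⟨by rw [mul_smul_comm, h1], by rw [smul_mul_assoc, h2]⟩

lemma mem_cor {e f x : R} : x ∈ cor K e f ↔ e * x = x ∧ x * f = x := Iff.rfl

lemma span_mul_idem {f x : R} (hf : IsIdempotentElem f) (hx : x ∈ Ideal.span {f}) : x * f = x := by
  obtain ⟨a, rfl⟩ := Ideal.mem_span_singleton'.1 hx
  rw [mul_assoc, hf.eq]

/-- Homomorphisms between the left ideals given by idempotents. -/
noncomputable def homCor {e f : R} (he : IsIdempotentElem e) (hf : IsIdempotentElem f) :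
    ((Ideal.span {e} : Ideal R) →ₗ[R] (Ideal.span {f} : Ideal R)) ≃ₗ[K] cor K e f where
  toFun φ := ⟨φ ⟨e, Ideal.mem_span_singleton_self e⟩, by
    constructor
    · have h1 : (φ (e • ⟨e, Ideal.mem_span_singleton_self e⟩) : R) =
        e * φ ⟨e, Ideal.mem_span_singleton_self e⟩ := by
        rw [map_smul]
        rfl
      have h2 : e • (⟨e, Ideal.mem_span_singleton_self e⟩ : (Ideal.span {e} : Ideal R)) =
        ⟨e, Ideal.mem_span_singleton_self e⟩ := Subtype.ext he.eq
      rw [← h1, h2]
    · exact span_mul_idem hf (φ _).2⟩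
  invFun x :=
    { toFun := fun y => ⟨y.1 * x.1, by
        rw [← x.2.2, ← mul_assoc]
        exact Ideal.mul_mem_left _ _ (Ideal.mem_span_singleton_self f)⟩
      map_add' := fun y z => Subtype.ext (add_mul _ _ _)
      map_smul' := fun r y => Subtype.ext (mul_assoc _ _ _) }
  left_inv φ := by
    apply LinearMap.ext
    intro y
    apply Subtype.ext
    change y.1 * (φ ⟨e, Ideal.mem_span_singleton_self e⟩ : R) = φ y
    have h1 : y = y.1 • (⟨e, Ideal.mem_span_singleton_self e⟩ : (Ideal.span {e} : Ideal R)) :=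
      Subtype.ext (span_mul_idem he y.2).symm
    conv_rhs => rw [h1, map_smul]
    rfl
  right_inv x := Subtype.ext x.2.1
  map_add' φ ψ := rfl
  map_smul' c φ := rfl

/-- The Cauchy-Schwarz inequality in a semisimple algebra. -/
theorem cor_sq_le [IsSemisimpleRing R] [Module.Finite K R] {e f : R} (he : IsIdempotentElem e)
    (hf : IsIdempotentElem f) :
    (finrank K (cor K e f) + finrank K (cor K f e)) ^ 2 ≤
      4 * (finrank K (cor K e e) * finrank K (cor K f f)) := by
  have h1 : Module.Finite K (Ideal.span {e} : Ideal R) :=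
    Module.Finite.of_injective ((Ideal.span {e} : Ideal R).subtype.restrictScalars K)
      Subtype.val_injective
  have h2 : Module.Finite K (Ideal.span {f} : Ideal R) :=
    Module.Finite.of_injective ((Ideal.span {f} : Ideal R).subtype.restrictScalars K)
      Subtype.val_injective
  have h3 := hom_sq_le (K := K) (R := R) (Ideal.span {e} : Ideal R) (Ideal.span {f} : Ideal R)
  rw [(homCor (K := K) he hf).finrank_eq, (homCor (K := K) hf he).finrank_eq,
    (homCor (K := K) he he).finrank_eq, (homCor (K := K) hf hf).finrank_eq] at h3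
  exact h3

end Cor

section Trace

variable {K : Type u} [Field K] {R : Type v} [Ring R] [Algebra K R] [Module.Finite K R]

/-- The properties of the trace. -/
structure IsTr (τ : R →ₗ[K] K) : Prop where
  symm : ∀ x y, τ (x * y) = τ (y * x)
  nil : ∀ x, IsNilpotent x → τ x = 0
  conv : ∀ x, (∀ k ≥ 1, τ (x ^ k) = 0) → IsNilpotent x

variable {τ : R →ₗ[K] K} (h : IsTr τ)

/-- The radical. -/
def rad (h : IsTr τ) : Ideal R where
  carrier := {x | ∀ y, τ (x * y) = 0}
  add_mem' := by
    intro x y hx hy z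
    rw [add_mul, map_add, hx, hy, add_zero]
  zero_mem' := fun z => by rw [zero_mul, map_zero]
  smul_mem' := by
    intro c x hx y
    rw [smul_eq_mul, mul_assoc, h.symm, mul_assoc]
    exact hx _

lemma mem_rad {x : R} : x ∈ rad h ↔ ∀ y, τ (x * y) = 0 := Iff.rfl

instance : (rad h).IsTwoSided := ⟨by
  intro x y hx z
  rw [mul_assoc]
  exact hx _⟩

lemma rad_nil {x : R} (hx : x ∈ rad h) : IsNilpotent x := by
  apply h.conv
  intro k hk
  obtain ⟨k, rfl⟩ := Nat.exists_eq_add_of_le' hk
  rw [pow_succ']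
  exact hx _

/-- The quotient by the radical is semisimple. -/
lemma quot_semisimple : IsSemisimpleRing (R ⧸ rad h) := by
  have h1 : Module.Finite K (R ⧸ rad h) :=
    Module.Finite.of_surjective (Ideal.Quotient.mkₐ K (rad h)).toLinearMap
      Ideal.Quotient.mk_surjective
  have h2 : IsArtinianRing (R ⧸ rad h) := IsArtinianRing.of_finite K (R ⧸ rad h)
  rw [IsArtinianRing.isSemisimpleRing_iff_jacobson, eq_bot_iff]
  intro x hx
  obtain ⟨n, hn⟩ := IsSemiprimaryRing.isNilpotent (R := R ⧸ rad h)
  obtain ⟨x, rfl⟩ := Ideal.Quotient.mk_surjective x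
  rw [Submodule.mem_bot, Ideal.Quotient.eq_zero_iff_mem]
  intro y
  rw [h.symm]
  apply h.nil
  have h3 : Ideal.Quotient.mk (rad h) (y * x) ∈ Ring.jacobson (R ⧸ rad h) := by
    rw [map_mul]
    exact Ideal.mul_mem_left _ _ hx
  have h4 : (Ideal.Quotient.mk (rad h) (y * x)) ^ n ∈ (Ring.jacobson (R ⧸ rad h)) ^ n :=
    Ideal.pow_mem_pow h3 n
  rw [hn, ← map_pow] at h4
  have h5 : (y * x) ^ n ∈ rad h := Ideal.Quotient.eq_zero_iff_mem.1 ((Submodule.mem_bot _).1 h4)
  obtain ⟨m, hm⟩ := rad_nil h h5
  exact ⟨n * m, by rw [pow_mul, hm]⟩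

/-- **The Cauchy-Schwarz inequality modulo the radical.** -/
theorem nr_sq_le {e f : R} (he : IsIdempotentElem e) (hf : IsIdempotentElem f) :
    (nr (cor K e f) ((rad h).restrictScalars K) + nr (cor K f e) ((rad h).restrictScalars K)) ^ 2 ≤
      4 * (nr (cor K e e) ((rad h).restrictScalars K) *
        nr (cor K f f) ((rad h).restrictScalars K)) := by
  have := quot_semisimple h
  have h1 : Module.Finite K (R ⧸ rad h) :=
    Module.Finite.of_surjective (Ideal.Quotient.mkₐ K (rad h)).toLinearMap
      Ideal.Quotient.mk_surjective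
  have key : ∀ {e f : R}, IsIdempotentElem e → IsIdempotentElem f →
      nr (cor K e f) ((rad h).restrictScalars K) =
        finrank K (cor K (Ideal.Quotient.mk (rad h) e) (Ideal.Quotient.mk (rad h) f)) := by
    intro e f he hf
    have e1 : (cor K e f).map (Ideal.Quotient.mkₐ K (rad h)).toLinearMap =
        cor K (Ideal.Quotient.mk (rad h) e) (Ideal.Quotient.mk (rad h) f) := by
      ext x
      constructor
      · rintro ⟨y, hy, rfl⟩
        change Ideal.Quotient.mk (rad h) e * Ideal.Quotient.mk (rad h) y =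
          Ideal.Quotient.mk (rad h) y ∧ Ideal.Quotient.mk (rad h) y * Ideal.Quotient.mk (rad h) f =
          Ideal.Quotient.mk (rad h) y
        rw [← map_mul, ← map_mul, hy.1, hy.2]
        exact ⟨rfl, rfl⟩
      · rintro ⟨h2, h3⟩
        obtain ⟨x, rfl⟩ := Ideal.Quotient.mk_surjective x
        refine ⟨e * x * f, ⟨?_, ?_⟩, ?_⟩
        · rw [← mul_assoc, ← mul_assoc, he.eq]
        · rw [mul_assoc, hf.eq]
        · change Ideal.Quotient.mk (rad h) (e * x * f) = _
          rw [map_mul, map_mul, h2, h3]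
    rw [nr_eq (Ideal.Quotient.mkₐ K (rad h)).toLinearMap, e1]
    · intro x _
      exact Ideal.Quotient.eq_zero_iff_mem
  have h2 : ∀ {e : R}, IsIdempotentElem e → IsIdempotentElem (Ideal.Quotient.mk (rad h) e) :=
    fun he => by rw [IsIdempotentElem, ← map_mul, he.eq]
  rw [key he hf, key hf he, key he he, key hf hf]
  exact cor_sq_le (h2 he) (h2 hf)

/-- **Proper left ideals.** -/
theorem exists_idem (J : Ideal R) (hJ : rad h ≤ J) (h1 : (1 : R) ∉ J) :
    ∃ q : R, IsIdempotentElem q ∧ q ≠ 1 ∧ ∀ x ∈ J, x - x * q ∈ rad h := by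
  have := quot_semisimple h
  obtain ⟨p, hp, hJp⟩ := IsSemisimpleRing.ideal_eq_span_idempotent
    (J.map (Ideal.Quotient.mk (rad h)))
  obtain ⟨q, hq, hqp⟩ := exists_isIdempotentElem_eq_of_ker_isNilpotent
    (Ideal.Quotient.mk (rad h)) (fun x hx => rad_nil h (by
      rwa [RingHom.mem_ker, Ideal.Quotient.eq_zero_iff_mem] at hx)) p
    (Ideal.Quotient.mk_surjective p) hp
  have hmap : ∀ x, Ideal.Quotient.mk (rad h) x ∈ J.map (Ideal.Quotient.mk (rad h)) ↔ x ∈ J := by
    intro x
    constructor
    · intro hx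
      obtain ⟨y, hy, hyx⟩ := (Ideal.mem_map_iff_of_surjective _
        Ideal.Quotient.mk_surjective).1 hx
      have h2 : x - y ∈ rad h := by
        rw [← Ideal.Quotient.eq_zero_iff_mem, map_sub, hyx, sub_self]
      have h3 := J.add_mem (hJ h2) hy
      rwa [sub_add_cancel] at h3
    · exact fun hx => Ideal.mem_map_of_mem _ hx
  refine ⟨q, hq, ?_, fun x hx => ?_⟩
  · rintro rfl
    apply h1
    rw [← hmap, hJp, ← hqp]
    exact Ideal.mem_span_singleton_self _
  · rw [← Ideal.Quotient.eq_zero_iff_mem, map_sub, map_mul, hqp, sub_eq_zero]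
    have h2 : Ideal.Quotient.mk (rad h) x ∈ (Ideal.span {p} : Ideal (R ⧸ rad h)) := by
      rw [← hJp]
      exact Ideal.mem_map_of_mem _ hx
    exact (span_mul_idem hp h2).symm

end Trace

end Pool.Agent.N180.Zl
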