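import Pool.Agent.N180.ZlF

/-!
# Bending
-/

open Module Matrix

set_option linter.unusedSectionVars false

namespace Pool.Agent.N180.Zl

section General

variable {K : Type*} [Field K] {m n m' n' : Type*} [Fintype m] [Fintype n] [Fintype m']
  [Fintype n'] [DecidableEq m] [DecidableEq n] [DecidableEq m'] [DecidableEq n']

/-- Reindexing of the entries. -/
def bendL (K : Type*) [Field K] (e : m' × n' ≃ m × n) : Matrix m n K ≃ₗ[K] Matrix m' n' K where
  toFun M := Matrix.of fun a b => M (e (a, b)).1 (e (a, b)).2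
  invFun M := Matrix.of fun a b => M (e.symm (a, b)).1 (e.symm (a, b)).2
  left_inv M := by
    ext a b
    simp
  right_inv M := by
    ext a b
    simp
  map_add' _ _ := rfl
  map_smul' _ _ := rfl

/-- Reindexing of the entries of the transposed matrix. -/
def bendR (K : Type*) [Field K] (e : m' × n' ≃ m × n) : Matrix n m K ≃ₗ[K] Matrix n' m' K where
  toFun M := Matrix.of fun b a => M (e (a, b)).2 (e (a, b)).1
  invFun M := Matrix.of fun b a => M (e.symm (a, b)).2 (e.symm (a, b)).1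
  left_inv M := by
    ext a b
    simp
  right_inv M := by
    ext a b
    simp
  map_add' _ _ := rfl
  map_smul' _ _ := rfl

lemma trace_bend (e : m' × n' ≃ m × n) (M : Matrix m n K) (N : Matrix n m K) :
    (bendL K e M * bendR K e N).trace = (M * N).trace := by
  have h1 : (M * N).trace = ∑ p : m × n, M p.1 p.2 * N p.2 p.1 := by
    rw [Fintype.sum_prod_type, Matrix.trace]
    rfl
  have h2 : (bendL K e M * bendR K e N).trace =
      ∑ p : m' × n', M (e p).1 (e p).2 * N (e p).2 (e p).1 := by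
    rw [Fintype.sum_prod_type, Matrix.trace]
    rfl
  rw [h1, h2]
  exact e.sum_comp (fun p => M p.1 p.2 * N p.2 p.1)

lemma pr_bend (e : m' × n' ≃ m × n) {X : Submodule K (Matrix m n K)}
    {Y : Submodule K (Matrix n m K)} {X' : Submodule K (Matrix m' n' K)}
    {Y' : Submodule K (Matrix n' m' K)} (hX : ∀ M, M ∈ X ↔ bendL K e M ∈ X')
    (hY : ∀ N, N ∈ Y ↔ bendR K e N ∈ Y') : pr X Y = pr X' Y' := by
  refine nr_congr (bendL K e).toLinearMap ?_ ?_
  · ext M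
    constructor
    · rintro ⟨M, hM, rfl⟩
      exact (hX M).1 hM
    · intro hM
      refine ⟨(bendL K e).symm M, ?_, (bendL K e).apply_symm_apply M⟩
      refine (hX _).2 ?_
      rwa [LinearEquiv.apply_symm_apply]
  · intro M _
    constructor
    · intro h N hN
      have h1 := h _ ((hY N).1 hN)
      rwa [LinearEquiv.coe_coe, trace_bend] at h1
    · intro h N hN
      have h1 : N = bendR K e ((bendR K e).symm N) := ((bendR K e).apply_symm_apply N).symm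
      rw [h1, LinearEquiv.coe_coe, trace_bend]
      apply h
      refine (hY _).2 ?_
      rwa [LinearEquiv.apply_symm_apply]

end General

variable {K : Type*} [Field K] {ι : Type*} [Fintype ι] [DecidableEq ι] (𝓣 : TFam K ι)

lemma reindex_iff {S S' : Type} [Fintype S] [Fintype S'] [DecidableEq S] [DecidableEq S']
    (e : S ≃ S') {ε : S → Bool} {ε' : S' → Bool} (h : ∀ s, ε' (e s) = ε s)
    {z : (S → ι) → K} {w : (S' → ι) → K} (hw : ∀ I : S' → ι, w I = z (I ∘ e)) :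
    z ∈ 𝓣.C ε ↔ w ∈ 𝓣.C ε' := by
  constructor
  · intro hz
    exact 𝓣.reindex'' e h hz hw
  · intro hz
    refine 𝓣.reindex'' e.symm (fun s => ?_) hz (fun I => ?_)
    · rw [← h (e.symm s), Equiv.apply_symm_apply]
    · rw [hw]
      congr 1
      funext s
      simp

section Kr

variable {S S' R : Type} [Fintype S] [Fintype S'] [Fintype R] [DecidableEq S] [DecidableEq S']
  [DecidableEq R]

lemma kr_one_mul {T : Type*} [Fintype T] (q : Matrix (S → ι) (S → ι) K)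
    (M : Matrix (S ⊕ R → ι) T K) (J : S ⊕ R → ι) (I : T) :
    (TFam.kr q (1 : Matrix (R → ι) (R → ι) K) * M) J I =
      ∑ L : S → ι, q (J ∘ Sum.inl) L * M (Sum.elim L (J ∘ Sum.inr)) I := by
  rw [Matrix.mul_apply, sum_sum]
  refine Finset.sum_congr rfl fun L _ => ?_
  rw [Finset.sum_eq_single (J ∘ Sum.inr)]
  · rw [TFam.kr_apply, Sum.elim_comp_inl, Sum.elim_comp_inr, Matrix.one_apply_eq, mul_one]
  · intro L' _ hL'
    rw [TFam.kr_apply, Sum.elim_comp_inr, Matrix.one_apply_ne (Ne.symm hL'), mul_zero, zero_mul]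
  · intro h0
    exact absurd (Finset.mem_univ _) h0

lemma mul_kr_one {T : Type*} [Fintype T] (q : Matrix (S → ι) (S → ι) K)
    (M : Matrix T (S ⊕ R → ι) K) (J : T) (I : S ⊕ R → ι) :
    (M * TFam.kr q (1 : Matrix (R → ι) (R → ι) K)) J I =
      ∑ L : S → ι, M J (Sum.elim L (I ∘ Sum.inr)) * q L (I ∘ Sum.inl) := by
  rw [Matrix.mul_apply, sum_sum]
  refine Finset.sum_congr rfl fun L _ => ?_
  rw [Finset.sum_eq_single (I ∘ Sum.inr)]
  · rw [TFam.kr_apply, Sum.elim_comp_inl, Sum.elim_comp_inr, Matrix.one_apply_eq, mul_one]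
  · intro L' _ hL'
    rw [TFam.kr_apply, Sum.elim_comp_inr, Matrix.one_apply_ne hL', mul_zero, mul_zero]
  · intro h0
    exact absurd (Finset.mem_univ _) h0

end Kr

/-- The bijection of the indices. -/
def eBend (ι S S' R : Type*) : (Empty ⊕ R → ι) × ((S ⊕ S') ⊕ R → ι) ≃ (S ⊕ R → ι) × (S' ⊕ R → ι)
    where
  toFun p := (Sum.elim ((p.2 ∘ Sum.inl) ∘ Sum.inl) (p.1 ∘ Sum.inr),
    Sum.elim ((p.2 ∘ Sum.inl) ∘ Sum.inr) (p.2 ∘ Sum.inr))
  invFun p := (Sum.elim (fun s => s.elim) (p.1 ∘ Sum.inr),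
    Sum.elim (Sum.elim (p.1 ∘ Sum.inl) (p.2 ∘ Sum.inl)) (p.2 ∘ Sum.inr))
  left_inv p := by
    ext s
    · rcases s with s | s
      · exact s.elim
      · rfl
    · rcases s with (s | s) | s <;> rfl
  right_inv p := by
    ext s
    · rcases s with s | s <;> rfl
    · rcases s with s | s <;> rfl

/-- The bijection of the slots. -/
def eSlot (S S' R : Type) : (S ⊕ R) ⊕ (S' ⊕ R) ≃ (Empty ⊕ R) ⊕ ((S ⊕ S') ⊕ R) where
  toFun s := match s with
    | Sum.inl (Sum.inl s) => Sum.inr (Sum.inl (Sum.inl s))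
    | Sum.inl (Sum.inr s) => Sum.inl (Sum.inr s)
    | Sum.inr (Sum.inl s) => Sum.inr (Sum.inl (Sum.inr s))
    | Sum.inr (Sum.inr s) => Sum.inr (Sum.inr s)
  invFun s := match s with
    | Sum.inr (Sum.inl (Sum.inl s)) => Sum.inl (Sum.inl s)
    | Sum.inl (Sum.inr s) => Sum.inl (Sum.inr s)
    | Sum.inr (Sum.inl (Sum.inr s)) => Sum.inr (Sum.inl s)
    | Sum.inr (Sum.inr s) => Sum.inr (Sum.inr s)
  left_inv := by rintro ((s | s) | (s | s)) <;> rfl
  right_inv := by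
    rintro ((s | s) | ((s | s) | s))
    · exact s.elim
    · rfl
    · rfl
    · rfl
    · rfl

/-- The bijection of the slots, for the other side. -/
def eSlot' (S S' R : Type) : (S' ⊕ R) ⊕ (S ⊕ R) ≃ ((S ⊕ S') ⊕ R) ⊕ (Empty ⊕ R) where
  toFun s := match s with
    | Sum.inl (Sum.inl s) => Sum.inl (Sum.inl (Sum.inr s))
    | Sum.inl (Sum.inr s) => Sum.inl (Sum.inr s)
    | Sum.inr (Sum.inl s) => Sum.inl (Sum.inl (Sum.inl s))
    | Sum.inr (Sum.inr s) => Sum.inr (Sum.inr s)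
  invFun s := match s with
    | Sum.inl (Sum.inl (Sum.inr s)) => Sum.inl (Sum.inl s)
    | Sum.inl (Sum.inr s) => Sum.inl (Sum.inr s)
    | Sum.inl (Sum.inl (Sum.inl s)) => Sum.inr (Sum.inl s)
    | Sum.inr (Sum.inr s) => Sum.inr (Sum.inr s)
  left_inv := by rintro ((s | s) | (s | s)) <;> rfl
  right_inv := by
    rintro (((s | s) | s) | (s | s))
    · rfl
    · rfl
    · rfl
    · exact s.elim
    · rfl

open Ob

lemma sandwich {m n : Type*} [Fintype m] [Fintype n] {e : Matrix m m K} {f : Matrix n n K}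
    (he : e * e = e) (hf : f * f = f) {M : Matrix m n K} :
    (e * M = M ∧ M * f = M) ↔ e * M * f = M := by
  constructor
  · rintro ⟨h1, h2⟩
    rw [h1, h2]
  · intro h
    constructor
    · conv_lhs => rw [← h]
      rw [← Matrix.mul_assoc, ← Matrix.mul_assoc, he, h]
    · conv_lhs => rw [← h]
      rw [Matrix.mul_assoc, hf, h]

section Gen

variable {S S' R : Type} [Fintype S] [Fintype S'] [Fintype R] [DecidableEq S] [DecidableEq S']
  [DecidableEq R]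

lemma bendL_mul (p : Matrix (S → ι) (S → ι) K) (q : Matrix (S' → ι) (S' → ι) K)
    (M : Matrix (S ⊕ R → ι) (S' ⊕ R → ι) K) :
    bendL K (eBend ι S S' R) M * TFam.kr (TFam.kr pᵀ q) (1 : Matrix (R → ι) (R → ι) K) =
      bendL K (eBend ι S S' R) (TFam.kr p (1 : Matrix (R → ι) (R → ι) K) * M *
        TFam.kr q (1 : Matrix (R → ι) (R → ι) K)) := by
  ext J I
  rw [mul_kr_one]
  have e2 : bendL K (eBend ι S S' R) (TFam.kr p (1 : Matrix (R → ι) (R → ι) K) * M *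
        TFam.kr q (1 : Matrix (R → ι) (R → ι) K)) J I =
    (TFam.kr p (1 : Matrix (R → ι) (R → ι) K) * M *
        TFam.kr q (1 : Matrix (R → ι) (R → ι) K))
      (Sum.elim ((I ∘ Sum.inl) ∘ Sum.inl) (J ∘ Sum.inr))
      (Sum.elim ((I ∘ Sum.inl) ∘ Sum.inr) (I ∘ Sum.inr)) := rfl
  have e3 : (TFam.kr p (1 : Matrix (R → ι) (R → ι) K) * M *
        TFam.kr q (1 : Matrix (R → ι) (R → ι) K))
      (Sum.elim ((I ∘ Sum.inl) ∘ Sum.inl) (J ∘ Sum.inr))
      (Sum.elim ((I ∘ Sum.inl) ∘ Sum.inr) (I ∘ Sum.inr)) =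
      ∑ L₂ : S' → ι, ∑ L₁ : S → ι, p ((I ∘ Sum.inl) ∘ Sum.inl) L₁ *
        M (Sum.elim L₁ (J ∘ Sum.inr)) (Sum.elim L₂ (I ∘ Sum.inr)) *
          q L₂ ((I ∘ Sum.inl) ∘ Sum.inr) := by
    rw [mul_kr_one]
    refine Finset.sum_congr rfl fun L₂ _ => ?_
    rw [kr_one_mul, Finset.sum_mul]
    rfl
  rw [e2, e3, sum_sum, Finset.sum_comm]
  refine Finset.sum_congr rfl fun L₂ _ => Finset.sum_congr rfl fun L₁ _ => ?_
  change M (Sum.elim L₁ (J ∘ Sum.inr)) (Sum.elim L₂ (I ∘ Sum.inr)) *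
    (p ((I ∘ Sum.inl) ∘ Sum.inl) L₁ * q L₂ ((I ∘ Sum.inl) ∘ Sum.inr)) = _
  ring

lemma bendR_mul (p : Matrix (S → ι) (S → ι) K) (q : Matrix (S' → ι) (S' → ι) K)
    (N : Matrix (S' ⊕ R → ι) (S ⊕ R → ι) K) :
    TFam.kr (TFam.kr pᵀ q) (1 : Matrix (R → ι) (R → ι) K) * bendR K (eBend ι S S' R) N =
      bendR K (eBend ι S S' R) (TFam.kr q (1 : Matrix (R → ι) (R → ι) K) * N *
        TFam.kr p (1 : Matrix (R → ι) (R → ι) K)) := by
  ext I J
  rw [kr_one_mul]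
  have e2 : bendR K (eBend ι S S' R) (TFam.kr q (1 : Matrix (R → ι) (R → ι) K) * N *
        TFam.kr p (1 : Matrix (R → ι) (R → ι) K)) I J =
    (TFam.kr q (1 : Matrix (R → ι) (R → ι) K) * N *
        TFam.kr p (1 : Matrix (R → ι) (R → ι) K))
      (Sum.elim ((I ∘ Sum.inl) ∘ Sum.inr) (I ∘ Sum.inr))
      (Sum.elim ((I ∘ Sum.inl) ∘ Sum.inl) (J ∘ Sum.inr)) := rfl
  have e3 : (TFam.kr q (1 : Matrix (R → ι) (R → ι) K) * N *
        TFam.kr p (1 : Matrix (R → ι) (R → ι) K))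
      (Sum.elim ((I ∘ Sum.inl) ∘ Sum.inr) (I ∘ Sum.inr))
      (Sum.elim ((I ∘ Sum.inl) ∘ Sum.inl) (J ∘ Sum.inr)) =
      ∑ L₁ : S → ι, ∑ L₂ : S' → ι, q ((I ∘ Sum.inl) ∘ Sum.inr) L₂ *
        N (Sum.elim L₂ (I ∘ Sum.inr)) (Sum.elim L₁ (J ∘ Sum.inr)) *
          p L₁ ((I ∘ Sum.inl) ∘ Sum.inl) := by
    rw [mul_kr_one]
    refine Finset.sum_congr rfl fun L₁ _ => ?_
    rw [kr_one_mul, Finset.sum_mul]
    rfl
  rw [e2, e3, sum_sum]
  refine Finset.sum_congr rfl fun L₁ _ => Finset.sum_congr rfl fun L₂ _ => ?_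
  change (p L₁ ((I ∘ Sum.inl) ∘ Sum.inl) * q ((I ∘ Sum.inl) ∘ Sum.inr) L₂) *
    N (Sum.elim L₂ (I ∘ Sum.inr)) (Sum.elim L₁ (J ∘ Sum.inr)) = _
  ring

lemma bendL_mem (ε : S → Bool) (ε' : S' → Bool) (δ : R → Bool)
    (M : Matrix (S ⊕ R → ι) (S' ⊕ R → ι) K) :
    M ∈ 𝓣.Hm (Sum.elim ε δ) (Sum.elim ε' δ) ↔ bendL K (eBend ι S S' R) M ∈
      𝓣.Hm (Sum.elim (fun s : Empty => s.elim) δ)
        (Sum.elim (Sum.elim (fun s => !(ε s)) ε') δ) := by
  rw [𝓣.mem_Hm, 𝓣.mem_Hm]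
  refine reindex_iff 𝓣 (eSlot S S' R) ?_ ?_
  · rintro ((s | s) | (s | s))
    · change (!(!(ε s))) = ε s
      rw [Bool.not_not]
    · rfl
    · rfl
    · rfl
  · intro I
    change M _ _ = M _ _
    congr 1
    · funext s
      rcases s with s | s <;> rfl
    · funext s
      rcases s with s | s <;> rfl

lemma bendR_mem (ε : S → Bool) (ε' : S' → Bool) (δ : R → Bool)
    (N : Matrix (S' ⊕ R → ι) (S ⊕ R → ι) K) :
    N ∈ 𝓣.Hm (Sum.elim ε' δ) (Sum.elim ε δ) ↔ bendR K (eBend ι S S' R) N ∈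
      𝓣.Hm (Sum.elim (Sum.elim (fun s => !(ε s)) ε') δ)
        (Sum.elim (fun s : Empty => s.elim) δ) := by
  rw [𝓣.mem_Hm, 𝓣.mem_Hm]
  refine reindex_iff 𝓣 (eSlot' S S' R) ?_ ?_
  · rintro ((s | s) | (s | s)) <;> rfl
  · intro I
    change N _ _ = N _ _
    congr 1
    · funext s
      rcases s with s | s <;> rfl
    · funext s
      rcases s with s | s <;> rfl

/-- **Bending.** -/
theorem bend_gen (ε : S → Bool) (ε' : S' → Bool) (δ : R → Bool)
    {p : Matrix (S → ι) (S → ι) K} {q : Matrix (S' → ι) (S' → ι) K} (hp : p * p = p)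
    (hq : q * q = q) {X : Submodule K (Matrix (S ⊕ R → ι) (S' ⊕ R → ι) K)}
    {Y : Submodule K (Matrix (S' ⊕ R → ι) (S ⊕ R → ι) K)}
    {X' : Submodule K (Matrix (Empty ⊕ R → ι) ((S ⊕ S') ⊕ R → ι) K)}
    {Y' : Submodule K (Matrix ((S ⊕ S') ⊕ R → ι) (Empty ⊕ R → ι) K)}
    (hX : ∀ M, M ∈ X ↔ M ∈ 𝓣.Hm (Sum.elim ε δ) (Sum.elim ε' δ) ∧
      TFam.kr p (1 : Matrix (R → ι) (R → ι) K) * M = M ∧
      M * TFam.kr q (1 : Matrix (R → ι) (R → ι) K) = M)
    (hY : ∀ M, M ∈ Y ↔ M ∈ 𝓣.Hm (Sum.elim ε' δ) (Sum.elim ε δ) ∧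
      TFam.kr q (1 : Matrix (R → ι) (R → ι) K) * M = M ∧
      M * TFam.kr p (1 : Matrix (R → ι) (R → ι) K) = M)
    (hX' : ∀ M, M ∈ X' ↔ M ∈ 𝓣.Hm (Sum.elim (fun s : Empty => s.elim) δ)
        (Sum.elim (Sum.elim (fun s => !(ε s)) ε') δ) ∧
      TFam.kr (1 : Matrix (Empty → ι) (Empty → ι) K) (1 : Matrix (R → ι) (R → ι) K) * M = M ∧
      M * TFam.kr (TFam.kr pᵀ q) (1 : Matrix (R → ι) (R → ι) K) = M)
    (hY' : ∀ M, M ∈ Y' ↔ M ∈ 𝓣.Hm (Sum.elim (Sum.elim (fun s => !(ε s)) ε') δ)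
        (Sum.elim (fun s : Empty => s.elim) δ) ∧
      TFam.kr (TFam.kr pᵀ q) (1 : Matrix (R → ι) (R → ι) K) * M = M ∧
      M * TFam.kr (1 : Matrix (Empty → ι) (Empty → ι) K) (1 : Matrix (R → ι) (R → ι) K) = M) :
    pr X Y = pr X' Y' := by
  have hp1 : TFam.kr p (1 : Matrix (R → ι) (R → ι) K) * TFam.kr p 1 = TFam.kr p 1 := by
    rw [kr_mul, hp, Matrix.one_mul]
  have hq1 : TFam.kr q (1 : Matrix (R → ι) (R → ι) K) * TFam.kr q 1 = TFam.kr q 1 := by
    rw [kr_mul, hq, Matrix.one_mul]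
  refine pr_bend (eBend ι S S' R) ?_ ?_
  · intro M
    rw [hX, hX', sandwich hp1 hq1, bendL_mul, kr_one_one, bendL_mem 𝓣 ε ε' δ]
    refine and_congr Iff.rfl ?_
    constructor
    · intro h
      exact ⟨Matrix.one_mul _, by rw [h]⟩
    · rintro ⟨-, h⟩
      exact (bendL K (eBend ι S S' R)).injective h
  · intro N
    rw [hY, hY', sandwich hq1 hp1, bendR_mul, kr_one_one, bendR_mem 𝓣 ε ε' δ]
    refine and_congr Iff.rfl ?_
    constructor
    · intro h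
      exact ⟨by rw [h], Matrix.mul_one _⟩
    · rintro ⟨h, -⟩
      exact (bendR K (eBend ι S S' R)).injective h

end Gen

/-- **Bending.** -/
theorem bend (𝓣 : TFam K ι) : S_bend 𝓣 := by
  intro n A B
  exact bend_gen 𝓣 A.ε B.ε (fun _ : Fin n => true) A.idem B.idem
    (X := HS n A B) (Y := HS n B A)
    (X' := HS n (Ob.one 𝓣) (tens A.dual B)) (Y' := HS n (tens A.dual B) (Ob.one 𝓣))
    (fun _ => Iff.rfl) (fun _ => Iff.rfl) (fun _ => Iff.rfl) (fun _ => Iff.rfl)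

end Pool.Agent.N180.Zl
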