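import Pool.Agent.N180.ZlB

/-!
# Positivity of the form given by the dimensions of spaces of homomorphisms
-/

open Module Matrix

universe u v w

set_option linter.unusedSectionVars false

namespace Pool.Agent.N180.Zl

section Form3

variable {K : Type u} [Field K] {R : Type v} [Ring R] [Algebra K R]

/-- The form is positive. -/
theorem hom_form3 [IsSemisimpleRing R] (A B C : Type w) [AddCommGroup A]
    [Module R A] [Module K A] [IsScalarTower K R A] [Module.Finite K A] [AddCommGroup B]
    [Module R B] [Module K B] [IsScalarTower K R B] [Module.Finite K B] [AddCommGroup C]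
    [Module R C] [Module K C] [IsScalarTower K R C] [Module.Finite K C] (s t u : ℕ) :
    s * u * (finrank K (A →ₗ[R] C) + finrank K (C →ₗ[R] A)) +
      t * u * (finrank K (B →ₗ[R] C) + finrank K (C →ₗ[R] B)) ≤
      s * s * finrank K (A →ₗ[R] A) + t * t * finrank K (B →ₗ[R] B) +
        u * u * finrank K (C →ₗ[R] C) +
        s * t * (finrank K (A →ₗ[R] B) + finrank K (B →ₗ[R] A)) := by
  have h1 := hom_add_hom_le (K := K) (R := R) _ ((Fin s → A) × (Fin t → B)) (Fin u → C) (le_refl _)
  rw [finrank_hom_prod_left, finrank_hom_prod_right, finrank_hom_prod_left,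
    finrank_hom_prod_right, finrank_hom_prod_right] at h1
  simp only [finrank_hom_pow] at h1
  nlinarith [h1]

/-- The form is positive, for left ideals. -/
theorem cor_form3 [IsSemisimpleRing R] [Module.Finite K R] {e f g : R} (he : IsIdempotentElem e)
    (hf : IsIdempotentElem f) (hg : IsIdempotentElem g) (s t u : ℕ) :
    s * u * (finrank K (cor K e g) + finrank K (cor K g e)) +
      t * u * (finrank K (cor K f g) + finrank K (cor K g f)) ≤
      s * s * finrank K (cor K e e) + t * t * finrank K (cor K f f) +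
        u * u * finrank K (cor K g g) + s * t * (finrank K (cor K e f) + finrank K (cor K f e)) := by
  have h1 : ∀ e : R, Module.Finite K (Ideal.span {e} : Ideal R) := fun e =>
    Module.Finite.of_injective ((Ideal.span {e} : Ideal R).subtype.restrictScalars K)
      Subtype.val_injective
  have := h1 e
  have := h1 f
  have := h1 g
  have h3 := hom_form3 (K := K) (R := R) (Ideal.span {e} : Ideal R) (Ideal.span {f} : Ideal R)
    (Ideal.span {g} : Ideal R) s t u
  rw [(homCor (K := K) he hf).finrank_eq, (homCor (K := K) hf he).finrank_eq,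
    (homCor (K := K) he he).finrank_eq, (homCor (K := K) hf hf).finrank_eq,
    (homCor (K := K) he hg).finrank_eq, (homCor (K := K) hf hg).finrank_eq,
    (homCor (K := K) hg he).finrank_eq, (homCor (K := K) hg hf).finrank_eq,
    (homCor (K := K) hg hg).finrank_eq] at h3
  exact h3

variable [Module.Finite K R] {τ : R →ₗ[K] K} (h : IsTr τ)

lemma nr_cor {e f : R} (he : IsIdempotentElem e) (hf : IsIdempotentElem f) :
    nr (cor K e f) ((rad h).restrictScalars K) =
      finrank K (cor K (Ideal.Quotient.mk (rad h) e) (Ideal.Quotient.mk (rad h) f)) := by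
  have e1 : (cor K e f).map (Ideal.Quotient.mkₐ K (rad h)).toLinearMap =
      cor K (Ideal.Quotient.mk (rad h) e) (Ideal.Quotient.mk (rad h) f) := by
    ext x
    constructor
    · rintro ⟨y, hy, rfl⟩
      change Ideal.Quotient.mk (rad h) e * Ideal.Quotient.mk (rad h) y =
        Ideal.Quotient.mk (rad h) y ∧ Ideal.Quotient.mk (rad h) y * Ideal.Quotient.mk (rad h) f =
        Ideal.Quotient.mk (rad h) y
      rw [← map_mul, ← map_mul, hy.1, hy.2]
      exact ⟨rfl, rfl⟩
    · rintro ⟨h2, h3⟩
      obtain ⟨x, rfl⟩ := Ideal.Quotient.mk_surjective x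
      refine ⟨e * x * f, ⟨?_, ?_⟩, ?_⟩
      · rw [← mul_assoc, ← mul_assoc, he.eq]
      · rw [mul_assoc, hf.eq]
      · change Ideal.Quotient.mk (rad h) (e * x * f) = _
        rw [map_mul, map_mul, h2, h3]
  rw [nr_eq (Ideal.Quotient.mkₐ K (rad h)).toLinearMap, e1]
  intro x _
  exact Ideal.Quotient.eq_zero_iff_mem

/-- The form is positive, modulo the radical. -/
theorem nr_form3 {e f g : R} (he : IsIdempotentElem e)
    (hf : IsIdempotentElem f) (hg : IsIdempotentElem g) (s t u : ℕ) :
    s * u * (nr (cor K e g) ((rad h).restrictScalars K) +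
        nr (cor K g e) ((rad h).restrictScalars K)) +
      t * u * (nr (cor K f g) ((rad h).restrictScalars K) +
        nr (cor K g f) ((rad h).restrictScalars K)) ≤
      s * s * nr (cor K e e) ((rad h).restrictScalars K) +
        t * t * nr (cor K f f) ((rad h).restrictScalars K) +
        u * u * nr (cor K g g) ((rad h).restrictScalars K) +
        s * t * (nr (cor K e f) ((rad h).restrictScalars K) +
          nr (cor K f e) ((rad h).restrictScalars K)) := by
  have := quot_semisimple h
  have h1 : Module.Finite K (R ⧸ rad h) :=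
    Module.Finite.of_surjective (Ideal.Quotient.mkₐ K (rad h)).toLinearMap
      Ideal.Quotient.mk_surjective
  have h2 : ∀ {e : R}, IsIdempotentElem e → IsIdempotentElem (Ideal.Quotient.mk (rad h) e) :=
    fun he => by rw [IsIdempotentElem, ← map_mul, he.eq]
  simp only [nr_cor h he hf, nr_cor h hf he, nr_cor h he he, nr_cor h hf hf, nr_cor h he hg,
    nr_cor h hg he, nr_cor h hf hg, nr_cor h hg hf, nr_cor h hg hg]
  exact cor_form3 (h2 he) (h2 hf) (h2 hg) s t u

end Form3

section Pairing

variable {K : Type*} [Field K] {m n : Type*} [Fintype m] [Fintype n] [DecidableEq m]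
  [DecidableEq n]

/-- The matrices orthogonal to `Y`. -/
def orth (Y : Submodule K (Matrix n m K)) : Submodule K (Matrix m n K) where
  carrier := {x | ∀ y ∈ Y, (x * y).trace = 0}
  add_mem' := by
    intro x x' hx hx' y hy
    rw [Matrix.add_mul, trace_add, hx y hy, hx' y hy, add_zero]
  zero_mem' := fun y _ => by rw [Matrix.zero_mul, trace_zero]
  smul_mem' := by
    intro c x hx y hy
    rw [Matrix.smul_mul, trace_smul, hx y hy, smul_zero]

lemma mem_orth {Y : Submodule K (Matrix n m K)} {x : Matrix m n K} :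
    x ∈ orth Y ↔ ∀ y ∈ Y, (x * y).trace = 0 := Iff.rfl

/-- The rank of the trace pairing of two spaces of matrices. -/
noncomputable def pr (X : Submodule K (Matrix m n K)) (Y : Submodule K (Matrix n m K)) : ℕ :=
  nr X (orth Y)

/-- The trace pairing. -/
def trp (K : Type*) [Field K] (m n : Type*) [Fintype m] [Fintype n] :
    Matrix m n K →ₗ[K] Matrix n m K →ₗ[K] K :=
  LinearMap.mk₂ K (fun x y => (x * y).trace)
    (fun x x' y => by rw [Matrix.add_mul, trace_add])
    (fun c x y => by rw [Matrix.smul_mul, trace_smul])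
    (fun x y y' => by rw [Matrix.mul_add, trace_add])
    (fun c x y => by rw [Matrix.mul_smul, trace_smul])

lemma trp_apply (x : Matrix m n K) (y : Matrix n m K) : trp K m n x y = (x * y).trace := rfl

/-- The map to the dual. -/
def toD (X : Submodule K (Matrix m n K)) (Y : Submodule K (Matrix n m K)) :
    X →ₗ[K] Dual K Y :=
  (Y.subtype.dualMap ∘ₗ trp K m n).domRestrict X

lemma toD_apply (X : Submodule K (Matrix m n K)) (Y : Submodule K (Matrix n m K)) (x : X)
    (y : Y) : toD X Y x y = (x.1 * y.1).trace := rfl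

lemma pr_eq (X : Submodule K (Matrix m n K)) (Y : Submodule K (Matrix n m K)) :
    pr X Y = finrank K (LinearMap.range (toD X Y)) := by
  rw [pr, nr_eq (Y.subtype.dualMap ∘ₗ trp K m n), toD, LinearMap.range_domRestrict]
  intro x _
  constructor
  · intro hx y hy
    exact congrArg (fun F => F ⟨y, hy⟩) hx
  · intro hx
    apply LinearMap.ext
    intro y
    exact hx y.1 y.2

lemma pr_comm (X : Submodule K (Matrix m n K)) (Y : Submodule K (Matrix n m K)) :
    pr X Y = pr Y X := by
  rw [pr_eq, pr_eq, ← LinearMap.finrank_range_dualMap_eq_finrank_range]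
  have h1 : toD Y X = (toD X Y).dualMap ∘ₗ (Module.evalEquiv K Y).toLinearMap := by
    apply LinearMap.ext
    intro y
    apply LinearMap.ext
    intro x
    change (y.1 * x.1).trace = (x.1 * y.1).trace
    exact trace_mul_comm _ _
  rw [h1, LinearMap.range_comp, LinearEquiv.range, Submodule.map_top]

end Pairing

section Blocks

variable {K : Type*} [Field K] {I : Type*} [Fintype I] [DecidableEq I] {κ : I → Type*}
  [∀ i, Fintype (κ i)] [∀ i, DecidableEq (κ i)] {Ω : Type*} [Fintype Ω] [DecidableEq Ω]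

/-- A family of spaces of matrices. -/
structure HFam (H : ∀ i j, Submodule K (Matrix (κ i) (κ j) K)) (e : ∀ i, Matrix (κ i) (κ i) K) :
    Prop where
  mul : ∀ i j l, ∀ x ∈ H i j, ∀ y ∈ H j l, x * y ∈ H i l
  mem : ∀ i, e i ∈ H i i
  left : ∀ i j, ∀ x ∈ H i j, e i * x = x
  right : ∀ i j, ∀ x ∈ H i j, x * e j = x

/-- Orthogonal embeddings. -/
structure Frames (P : ∀ i, Matrix Ω (κ i) K) : Prop where
  one : ∀ i, (P i)ᵀ * P i = 1
  zero : ∀ i j, i ≠ j → (P i)ᵀ * P j = 0

variable {H : ∀ i j, Submodule K (Matrix (κ i) (κ j) K)} {e : ∀ i, Matrix (κ i) (κ i) K}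
  {P : ∀ i, Matrix Ω (κ i) K}

/-- The sum of the blocks. -/
def blk (P : ∀ i, Matrix Ω (κ i) K) (x : ∀ i j, Matrix (κ i) (κ j) K) : Matrix Ω Ω K :=
  ∑ i, ∑ j, P i * x i j * (P j)ᵀ

lemma Frames.left_blk (hP : Frames P) (x : ∀ i j, Matrix (κ i) (κ j) K) (i : I) :
    (P i)ᵀ * blk P x = ∑ j, x i j * (P j)ᵀ := by
  rw [blk, Matrix.mul_sum, Finset.sum_eq_single i]
  · rw [Matrix.mul_sum]
    refine Finset.sum_congr rfl fun j _ => ?_
    rw [← Matrix.mul_assoc, ← Matrix.mul_assoc, hP.one, Matrix.one_mul]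
  · intro j _ hj
    rw [Matrix.mul_sum]
    apply Finset.sum_eq_zero
    intro l _
    rw [← Matrix.mul_assoc, ← Matrix.mul_assoc, hP.zero i j (Ne.symm hj), Matrix.zero_mul,
      Matrix.zero_mul]
  · intro h0
    exact absurd (Finset.mem_univ _) h0

lemma Frames.blk_blk (hP : Frames P) (x : ∀ i j, Matrix (κ i) (κ j) K) (i j : I) :
    (P i)ᵀ * blk P x * P j = x i j := by
  rw [hP.left_blk, Matrix.sum_mul, Finset.sum_eq_single j]
  · rw [Matrix.mul_assoc, hP.one, Matrix.mul_one]
  · intro l _ hl
    rw [Matrix.mul_assoc, hP.zero l j hl, Matrix.mul_zero]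
  · intro h0
    exact absurd (Finset.mem_univ _) h0

lemma Frames.blk_mul (hP : Frames P) (x y : ∀ i j, Matrix (κ i) (κ j) K) :
    blk P x * blk P y = blk P (fun i l => ∑ j, x i j * y j l) := by
  have e1 : blk P x * blk P y = ∑ i, ∑ j, P i * x i j * ((P j)ᵀ * blk P y) := by
    conv_lhs => rw [blk, Matrix.sum_mul]
    refine Finset.sum_congr rfl fun i _ => ?_
    rw [Matrix.sum_mul]
    refine Finset.sum_congr rfl fun j _ => ?_
    rw [Matrix.mul_assoc]
  have e3 : blk P (fun i l => ∑ j, x i j * y j l) =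
    ∑ i, ∑ l, P i * (∑ j, x i j * y j l) * (P l)ᵀ := rfl
  rw [e1, e3]
  refine Finset.sum_congr rfl fun i _ => ?_
  have e2 : ∀ j, P i * x i j * ((P j)ᵀ * blk P y) = ∑ l, P i * (x i j * y j l) * (P l)ᵀ := by
    intro j
    rw [hP.left_blk, Matrix.mul_sum]
    refine Finset.sum_congr rfl fun l _ => ?_
    simp only [Matrix.mul_assoc]
  rw [Finset.sum_congr rfl fun j _ => e2 j, Finset.sum_comm]
  refine Finset.sum_congr rfl fun l _ => ?_
  rw [Matrix.mul_sum, Matrix.sum_mul]

/-- The algebra of block matrices. -/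
def BAlg (hH : HFam H e) (hP : Frames P) : Subalgebra K (Matrix Ω Ω K) where
  carrier := {X | ∃ (c : K) (x : ∀ i j, Matrix (κ i) (κ j) K), (∀ i j, x i j ∈ H i j) ∧
    X = c • 1 + blk P x}
  mul_mem' := by
    rintro _ _ ⟨c, x, hx, rfl⟩ ⟨d, y, hy, rfl⟩
    refine ⟨c * d, fun i j => c • y i j + d • x i j + ∑ l, x i l * y l j, fun i j => ?_, ?_⟩
    · refine (H i j).add_mem ((H i j).add_mem ((H i j).smul_mem c (hy i j))
        ((H i j).smul_mem d (hx i j))) ((H i j).sum_mem fun l _ => ?_)
      exact hH.mul i l j _ (hx i l) _ (hy l j)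
    · have e1 : blk P (fun i j => c • y i j + d • x i j + ∑ l, x i l * y l j) =
          c • blk P y + d • blk P x + blk P x * blk P y := by
        rw [hP.blk_mul]
        simp only [blk, Finset.smul_sum, ← Finset.sum_add_distrib]
        refine Finset.sum_congr rfl fun i _ => Finset.sum_congr rfl fun j _ => ?_
        rw [Matrix.mul_add, Matrix.mul_add, Matrix.add_mul, Matrix.add_mul, Matrix.mul_smul,
          Matrix.mul_smul, Matrix.smul_mul, Matrix.smul_mul]
      rw [e1, add_mul, mul_add, mul_add, smul_mul_assoc, smul_mul_assoc, one_mul, one_mul,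
        mul_smul_comm, mul_one, smul_smul]
      abel
  add_mem' := by
    rintro _ _ ⟨c, x, hx, rfl⟩ ⟨d, y, hy, rfl⟩
    refine ⟨c + d, fun i j => x i j + y i j, fun i j => (H i j).add_mem (hx i j) (hy i j), ?_⟩
    have e1 : blk P (fun i j => x i j + y i j) = blk P x + blk P y := by
      simp only [blk, ← Finset.sum_add_distrib]
      refine Finset.sum_congr rfl fun i _ => Finset.sum_congr rfl fun j _ => ?_
      rw [Matrix.mul_add, Matrix.add_mul]
    rw [e1, add_smul]
    abel
  algebraMap_mem' := by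
    intro c
    refine ⟨c, fun _ _ => 0, fun i j => (H i j).zero_mem, ?_⟩
    have e1 : blk P (fun i j => (0 : Matrix (κ i) (κ j) K)) = 0 := by
      rw [blk]
      apply Finset.sum_eq_zero
      intro i _
      apply Finset.sum_eq_zero
      intro j _
      rw [Matrix.mul_zero, Matrix.zero_mul]
    rw [e1, add_zero, Algebra.algebraMap_eq_smul_one]

lemma mem_BAlg {hH : HFam H e} {hP : Frames P} {X : Matrix Ω Ω K} :
    X ∈ BAlg hH hP ↔ ∃ (c : K) (x : ∀ i j, Matrix (κ i) (κ j) K), (∀ i j, x i j ∈ H i j) ∧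
      X = c • 1 + blk P x := Iff.rfl

/-- The trace on the algebra of block matrices. -/
def bTr (hH : HFam H e) (hP : Frames P) : BAlg hH hP →ₗ[K] K :=
  Matrix.traceLinearMap Ω K K ∘ₗ (BAlg hH hP).val.toLinearMap

lemma bTr_apply (hH : HFam H e) (hP : Frames P) (x : BAlg hH hP) : bTr hH hP x = x.1.trace := rfl

lemma bTr_isTr [CharZero K] (hH : HFam H e) (hP : Frames P) : IsTr (bTr hH hP) where
  symm := fun x y => by
    rw [bTr_apply, bTr_apply]
    exact trace_mul_comm _ _
  nil := by
    rintro x ⟨n, hn⟩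
    rw [bTr_apply]
    have h1 : IsNilpotent x.1 := ⟨n, by rw [← Subalgebra.coe_pow, hn]; rfl⟩
    exact (Matrix.isNilpotent_trace_of_isNilpotent h1).eq_zero
  conv := by
    intro x hx
    have h1 : IsNilpotent (Matrix.toLin' x.1) := by
      apply Pool.Agent.TH623.SA.isNilpotent_of_trace
      intro m hm
      have h2 : (Matrix.toLin' x.1) ^ m = Matrix.toLin' (x.1 ^ m) := by
        rw [Matrix.toLin'_pow]
      rw [h2, Matrix.trace_toLin'_eq]
      exact hx m hm
    obtain ⟨n, hn⟩ := h1
    refine ⟨n, Subtype.ext ?_⟩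
    rw [← Matrix.toLin'_pow] at hn
    rw [Subalgebra.coe_pow]
    exact (LinearEquiv.map_eq_zero_iff Matrix.toLin').1 hn

/-- The matrix with a single block. -/
def sgl (P : ∀ i, Matrix Ω (κ i) K) (i j : I) (x : Matrix (κ i) (κ j) K) : Matrix Ω Ω K :=
  P i * x * (P j)ᵀ

lemma sgl_mem (hH : HFam H e) (hP : Frames P) {i j : I} {x : Matrix (κ i) (κ j) K}
    (hx : x ∈ H i j) : sgl P i j x ∈ BAlg hH hP := by
  classical
  refine ⟨0, fun i' j' => if h : i' = i ∧ j' = j then h.1 ▸ h.2 ▸ x else 0, ?_, ?_⟩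
  · intro i' j'
    by_cases h : i' = i ∧ j' = j
    · obtain ⟨rfl, rfl⟩ := h
      simpa using hx
    · beta_reduce
      rw [dif_neg h]
      exact Submodule.zero_mem _
  · rw [zero_smul, zero_add, blk, Finset.sum_eq_single i, Finset.sum_eq_single j]
    · rw [dif_pos ⟨rfl, rfl⟩]
      rfl
    · intro j' _ hj
      rw [dif_neg (fun h => hj h.2), Matrix.mul_zero, Matrix.zero_mul]
    · intro h0
      exact absurd (Finset.mem_univ _) h0
    · intro i' _ hi
      apply Finset.sum_eq_zero
      intro j' _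
      rw [dif_neg (fun h => hi h.1), Matrix.mul_zero, Matrix.zero_mul]
    · intro h0
      exact absurd (Finset.mem_univ _) h0

/-- The idempotents. -/
def idem (hH : HFam H e) (hP : Frames P) (i : I) : BAlg hH hP :=
  ⟨sgl P i i (e i), sgl_mem hH hP (hH.mem i)⟩

lemma idem_idem (hH : HFam H e) (hP : Frames P) (i : I) : IsIdempotentElem (idem hH hP i) := by
  apply Subtype.ext
  change sgl P i i (e i) * sgl P i i (e i) = sgl P i i (e i)
  rw [sgl]
  calc P i * e i * (P i)ᵀ * (P i * e i * (P i)ᵀ) = P i * (e i * ((P i)ᵀ * P i) * e i) * (P i)ᵀ := by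
        simp only [Matrix.mul_assoc]
    _ = _ := by rw [hP.one, Matrix.mul_one, hH.left i i _ (hH.mem i)]

/-- The corners. -/
lemma nr_corner [CharZero K] (hH : HFam H e) (hP : Frames P) (i j : I) :
    nr (cor K (idem hH hP i) (idem hH hP j))
      ((rad (bTr_isTr hH hP)).restrictScalars K) = pr (H i j) (H j i) := by
  set φ : BAlg hH hP →ₗ[K] Matrix (κ i) (κ j) K :=
    { toFun := fun X => (P i)ᵀ * X.1 * P j
      map_add' := fun X Y => by
        rw [AddMemClass.coe_add, Matrix.mul_add, Matrix.add_mul]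
      map_smul' := fun c X => by
        rw [SetLike.val_smul, Matrix.mul_smul, Matrix.smul_mul]
        rfl } with hφ
  have hφa : ∀ X : BAlg hH hP, φ X = (P i)ᵀ * X.1 * P j := fun X => rfl
  -- elements of the corner
  have hcor : ∀ X ∈ cor K (idem hH hP i) (idem hH hP j), φ X ∈ H i j ∧
      X.1 = sgl P i j (φ X) := by
    rintro X ⟨h1, h2⟩
    have h1' : P i * e i * (P i)ᵀ * X.1 = X.1 := congrArg Subtype.val h1
    have h2' : X.1 * (P j * e j * (P j)ᵀ) = X.1 := congrArg Subtype.val h2
    have h3 : X.1 = P i * (e i * ((P i)ᵀ * X.1 * P j) * e j) * (P j)ᵀ := by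
      conv_lhs => rw [← h2', ← h1']
      simp only [Matrix.mul_assoc]
    obtain ⟨c, x, hx, hX⟩ := X.2
    have h4 : e i * ((P i)ᵀ * X.1 * P j) * e j ∈ H i j := by
      rw [hX, Matrix.mul_add, Matrix.add_mul, hP.blk_blk, Matrix.mul_smul, Matrix.mul_one,
        Matrix.smul_mul, Matrix.mul_add, Matrix.add_mul, Matrix.mul_smul, Matrix.smul_mul]
      refine (H i j).add_mem ((H i j).smul_mem c ?_) ?_
      · by_cases hij : i = j
        · subst hij
          rw [hP.one, Matrix.mul_one, hH.left i i _ (hH.mem i)]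
          exact hH.mem i
        · rw [hP.zero i j hij, Matrix.mul_zero, Matrix.zero_mul]
          exact Submodule.zero_mem _
      · rw [hH.left i j _ (hx i j), hH.right i j _ (hx i j)]
        exact hx i j
    have h5 : φ X = e i * ((P i)ᵀ * X.1 * P j) * e j := by
      rw [hφa]
      conv_lhs => rw [h3]
      calc (P i)ᵀ * (P i * (e i * ((P i)ᵀ * X.1 * P j) * e j) * (P j)ᵀ) * P j
          = ((P i)ᵀ * P i) * (e i * ((P i)ᵀ * X.1 * P j) * e j) * ((P j)ᵀ * P j) := by
            simp only [Matrix.mul_assoc]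
        _ = _ := by rw [hP.one, hP.one, Matrix.one_mul, Matrix.mul_one]
    rw [← h5] at h4 h3
    exact ⟨h4, h3⟩
  have hsgl : ∀ (i j : I) (x : Matrix (κ i) (κ j) K) (hx : x ∈ H i j),
      (⟨sgl P i j x, sgl_mem hH hP hx⟩ : BAlg hH hP) ∈
        cor K (idem hH hP i) (idem hH hP j) := by
    intro i j x hx
    refine ⟨Subtype.ext ?_, Subtype.ext ?_⟩
    · change P i * e i * (P i)ᵀ * (P i * x * (P j)ᵀ) = P i * x * (P j)ᵀ
      calc P i * e i * (P i)ᵀ * (P i * x * (P j)ᵀ) = P i * (e i * ((P i)ᵀ * P i) * x) * (P j)ᵀ := by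
            simp only [Matrix.mul_assoc]
        _ = _ := by rw [hP.one, Matrix.mul_one, hH.left i j _ hx]
    · change P i * x * (P j)ᵀ * (P j * e j * (P j)ᵀ) = P i * x * (P j)ᵀ
      calc P i * x * (P j)ᵀ * (P j * e j * (P j)ᵀ) = P i * (x * ((P j)ᵀ * P j) * e j) * (P j)ᵀ := by
            simp only [Matrix.mul_assoc]
        _ = _ := by rw [hP.one, Matrix.mul_one, hH.right i j _ hx]
  refine nr_congr φ ?_ ?_
  · ext x
    constructor
    · rintro ⟨X, hX, rfl⟩
      exact (hcor X hX).1
    · intro hx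
      refine ⟨_, hsgl i j x hx, ?_⟩
      change (P i)ᵀ * (P i * x * (P j)ᵀ) * P j = x
      calc (P i)ᵀ * (P i * x * (P j)ᵀ) * P j = ((P i)ᵀ * P i) * x * ((P j)ᵀ * P j) := by
            simp only [Matrix.mul_assoc]
        _ = x := by rw [hP.one, hP.one, Matrix.one_mul, Matrix.mul_one]
  · intro X hX
    obtain ⟨h1, h2⟩ := hcor X hX
    constructor
    · intro h3 Y
      rw [bTr_apply]
      change (X.1 * Y.1).trace = 0
      obtain ⟨c, y, hy, hY⟩ := Y.2
      have h4 : (X.1 * Y.1).trace = (φ X * (e j * ((P j)ᵀ * Y.1 * P i) * e i)).trace := by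
        conv_lhs => rw [h2, ← hH.right i j _ h1, ← hH.left i j _ h1]
        rw [sgl]
        calc (P i * (e i * φ X * e j) * (P j)ᵀ * Y.1).trace
            = (P i * (e i * (φ X * (e j * (P j)ᵀ * Y.1)))).trace := by
              simp only [Matrix.mul_assoc]
          _ = (e i * (φ X * (e j * (P j)ᵀ * Y.1)) * P i).trace := by rw [trace_mul_comm]
          _ = (e i * (φ X * (e j * (P j)ᵀ * Y.1 * P i))).trace := by simp only [Matrix.mul_assoc]
          _ = (φ X * (e j * (P j)ᵀ * Y.1 * P i) * e i).trace := by rw [trace_mul_comm]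
          _ = _ := by simp only [Matrix.mul_assoc]
      rw [h4]
      apply h3
      rw [hY, Matrix.mul_add, Matrix.add_mul, hP.blk_blk, Matrix.mul_smul, Matrix.mul_one,
        Matrix.smul_mul, Matrix.mul_add, Matrix.add_mul, Matrix.mul_smul, Matrix.smul_mul]
      refine (H j i).add_mem ((H j i).smul_mem c ?_) ?_
      · by_cases hij : j = i
        · subst hij
          rw [hP.one, Matrix.mul_one, hH.left j j _ (hH.mem j)]
          exact hH.mem j
        · rw [hP.zero j i hij, Matrix.mul_zero, Matrix.zero_mul]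
          exact Submodule.zero_mem _
      · rw [hH.left j i _ (hy j i), hH.right j i _ (hy j i)]
        exact hy j i
    · intro h3 y hy
      have h4 := h3 ⟨sgl P j i y, sgl_mem hH hP hy⟩
      rw [bTr_apply] at h4
      change (X.1 * sgl P j i y).trace = 0 at h4
      rw [hφa]
      calc ((P i)ᵀ * X.1 * P j * y).trace = ((P i)ᵀ * (X.1 * (P j * y))).trace := by
            simp only [Matrix.mul_assoc]
        _ = (X.1 * (P j * y) * (P i)ᵀ).trace := by rw [trace_mul_comm]
        _ = (X.1 * sgl P j i y).trace := by rw [sgl]; simp only [Matrix.mul_assoc]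
        _ = 0 := h4

/-- **The form is positive.** -/
theorem HFam.form3 [CharZero K] (hH : HFam H e) (hP : Frames P) (i j l : I) (s t u : ℕ) :
    2 * (s * u * pr (H i l) (H l i)) + 2 * (t * u * pr (H j l) (H l j)) ≤
      s * s * pr (H i i) (H i i) + t * t * pr (H j j) (H j j) + u * u * pr (H l l) (H l l) +
        2 * (s * t * pr (H i j) (H j i)) := by
  have h1 := nr_form3 (bTr_isTr hH hP) (idem_idem hH hP i) (idem_idem hH hP j)
    (idem_idem hH hP l) s t u
  simp only [nr_corner] at h1
  rw [pr_comm (H l i) (H i l), pr_comm (H l j) (H j l), pr_comm (H j i) (H i j)] at h1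
  nlinarith [h1]

end Blocks

end Pool.Agent.N180.Zl
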