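import Pool.Agent.N180.ZlC

/-!
# Families of tensors
-/

open Module Matrix

set_option linter.unusedSectionVars false

namespace Pool.Agent.N180.Zl

/-- Extension of a family of indices by two equal indices. -/
def o2 {S ι : Type*} (i : ι) (I : S → ι) : Option (Option S) → ι
  | none => i
  | some none => i
  | some (some s) => I s

/-- A family of spaces of tensors, with two kinds (`true`, `false`) of slots, closed under
permutations of the slots, products and contractions of slots of different kinds. -/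
structure TFam (K : Type*) [Field K] (ι : Type*) [Fintype ι] [DecidableEq ι] where
  /-- the spaces -/
  C : ∀ {S : Type} (_ : S → Bool), Submodule K ((S → ι) → K)
  reindex : ∀ {S S' : Type} [Finite S] [Finite S'] (e : S ≃ S') (ε : S' → Bool)
    {z : (S → ι) → K}, z ∈ C (ε ∘ e) → (fun I : S' → ι => z (I ∘ e)) ∈ C ε
  mul : ∀ {S S' : Type} [Finite S] [Finite S'] {ε : S → Bool} {ε' : S' → Bool}
    {z : (S → ι) → K} {w : (S' → ι) → K}, z ∈ C ε → w ∈ C ε' →
    (fun I : S ⊕ S' → ι => z (I ∘ Sum.inl) * w (I ∘ Sum.inr)) ∈ C (Sum.elim ε ε')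
  ctr : ∀ {S : Type} [Finite S] {ε : Option (Option S) → Bool}
    {z : (Option (Option S) → ι) → K}, ε none ≠ ε (some none) → z ∈ C ε →
    (fun I : S → ι => ∑ i, z (o2 i I)) ∈ C (fun s => ε (some (some s)))
  delta : (fun I : Bool → ι => if I false = I true then (1 : K) else 0) ∈ C (id : Bool → Bool)
  unit : ∀ ε : Empty → Bool, (fun _ : Empty → ι => (1 : K)) ∈ C ε

variable {K : Type*} [Field K] {ι : Type*} [Fintype ι] [DecidableEq ι] (𝓣 : TFam K ι)

namespace TFam

variable {S S' S'' R U : Type} [Fintype S] [Fintype S'] [Fintype S''] [Fintype R] [Fintype U]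
  [DecidableEq S] [DecidableEq S'] [DecidableEq S''] [DecidableEq R] [DecidableEq U]

lemma reindex' (e : S ≃ S') {ε : S → Bool} {ε' : S' → Bool} (h : ∀ s, ε' (e s) = ε s)
    {z : (S → ι) → K} (hz : z ∈ 𝓣.C ε) : (fun I : S' → ι => z (I ∘ e)) ∈ 𝓣.C ε' := by
  have h1 : ε' ∘ e = ε := funext h
  subst h1
  exact 𝓣.reindex e ε' hz

/-- Permutation of the slots, with a description of the new tensor. -/
lemma reindex'' (e : S ≃ S') {ε : S → Bool} {ε' : S' → Bool} (h : ∀ s, ε' (e s) = ε s)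
    {z : (S → ι) → K} (hz : z ∈ 𝓣.C ε) {w : (S' → ι) → K} (hw : ∀ I : S' → ι, w I = z (I ∘ e)) :
    w ∈ 𝓣.C ε' := by
  have h1 : w = fun I : S' → ι => z (I ∘ e) := funext hw
  rw [h1]
  exact 𝓣.reindex' e h hz

/-- The bijection used for contractions. -/
def eCtr (n : ℕ) (R : Type) : (Fin (n + 1) ⊕ Fin (n + 1)) ⊕ R ≃ Option (Option ((Fin n ⊕ Fin n) ⊕ R))
    where
  toFun s := match s with
    | Sum.inl (Sum.inl i) => Fin.cases none (fun j => some (some (Sum.inl (Sum.inl j)))) i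
    | Sum.inl (Sum.inr i) => Fin.cases (some none) (fun j => some (some (Sum.inl (Sum.inr j)))) i
    | Sum.inr r => some (some (Sum.inr r))
  invFun s := match s with
    | none => Sum.inl (Sum.inl 0)
    | some none => Sum.inl (Sum.inr 0)
    | some (some (Sum.inl (Sum.inl j))) => Sum.inl (Sum.inl j.succ)
    | some (some (Sum.inl (Sum.inr j))) => Sum.inl (Sum.inr j.succ)
    | some (some (Sum.inr r)) => Sum.inr r
  left_inv s := by
    rcases s with (i | i) | r
    · refine Fin.cases ?_ (fun j => ?_) i <;> rfl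
    · refine Fin.cases ?_ (fun j => ?_) i <;> rfl
    · rfl
  right_inv s := by
    rcases s with _ | _ | (j | j) | r <;> rfl

lemma ctrFin : ∀ (n : ℕ) (R : Type) [Finite R] (ε : (Fin n ⊕ Fin n) ⊕ R → Bool)
    (z : ((Fin n ⊕ Fin n) ⊕ R → ι) → K), (∀ s, ε (Sum.inl (Sum.inl s)) ≠ ε (Sum.inl (Sum.inr s))) →
    z ∈ 𝓣.C ε → (fun J : R → ι => ∑ I : Fin n → ι, z (Sum.elim (Sum.elim I I) J)) ∈
      𝓣.C (fun r => ε (Sum.inr r)) := by
  intro n
  induction n with
  | zero =>
    intro R _ ε z _ hz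
    classical
    have := Fintype.ofFinite R
    refine 𝓣.reindex'' ((Equiv.emptySum (Fin 0 ⊕ Fin 0) R)) ?_ hz ?_
    · rintro ((s | s) | r)
      · exact s.elim0
      · exact s.elim0
      · rfl
    · intro J
      rw [Fintype.sum_unique]
      congr 1
      funext s
      rcases s with (s | s) | r
      · exact s.elim0
      · exact s.elim0
      · rfl
  | succ n ih =>
    intro R _ ε z hε hz
    classical
    have := Fintype.ofFinite R
    set ε' : Option (Option ((Fin n ⊕ Fin n) ⊕ R)) → Bool := ε ∘ (eCtr n R).symm with hε'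
    have h1 : (fun I : Option (Option ((Fin n ⊕ Fin n) ⊕ R)) → ι => z (I ∘ eCtr n R)) ∈
        𝓣.C ε' := by
      refine 𝓣.reindex' (eCtr n R) (fun s => ?_) hz
      rw [hε', Function.comp_apply, Equiv.symm_apply_apply]
    have h2 := 𝓣.ctr (hε 0) h1
    have h3 := ih R _ _ (fun s => by
      change ε (Sum.inl (Sum.inl s.succ)) ≠ ε (Sum.inl (Sum.inr s.succ))
      exact hε s.succ) h2
    have h4 : (fun J : R → ι => ∑ I : Fin (n + 1) → ι, z (Sum.elim (Sum.elim I I) J)) =
        fun J : R → ι => ∑ I : Fin n → ι, ∑ i, z (o2 i (Sum.elim (Sum.elim I I) J) ∘ eCtr n R) := by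
      funext J
      rw [← (Fin.consEquiv fun _ => ι).sum_comp, Fintype.sum_prod_type, Finset.sum_comm]
      refine Finset.sum_congr rfl fun I _ => Finset.sum_congr rfl fun i _ => ?_
      congr 1
      funext s
      rcases s with (s | s) | r
      · refine Fin.cases ?_ (fun j => ?_) s <;> rfl
      · refine Fin.cases ?_ (fun j => ?_) s <;> rfl
      · rfl
    rw [h4]
    exact h3

/-- **Contraction of blocks.** -/
lemma ctrBlock {ε : (S ⊕ S) ⊕ R → Bool} {z : ((S ⊕ S) ⊕ R → ι) → K}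
    (hε : ∀ s, ε (Sum.inl (Sum.inl s)) ≠ ε (Sum.inl (Sum.inr s))) (hz : z ∈ 𝓣.C ε) :
    (fun J : R → ι => ∑ I : S → ι, z (Sum.elim (Sum.elim I I) J)) ∈
      𝓣.C (fun r => ε (Sum.inr r)) := by
  set e := Fintype.equivFin S with he
  set e' : (S ⊕ S) ⊕ R ≃ (Fin (Fintype.card S) ⊕ Fin (Fintype.card S)) ⊕ R :=
    Equiv.sumCongr (Equiv.sumCongr e e) (Equiv.refl R) with he'
  have h1 : (fun I => z (I ∘ e')) ∈ 𝓣.C (ε ∘ e'.symm) := by
    refine 𝓣.reindex' e' (fun s => ?_) hz
    rw [Function.comp_apply, Equiv.symm_apply_apply]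
  have h2 := 𝓣.ctrFin _ R _ _ (fun s => hε (e.symm s)) h1
  have h3 : (fun J : R → ι => ∑ I : S → ι, z (Sum.elim (Sum.elim I I) J)) =
      fun J : R → ι => ∑ I : Fin (Fintype.card S) → ι, z (Sum.elim (Sum.elim I I) J ∘ e') := by
    funext J
    rw [← (Equiv.arrowCongr e (Equiv.refl ι)).symm.sum_comp]
    refine Finset.sum_congr rfl fun I _ => ?_
    congr 1
    funext s
    rcases s with (s | s) | r <;> rfl
  rw [h3]
  exact h2

/-- The matrices given by the tensors: `ε` are the kinds of the rows, `η` of the columns. -/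
def Hm (ε : S → Bool) (η : S' → Bool) : Submodule K (Matrix (S → ι) (S' → ι) K) where
  carrier := {M | (fun I : S ⊕ S' → ι => M (I ∘ Sum.inl) (I ∘ Sum.inr)) ∈
    𝓣.C (Sum.elim ε (fun s => !(η s)))}
  add_mem' := fun hx hy => (𝓣.C _).add_mem hx hy
  zero_mem' := (𝓣.C _).zero_mem
  smul_mem' := fun c _ hx => (𝓣.C _).smul_mem c hx

lemma mem_Hm {ε : S → Bool} {η : S' → Bool} {M : Matrix (S → ι) (S' → ι) K} :
    M ∈ 𝓣.Hm ε η ↔ (fun I : S ⊕ S' → ι => M (I ∘ Sum.inl) (I ∘ Sum.inr)) ∈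
      𝓣.C (Sum.elim ε (fun s => !(η s))) := Iff.rfl

lemma Hm_mul {ε : S → Bool} {η : S' → Bool} {ζ : S'' → Bool} {M : Matrix (S → ι) (S' → ι) K}
    {N : Matrix (S' → ι) (S'' → ι) K} (hM : M ∈ 𝓣.Hm ε η) (hN : N ∈ 𝓣.Hm η ζ) :
    M * N ∈ 𝓣.Hm ε ζ := by
  have h1 := 𝓣.mul hM hN
  set e : (S ⊕ S') ⊕ (S' ⊕ S'') ≃ (S' ⊕ S') ⊕ (S ⊕ S'') :=
    { toFun := fun s => match s with
        | Sum.inl (Sum.inl s) => Sum.inr (Sum.inl s)
        | Sum.inl (Sum.inr s) => Sum.inl (Sum.inl s)
        | Sum.inr (Sum.inl s) => Sum.inl (Sum.inr s)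
        | Sum.inr (Sum.inr s) => Sum.inr (Sum.inr s)
      invFun := fun s => match s with
        | Sum.inr (Sum.inl s) => Sum.inl (Sum.inl s)
        | Sum.inl (Sum.inl s) => Sum.inl (Sum.inr s)
        | Sum.inl (Sum.inr s) => Sum.inr (Sum.inl s)
        | Sum.inr (Sum.inr s) => Sum.inr (Sum.inr s)
      left_inv := by rintro ((s | s) | (s | s)) <;> rfl
      right_inv := by rintro ((s | s) | (s | s)) <;> rfl } with he
  have h2 := 𝓣.reindex' e (ε' := Sum.elim (Sum.elim (fun s => !(η s)) η)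
    (Sum.elim ε (fun s => !(ζ s)))) (by rintro ((s | s) | (s | s)) <;> rfl) h1
  have h3 := 𝓣.ctrBlock (fun s => by
    change (!(η s)) ≠ η s
    cases η s <;> simp) h2
  exact h3

lemma Hm_one_fin : ∀ (n : ℕ) (ε : Fin n → Bool),
    (1 : Matrix (Fin n → ι) (Fin n → ι) K) ∈ 𝓣.Hm ε ε := by
  intro n
  induction n with
  | zero =>
    intro ε
    have h1 := 𝓣.unit (fun s => s.elim)
    refine 𝓣.reindex'' (Equiv.equivOfIsEmpty Empty (Fin 0 ⊕ Fin 0)) (fun s => s.elim) h1 ?_
    intro I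
    rw [Matrix.one_apply, if_pos]
    funext s
    exact s.elim0
  | succ n ih =>
    intro ε
    have h1 := 𝓣.mul 𝓣.delta (ih (fun i => ε i.succ))
    set e : Bool ⊕ (Fin n ⊕ Fin n) ≃ Fin (n + 1) ⊕ Fin (n + 1) :=
      { toFun := fun s => match s with
          | Sum.inl c => if c = ε 0 then Sum.inl 0 else Sum.inr 0
          | Sum.inr (Sum.inl i) => Sum.inl i.succ
          | Sum.inr (Sum.inr i) => Sum.inr i.succ
        invFun := fun s => match s with
          | Sum.inl i => Fin.cases (Sum.inl (ε 0)) (fun j => Sum.inr (Sum.inl j)) i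
          | Sum.inr i => Fin.cases (Sum.inl (!(ε 0))) (fun j => Sum.inr (Sum.inr j)) i
        left_inv := by
          rintro (c | (i | i))
          · by_cases hc : c = ε 0
            · subst hc
              simp
            · have : c = !(ε 0) := by
                cases c <;> cases hε : ε 0 <;> simp_all
              simp [this]
          · rfl
          · rfl
        right_inv := by
          rintro (i | i)
          · refine Fin.cases ?_ (fun j => ?_) i
            · simp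
            · rfl
          · refine Fin.cases ?_ (fun j => ?_) i
            · simp
            · rfl } with he
    refine 𝓣.reindex'' e ?_ h1 ?_
    · rintro (c | (i | i))
      · change Sum.elim ε (fun s => !(ε s)) (if c = ε 0 then Sum.inl 0 else Sum.inr 0) = c
        by_cases hc : c = ε 0
        · rw [if_pos hc, Sum.elim_inl, hc]
        · rw [if_neg hc, Sum.elim_inr]
          cases c <;> cases hε : ε 0 <;> simp_all
      · rfl
      · rfl
    · intro I
      have h2 : ((I ∘ e) (Sum.inl false) = (I ∘ e) (Sum.inl true)) ↔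
          I (Sum.inl 0) = I (Sum.inr 0) := by
        have e1 : (I ∘ e) (Sum.inl false) = I (if false = ε 0 then Sum.inl 0 else Sum.inr 0) := rfl
        have e2 : (I ∘ e) (Sum.inl true) = I (if true = ε 0 then Sum.inl 0 else Sum.inr 0) := rfl
        rw [e1, e2]
        cases hε : ε 0
        · simp
        · simp [eq_comm]
      rw [Matrix.one_apply, Matrix.one_apply]
      change _ = (if (I ∘ e) (Sum.inl false) = (I ∘ e) (Sum.inl true) then (1 : K) else 0) * _
      have h3 : (I ∘ Sum.inl = I ∘ Sum.inr) ↔ (I (Sum.inl 0) = I (Sum.inr 0) ∧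
          ((fun s => I (Sum.inl (Fin.succ s))) = fun s => I (Sum.inr (Fin.succ s)))) := by
        constructor
        · intro h
          exact ⟨congrFun h 0, funext fun s => congrFun h s.succ⟩
        · rintro ⟨h, h'⟩
          funext s
          refine Fin.cases ?_ (fun j => ?_) s
          · exact h
          · exact congrFun h' j
      have h4 : ((I ∘ e) ∘ Sum.inr) ∘ Sum.inl = fun s => I (Sum.inl (Fin.succ s)) := rfl
      have h5 : ((I ∘ e) ∘ Sum.inr) ∘ Sum.inr = fun s => I (Sum.inr (Fin.succ s)) := rfl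
      rw [h4, h5]
      by_cases h6 : I (Sum.inl 0) = I (Sum.inr 0)
      · rw [if_pos (h2.2 h6), one_mul]
        by_cases h7 : (fun s => I (Sum.inl (Fin.succ s))) = fun s => I (Sum.inr (Fin.succ s))
        · rw [if_pos h7, if_pos (h3.2 ⟨h6, h7⟩)]
        · rw [if_neg h7, if_neg (fun h => h7 (h3.1 h).2)]
      · rw [if_neg (fun h => h6 (h2.1 h)), zero_mul, if_neg (fun h => h6 (h3.1 h).1)]

/-- Renaming the slots of a matrix. -/
lemma Hm_reindex {ε : S → Bool} {η : S' → Bool} {R' : Type} [Fintype R'] [DecidableEq R']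
    (e : S ≃ R) (e' : S' ≃ R')
    {ε' : R → Bool} {η' : R' → Bool} (h : ∀ s, ε' (e s) = ε s) (h' : ∀ s, η' (e' s) = η s)
    {M : Matrix (S → ι) (S' → ι) K} (hM : M ∈ 𝓣.Hm ε η) :
    (Matrix.of fun J I => M (J ∘ e) (I ∘ e')) ∈ 𝓣.Hm ε' η' := by
  refine 𝓣.reindex'' (Equiv.sumCongr e e') ?_ hM ?_
  · rintro (s | s)
    · exact h s
    · change (!(η' (e' s))) = !(η s)
      rw [h' s]
  · intro I
    rfl

lemma Hm_one (ε : S → Bool) : (1 : Matrix (S → ι) (S → ι) K) ∈ 𝓣.Hm ε ε := by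
  have h1 := 𝓣.Hm_one_fin (Fintype.card S) (ε ∘ (Fintype.equivFin S).symm)
  have h2 := 𝓣.Hm_reindex (Fintype.equivFin S).symm (Fintype.equivFin S).symm
    (ε' := ε) (η' := ε) (fun s => rfl) (fun s => rfl) h1
  convert h2 using 1
  ext J I
  rw [Matrix.one_apply, Matrix.of_apply, Matrix.one_apply]
  by_cases h : J = I
  · rw [if_pos h, if_pos (by rw [h])]
  · rw [if_neg h, if_neg]
    intro h3
    apply h
    funext s
    have h4 := congrFun h3 (Fintype.equivFin S s)
    rwa [Function.comp_apply, Function.comp_apply, Equiv.symm_apply_apply] at h4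

/-- The tensor product of two matrices. -/
def kr {S S' R R' : Type} (M : Matrix (S → ι) (S' → ι) K) (N : Matrix (R → ι) (R' → ι) K) :
    Matrix (S ⊕ R → ι) (S' ⊕ R' → ι) K :=
  Matrix.of fun J I => M (J ∘ Sum.inl) (I ∘ Sum.inl) * N (J ∘ Sum.inr) (I ∘ Sum.inr)

lemma kr_apply {S S' R R' : Type} (M : Matrix (S → ι) (S' → ι) K) (N : Matrix (R → ι) (R' → ι) K)
    (J : S ⊕ R → ι) (I : S' ⊕ R' → ι) :
    kr M N J I = M (J ∘ Sum.inl) (I ∘ Sum.inl) * N (J ∘ Sum.inr) (I ∘ Sum.inr) := rfl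

lemma kr_mem {R' : Type} [Fintype R'] [DecidableEq R'] {ε : S → Bool} {η : S' → Bool}
    {ε' : R → Bool} {η' : R' → Bool} {M : Matrix (S → ι) (S' → ι) K}
    {N : Matrix (R → ι) (R' → ι) K} (hM : M ∈ 𝓣.Hm ε η) (hN : N ∈ 𝓣.Hm ε' η') :
    kr M N ∈ 𝓣.Hm (Sum.elim ε ε') (Sum.elim η η') := by
  have h1 := 𝓣.mul hM hN
  refine 𝓣.reindex'' (Equiv.sumSumSumComm S S' R R') ?_ h1 ?_
  · rintro ((s | s) | (s | s)) <;> rfl
  · intro I
    rfl

lemma transpose_mem {ε : S → Bool} {η : S' → Bool} {M : Matrix (S → ι) (S' → ι) K}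
    (hM : M ∈ 𝓣.Hm ε η) : Mᵀ ∈ 𝓣.Hm (fun s => !(η s)) (fun s => !(ε s)) := by
  refine 𝓣.reindex'' (Equiv.sumComm S S') ?_ hM ?_
  · rintro (s | s)
    · change (!(!(ε s))) = ε s
      rw [Bool.not_not]
    · rfl
  · intro I
    rfl

end TFam

section Kr

variable {S S' S'' R R' R'' : Type} [Fintype S] [Fintype S'] [Fintype S''] [Fintype R]
  [Fintype R'] [Fintype R''] [DecidableEq S] [DecidableEq S'] [DecidableEq S'']
  [DecidableEq R] [DecidableEq R'] [DecidableEq R'']

open TFam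

lemma sum_sum {f : (S ⊕ R → ι) → K} :
    ∑ I, f I = ∑ I₁ : S → ι, ∑ I₂ : R → ι, f (Sum.elim I₁ I₂) := by
  rw [← (Equiv.sumArrowEquivProdArrow S R ι).symm.sum_comp, Fintype.sum_prod_type]
  rfl

lemma kr_mul (M : Matrix (S → ι) (S' → ι) K) (M' : Matrix (S' → ι) (S'' → ι) K)
    (N : Matrix (R → ι) (R' → ι) K) (N' : Matrix (R' → ι) (R'' → ι) K) :
    kr M N * kr M' N' = kr (M * M') (N * N') := by
  ext J I
  rw [Matrix.mul_apply, sum_sum, kr_apply, Matrix.mul_apply, Matrix.mul_apply, Finset.sum_mul_sum]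
  refine Finset.sum_congr rfl fun I₁ _ => Finset.sum_congr rfl fun I₂ _ => ?_
  rw [kr_apply, kr_apply, Sum.elim_comp_inl, Sum.elim_comp_inr]
  ring

lemma kr_one_one : kr (1 : Matrix (S → ι) (S → ι) K) (1 : Matrix (R → ι) (R → ι) K) = 1 := by
  ext J I
  rw [kr_apply, Matrix.one_apply, Matrix.one_apply, Matrix.one_apply]
  by_cases h : J = I
  · rw [if_pos (by rw [h]), if_pos (by rw [h]), if_pos h, one_mul]
  · rw [if_neg h]
    by_cases h1 : J ∘ Sum.inl = I ∘ Sum.inl
    · rw [if_pos h1, one_mul, if_neg]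
      intro h2
      apply h
      funext s
      rcases s with s | s
      · exact congrFun h1 s
      · exact congrFun h2 s
    · rw [if_neg h1, zero_mul]

lemma kr_transpose (M : Matrix (S → ι) (S' → ι) K) (N : Matrix (R → ι) (R' → ι) K) :
    (kr M N)ᵀ = kr Mᵀ Nᵀ := rfl

end Kr

end Pool.Agent.N180.Zl
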