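import Pool.Agent.N180.CfDefs

/-!
# The homological and the numerical rank: definitions
-/

open CategoryTheory AlgebraicGeometry Module

universe u v

namespace Pool.Agent.N180.Zl

section Alg

variable {K : Type*} [Field K] {A : Type*} [Ring A] [Algebra K A]

/-- The linear forms `b ↦ tr (a * b)` on the subspace `U`, for `a` in `U`. -/
def formsOn (tr : A →ₗ[K] K) (U : Submodule K A) : Set (Dual K U) :=
  {f | ∃ a ∈ U, ∀ b : U, f b = tr (a * b)}

/-- The rank of the bilinear form `(a, b) ↦ tr (a * b)` on the subspace `U`: the dimension of the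
span of the linear forms `b ↦ tr (a * b)` on `U`, for `a` in `U`. -/
noncomputable def formRank (tr : A →ₗ[K] K) (U : Submodule K A) : ℕ :=
  (formsOn tr U).finrank K

/-- The sequence `a n` is at most `C * n ^ (-κ) * h n`, for all `n ≥ 1`. -/
def IsSmall (C κ : ℝ) (a h : ℕ → ℕ) : Prop :=
  ∀ n : ℕ, 1 ≤ n → (a n : ℝ) * (n : ℝ) ^ κ ≤ C * h n

end Alg

open Pool.Agent.H914 Pool.Agent.H914.VarClass Pool.Agent.H914.VarClass.Obj
  Pool.Agent.H914.WeilCohomology Pool.Agent.R908

variable {k : Type u} [Field k] {𝒱 : VarClass k} {ops : CycleOps 𝒱}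

/-- The span in `H(V)`, over the coefficient field, of the classes of all algebraic cycles on
`V`. -/
def allCycles (W : WeilCohomology.{u, v} ops) (V : 𝒱.Obj) : Submodule W.K (W.H V) :=
  ⨆ p : ℕ, spanCycles W V p

/-- The homological rank of `V`: the dimension of the span of the classes of algebraic cycles. -/
noncomputable def homRank (W : WeilCohomology.{u, v} ops) (V : 𝒱.Obj) : ℕ :=
  finrank W.K (allCycles W V)

/-- The numerical rank of `V`: the rank of the intersection form on the span of the classes of
algebraic cycles, that is, the dimension of the space of algebraic classes modulo numerical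
equivalence. -/
noncomputable def numRank (W : WeilCohomology.{u, v} ops) (V : 𝒱.Obj) : ℕ :=
  formRank (W.tr V) (allCycles W V)

/-- The variety `P` has dimension `0`, the sign operator of `X` is algebraic, and `X` has total
Betti number `b`. -/
structure IsCase (W : WeilCohomology.{u, v} ops) (X P : 𝒱.Obj) (b : ℕ) : Prop where
  dim_eq : P.dim = 0
  sign : Cf.SignOpAlgebraic W X
  betti : finrank W.K (W.H X) = b

/-- The numerical ranks of the powers of `X` (times `P`). -/
noncomputable def numRanks (W : WeilCohomology.{u, v} ops) (X P : 𝒱.Obj) (n : ℕ) : ℕ :=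
  numRank W (pX X P n)

/-- The homological ranks of the powers of `X` (times `P`). -/
noncomputable def homRanks (W : WeilCohomology.{u, v} ops) (X P : 𝒱.Obj) (n : ℕ) : ℕ :=
  homRank W (pX X P n)

/-- The exponent of the zero-one law. -/
noncomputable def exponent (b m : ℕ) : ℝ := 1 / (8 * (b : ℝ) ^ (2 * m) + 4)

end Pool.Agent.N180.Zl
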