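import Pool.Agent.N180.ZlD
import Pool.Agent.N282.ZL.S4

/-!
# Objects and numbers of homomorphisms
-/

open Module Matrix

set_option linter.unusedSectionVars false

namespace Pool.Agent.N180.Zl

section SigmaFrames

variable {K : Type*} [Field K] {I : Type*} [Fintype I] [DecidableEq I] {κ : I → Type*}
  [∀ i, Fintype (κ i)] [∀ i, DecidableEq (κ i)]

/-- The embeddings into the sum. -/
def sP (K : Type*) [Field K] {I : Type*} [DecidableEq I] (κ : I → Type*)
    [∀ i, DecidableEq (κ i)] (i : I) : Matrix (Σ i, κ i) (κ i) K :=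
  Matrix.of fun ω a => if ω = ⟨i, a⟩ then 1 else 0

lemma frames_sP : Frames (sP K κ) where
  one := by
    intro i
    ext a a'
    rw [Matrix.mul_apply, Finset.sum_eq_single (⟨i, a⟩ : Σ i, κ i)]
    · rw [Matrix.transpose_apply, sP, Matrix.of_apply, if_pos rfl, one_mul, Matrix.of_apply,
        Matrix.one_apply]
      by_cases h : a = a'
      · rw [if_pos (by rw [h]), if_pos h]
      · rw [if_neg h, if_neg]
        intro h1
        apply h
        simpa using h1
    · intro ω _ hω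
      rw [Matrix.transpose_apply, sP, Matrix.of_apply, if_neg hω, zero_mul]
    · intro h0
      exact absurd (Finset.mem_univ _) h0
  zero := by
    intro i j hij
    ext a a'
    rw [Matrix.mul_apply, Matrix.zero_apply]
    apply Finset.sum_eq_zero
    intro ω _
    rw [Matrix.transpose_apply, sP, Matrix.of_apply, sP, Matrix.of_apply]
    by_cases h : ω = ⟨i, a⟩
    · rw [if_neg (show ¬ ω = ⟨j, a'⟩ from fun h1 => hij (by
        rw [h] at h1
        exact congrArg Sigma.fst h1)), mul_zero]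
    · rw [if_neg h, zero_mul]

end SigmaFrames

variable {K : Type*} [Field K] {ι : Type*} [Fintype ι] [DecidableEq ι] (𝓣 : TFam K ι)

open TFam

/-- An object: a finite set of slots of two kinds with an idempotent. -/
structure Ob where
  /-- the slots -/
  S : Type
  [fin : Fintype S]
  [dec : DecidableEq S]
  /-- the kinds of the slots -/
  ε : S → Bool
  /-- the idempotent -/
  q : Matrix (S → ι) (S → ι) K
  mem : q ∈ 𝓣.Hm ε ε
  idem : q * q = q

attribute [instance] Ob.fin Ob.dec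

variable {𝓣}

namespace Ob

/-- The unit object. -/
def one (𝓣 : TFam K ι) : Ob 𝓣 where
  S := Empty
  ε := fun s => s.elim
  q := 1
  mem := 𝓣.Hm_one _
  idem := one_mul 1

/-- The object given by a set of slots. -/
def full (𝓣 : TFam K ι) {S : Type} [Fintype S] [DecidableEq S] (ε : S → Bool) : Ob 𝓣 where
  S := S
  ε := ε
  q := 1
  mem := 𝓣.Hm_one _
  idem := one_mul 1

/-- The dual object. -/
def dual (A : Ob 𝓣) : Ob 𝓣 where
  S := A.S
  ε := fun s => !(A.ε s)
  q := A.qᵀ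
  mem := 𝓣.transpose_mem A.mem
  idem := by rw [← Matrix.transpose_mul, A.idem]

/-- The tensor product of two objects. -/
def tens (A B : Ob 𝓣) : Ob 𝓣 where
  S := A.S ⊕ B.S
  ε := Sum.elim A.ε B.ε
  q := kr A.q B.q
  mem := 𝓣.kr_mem A.mem B.mem
  idem := by rw [kr_mul, A.idem, B.idem]

/-- The complement of an object. -/
def compl (A : Ob 𝓣) : Ob 𝓣 where
  S := A.S
  ε := A.ε
  q := 1 - A.q
  mem := (𝓣.Hm _ _).sub_mem (𝓣.Hm_one _) A.mem
  idem := by
    rw [mul_sub, sub_mul, sub_mul, A.idem, mul_one, mul_one, one_mul, sub_self, sub_zero]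

/-- The kinds of the slots of the tensor product with `n` slots of kind `true`. -/
def st (A : Ob 𝓣) (n : ℕ) : A.S ⊕ Fin n → Bool := Sum.elim A.ε (fun _ => true)

/-- The idempotent of the tensor product with `n` slots. -/
def sq (A : Ob 𝓣) (n : ℕ) : Matrix (A.S ⊕ Fin n → ι) (A.S ⊕ Fin n → ι) K := kr A.q 1

lemma sq_mem (A : Ob 𝓣) (n : ℕ) : A.sq n ∈ 𝓣.Hm (A.st n) (A.st n) :=
  𝓣.kr_mem A.mem (𝓣.Hm_one _)

lemma sq_idem (A : Ob 𝓣) (n : ℕ) : A.sq n * A.sq n = A.sq n := by
  rw [sq, kr_mul, A.idem, one_mul]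

/-- The homomorphisms (after the tensor product with `n` slots): from `B` to `A`. -/
def HS (n : ℕ) (A B : Ob 𝓣) : Submodule K (Matrix (A.S ⊕ Fin n → ι) (B.S ⊕ Fin n → ι) K) where
  carrier := {M | M ∈ 𝓣.Hm (A.st n) (B.st n) ∧ A.sq n * M = M ∧ M * B.sq n = M}
  add_mem' := by
    rintro M N ⟨h1, h2, h3⟩ ⟨h4, h5, h6⟩
    exact ⟨(𝓣.Hm _ _).add_mem h1 h4, by rw [Matrix.mul_add, h2, h5],
      by rw [Matrix.add_mul, h3, h6]⟩
  zero_mem' := ⟨(𝓣.Hm _ _).zero_mem, Matrix.mul_zero _, Matrix.zero_mul _⟩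
  smul_mem' := by
    rintro c M ⟨h1, h2, h3⟩
    exact ⟨(𝓣.Hm _ _).smul_mem c h1, by rw [Matrix.mul_smul, h2], by rw [Matrix.smul_mul, h3]⟩

lemma mem_HS {n : ℕ} {A B : Ob 𝓣} {M : Matrix (A.S ⊕ Fin n → ι) (B.S ⊕ Fin n → ι) K} :
    M ∈ HS n A B ↔ M ∈ 𝓣.Hm (A.st n) (B.st n) ∧ A.sq n * M = M ∧ M * B.sq n = M := Iff.rfl

/-- The number of homomorphisms modulo numerical equivalence (after the tensor product with `n`
slots). -/
noncomputable def hs (n : ℕ) (A B : Ob 𝓣) : ℕ := pr (HS n A B) (HS n B A)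

lemma hs_comm (n : ℕ) (A B : Ob 𝓣) : hs n A B = hs n B A := pr_comm _ _

/-- The family of the spaces of homomorphisms. -/
lemma hFam {I : Type*} [Fintype I] [DecidableEq I] (n : ℕ) (o : I → Ob 𝓣) :
    HFam (κ := fun i => (o i).S ⊕ Fin n → ι) (fun i j => HS n (o i) (o j)) (fun i => (o i).sq n)
      where
  mul := by
    rintro i j l M ⟨h1, h2, h3⟩ N ⟨h4, h5, h6⟩
    refine ⟨𝓣.Hm_mul h1 h4, ?_, ?_⟩
    · rw [← Matrix.mul_assoc, h2]
    · rw [Matrix.mul_assoc, h6]
  mem := fun i => ⟨(o i).sq_mem n, (o i).sq_idem n, (o i).sq_idem n⟩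
  left := fun i j M hM => hM.2.1
  right := fun i j M hM => hM.2.2

/-- **The form is positive.** -/
theorem form3 [CharZero K] (n : ℕ) (A B C : Ob 𝓣) (s t u : ℕ) :
    2 * (s * u * hs n A C) + 2 * (t * u * hs n B C) ≤
      s * s * hs n A A + t * t * hs n B B + u * u * hs n C C + 2 * (s * t * hs n A B) :=
  (hFam n ![A, B, C]).form3 frames_sP 0 1 2 s t u

/-- The Cauchy-Schwarz inequality. -/
theorem cs [CharZero K] (n : ℕ) (A B : Ob 𝓣) : hs n A B ^ 2 ≤ hs n A A * hs n B B := by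
  have key : ∀ s t : ℕ, 2 * (s * t * hs n A B) ≤ s * s * hs n A A + t * t * hs n B B := by
    intro s t
    have h1 := form3 n A A B s 0 t
    simpa [Nat.mul_assoc, Nat.add_assoc] using h1
  set a := hs n A A
  set b := hs n B B
  set c := hs n A B
  rcases Nat.eq_zero_or_pos a with h0 | h0
  · have h1 := key (b + 1) 1
    rw [h0] at h1
    have h2 : c = 0 := by
      by_contra hne
      have h3 : 1 ≤ c := Nat.one_le_iff_ne_zero.2 hne
      nlinarith
    rw [h2, h0]
    simp
  · have h1 := key c a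
    have h2 : a * c ^ 2 ≤ a * (a * b) := by nlinarith
    exact Nat.le_of_mul_le_mul_left h2 h0

/-- The virtual Cauchy-Schwarz inequality. -/
theorem cs3 [CharZero K] (n : ℕ) (A B C : Ob 𝓣) (m : ℕ) :
    ((m : ℤ) * hs n A C - hs n A B) ^ 2 ≤
      (hs n A A : ℤ) * ((m : ℤ) ^ 2 * hs n C C - 2 * m * hs n C B + hs n B B) := by
  have e1 : ∀ s t : ℤ, 0 ≤ s ^ 2 * hs n A A + 2 * s * t * ((m : ℤ) * hs n A C - hs n A B) +
      t ^ 2 * ((m : ℤ) ^ 2 * hs n C C - 2 * m * hs n C B + hs n B B) := by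
    have h1 : ∀ s t : ℕ, (0 : ℤ) ≤ (s : ℤ) ^ 2 * hs n A A -
        2 * s * t * ((m : ℤ) * hs n A C - hs n A B) +
        (t : ℤ) ^ 2 * ((m : ℤ) ^ 2 * hs n C C - 2 * m * hs n C B + hs n B B) := by
      intro s t
      have h2 := form3 n A B C s t (t * m)
      have h3 : ((2 * (s * (t * m) * hs n A C) + 2 * (t * (t * m) * hs n B C) : ℕ) : ℤ) ≤
        ((s * s * hs n A A + t * t * hs n B B + (t * m) * (t * m) * hs n C C +
          2 * (s * t * hs n A B) : ℕ) : ℤ) := by exact_mod_cast h2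
      rw [hs_comm n B C] at h3
      push_cast at h3
      nlinarith [h3]
    have h4 : ∀ s t : ℕ, (0 : ℤ) ≤ (s : ℤ) ^ 2 * hs n A A +
        2 * s * t * ((m : ℤ) * hs n A C - hs n A B) +
        (t : ℤ) ^ 2 * ((m : ℤ) ^ 2 * hs n C C - 2 * m * hs n C B + hs n B B) := by
      intro s t
      have h2 := form3 n A C B s (t * m) t
      have h3 : ((2 * (s * t * hs n A B) + 2 * (t * m * t * hs n C B) : ℕ) : ℤ) ≤
        ((s * s * hs n A A + (t * m) * (t * m) * hs n C C + t * t * hs n B B +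
          2 * (s * (t * m) * hs n A C) : ℕ) : ℤ) := by exact_mod_cast h2
      push_cast at h3
      nlinarith [h3]
    intro s t
    rcases Int.natAbs_eq s with hs | hs <;> rcases Int.natAbs_eq t with ht | ht <;> rw [hs, ht]
    · exact h4 _ _
    · have := h1 s.natAbs t.natAbs
      linarith [this]
    · have := h1 s.natAbs t.natAbs
      linarith [this]
    · have := h4 s.natAbs t.natAbs
      linarith [this]
  set a : ℤ := ((hs n A A : ℕ) : ℤ) with ha
  set y : ℤ := (m : ℤ) * hs n A C - hs n A B with hy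
  set b : ℤ := (m : ℤ) ^ 2 * hs n C C - 2 * m * hs n C B + hs n B B with hb
  have ha0 : 0 ≤ a := by rw [ha]; positivity
  rcases ha0.eq_or_lt with h0 | h0
  · rw [← h0, zero_mul]
    have h5 : y = 0 := by
      by_contra hne
      have h6 := e1 (b + 1) (-y)
      rw [← h0] at h6
      have h7 : 0 < y ^ 2 := by positivity
      have h8 := e1 0 1
      have h9 : 0 ≤ b := by linarith
      have h10 : 0 ≤ b * y ^ 2 := mul_nonneg h9 h7.le
      nlinarith
    rw [h5]
    simp
  · have h6 := e1 y (-a)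
    have h7 : 0 ≤ a * (a * b - y ^ 2) := by nlinarith
    have h8 := nonneg_of_mul_nonneg_right h7 h0
    linarith

end Ob

end Pool.Agent.N180.Zl
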