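import Pool.Agent.N180.ZlE
import Pool.Agent.N348.ZLS3a
import Pool.Agent.N943.AltFrame

/-!
# Symmetric and exterior powers; weights
-/

open Module Matrix

set_option linter.unusedSectionVars false

namespace Pool.Agent.N180.Zl

variable {K : Type*} [Field K] {ι : Type*} [Fintype ι] [DecidableEq ι]

/-- The tensors orthogonal to all tensors of the family. -/
def TFam.Nn (𝓣 : TFam K ι) {S : Type} [Fintype S] [DecidableEq S] (ε : S → Bool) :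
    Submodule K ((S → ι) → K) where
  carrier := {z | ∀ w ∈ 𝓣.C (fun s => !(ε s)), ∑ I, z I * w I = 0}
  add_mem' := by
    intro x y hx hy w hw
    simp only [Pi.add_apply, add_mul, Finset.sum_add_distrib]
    rw [hx w hw, hy w hw, add_zero]
  zero_mem' := by
    intro w _
    simp
  smul_mem' := by
    intro c x hx w hw
    simp only [Pi.smul_apply, smul_eq_mul, mul_assoc]
    rw [← Finset.mul_sum, hx w hw, mul_zero]

/-- The number of tensors modulo numerical equivalence. -/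
noncomputable def TFam.cn (𝓣 : TFam K ι) {S : Type} [Fintype S] [DecidableEq S]
    (ε : S → Bool) : ℕ := nr (𝓣.C ε) (𝓣.Nn ε)

/-- The weight of a family of indices. -/
def wt {S : Type} [Fintype S] (w : ι → ℝ) (ε : S → Bool) (I : S → ι) : ℝ :=
  ∑ s, if ε s then w (I s) else - w (I s)

/-- The numbers `w` are weights for the family `𝓣`, up to level `N`. -/
structure Wt (𝓣 : TFam K ι) (w : ι → ℝ) (N : ℕ) : Prop where
  le : ∀ {S : Type} [Fintype S] (ε : S → Bool), Fintype.card S ≤ N → ∀ z ∈ 𝓣.C ε,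
    ∀ I, z I ≠ 0 → wt w ε I ≤ 0
  lt : ∀ {S : Type} [Fintype S] [DecidableEq S] (ε : S → Bool), Fintype.card S ≤ N →
    ∀ z ∈ 𝓣.C ε, z ∈ 𝓣.Nn ε → ∀ I, z I ≠ 0 → wt w ε I < 0

/-- Matrices indexed by `k` blocks of `p` slots. -/
def bm {k p : ℕ} (M : Matrix (Fin k → (Fin p → ι)) (Fin k → (Fin p → ι)) K) :
    Matrix (Fin k × Fin p → ι) (Fin k × Fin p → ι) K :=
  M.submatrix (Equiv.curry (Fin k) (Fin p) ι) (Equiv.curry (Fin k) (Fin p) ι)

lemma bm_mul {k p : ℕ} (M N : Matrix (Fin k → (Fin p → ι)) (Fin k → (Fin p → ι)) K) :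
    bm M * bm N = bm (M * N) := by
  rw [bm, bm, bm, Matrix.submatrix_mul_equiv]

/-- `k` blocks of `p` slots of kind `true`. -/
abbrev εb (k p : ℕ) : Fin k × Fin p → Bool := fun _ => true

lemma perm_mem (𝓣 : TFam K ι) {k p : ℕ} (σ : Equiv.Perm (Fin k)) :
    bm (Pool.Agent.N348.ZL.permM K (Fin p → ι) σ) ∈ 𝓣.Hm (εb k p) (εb k p) := by
  have h1 := 𝓣.Hm_reindex (σ.prodCongr (Equiv.refl (Fin p))) (Equiv.refl _)
    (ε' := εb k p) (η' := εb k p) (fun _ => rfl) (fun _ => rfl) (𝓣.Hm_one (εb k p))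
  convert h1 using 1
  ext J I
  rw [bm, Matrix.submatrix_apply, Matrix.of_apply, Matrix.one_apply]
  change (if (fun a b => J (a, b)) ∘ σ = (fun a b => I (a, b)) then (1 : K) else 0) = _
  have h2 : ((fun a b => J (a, b)) ∘ σ = (fun a b => I (a, b))) ↔
      (J ∘ (σ.prodCongr (Equiv.refl (Fin p))) = I ∘ (Equiv.refl _)) := by
    constructor
    · intro h
      funext ⟨a, b⟩
      exact congrFun (congrFun h a) b
    · intro h
      funext a b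
      exact congrFun h (a, b)
  by_cases h3 : J ∘ (σ.prodCongr (Equiv.refl (Fin p))) = I ∘ (Equiv.refl _)
  · rw [if_pos (h2.2 h3), if_pos h3]
  · rw [if_neg (fun h => h3 (h2.1 h)), if_neg h3]

lemma bm_smul_sum {k p : ℕ} {α : Type*} (s : Finset α) (c : K) (d : α → K)
    (M : α → Matrix (Fin k → (Fin p → ι)) (Fin k → (Fin p → ι)) K) :
    bm (c • ∑ a ∈ s, d a • M a) = c • ∑ a ∈ s, d a • bm (M a) := by
  ext J I
  simp only [bm, Matrix.submatrix_apply, Matrix.smul_apply, Matrix.sum_apply]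

/-- The `k`-th symmetric power of the tensor product of `p` slots. -/
noncomputable def symOb [CharZero K] (𝓣 : TFam K ι) (p k : ℕ) : Ob 𝓣 where
  S := Fin k × Fin p
  ε := εb k p
  q := bm (Pool.Agent.N348.ZL.symM K (Fin p → ι) k)
  mem := by
    have h1 := bm_smul_sum (p := p) (ι := ι) (Finset.univ : Finset (Equiv.Perm (Fin k)))
      ((Nat.factorial k : ℕ) : K)⁻¹ (fun _ => (1 : K))
      (fun σ => Pool.Agent.N348.ZL.permM K (Fin p → ι) σ)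
    simp only [one_smul] at h1
    rw [Pool.Agent.N348.ZL.symM, h1]
    exact (𝓣.Hm _ _).smul_mem _ ((𝓣.Hm _ _).sum_mem fun σ _ => perm_mem 𝓣 σ)
  idem := by
    obtain ⟨A, B, h1, h2⟩ := Pool.Agent.N348.ZL.symM_frame K (Fin p → ι) k
    rw [bm_mul, ← h1, Matrix.mul_assoc, ← Matrix.mul_assoc B A B, h2, Matrix.one_mul]

/-- The `k`-th exterior power of the tensor product of `p` slots. -/
noncomputable def altOb [CharZero K] (𝓣 : TFam K ι) (p k : ℕ) : Ob 𝓣 where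
  S := Fin k × Fin p
  ε := εb k p
  q := bm (N943.ZL.altM K (Fin p → ι) k)
  mem := by
    have h1 := bm_smul_sum (p := p) (ι := ι) (Finset.univ : Finset (Equiv.Perm (Fin k)))
      ((Nat.factorial k : ℕ) : K)⁻¹ (fun σ => ((Equiv.Perm.sign σ : ℤ) : K))
      (fun σ => N943.ZL.permM K (Fin p → ι) σ)
    rw [N943.ZL.altM, h1]
    exact (𝓣.Hm _ _).smul_mem _ ((𝓣.Hm _ _).sum_mem fun σ _ =>
      (𝓣.Hm _ _).smul_mem _ (perm_mem 𝓣 σ))
  idem := by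
    obtain ⟨A, B, h1, h2⟩ := N943.ZL.altM_frame K (Fin p → ι) k
    rw [bm_mul, ← h1, Matrix.mul_assoc, ← Matrix.mul_assoc B A B, h2, Matrix.one_mul]

/-! ### The statements of the parts -/

/-- Bending. -/
def S_bend (𝓣 : TFam K ι) : Prop := ∀ (n : ℕ) (A B : Ob 𝓣),
  Ob.hs n A B = Ob.hs n (Ob.one 𝓣) (Ob.tens A.dual B)

/-- Renaming. -/
def S_rename (𝓣 : TFam K ι) : Prop := ∀ (n : ℕ) (D A B : Ob 𝓣) (e : A.S ≃ B.S),
  (∀ s, B.ε (e s) = A.ε s) → (∀ J I : B.S → ι, A.q (J ∘ e) (I ∘ e) = B.q J I) →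
  Ob.hs n D A = Ob.hs n D B

/-- Additivity. -/
def S_add (𝓣 : TFam K ι) : Prop := ∀ (n : ℕ) (A : Ob 𝓣),
  Ob.hs n (Ob.one 𝓣) (Ob.full 𝓣 A.ε) =
    Ob.hs n (Ob.one 𝓣) A + Ob.hs n (Ob.one 𝓣) A.compl

/-- The bound by the rank. -/
def S_rank (𝓣 : TFam K ι) : Prop := ∀ (n : ℕ) (A : Ob 𝓣) (ρ : ℕ), N282.ZL.Fac A.q ρ →
  Ob.hs n (Ob.one 𝓣) A ≤ ρ * Ob.hs n (Ob.one 𝓣) (Ob.one 𝓣)

/-- The numbers for full objects. -/
def S_full (𝓣 : TFam K ι) : Prop := ∀ (n : ℕ) {S S' : Type} [Fintype S] [Fintype S']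
  [DecidableEq S] [DecidableEq S'] (ε : S → Bool) (ε' : S' → Bool),
  Ob.hs n (Ob.full 𝓣 ε) (Ob.full 𝓣 ε') =
    𝓣.cn (Sum.elim ((Ob.full 𝓣 ε).st n) (fun s => !((Ob.full 𝓣 ε').st n s)))

/-- The lower bound from the permutations. -/
def S_perm (𝓣 : TFam K ι) : Prop := ∀ n : ℕ,
  Fintype.card ι ^ (2 * n) ≤ (n + 1) ^ (Fintype.card ι ^ 2) *
    Ob.hs n (Ob.one 𝓣) (Ob.one 𝓣)

/-- The Koszul identity. -/
def S_kos [CharZero K] (𝓣 : TFam K ι) : Prop := ∀ n p k : ℕ, 1 ≤ k →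
  ∑ i ∈ Finset.range (k + 1), (-1 : ℤ) ^ i *
    (Ob.hs n (Ob.one 𝓣) (Ob.tens (altOb 𝓣 p i) (symOb 𝓣 p (k - i))) : ℤ) = 0

/-- The graded pieces. -/
def S_gr [CharZero K] (𝓣 : TFam K ι) : Prop := ∀ (n p N : ℕ) (w : ι → ℝ),
  Wt 𝓣 w (2 * n + 2 * N * p + p) → (∃ z ∈ 𝓣.C (fun _ : Fin p => true),
    z ∈ 𝓣.Nn (fun _ : Fin p => true) ∧ z ≠ 0) →
  ∃ g : ℕ → ℕ, ∑ k ∈ Finset.range (N + 1), g k ≤
      finrank K (𝓣.Hm ((Ob.one 𝓣).st n) ((Ob.one 𝓣).st n)) ∧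
    ∀ k < N + 1, Ob.hs n (Ob.one 𝓣) (symOb 𝓣 p k) ≤
      g k + ((Fintype.card ι ^ p).multichoose k - 1) * Ob.hs n (Ob.one 𝓣) (Ob.one 𝓣)

end Pool.Agent.N180.Zl
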