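import Pool.Agent.N186.ZL.Num

/-!
# Numerical end of the zero-one law, with an explicit exponent

This is an adaptation of the proof of `Pool.Agent.N186.ZL.numeric` (helper186).
-/

namespace Pool.Agent.N180.Zl

open Finset Pool.Agent.N186.ZL

theorem numeric' (b m r : ℕ) (hb : 1 ≤ b) (hr : r = b ^ (2 * m)) (nrk hrk : ℕ → ℕ) (s : ℕ → ℕ → ℕ)
    (E : ℕ → ℕ → ℕ → ℕ) (L : ℕ → ℕ → ℕ)
    (h1 : ∀ n, nrk (2 * (n + 1)) ≤ b ^ 2 * nrk (2 * n))
    (h2 : ∀ n, nrk (2 * (n + 1)) ^ 2 ≤ nrk (2 * n) * nrk (2 * (n + 2)))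
    (h3 : ∀ n, b ^ (2 * n) ≤ (n + 1) ^ (b ^ 2) * nrk (2 * n))
    (h4 : ∀ n, nrk (2 * n + 1) ≤ b * nrk (2 * n)) (h5 : ∀ n, hrk (2 * n) ≤ hrk (2 * n + 1))
    (k0 : ∀ n, s n 0 = nrk (2 * n)) (k0' : ∀ n k, E n 0 k = s n k)
    (k1 : ∀ n k, 1 ≤ k → ∑ i ∈ Finset.range (k + 1), (-1 : ℤ) ^ i * (E n i (k - i) : ℤ) = 0)
    (k2 : ∀ n i k, r < i → E n i k = 0)
    (k3 : ∀ n i k, ((r.choose i : ℤ) * s n k - E n i k) ^ 2 ≤ (r.multichoose k : ℤ) ^ 2 *
      nrk (2 * n) * (2 * r.choose i * (r.choose i * nrk (2 * n) - L n i)))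
    (k4 : ∀ n i, r.choose i * nrk (2 * n) + nrk (2 * (n + m * i)) ≤ L n i + r ^ i * nrk (2 * n))
    (k5' : ∀ n, ∃ g : ℕ → ℕ, ∑ k ∈ Finset.range (n + 1), g k ≤ hrk (2 * n) ∧
      ∀ k < n + 1, s n k ≤ g k + (r.multichoose k - 1) * nrk (2 * n)) :
    ∃ C : ℝ, 0 < C ∧ ∀ N : ℕ, 1 ≤ N →
      (nrk N : ℝ) * (N : ℝ) ^ (1 / (4 * (2 * (r : ℝ) + 1))) ≤ C * hrk N := by
  have k5 : ∀ n N, N ≤ n + 1 → ∃ g : ℕ → ℕ, ∑ k ∈ Finset.range N, g k ≤ hrk (2 * n) ∧
      ∀ k < N, s n k ≤ g k + (r.multichoose k - 1) * nrk (2 * n) := by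
    intro n N hN
    obtain ⟨g, hg1, hg2⟩ := k5' n
    refine ⟨g, le_trans ?_ hg1, fun k hk => hg2 k (lt_of_lt_of_le hk hN)⟩
    exact Finset.sum_le_sum_of_subset (Finset.range_subset_range.2 hN)
  have hr1 : 1 ≤ r := by rw [hr]; exact Nat.one_le_pow _ _ hb
  have hr1' : (1 : ℝ) ≤ r := by exact_mod_cast hr1
  obtain ⟨C2, hC2, heps⟩ := eps (fun n => nrk (2 * n)) b hb h1 h2 h3
  set D : ℝ := Real.sqrt (2 * 2 ^ r * m * r * r ^ r * C2) with hD
  have hD0 : 0 ≤ D := Real.sqrt_nonneg _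
  have hDsq : D ^ 2 = 2 * 2 ^ r * m * r * r ^ r * C2 := Real.sq_sqrt (by positivity)
  -- the difference of `Λ s` and `E`
  have hk3 : ∀ n : ℕ, 1 ≤ n → ∀ i k : ℕ, i ≤ r → |(r.choose i : ℝ) * s n k - E n i k| ≤
      (r.multichoose k : ℝ) * (nrk (2 * n) : ℝ) * (D / Real.sqrt (Real.sqrt n)) := by
    intro n hn i k hi
    have hn0 : (0 : ℝ) < n := by exact_mod_cast hn
    have hs0 : 0 < Real.sqrt n := Real.sqrt_pos.2 hn0
    have hss0 : 0 < Real.sqrt (Real.sqrt n) := Real.sqrt_pos.2 hs0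
    apply abs_le_of_sq_le_sq _ (by positivity)
    have e1 : ((r.choose i : ℝ) * s n k - E n i k) ^ 2 ≤ (r.multichoose k : ℝ) ^ 2 *
      nrk (2 * n) * (2 * r.choose i * (r.choose i * nrk (2 * n) - L n i)) := by
      exact_mod_cast k3 n i k
    have e2 : (r.choose i : ℝ) * nrk (2 * n) - L n i ≤
        (m * r) * (C2 / Real.sqrt n) * (r ^ r * nrk (2 * n)) := by
      have e3 : (r.choose i : ℝ) * nrk (2 * n) + nrk (2 * (n + m * i)) ≤ L n i + (r : ℝ) ^ i * nrk (2 * n) := by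
        exact_mod_cast k4 n i
      have e4 := heps n hn (m * i)
      have e5 : ((b : ℝ) ^ 2) ^ (m * i) = (r : ℝ) ^ i := by
        rw [hr]
        push_cast
        rw [← pow_mul, ← pow_mul]
        congr 1
        ring
      rw [e5] at e4
      have e6 : ((m * i : ℕ) : ℝ) * (C2 / Real.sqrt n) * ((r : ℝ) ^ i * nrk (2 * n)) ≤
          (m * r) * (C2 / Real.sqrt n) * (r ^ r * nrk (2 * n)) := by
        push_cast
        have hi' : (i : ℝ) ≤ r := by exact_mod_cast hi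
        gcongr
      linarith
    have e3 : (r.choose i : ℝ) ≤ 2 ^ r := by exact_mod_cast Nat.choose_le_two_pow r i
    have e4 : (2 * (r.choose i : ℝ) * (r.choose i * nrk (2 * n) - L n i)) ≤
        2 * 2 ^ r * ((m * r) * (C2 / Real.sqrt n) * (r ^ r * nrk (2 * n))) := by
      calc (2 * (r.choose i : ℝ) * (r.choose i * nrk (2 * n) - L n i))
          ≤ (2 * (r.choose i : ℝ) * ((m * r) * (C2 / Real.sqrt n) * (r ^ r * nrk (2 * n)))) :=
            mul_le_mul_of_nonneg_left e2 (by positivity)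
        _ ≤ _ := by gcongr
    refine e1.trans ((mul_le_mul_of_nonneg_left e4 (by positivity)).trans (le_of_eq ?_))
    rw [mul_pow, div_pow, hDsq, Real.sq_sqrt hs0.le]
    ring
  -- constants
  set A : ℝ := 2 * r * D + 1 with hA
  have hA0 : 0 < A := by positivity
  set e : ℝ := 2 * r + 1 with he
  have he0 : 0 < e := by positivity
  set κ : ℝ := 1 / (4 * e) with hκ
  have hκ0 : 0 < κ := by positivity
  set c : ℝ := (1 / A) ^ (1 / e) with hc
  have hc0 : 0 < c := by positivity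
  have hc1 : c ≤ 1 := by
    apply Real.rpow_le_one (by positivity) _ (by positivity)
    rw [div_le_one hA0, hA]
    have : 0 ≤ 2 * (r : ℝ) * D := by positivity
    linarith
  have hce : c ^ (2 * r + 1) = 1 / A := by
    rw [hc, ← Real.rpow_natCast, ← Real.rpow_mul (by positivity)]
    have : 1 / e * ((2 * r + 1 : ℕ) : ℝ) = 1 := by
      push_cast
      rw [← he]
      field_simp
    rw [this, Real.rpow_one]
  -- the main estimate at even arguments
  have hmain : ∀ n : ℕ, 1 ≤ n → c / 4 * (n : ℝ) ^ κ * nrk (2 * n) ≤ hrk (2 * n) := by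
    intro n hn
    have hn0 : (0 : ℝ) < n := by exact_mod_cast hn
    have hs0 : 0 < Real.sqrt n := Real.sqrt_pos.2 hn0
    have hss0 : 0 < Real.sqrt (Real.sqrt n) := Real.sqrt_pos.2 hs0
    have hnκ : 0 < (n : ℝ) ^ κ := by positivity
    have hlev := level (s := s n) (E := E n) (a := (nrk (2 * n) : ℝ)) (δ := D / Real.sqrt (Real.sqrt n))
      hr1 (Nat.cast_nonneg _) (by positivity) (by rw [k0 n]) (k0' n) (k1 n) (k2 n) (hk3 n hn)
    set t : ℝ := c * (n : ℝ) ^ κ with ht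
    have ht0 : 0 < t := by positivity
    have hte : t ^ (2 * r + 1) = Real.sqrt (Real.sqrt n) / A := by
      rw [ht, mul_pow, hce, ← Real.rpow_natCast, ← Real.rpow_mul hn0.le]
      have e1 : κ * ((2 * r + 1 : ℕ) : ℝ) = 1 / 2 * (1 / 2) := by
        push_cast
        rw [← he, hκ]
        field_simp
        norm_num
      rw [e1, Real.rpow_mul hn0.le, ← Real.sqrt_eq_rpow, ← Real.sqrt_eq_rpow]
      ring
    -- the lower bound for `g k`
    rcases lt_or_ge t 1 with ht1 | ht1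
    · obtain ⟨g, hg1, hg2⟩ := k5 n 1 (by omega)
      have e1 := hg2 0 one_pos
      rw [k0 n, Nat.multichoose_zero_right, Nat.sub_self, zero_mul, add_zero] at e1
      rw [sum_range_one] at hg1
      have e2 : (nrk (2 * n) : ℝ) ≤ hrk (2 * n) := by exact_mod_cast e1.trans hg1
      have e3 : 0 ≤ (nrk (2 * n) : ℝ) := Nat.cast_nonneg _
      have e4 : c / 4 * (n : ℝ) ^ κ = t / 4 := by rw [ht]; ring
      rw [e4]
      nlinarith
    · set N : ℕ := ⌊t⌋₊ with hN
      have hNt : (N : ℝ) ≤ t := Nat.floor_le ht0.le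
      have hNt2 : t < N + 1 := Nat.lt_floor_add_one t
      have hN1 : 1 ≤ N := Nat.one_le_floor_iff _ |>.2 ht1
      have hN1' : (1 : ℝ) ≤ N := by exact_mod_cast hN1
      have hNn : N ≤ n + 1 := by
        have e1 : t ≤ n := by
          have e2 : (n : ℝ) ^ κ ≤ (n : ℝ) ^ (1 : ℝ) := by
            apply Real.rpow_le_rpow_of_exponent_le (by exact_mod_cast hn)
            rw [hκ, div_le_one (by positivity)]
            have : (1 : ℝ) ≤ r := hr1'
            rw [he]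
            linarith
          rw [Real.rpow_one] at e2
          calc t = c * (n : ℝ) ^ κ := ht
            _ ≤ 1 * n := by gcongr
            _ = n := one_mul _
        have e2 : (N : ℝ) ≤ n := hNt.trans e1
        have e3 : N ≤ n := by exact_mod_cast e2
        omega
      obtain ⟨g, hg1, hg2⟩ := k5 n N hNn
      have hgk : ∀ k < N, (nrk (2 * n) : ℝ) / 2 ≤ g k := by
        intro k hk
        have e1 := hlev k
        have e2 : (s n k : ℝ) ≤ g k + ((r.multichoose k : ℝ) - 1) * nrk (2 * n) := by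
          have e3 : ((s n k : ℕ) : ℝ) ≤ ((g k + (r.multichoose k - 1) * nrk (2 * n) : ℕ) : ℝ) := by
            exact_mod_cast hg2 k hk
          push_cast [Nat.cast_sub (mc_pos hr1 k)] at e3
          exact e3
        have e3 : (k : ℝ) * (r.multichoose k : ℝ) * (r * (r.multichoose k : ℝ) * (nrk (2 * n) : ℝ) *
            (D / Real.sqrt (Real.sqrt n))) ≤ 1 / 2 * nrk (2 * n) := by
          have e4 : (k : ℝ) * (r.multichoose k : ℝ) ^ 2 ≤ t ^ (2 * r + 1) := by
            have e5 : (k : ℝ) + 1 ≤ t := by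
              have : (k : ℝ) + 1 ≤ N := by exact_mod_cast hk
              linarith
            have e6 : (r.multichoose k : ℝ) ≤ ((k : ℝ) + 1) ^ r := by exact_mod_cast mc_le r k
            calc (k : ℝ) * (r.multichoose k : ℝ) ^ 2 ≤ ((k : ℝ) + 1) * (((k : ℝ) + 1) ^ r) ^ 2 := by
                  gcongr
                  linarith
              _ = ((k : ℝ) + 1) ^ (2 * r + 1) := by ring
              _ ≤ t ^ (2 * r + 1) := by gcongr
          rw [hte] at e4
          have e5 : (k : ℝ) * (r.multichoose k : ℝ) * (r * (r.multichoose k : ℝ) * (nrk (2 * n) : ℝ) *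
            (D / Real.sqrt (Real.sqrt n))) = ((k : ℝ) * (r.multichoose k : ℝ) ^ 2) *
              (r * nrk (2 * n) * (D / Real.sqrt (Real.sqrt n))) := by ring
          rw [e5]
          refine (mul_le_mul_of_nonneg_right e4 (by positivity)).trans ?_
          have e6 : Real.sqrt (Real.sqrt n) / A * (r * nrk (2 * n) * (D / Real.sqrt (Real.sqrt n))) =
              (r * D / A) * nrk (2 * n) := by
            field_simp
          rw [e6]
          apply mul_le_mul_of_nonneg_right _ (Nat.cast_nonneg _)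
          rw [div_le_iff₀ hA0, hA]
          linarith
        have e4 := neg_abs_le ((s n k : ℝ) - (r.multichoose k : ℝ) * nrk (2 * n))
        linarith
      have e1 : (N : ℝ) * ((nrk (2 * n) : ℝ) / 2) ≤ hrk (2 * n) := by
        calc (N : ℝ) * ((nrk (2 * n) : ℝ) / 2) = ∑ k ∈ range N, (nrk (2 * n) : ℝ) / 2 := by
              rw [sum_const, card_range, nsmul_eq_mul]
          _ ≤ ∑ k ∈ range N, (g k : ℝ) := sum_le_sum fun k hk => hgk k (mem_range.1 hk)
          _ ≤ _ := by exact_mod_cast hg1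
      have e4 : c / 4 * (n : ℝ) ^ κ = t / 4 := by rw [ht]; ring
      rw [e4]
      have e5 : t ≤ 2 * N := by linarith
      have e3 : 0 ≤ (nrk (2 * n) : ℝ) := Nat.cast_nonneg _
      nlinarith
  have hzero : (nrk 0 : ℝ) ≤ hrk 0 := by
    obtain ⟨g, hg1, hg2⟩ := k5 0 1 (by omega)
    have e1 := hg2 0 one_pos
    rw [k0 0, Nat.multichoose_zero_right, Nat.sub_self, zero_mul, add_zero] at e1
    rw [sum_range_one] at hg1
    exact_mod_cast e1.trans hg1
  have hb' : (1 : ℝ) ≤ b := by exact_mod_cast hb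
  refine ⟨b * (3 : ℝ) ^ κ * (4 / c), by positivity, ?_⟩
  have h3κ : 1 ≤ (3 : ℝ) ^ κ := Real.one_le_rpow (by norm_num) hκ0.le
  have h4c : 1 ≤ 4 / c := by rw [le_div_iff₀ hc0]; linarith
  have key : ∀ n : ℕ, 1 ≤ n → ∀ N : ℕ, N ≤ 3 * n → (nrk (2 * n) : ℝ) * (N : ℝ) ^ κ ≤
      (3 : ℝ) ^ κ * (4 / c) * hrk (2 * n) := by
    intro n hn N hN
    have hn0 : (0 : ℝ) < n := by exact_mod_cast hn
    have e1 : (N : ℝ) ^ κ ≤ (3 : ℝ) ^ κ * (n : ℝ) ^ κ := by
      rw [← Real.mul_rpow (by norm_num) hn0.le]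
      apply Real.rpow_le_rpow (Nat.cast_nonneg _) _ hκ0.le
      exact_mod_cast hN
    have e2 := hmain n hn
    have e3 : (n : ℝ) ^ κ * nrk (2 * n) ≤ 4 / c * hrk (2 * n) := by
      rw [div_mul_eq_mul_div, le_div_iff₀ hc0]
      linarith
    calc (nrk (2 * n) : ℝ) * (N : ℝ) ^ κ ≤ (nrk (2 * n) : ℝ) * ((3 : ℝ) ^ κ * (n : ℝ) ^ κ) := by gcongr
      _ = (3 : ℝ) ^ κ * ((n : ℝ) ^ κ * nrk (2 * n)) := by ring
      _ ≤ (3 : ℝ) ^ κ * (4 / c * hrk (2 * n)) := by gcongr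
      _ = _ := by ring
  intro N hN
  obtain ⟨n, hn | hn⟩ : ∃ n, N = 2 * n ∨ N = 2 * n + 1 := ⟨N / 2, by omega⟩
  · rw [hn]
    have h6 := key n (by omega) (2 * n) (by omega)
    have h7 : (3 : ℝ) ^ κ * (4 / c) * hrk (2 * n) ≤ b * (3 : ℝ) ^ κ * (4 / c) * hrk (2 * n) := by
      have : 0 ≤ (3 : ℝ) ^ κ * (4 / c) * hrk (2 * n) := by positivity
      nlinarith
    exact h6.trans h7
  · rw [hn]
    have h6 : (nrk (2 * n + 1) : ℝ) ≤ b * nrk (2 * n) := by exact_mod_cast h4 n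
    have h7 : (hrk (2 * n) : ℝ) ≤ hrk (2 * n + 1) := by exact_mod_cast h5 n
    rcases Nat.eq_zero_or_pos n with h8 | h8
    · subst h8
      simp only [mul_zero, zero_add, Nat.cast_one, Real.one_rpow, mul_one] at h6 h7 ⊢
      have h9 : (b : ℝ) * 1 * 1 ≤ b * (3 : ℝ) ^ κ * (4 / c) := by gcongr
      have h10 : 0 ≤ (hrk 1 : ℝ) := Nat.cast_nonneg _
      nlinarith
    · have h9 := key n h8 (2 * n + 1) (by omega)
      calc (nrk (2 * n + 1) : ℝ) * ((2 * n + 1 : ℕ) : ℝ) ^ κ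
          ≤ (b * nrk (2 * n)) * ((2 * n + 1 : ℕ) : ℝ) ^ κ := by gcongr
        _ = b * ((nrk (2 * n) : ℝ) * ((2 * n + 1 : ℕ) : ℝ) ^ κ) := by ring
        _ ≤ b * ((3 : ℝ) ^ κ * (4 / c) * hrk (2 * n)) := by gcongr
        _ ≤ b * ((3 : ℝ) ^ κ * (4 / c) * hrk (2 * n + 1)) := by gcongr
        _ = _ := by ring

end Pool.Agent.N180.Zl
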