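import Pool.Agent.N180.ZlF
import Pool.Agent.N180.ZlNum

/-!
# The zero-one law for families of tensors
-/

open Module Matrix

set_option linter.unusedSectionVars false

namespace Pool.Agent.N180.Zl

variable {K : Type*} [Field K] {ι : Type*} [Fintype ι] [DecidableEq ι]

/-- Matrices as tensors. -/
def mEquiv (K : Type*) [Field K] (ι S S' : Type*) : Matrix (S → ι) (S' → ι) K ≃ₗ[K] ((S ⊕ S' → ι) → K) where
  toFun M := fun I => M (I ∘ Sum.inl) (I ∘ Sum.inr)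
  invFun z := Matrix.of fun J I => z (Sum.elim J I)
  left_inv M := by
    ext J I
    rfl
  right_inv z := by
    funext I
    change z (Sum.elim (I ∘ Sum.inl) (I ∘ Sum.inr)) = z I
    rw [Sum.elim_comp_inl_inr]
  map_add' _ _ := rfl
  map_smul' _ _ := rfl

lemma finrank_Hm (𝓣 : TFam K ι) {S S' : Type} [Fintype S] [Fintype S'] [DecidableEq S]
    [DecidableEq S'] (ε : S → Bool) (η : S' → Bool) :
    finrank K (𝓣.Hm ε η) = finrank K (𝓣.C (Sum.elim ε (fun s => !(η s)))) := by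
  have h1 : 𝓣.Hm ε η = (𝓣.C (Sum.elim ε (fun s => !(η s)))).comap (mEquiv K ι S S').toLinearMap :=
    rfl
  rw [h1, ← LinearEquiv.finrank_map_eq (mEquiv K ι S S'),
    Submodule.map_comap_eq_of_surjective (mEquiv K ι S S').surjective]

/-- The parts. -/
structure Parts [CharZero K] (𝓣 : TFam K ι) : Prop where
  bend : S_bend 𝓣
  rename : S_rename 𝓣
  add : S_add 𝓣
  rank : S_rank 𝓣
  full : S_full 𝓣
  perm : S_perm 𝓣
  kos : S_kos 𝓣
  gr : S_gr 𝓣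

section Numbers

variable [CharZero K] {𝓣 : TFam K ι} (h : Parts 𝓣)
include h

open Ob

lemma fac_kr {S R : Type} [Fintype S] [Fintype R]
    [DecidableEq S] [DecidableEq R]
    {c : ℕ} {M : Matrix (S → ι) (S → ι) K} (hM : N282.ZL.Fac M c) {d : ℕ}
    {N : Matrix (R → ι) (R → ι) K} (hN : N282.ZL.Fac N d) :
    N282.ZL.Fac (TFam.kr M N) (c * d) := by
  have h1 := N282.ZL.fac_kron M N c d hM hN
  have h2 := N282.ZL.fac_reindex _ _ (Equiv.sumArrowEquivProdArrow S R ι).symm h1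
  exact h2

lemma fac_sym (p k : ℕ) : N282.ZL.Fac (symOb 𝓣 p k).q ((Fintype.card ι ^ p).multichoose k) := by
  obtain ⟨A, B, h1, h2⟩ := Pool.Agent.N348.ZL.symM_frame K (Fin p → ι) k
  have h3 : N282.ZL.Fac (Pool.Agent.N348.ZL.symM K (Fin p → ι) k)
      ((Fintype.card (Fin p → ι)).multichoose k) := ⟨A, B, h1⟩
  have h4 := N282.ZL.fac_reindex _ _ (Equiv.curry (Fin k) (Fin p) ι).symm h3
  rw [Fintype.card_fun, Fintype.card_fin] at h4
  exact h4

lemma fac_alt (p k : ℕ) : N282.ZL.Fac (altOb 𝓣 p k).q ((Fintype.card ι ^ p).choose k) := by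
  obtain ⟨A, B, h1, h2⟩ := N943.ZL.altM_frame K (Fin p → ι) k
  have h3 : N282.ZL.Fac (N943.ZL.altM K (Fin p → ι) k)
      ((Fintype.card (Fin p → ι)).choose k) := ⟨A, B, h1⟩
  have h4 := N282.ZL.fac_reindex _ _ (Equiv.curry (Fin k) (Fin p) ι).symm h3
  rw [Fintype.card_fun, Fintype.card_fin] at h4
  exact h4

/-- `k0` -/
lemma num_k0 (n p : ℕ) : hs n (one 𝓣) (symOb 𝓣 p 0) = hs n (one 𝓣) (one 𝓣) := by
  have hq : ∀ J I : Empty → ι, bm (Pool.Agent.N348.ZL.symM K (Fin p → ι) 0)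
      (J ∘ (Equiv.equivOfIsEmpty (Fin 0 × Fin p) Empty))
      (I ∘ (Equiv.equivOfIsEmpty (Fin 0 × Fin p) Empty)) =
      (1 : Matrix (Empty → ι) (Empty → ι) K) J I := by
    intro J I
    have e1 : J = I := Subsingleton.elim _ _
    rw [e1, Matrix.one_apply_eq, bm, Matrix.submatrix_apply, Pool.Agent.N348.ZL.symM]
    simp [Pool.Agent.N348.ZL.permM]
  exact h.rename n (one 𝓣) (symOb 𝓣 p 0) (one 𝓣) (Equiv.equivOfIsEmpty (Fin 0 × Fin p) Empty)
    (fun s => ((IsEmpty.false (α := Fin 0 × Fin p)) s).elim) hq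

/-- Tensor product with an empty power. -/
lemma num_k0' (n p k : ℕ) : hs n (one 𝓣) (tens (altOb 𝓣 p 0) (symOb 𝓣 p k)) =
    hs n (one 𝓣) (symOb 𝓣 p k) := by
  have hq : ∀ J I : Fin k × Fin p → ι, TFam.kr (bm (N943.ZL.altM K (Fin p → ι) 0))
      (bm (Pool.Agent.N348.ZL.symM K (Fin p → ι) k))
      (J ∘ (Equiv.emptySum (Fin 0 × Fin p) (Fin k × Fin p)))
      (I ∘ (Equiv.emptySum (Fin 0 × Fin p) (Fin k × Fin p))) =
      bm (Pool.Agent.N348.ZL.symM K (Fin p → ι) k) J I := by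
    intro J I
    have e1 : bm (N943.ZL.altM K (Fin p → ι) 0)
        ((J ∘ (Equiv.emptySum (Fin 0 × Fin p) (Fin k × Fin p))) ∘ Sum.inl)
        ((I ∘ (Equiv.emptySum (Fin 0 × Fin p) (Fin k × Fin p))) ∘ Sum.inl) = 1 := by
      have e2 : (J ∘ (Equiv.emptySum (Fin 0 × Fin p) (Fin k × Fin p))) ∘ Sum.inl =
        (I ∘ (Equiv.emptySum (Fin 0 × Fin p) (Fin k × Fin p))) ∘ Sum.inl := Subsingleton.elim _ _
      rw [e2, bm, Matrix.submatrix_apply, N943.ZL.altM]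
      simp [N943.ZL.permM]
    rw [TFam.kr_apply, e1, one_mul]
    rfl
  refine h.rename n (one 𝓣) (tens (altOb 𝓣 p 0) (symOb 𝓣 p k)) (symOb 𝓣 p k)
    (Equiv.emptySum (Fin 0 × Fin p) (Fin k × Fin p)) ?_ hq
  rintro (s | s)
  · exact ((IsEmpty.false (α := Fin 0 × Fin p)) s).elim
  · rfl

/-- `k2` -/
lemma num_k2 (n p i k : ℕ) (hi : Fintype.card ι ^ p < i) :
    hs n (one 𝓣) (tens (altOb 𝓣 p i) (symOb 𝓣 p k)) = 0 := by
  have h1 := h.rank n (tens (altOb 𝓣 p i) (symOb 𝓣 p k)) _ (fac_kr h (fac_alt h p i) (fac_sym h p k))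
  rw [Nat.choose_eq_zero_of_lt hi, zero_mul, zero_mul] at h1
  omega

/-- The selfhomomorphisms. -/
lemma num_self (n : ℕ) (A : Ob 𝓣) (c : ℕ) (hc : N282.ZL.Fac A.q c) :
    hs n A A ≤ c ^ 2 * hs n (one 𝓣) (one 𝓣) := by
  rw [h.bend n A A, pow_two]
  exact h.rank n _ _ (fac_kr h (N282.ZL.fac_transpose _ _ hc) hc)

lemma num_dual_one (n : ℕ) (A : Ob 𝓣) : hs n A.dual (one 𝓣) = hs n (one 𝓣) A := by
  rw [h.bend n]
  have hq : ∀ J I : A.S → ι, TFam.kr A.q (1 : Matrix (Empty → ι) (Empty → ι) K)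
      (J ∘ (Equiv.sumEmpty A.S Empty)) (I ∘ (Equiv.sumEmpty A.S Empty)) = A.q J I := by
    intro J I
    have e1 : (J ∘ (Equiv.sumEmpty A.S Empty)) ∘ Sum.inr =
      (I ∘ (Equiv.sumEmpty A.S Empty)) ∘ Sum.inr := Subsingleton.elim _ _
    rw [TFam.kr_apply, e1, Matrix.one_apply_eq, mul_one]
    rfl
  refine h.rename n (one 𝓣) (tens A.dual.dual (one 𝓣)) A (Equiv.sumEmpty A.S Empty) ?_ hq
  rintro (s | s)
  · exact (Bool.not_not (A.ε s)).symm
  · exact s.elim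

lemma num_dual_tens (n : ℕ) (A B : Ob 𝓣) : hs n A.dual B = hs n (one 𝓣) (tens B A) := by
  rw [h.bend n]
  have hq : ∀ J I : B.S ⊕ A.S → ι, TFam.kr A.q B.q
      (J ∘ (Equiv.sumComm A.S B.S)) (I ∘ (Equiv.sumComm A.S B.S)) = TFam.kr B.q A.q J I := by
    intro J I
    rw [TFam.kr_apply, TFam.kr_apply, mul_comm]
    rfl
  refine h.rename n (one 𝓣) (tens A.dual.dual B) (tens B A) (Equiv.sumComm A.S B.S) ?_ hq
  rintro (s | s)
  · exact (Bool.not_not (A.ε s)).symm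
  · rfl

/-- `k3` -/
lemma num_k3 (n p i k : ℕ) :
    (((Fintype.card ι ^ p).choose i : ℤ) * hs n (one 𝓣) (symOb 𝓣 p k) -
      hs n (one 𝓣) (tens (altOb 𝓣 p i) (symOb 𝓣 p k))) ^ 2 ≤
      ((Fintype.card ι ^ p).multichoose k : ℤ) ^ 2 * hs n (one 𝓣) (one 𝓣) *
      (2 * (Fintype.card ι ^ p).choose i * ((Fintype.card ι ^ p).choose i *
        hs n (one 𝓣) (one 𝓣) - hs n (one 𝓣) (altOb 𝓣 p i))) := by
  set r := Fintype.card ι ^ p with hr
  have h1 := cs3 n (symOb 𝓣 p k).dual (altOb 𝓣 p i) (one 𝓣) (r.choose i)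
  rw [num_dual_one h, num_dual_tens h] at h1
  have h2 : (hs n (altOb 𝓣 p i) (altOb 𝓣 p i) : ℤ) ≤ (r.choose i : ℤ) ^ 2 *
      hs n (one 𝓣) (one 𝓣) := by exact_mod_cast num_self h n _ _ (fac_alt h p i)
  have h3 : (hs n (symOb 𝓣 p k).dual (symOb 𝓣 p k).dual : ℤ) ≤ (r.multichoose k : ℤ) ^ 2 *
      hs n (one 𝓣) (one 𝓣) := by
    exact_mod_cast num_self h n _ _ (N282.ZL.fac_transpose _ _ (fac_sym h p k))
  have hL2' : (hs n (one 𝓣) (altOb 𝓣 p i) : ℤ) ≤ (r.choose i : ℤ) * hs n (one 𝓣) (one 𝓣) := by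
    have := h.rank n _ _ (fac_alt h p i)
    rw [← hr] at this
    exact_mod_cast this
  set α : ℤ := ((hs n (one 𝓣) (one 𝓣) : ℕ) : ℤ) with hα
  set L : ℤ := ((hs n (one 𝓣) (altOb 𝓣 p i) : ℕ) : ℤ) with hL
  set aa : ℤ := ((hs n (altOb 𝓣 p i) (altOb 𝓣 p i) : ℕ) : ℤ) with haa
  set dd : ℤ := ((hs n (symOb 𝓣 p k).dual (symOb 𝓣 p k).dual : ℕ) : ℤ) with hdd
  have hα0 : 0 ≤ α := by rw [hα]; positivity
  have hdd0 : 0 ≤ dd := by rw [hdd]; positivity
  have h5 : ((r.choose i : ℤ)) ^ 2 * α - 2 * (r.choose i : ℤ) * L + aa ≤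
      2 * (r.choose i : ℤ) * ((r.choose i : ℤ) * α - L) := by nlinarith
  have hL2 : L ≤ (r.choose i : ℤ) * α := hL2'
  have h6 : 0 ≤ 2 * (r.choose i : ℤ) * ((r.choose i : ℤ) * α - L) := by
    have : 0 ≤ (r.choose i : ℤ) * α - L := by linarith
    positivity
  calc _ ≤ dd * ((r.choose i : ℤ) ^ 2 * α - 2 * (r.choose i : ℤ) * L + aa) := h1
    _ ≤ dd * (2 * (r.choose i : ℤ) * ((r.choose i : ℤ) * α - L)) :=
        mul_le_mul_of_nonneg_left h5 hdd0
    _ ≤ _ := mul_le_mul_of_nonneg_right h3 h6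

/-- Full objects. -/
lemma num_full (a : ℕ → ℕ) (ha : ∀ {S : Type} [Fintype S] [DecidableEq S] (ε : S → Bool),
    𝓣.cn ε = a (Fintype.card S)) (n : ℕ) {S S' : Type} [Fintype S] [Fintype S']
    [DecidableEq S] [DecidableEq S'] (ε : S → Bool) (ε' : S' → Bool) :
    hs n (full 𝓣 ε) (full 𝓣 ε') = a (Fintype.card S + n + (Fintype.card S' + n)) := by
  rw [h.full n ε ε', ha]
  congr 1
  change Fintype.card ((S ⊕ Fin n) ⊕ (S' ⊕ Fin n)) = _
  rw [Fintype.card_sum, Fintype.card_sum, Fintype.card_sum, Fintype.card_fin]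

lemma num_full_one (a : ℕ → ℕ) (ha : ∀ {S : Type} [Fintype S] [DecidableEq S] (ε : S → Bool),
    𝓣.cn ε = a (Fintype.card S)) (n : ℕ) {S' : Type} [Fintype S']
    [DecidableEq S'] (ε' : S' → Bool) :
    hs n (one 𝓣) (full 𝓣 ε') = a (Fintype.card S' + 2 * n) := by
  have h1 := num_full h a ha n (fun s : Empty => s.elim) ε'
  have h2 : one 𝓣 = full 𝓣 (fun s : Empty => s.elim) := rfl
  rw [h2, h1, Fintype.card_eq_zero]
  congr 1
  omega

lemma num_one_one (a : ℕ → ℕ) (ha : ∀ {S : Type} [Fintype S] [DecidableEq S] (ε : S → Bool),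
    𝓣.cn ε = a (Fintype.card S)) (n : ℕ) : hs n (one 𝓣) (one 𝓣) = a (2 * n) := by
  have h1 := num_full_one h a ha n (fun s : Empty => s.elim)
  rw [Fintype.card_eq_zero, zero_add] at h1
  exact h1

lemma fac_one {S : Type} [Fintype S] [DecidableEq S] (ε : S → Bool) :
    N282.ZL.Fac (full 𝓣 ε).q (Fintype.card ι ^ Fintype.card S) := by
  rw [N282.ZL.fac_iff]
  have h1 := Matrix.rank_le_card_width (full 𝓣 ε).q
  have h2 : Fintype.card ((full 𝓣 ε).S → ι) = Fintype.card ι ^ Fintype.card S := Fintype.card_fun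
  rwa [h2] at h1

/-- `k4` -/
lemma num_k4 (a : ℕ → ℕ) (ha : ∀ {S : Type} [Fintype S] [DecidableEq S] (ε : S → Bool),
    𝓣.cn ε = a (Fintype.card S)) (n m i : ℕ) :
    (Fintype.card ι ^ (2 * m)).choose i * a (2 * n) + a (2 * (n + m * i)) ≤
      hs n (one 𝓣) (altOb 𝓣 (2 * m) i) + (Fintype.card ι ^ (2 * m)) ^ i * a (2 * n) := by
  have h1 := h.add n (altOb 𝓣 (2 * m) i)
  have h2 : hs n (one 𝓣) (full 𝓣 (altOb 𝓣 (2 * m) i).ε) = a (2 * (n + m * i)) := by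
    rw [num_full_one h a ha n (altOb 𝓣 (2 * m) i).ε]
    congr 1
    change Fintype.card (Fin i × Fin (2 * m)) + 2 * n = _
    rw [Fintype.card_prod, Fintype.card_fin, Fintype.card_fin]
    ring
  obtain ⟨A, B, h3, h4⟩ := N943.ZL.altM_frame K (Fin (2 * m) → ι) i
  have h5 : ((Fintype.card ι ^ (2 * m)).choose i) ≤ (Fintype.card ι ^ (2 * m)) ^ i ∧
      N282.ZL.Fac (altOb 𝓣 (2 * m) i).compl.q ((Fintype.card ι ^ (2 * m)) ^ i -
        (Fintype.card ι ^ (2 * m)).choose i) := by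
    obtain ⟨h6, h7⟩ := N282.ZL.fac_compl _ _ A B h3 h4
    have h8 := N282.ZL.fac_reindex _ _ (Equiv.curry (Fin i) (Fin (2 * m)) ι).symm h7
    have h9 : Fintype.card (Fin i → Fin (2 * m) → ι) = (Fintype.card ι ^ (2 * m)) ^ i := by
      rw [Fintype.card_fun, Fintype.card_fun, Fintype.card_fin, Fintype.card_fin]
    have h10 : Fintype.card (Fin (2 * m) → ι) = Fintype.card ι ^ (2 * m) := by
      rw [Fintype.card_fun, Fintype.card_fin]
    rw [h9, h10] at h6 h8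
    refine ⟨h6, ?_⟩
    have h11 : (1 - N943.ZL.altM K (Fin (2 * m) → ι) i).submatrix
        (Equiv.curry (Fin i) (Fin (2 * m)) ι).symm.symm
        (Equiv.curry (Fin i) (Fin (2 * m)) ι).symm.symm =
        (1 : Matrix (Fin i × Fin (2 * m) → ι) (Fin i × Fin (2 * m) → ι) K) -
          bm (N943.ZL.altM K (Fin (2 * m) → ι) i) := by
      ext J I
      rw [Equiv.symm_symm, Matrix.submatrix_apply, Matrix.sub_apply, Matrix.sub_apply, bm,
        Matrix.submatrix_apply, Matrix.one_apply, Matrix.one_apply]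
      simp only [EmbeddingLike.apply_eq_iff_eq]
    rw [h11] at h8
    exact h8
  obtain ⟨h6, h7⟩ := h5
  have h8 := h.rank n _ _ h7
  rw [num_one_one h a ha] at h8
  obtain ⟨d, hd⟩ := Nat.exists_eq_add_of_le h6
  rw [hd, Nat.add_sub_cancel_left] at h8
  rw [← h2, h1, hd]
  nlinarith

end Numbers

/-- **The zero-one law for families of tensors.** -/
theorem zero_one_abs [CharZero K] (b m : ℕ) (hb : 1 ≤ b) (a hr : ℕ → ℕ)
    (hS : ∀ 𝓣 : TFam K (Fin b), Parts 𝓣)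
    (H : ∀ N : ℕ, ∃ (𝓣 : TFam K (Fin b)) (w : Fin b → ℝ), Wt 𝓣 w N ∧
      (∀ {S : Type} [Fintype S] [DecidableEq S] (ε : S → Bool), 𝓣.cn ε = a (Fintype.card S)) ∧
      (∀ {S : Type} [Fintype S] (ε : S → Bool), finrank K (𝓣.C ε) = hr (Fintype.card S)) ∧
      ∃ z ∈ 𝓣.C (fun _ : Fin (2 * m) => true), z ∈ 𝓣.Nn (fun _ : Fin (2 * m) => true) ∧ z ≠ 0)
    (h5 : ∀ n, hr (2 * n) ≤ hr (2 * n + 1)) :
    ∃ C : ℝ, 0 < C ∧ ∀ N : ℕ, 1 ≤ N →
      (a N : ℝ) * (N : ℝ) ^ (1 / (4 * (2 * ((b ^ (2 * m) : ℕ) : ℝ) + 1))) ≤ C * hr N := by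
  classical
  choose 𝓣 w hw ha hhr hz using fun n : ℕ => H (2 * n + 2 * n * (2 * m) + 2 * m)
  have P := fun n => hS (𝓣 n)
  have hα : ∀ n, Ob.hs n (Ob.one (𝓣 n)) (Ob.one (𝓣 n)) = a (2 * n) := fun n =>
    num_one_one (P n) a (ha n) n
  have hcard : Fintype.card (Fin b) = b := Fintype.card_fin b
  refine numeric' b m (b ^ (2 * m)) hb rfl a hr
    (fun n k => Ob.hs n (Ob.one (𝓣 n)) (symOb (𝓣 n) (2 * m) k))
    (fun n i k => Ob.hs n (Ob.one (𝓣 n)) (Ob.tens (altOb (𝓣 n) (2 * m) i) (symOb (𝓣 n) (2 * m) k)))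
    (fun n i => Ob.hs n (Ob.one (𝓣 n)) (altOb (𝓣 n) (2 * m) i)) ?_ ?_ ?_ ?_ h5 ?_ ?_ ?_ ?_ ?_ ?_ ?_
  · intro n
    have h1 := (P n).rank n (Ob.full (𝓣 n) (fun _ : Fin 2 => true)) _ (fac_one (P n) _)
    rw [num_full_one (P n) a (ha n), hα, Fintype.card_fin, Fintype.card_fin] at h1
    have h2 : 2 + 2 * n = 2 * (n + 1) := by ring
    rwa [h2] at h1
  · intro n
    have h1 := Ob.cs n (Ob.one (𝓣 n)) (Ob.full (𝓣 n) (fun _ : Fin 2 => true))
    rw [num_full_one (P n) a (ha n), hα, num_full (P n) a (ha n), Fintype.card_fin] at h1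
    have h2 : 2 + 2 * n = 2 * (n + 1) := by ring
    have h3 : 2 + n + (2 + n) = 2 * (n + 2) := by ring
    rwa [h2, h3] at h1
  · intro n
    have h1 := (P n).perm n
    rwa [hα, hcard] at h1
  · intro n
    have h1 := (P n).rank n (Ob.full (𝓣 n) (fun _ : Fin 1 => true)) _ (fac_one (P n) _)
    rw [num_full_one (P n) a (ha n), hα, Fintype.card_fin, Fintype.card_fin, pow_one,
      Nat.add_comm] at h1
    exact h1
  · intro n
    beta_reduce
    rw [num_k0 (P n), hα]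
  · intro n k
    exact num_k0' (P n) n (2 * m) k
  · intro n k hk
    exact (P n).kos n (2 * m) k hk
  · intro n i k hi
    refine num_k2 (P n) n (2 * m) i k ?_
    rwa [hcard]
  · intro n i k
    have h1 := num_k3 (P n) n (2 * m) i k
    rw [hα, hcard] at h1
    exact_mod_cast h1
  · intro n i
    have h1 := num_k4 (P n) a (ha n) n m i
    rw [hcard] at h1
    exact h1
  · intro n
    obtain ⟨g, hg1, hg2⟩ := (P n).gr n (2 * m) n (w n) (hw n) (hz n)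
    refine ⟨g, ?_, ?_⟩
    · refine hg1.trans (le_of_eq ?_)
      rw [finrank_Hm, hhr n]
      congr 1
      change Fintype.card ((Empty ⊕ Fin n) ⊕ (Empty ⊕ Fin n)) = _
      rw [Fintype.card_sum, Fintype.card_sum, Fintype.card_fin, Fintype.card_eq_zero]
      omega
    · intro k hk
      have h1 := hg2 k hk
      rw [hα, hcard] at h1
      exact h1

end Pool.Agent.N180.Zl
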