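import Pool.Agent.N180.ZlG
import Pool.Agent.N180.ZlNumU

/-!
# The zero-one law for families of tensors, with a uniform constant
-/

open Module Matrix

set_option linter.unusedSectionVars false

universe u

namespace Pool.Agent.N180.Zl

/-- **The zero-one law for families of tensors**, with a constant which depends only on `b` and
`m`. -/
theorem zero_one_absU (b m : ℕ) (hb : 1 ≤ b) :
    ∃ C : ℝ, 0 < C ∧ ∀ (K : Type u) [Field K] [CharZero K] (a hr : ℕ → ℕ)
      (_ : ∀ 𝓣 : TFam K (Fin b), Parts 𝓣)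
      (_ : ∀ N : ℕ, ∃ (𝓣 : TFam K (Fin b)) (w : Fin b → ℝ), Wt 𝓣 w N ∧
        (∀ {S : Type} [Fintype S] [DecidableEq S] (ε : S → Bool), 𝓣.cn ε = a (Fintype.card S)) ∧
        (∀ {S : Type} [Fintype S] (ε : S → Bool), finrank K (𝓣.C ε) = hr (Fintype.card S)) ∧
        ∃ z ∈ 𝓣.C (fun _ : Fin (2 * m) => true), z ∈ 𝓣.Nn (fun _ : Fin (2 * m) => true) ∧ z ≠ 0)
      (_ : ∀ n, hr (2 * n) ≤ hr (2 * n + 1)), ∀ N : ℕ, 1 ≤ N →
      (a N : ℝ) * (N : ℝ) ^ (1 / (4 * (2 * ((b ^ (2 * m) : ℕ) : ℝ) + 1))) ≤ C * hr N := by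
  classical
  obtain ⟨C, hC, hmain⟩ := numericU b m (b ^ (2 * m)) hb rfl
  refine ⟨C, hC, ?_⟩
  intro K _ _ a hr hS H h5
  choose 𝓣 w hw ha hhr hz using fun n : ℕ => H (2 * n + 2 * n * (2 * m) + 2 * m)
  have P := fun n => hS (𝓣 n)
  have hα : ∀ n, Ob.hs n (Ob.one (𝓣 n)) (Ob.one (𝓣 n)) = a (2 * n) := fun n =>
    num_one_one (P n) a (ha n) n
  have hcard : Fintype.card (Fin b) = b := Fintype.card_fin b
  refine hmain a hr
    (fun n k => Ob.hs n (Ob.one (𝓣 n)) (symOb (𝓣 n) (2 * m) k))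
    (fun n i k => Ob.hs n (Ob.one (𝓣 n)) (Ob.tens (altOb (𝓣 n) (2 * m) i) (symOb (𝓣 n) (2 * m) k)))
    (fun n i => Ob.hs n (Ob.one (𝓣 n)) (altOb (𝓣 n) (2 * m) i)) ?_ ?_ ?_ ?_ ?_ h5
    ?_ ?_ ?_ ?_ ?_ ?_ ?_
  · have h1 := ha 0 (fun s : Empty => s.elim)
    rw [Fintype.card_eq_zero] at h1
    rw [← h1]
    refine (nr_le _ _).trans ((Submodule.finrank_le _).trans ?_)
    rw [Module.finrank_fintype_fun_eq_card, Fintype.card_eq_one_iff_nonempty_unique.2
      ⟨⟨⟨fun s => s.elim⟩, fun f => funext fun s => s.elim⟩⟩]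
  · intro n
    have h1 := (P n).rank n (Ob.full (𝓣 n) (fun _ : Fin 2 => true)) _ (fac_one (P n) _)
    rw [num_full_one (P n) a (ha n), hα, Fintype.card_fin, Fintype.card_fin] at h1
    have h2 : 2 + 2 * n = 2 * (n + 1) := by ring
    rwa [h2] at h1
  · intro n
    have h1 := Ob.cs n (Ob.one (𝓣 n)) (Ob.full (𝓣 n) (fun _ : Fin 2 => true))
    rw [num_full_one (P n) a (ha n), hα, num_full (P n) a (ha n), Fintype.card_fin] at h1
    have h2 : 2 + 2 * n = 2 * (n + 1) := by ring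
    have h3 : 2 + n + (2 + n) = 2 * (n + 2) := by ring
    rwa [h2, h3] at h1
  · intro n
    have h1 := (P n).perm n
    rwa [hα, hcard] at h1
  · intro n
    have h1 := (P n).rank n (Ob.full (𝓣 n) (fun _ : Fin 1 => true)) _ (fac_one (P n) _)
    rw [num_full_one (P n) a (ha n), hα, Fintype.card_fin, Fintype.card_fin, pow_one,
      Nat.add_comm] at h1
    exact h1
  · intro n
    beta_reduce
    rw [num_k0 (P n), hα]
  · intro n k
    exact num_k0' (P n) n (2 * m) k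
  · intro n k hk
    exact (P n).kos n (2 * m) k hk
  · intro n i k hi
    refine num_k2 (P n) n (2 * m) i k ?_
    rwa [hcard]
  · intro n i k
    have h1 := num_k3 (P n) n (2 * m) i k
    rw [hα, hcard] at h1
    exact_mod_cast h1
  · intro n i
    have h1 := num_k4 (P n) a (ha n) n m i
    rw [hcard] at h1
    exact h1
  · intro n
    obtain ⟨g, hg1, hg2⟩ := (P n).gr n (2 * m) n (w n) (hw n) (hz n)
    refine ⟨g, ?_, ?_⟩
    · refine hg1.trans (le_of_eq ?_)
      rw [finrank_Hm, hhr n]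
      congr 1
      change Fintype.card ((Empty ⊕ Fin n) ⊕ (Empty ⊕ Fin n)) = _
      rw [Fintype.card_sum, Fintype.card_sum, Fintype.card_fin, Fintype.card_eq_zero]
      omega
    · intro k hk
      have h1 := hg2 k hk
      rw [hα, hcard] at h1
      exact h1

end Pool.Agent.N180.Zl
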