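import Pool.Agent.N180.ZlF
import Pool.Agent.N180.CfE

/-!
# Families of tensors from families of multilinear forms: statements
-/

open Module

set_option linter.unusedSectionVars false

namespace Pool.Agent.N180.Zl

open Pool.Agent.N180.Cf

variable {K : Type*} [Field K] {V : Type*} [AddCommGroup V] [Module K V] {b : ℕ}

/-- The basis vectors of the two kinds. -/
def bv (β γ : Fin b → V) (ε : Bool) (i : Fin b) : V := if ε then β i else γ i

/-- A family of multilinear forms with an ideal, and dual bases. -/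
structure FamD (ψ : V →ₗ[K] V →ₗ[K] K) (κ : V →ₗ[K] V) (β γ : Fin b → V)
    (G F : ∀ m : ℕ, Submodule K ((Fin m → V) → K)) : Prop where
  dual : DualP ψ β γ
  comm : ∀ x y, ψ x y = ψ y (κ x)
  adj : ∀ x y, ψ (κ x) y = ψ x (κ y)
  sq : ∀ x, κ (κ x) = x
  multi : MultiSt G
  perm : PermSt G
  permF : PermSt F
  ins : ∀ (m : ℕ) (f : (Fin m → V) → K), f ∈ G m →
    (fun v : Fin (m + 2) → V => ψ (v 0) (v 1) * f (fun j => v j.succ.succ)) ∈ G (m + 2)
  mul : ∀ (m n : ℕ) (f : (Fin m → V) → K) (g : (Fin n → V) → K), f ∈ G m → g ∈ G n →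
    (fun v : Fin (m + n) → V => f (fun i => v (Fin.castAdd n i)) *
      g (fun j => v (Fin.natAdd m j))) ∈ G (m + n)
  mulF : ∀ (m n : ℕ) (f : (Fin m → V) → K) (g : (Fin n → V) → K), f ∈ F m → g ∈ G n →
    (fun v : Fin (m + n) → V => f (fun i => v (Fin.castAdd n i)) *
      g (fun j => v (Fin.natAdd m j))) ∈ F (m + n)
  contr : ∀ (m : ℕ) (f : (Fin (m + 2) → V) → K), f ∈ G (m + 2) →
    (fun v : Fin m → V => ∑ i, f (Fin.cons (γ i) (Fin.cons (β i) v : Fin (m + 1) → V) :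
      Fin (m + 2) → V)) ∈ G m
  contrF : ∀ (m : ℕ) (f : (Fin (m + 2) → V) → K), f ∈ F (m + 2) →
    (fun v : Fin m → V => ∑ i, f (Fin.cons (γ i) (Fin.cons (β i) v : Fin (m + 1) → V) :
      Fin (m + 2) → V)) ∈ F m
  one : (fun _ => 1) ∈ G 0
  zeroF : ∀ f ∈ F 0, f = 0
  le : ∀ m, F m ≤ G m
  var : VarS G κ
  varF : VarS F κ
  nd : ∀ (m : ℕ), ∀ f ∈ G m, (∀ g ∈ G m, ∑ I : Fin m → Fin b, f (fun s => γ (I s)) *
    g (fun s => β (I s)) = 0) → f ∈ F m

/-- The statement: the coordinates of the forms are a family of tensors. -/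
def S_fam (ψ : V →ₗ[K] V →ₗ[K] K) (κ : V →ₗ[K] V) (β γ : Fin b → V)
  (G F : ∀ m : ℕ, Submodule K ((Fin m → V) → K)) : Prop := FamD ψ κ β γ G F →
  ∃ 𝓣 : TFam K (Fin b),
    (∀ {S : Type} [Fintype S] (ε : S → Bool),
      finrank K (𝓣.C ε) = finrank K (G (Fintype.card S))) ∧
    (∀ {S : Type} [Fintype S] [DecidableEq S] (ε : S → Bool),
      𝓣.cn ε + finrank K (F (Fintype.card S)) = finrank K (G (Fintype.card S))) ∧
    (∀ (w : Fin b → ℝ) (N : ℕ),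
      (∀ m ≤ N, ∀ f ∈ G m, ∀ (ε : Fin m → Bool) (I : Fin m → Fin b),
        f (fun s => bv β γ (ε s) (I s)) ≠ 0 → wt w ε I ≤ 0) →
      (∀ m ≤ N, ∀ f ∈ F m, ∀ (ε : Fin m → Bool) (I : Fin m → Fin b),
        f (fun s => bv β γ (ε s) (I s)) ≠ 0 → wt w ε I < 0) → Wt 𝓣 w N) ∧
    (∀ m, F m ≠ ⊥ → ∃ z ∈ 𝓣.C (fun _ : Fin m => true),
      z ∈ 𝓣.Nn (fun _ : Fin m => true) ∧ z ≠ 0)

end Pool.Agent.N180.Zl
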