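import Pool.Agent.N180.CfL
import Pool.Agent.N180.ZlDefs
import Pool.Agent.N180.ZlH

/-!
# The forms given by the algebraic classes on the powers of a variety
-/

open CategoryTheory AlgebraicGeometry TensorProduct Function Module

universe u v w w'

set_option linter.unusedSectionVars false

namespace Pool.Agent.N180.Zl

open Pool.Agent.H914 Pool.Agent.H914.VarClass Pool.Agent.H914.VarClass.Obj
  Pool.Agent.H914.WeilCohomology Pool.Agent.R908 Pool.Agent.R908.Km
  Pool.Agent.H281R3.HT Pool.Agent.N180.Cf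

variable {k : Type u} [Field k] {𝒱 : VarClass k} {ops : CycleOps 𝒱}
  {W : WeilCohomology.{u, v} ops} {X P Y Z V : 𝒱.Obj}

/-! ### Points -/

lemma pt_gr (hP : P.dim = 0) (a : W.H P) : a ∈ W.gr P 0 := by
  refine gr_induction (W.isInternal P) (p := fun a => a ∈ W.gr P 0) ?_ ?_ a
  · intro i a ha
    rcases Nat.eq_zero_or_pos i with rfl | hi
    · exact ha
    · rw [W.gr_eq_bot P i (by omega), Submodule.mem_bot] at ha
      rw [ha]
      exact Submodule.zero_mem _
  · intro a b ha hb
    exact Submodule.add_mem _ ha hb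

lemma pt_eq (hP : P.dim = 0) (a : W.H P) : ∃ c : W.K, a = c • (1 : W.H P) := by
  have h := pt_gr hP a
  rw [W.gr_zero, Submodule.mem_span_singleton] at h
  obtain ⟨c, hc⟩ := h
  exact ⟨c, hc.symm⟩

lemma pt_tr (hP : P.dim = 0) (h1 : (1 : W.H P) ≠ 0) : W.tr P 1 ≠ 0 := by
  intro h0
  apply h1
  apply W.nondeg
  intro b
  obtain ⟨c, rfl⟩ := pt_eq hP b
  rw [mul_smul_comm, mul_one, map_smul, h0, smul_zero]

lemma prod_dim (hP : P.dim = 0) (hY : IsProductOf {P} Y) : Y.dim = 0 := by
  induction hY with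
  | base h => rw [Set.mem_singleton_iff.1 h, hP]
  | prod _ _ h1 h2 => rw [dim_prod, h1, h2]

lemma pt_hom (hY0 : Y.dim = 0) : HomEqNum W Y := by
  intro j hj z hz h
  have hj0 : j = 0 := by omega
  subst hj0
  apply W.nondeg
  intro b
  obtain ⟨c, rfl⟩ := pt_eq hY0 b
  have h1 := h Y.V.fundCycle (by rw [hY0]; exact Y.V.fundCycle_mem)
  have h3 := ops.mul_mem hz Y.V.fundCycle_mem
  have h2 : W.tr Y (W.cl Y (ops.mul z Y.V.fundCycle)) = 0 := by
    rw [W.tr_cl (by rw [hY0]; exact h3), h1, Rat.cast_zero]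
  rw [W.cl_mul, W.cl_fund, mul_one] at h2
  rw [mul_smul_comm, mul_one, map_smul, h2, smul_zero]

lemma par_tr (P : 𝒱.Obj) : Par W 0 (W.tr P) := by
  intro i a ha hodd
  apply W.tr_eq_zero ha
  rintro rfl
  rw [add_zero] at hodd
  exact (Nat.not_odd_iff_even.2 (even_two_mul _)) hodd

lemma bil_one (P : 𝒱.Obj) : bil W P 1 = W.tr P := by
  apply LinearMap.ext
  intro a
  rw [bil_apply, one_mul]

/-! ### The form of a class -/

/-- The multilinear form given by a class on `X ^ n × P`. -/
noncomputable def Ph (W : WeilCohomology.{u, v} ops) (X P : 𝒱.Obj) (n : ℕ) :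
    W.H (pX X P n) →ₗ[W.K] ((Fin n → W.H X) → W.K) where
  toFun x := fun v => msl W n (fun s => bil W X (v s)) (W.tr P) x
  map_add' x y := by
    funext v
    exact map_add _ _ _
  map_smul' c x := by
    funext v
    exact map_smul _ _ _

lemma Ph_apply (n : ℕ) (x : W.H (pX X P n)) (v : Fin n → W.H X) :
    Ph W X P n x v = msl W n (fun s => bil W X (v s)) (W.tr P) x := rfl

lemma msr_inj : ∀ (n : ℕ) (x : W.H (pX X Y n)),
    (∀ f : Fin n → (W.H X →ₗ[W.K] W.K), msr W n f x = 0) → x = 0 := by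
  intro n
  induction n with
  | zero =>
    intro x h
    exact h (fun i => i.elim0)
  | succ n ih =>
    intro x h
    have h1 := slice_sum (Y := pX X Y n) (Module.finBasis W.K (W.H X)) x
    rw [h1]
    apply Finset.sum_eq_zero
    intro j _
    have h2 : sl W ((Module.finBasis W.K (W.H X)).coord j) x = 0 := by
      apply ih
      intro f
      exact h (Fin.cons ((Module.finBasis W.K (W.H X)).coord j) f :
        Fin (n + 1) → (W.H X →ₗ[W.K] W.K))
    rw [h2, map_zero, mul_zero]

lemma Ph_inj (hP : P.dim = 0) (n : ℕ) : Injective (Ph W X P n) := by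
  rw [injective_iff_map_eq_zero]
  intro x hx
  apply msr_inj
  intro f
  choose v hv using fun s => bil_surj (W := W) (f s)
  have h1 := congrFun hx v
  rw [Ph_apply] at h1
  have h2 : (fun s => bil W X (v s)) = f := funext hv
  rw [h2, msl_msr] at h1
  obtain ⟨c, hc⟩ := pt_eq hP (msr W n f x)
  rw [hc] at h1 ⊢
  by_cases h3 : (1 : W.H P) = 0
  · rw [h3, smul_zero]
  · rw [map_smul, smul_eq_mul, Pi.zero_apply] at h1
    rw [(mul_eq_zero.1 h1).resolve_right (pt_tr hP h3), zero_smul]

/-- The numerically trivial classes. -/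
def numC (W : WeilCohomology.{u, v} ops) (V : 𝒱.Obj) : Submodule W.K (W.H V) where
  carrier := {x | NumTriv W V x}
  add_mem' := by
    intro x y hx hy j g hg
    rw [add_mul, map_add, hx j g hg, hy j g hg, add_zero]
  zero_mem' := by
    intro j g _
    rw [zero_mul, map_zero]
  smul_mem' := by
    intro c x hx j g hg
    rw [smul_mul_assoc, map_smul, hx j g hg, smul_zero]

lemma mem_numC {x : W.H V} : x ∈ numC W V ↔ NumTriv W V x := Iff.rfl

lemma span_le_all (j : ℤ) : spanCycles W V j ≤ allCycles W V := by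
  rcases lt_or_ge j 0 with hj | hj
  · refine Submodule.span_le.2 ?_
    rintro x ⟨p, hp, -⟩
    omega
  · lift j to ℕ using hj
    exact le_iSup (fun p : ℕ => spanCycles W V p) j

lemma numTriv_iff_all {x : W.H V} : NumTriv W V x ↔ ∀ y ∈ allCycles W V, W.tr V (x * y) = 0 := by
  constructor
  · intro h
    have h1 : allCycles W V ≤ LinearMap.ker (bil W V x) := by
      refine iSup_le fun p => ?_
      intro y hy
      exact h p y hy
    exact fun y hy => h1 hy
  · intro h j g hg
    exact h g (span_le_all j hg)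

lemma exists_mor (hY : IsProductOf {P} Y) : Nonempty (P ⟶ Y) := by
  induction hY with
  | base h =>
    rw [Set.mem_singleton_iff.1 h]
    exact ⟨𝟙 P⟩
  | prod _ _ h1 h2 =>
    obtain ⟨r1⟩ := h1
    obtain ⟨r2⟩ := h2
    exact ⟨Obj.lift r1 r2⟩

lemma exists_R (r : P ⟶ Y) : ∀ n : ℕ, ∃ R : pX X P n ⟶ pX X Y n,
    ∀ (f : Fin n → (W.H X →ₗ[W.K] W.K)) (g : W.H P →ₗ[W.K] W.K) (x : W.H (pX X Y n)),
      msl W n f (g ∘ₗ (W.map r).toLinearMap) x = msl W n f g (W.map R x) := by
  intro n
  induction n with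
  | zero => exact ⟨r, fun _ _ _ => rfl⟩
  | succ n ih =>
    obtain ⟨R, hR⟩ := ih
    refine ⟨Obj.lift (fst X (pX X P n)) (snd X (pX X P n) ≫ R), fun f g x => ?_⟩
    have key : msl W (n + 1) f (g ∘ₗ (W.map r).toLinearMap) = msl W (n + 1) f g ∘ₗ
        (W.map (Obj.lift (fst X (pX X P n)) (snd X (pX X P n) ≫ R))).toLinearMap := by
      apply ext_kunneth_lin
      intro a b
      rw [msl_succ, tens_tmul, hR, LinearMap.comp_apply, AlgHom.toLinearMap_apply, map_mul,
        ← W.map_comp, ← W.map_comp, Obj.lift_fst, Obj.lift_snd, W.map_comp, msl_succ, tens_tmul]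
    rw [key]
    rfl

lemma form_pt (hY0 : Y.dim = 0) (hP : P.dim = 0) (h1 : (1 : W.H P) ≠ 0) (r : P ⟶ Y)
    (g : W.H Y →ₗ[W.K] W.K) : ∃ c : W.K, g = (c • W.tr P) ∘ₗ (W.map r).toLinearMap := by
  refine ⟨g (1 : W.H Y) / W.tr P 1, ?_⟩
  apply LinearMap.ext
  intro a
  obtain ⟨d, rfl⟩ := pt_eq hY0 a
  rw [map_smul, map_smul, LinearMap.comp_apply, AlgHom.toLinearMap_apply, map_one (W.map r),
    LinearMap.smul_apply, smul_eq_mul, smul_eq_mul, smul_eq_mul,
    div_mul_cancel₀ _ (pt_tr hP h1)]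

lemma gen_pt (hP : P.dim = 0) (h1 : (1 : W.H P) ≠ 0) {b : Prop} {n : ℕ}
    {F : (Fin n → W.H X) → W.K} (hF : IsG W X {P} b n F) :
    ∃ (j : ℤ) (x : W.H (pX X P n)), x ∈ spanCycles W _ j ∧ (b → NumTriv W _ x) ∧
      F = Ph W X P n x := by
  obtain ⟨Y, q, g, j, x, hY, hq, hx, hn, rfl⟩ := hF
  obtain ⟨r⟩ := exists_mor hY
  obtain ⟨R, hR⟩ := exists_R (W := W) (X := X) r n
  obtain ⟨c, hc⟩ := form_pt (prod_dim hP hY) hP h1 r g
  refine ⟨j, c • W.map R x, Submodule.smul_mem _ _ (span_map R hx), ?_, ?_⟩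
  · intro hb
    have h2 : NumTriv W _ (W.map R x) := NumTriv.op (KOp.mapHom R) (hn hb)
    intro i y hy
    rw [smul_mul_assoc, map_smul, h2 i y hy, smul_zero]
  · funext v
    rw [Ph_apply, map_smul, hc, hR, msl_msr, msl_msr, LinearMap.smul_apply]

lemma gr_comp {x : W.H V} (hx : x ∈ allCycles W V) (i : ℕ) :
    ∃ p : ℕ, proj (W.isInternal V) i x ∈ spanCycles W V p := by
  rcases Nat.even_or_odd' i with ⟨p, rfl | rfl⟩
  · refine ⟨p, ?_⟩
    have h1 : allCycles W V ≤ (spanCycles W V p).comap (proj (W.isInternal V) (2 * p)) := by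
      refine iSup_le fun q => ?_
      intro y hy
      rw [Submodule.mem_comap]
      by_cases hpq : q = p
      · subst hpq
        rw [proj_same _ (span_gr hy)]
        exact hy
      · rw [proj_ne _ (span_gr hy) (by omega)]
        exact Submodule.zero_mem _
    exact h1 hx
  · refine ⟨0, ?_⟩
    have h1 : allCycles W V ≤ LinearMap.ker (proj (W.isInternal V) (2 * p + 1)) := by
      refine iSup_le fun q => ?_
      intro y hy
      rw [LinearMap.mem_ker, proj_ne _ (span_gr hy) (by omega)]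
    rw [LinearMap.mem_ker.1 (h1 hx)]
    exact Submodule.zero_mem _

lemma tr_proj {q : ℕ} {g : W.H V} (hg : g ∈ W.gr V (2 * q)) (i : ℕ) (x : W.H V) :
    W.tr V (proj (W.isInternal V) i x * g) = if i + 2 * q = 2 * V.dim then W.tr V (x * g) else 0 := by
  refine gr_induction (W.isInternal V) (p := fun x => W.tr V (proj (W.isInternal V) i x * g) =
    if i + 2 * q = 2 * V.dim then W.tr V (x * g) else 0) ?_ ?_ x
  · intro l a ha
    by_cases hl : l = i
    · subst hl
      rw [proj_same _ ha]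
      by_cases h1 : l + 2 * q = 2 * V.dim
      · rw [if_pos h1]
      · rw [if_neg h1, W.tr_eq_zero (W.mul_mem ha hg) h1]
    · rw [proj_ne _ ha hl, zero_mul, map_zero]
      by_cases h1 : i + 2 * q = 2 * V.dim
      · rw [if_pos h1, W.tr_eq_zero (W.mul_mem ha hg) (by omega)]
      · rw [if_neg h1]
  · intro a b ha hb
    rw [map_add, add_mul, map_add, ha, hb, add_mul, map_add]
    by_cases h1 : i + 2 * q = 2 * V.dim
    · rw [if_pos h1, if_pos h1, if_pos h1]
    · rw [if_neg h1, if_neg h1, if_neg h1, add_zero]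

lemma num_comp {x : W.H V} (hx : NumTriv W V x) (i : ℕ) :
    NumTriv W V (proj (W.isInternal V) i x) := by
  intro j g hg
  induction hg using Submodule.span_induction with
  | mem g hg =>
    obtain ⟨q, -, w, hw, rfl⟩ := hg
    rw [tr_proj (W.cl_mem hw)]
    by_cases h1 : i + 2 * q = 2 * V.dim
    · rw [if_pos h1]
      exact hx q _ (Submodule.subset_span ⟨q, rfl, w, hw, rfl⟩)
    · rw [if_neg h1]
  | zero => rw [mul_zero, map_zero]
  | add c c' _ _ hc hc' => rw [mul_add, map_add, hc, hc', add_zero]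
  | smul r c _ hc => rw [mul_smul_comm, map_smul, hc, smul_zero]

lemma sum_comp (x : W.H V) :
    x = ∑ i ∈ Finset.range (2 * V.dim + 1), proj (W.isInternal V) i x := by
  have h3 := sum_proj (W.isInternal V) (N := 2 * V.dim + 1)
    (fun i hi => W.gr_eq_bot V i (by omega))
  have h4 := congrArg (fun F : Module.End W.K (W.H V) => F x) h3
  beta_reduce at h4
  rw [LinearMap.sum_apply, Module.End.one_apply] at h4
  exact h4.symm

/-- The forms given by all algebraic classes. -/
lemma GF_false (hP : P.dim = 0) (h1 : (1 : W.H P) ≠ 0) (n : ℕ) :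
    GF W X {P} False n = (allCycles W (pX X P n)).map (Ph W X P n) := by
  apply le_antisymm
  · refine Submodule.span_le.2 ?_
    intro F hF
    obtain ⟨j, x, hx, -, rfl⟩ := gen_pt hP h1 hF
    exact ⟨x, span_le_all j hx, rfl⟩
  · rw [allCycles, Submodule.map_iSup]
    refine iSup_le fun p => ?_
    rintro _ ⟨x, hx, rfl⟩
    exact GF_gen ⟨P, 0, W.tr P, p, x, IsProductOf.base rfl, par_tr P, hx, fun h => h.elim, rfl⟩

/-- The forms given by the numerically trivial algebraic classes. -/
lemma GF_true (hP : P.dim = 0) (h1 : (1 : W.H P) ≠ 0) (n : ℕ) :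
    GF W X {P} True n = (allCycles W (pX X P n) ⊓ numC W (pX X P n)).map (Ph W X P n) := by
  apply le_antisymm
  · refine Submodule.span_le.2 ?_
    intro F hF
    obtain ⟨j, x, hx, hn, rfl⟩ := gen_pt hP h1 hF
    exact ⟨x, ⟨span_le_all j hx, hn trivial⟩, rfl⟩
  · rintro _ ⟨x, ⟨hx, hxn⟩, rfl⟩
    rw [sum_comp x, map_sum]
    refine Submodule.sum_mem _ fun i _ => ?_
    obtain ⟨p, hp⟩ := gr_comp hx i
    exact GF_gen ⟨P, 0, W.tr P, p, _, IsProductOf.base rfl, par_tr P, hp,
      fun _ => num_comp hxn i, rfl⟩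

lemma finrank_false (hP : P.dim = 0) (h1 : (1 : W.H P) ≠ 0) (n : ℕ) :
    finrank W.K (GF W X {P} False n) = homRank W (pX X P n) := by
  rw [GF_false hP h1, homRank]
  exact (Submodule.equivMapOfInjective _ (Ph_inj hP n) _).finrank_eq.symm

lemma numRank_add (V : 𝒱.Obj) :
    numRank W V + finrank W.K (allCycles W V ⊓ numC W V : Submodule W.K (W.H V)) =
      homRank W V := by
  have h1 : numRank W V = nr (allCycles W V) (numC W V) := by
    let φ : W.H V →ₗ[W.K] Dual W.K (allCycles W V) :=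
      (allCycles W V).subtype.dualMap ∘ₗ bil W V
    have h2 : Submodule.span W.K (formsOn (W.tr V) (allCycles W V)) = (allCycles W V).map φ := by
      apply le_antisymm
      · refine Submodule.span_le.2 ?_
        rintro f ⟨a, ha, hf⟩
        exact ⟨a, ha, (LinearMap.ext hf).symm⟩
      · rintro _ ⟨a, ha, rfl⟩
        exact Submodule.subset_span ⟨a, ha, fun _ => rfl⟩
    rw [numRank, formRank, Set.finrank, h2]
    refine (nr_eq φ ?_).symm
    intro x _
    rw [mem_numC, numTriv_iff_all]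
    constructor
    · intro h y hy
      exact congrArg (fun F => F ⟨y, hy⟩) h
    · intro h
      apply LinearMap.ext
      intro y
      exact h y.1 y.2
  rw [h1, nr_add, homRank]

lemma finrank_true (hP : P.dim = 0) (h1 : (1 : W.H P) ≠ 0) (n : ℕ) :
    numRank W (pX X P n) + finrank W.K (GF W X {P} True n) = homRank W (pX X P n) := by
  rw [GF_true hP h1, ← (Submodule.equivMapOfInjective _ (Ph_inj hP n) _).finrank_eq]
  exact numRank_add _

end Pool.Agent.N180.Zl
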