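import Pool.Agent.N180.ZlI

/-!
# The form of the intersection numbers in coordinates
-/

open CategoryTheory AlgebraicGeometry TensorProduct Function Module

universe u v w w'

set_option linter.unusedSectionVars false

namespace Pool.Agent.N180.Zl

open Pool.Agent.H914 Pool.Agent.H914.VarClass Pool.Agent.H914.VarClass.Obj
  Pool.Agent.H914.WeilCohomology Pool.Agent.R908 Pool.Agent.R908.Km
  Pool.Agent.H281R3.HT Pool.Agent.N180.Cf

variable {k : Type u} [Field k] {𝒱 : VarClass k} {ops : CycleOps 𝒱}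
  {W : WeilCohomology.{u, v} ops} {X P Y Z V : 𝒱.Obj}

/-- The sign operator of a variety. -/
noncomputable def gsm (W : WeilCohomology.{u, v} ops) (V : 𝒱.Obj) : W.H V →ₗ[W.K] W.H V :=
  (gsHom W (-1) V).toLinearMap

lemma gsm_apply {i : ℕ} {a : W.H V} (ha : a ∈ W.gr V i) : gsm W V a = (-1 : W.K) ^ i • a :=
  gsHom_apply (-1) ha

lemma gsm_prod {κ : W.H X →ₗ[W.K] W.H X} (hκ : IsSign W X κ) :
    gsm W (X.prod Z) = extHom W κ (gsm W Z) := by
  apply ext_kunneth_lin
  intro a b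
  change gsHom W (-1) (X.prod Z) (W.map (fst X Z) a * W.map (snd X Z) b) = _
  rw [map_mul, ← gsHom_map, ← gsHom_map, gsHom_neg hκ, extHom_tmul]
  rfl

lemma gsm_mem {κ : W.H X →ₗ[W.K] W.H X} (hκ : IsSign W X κ) (hP : P.dim = 0) :
    ∀ n : ℕ, gsm W (pX X P n) ∈ KOp W (pX X P n) (pX X P n) 0 := by
  intro n
  induction n with
  | zero =>
    have h1 : gsm W (pX X P 0) = LinearMap.id := by
      apply LinearMap.ext
      intro a
      rw [gsm_apply (pt_gr hP a), pow_zero, one_smul, LinearMap.id_apply]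
    rw [h1]
    exact KOp.id _
  | succ n ih =>
    have h1 : gsm W (pX X P (n + 1)) = extHom W κ (gsm W (pX X P n)) := gsm_prod hκ
    rw [h1]
    exact KOp.cast (KOp.extHom hκ.mem ih) (by ring)

/-- The exchange of the order of the two factors. -/
noncomputable def sg (W : WeilCohomology.{u, v} ops) (X Z : 𝒱.Obj) (κ : W.H X →ₗ[W.K] W.H X) :
    W.H (X.prod Z) →ₗ[W.K] W.H (X.prod Z) :=
  (2 : W.K)⁻¹ • (extHom W LinearMap.id LinearMap.id + extHom W κ LinearMap.id +
    extHom W LinearMap.id (gsm W Z) + (-1 : W.K) • extHom W κ (gsm W Z))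

lemma sg_mem {κ : W.H X →ₗ[W.K] W.H X} (hκ : IsSign W X κ) (hZ : gsm W Z ∈ KOp W Z Z 0) :
    sg W X Z κ ∈ KOp W (X.prod Z) (X.prod Z) 0 := by
  refine Submodule.smul_mem _ _ (Submodule.add_mem _ (Submodule.add_mem _
      (Submodule.add_mem _ ?_ ?_) ?_) (Submodule.smul_mem _ _ ?_))
  · exact KOp.cast (KOp.extHom (KOp.id _) (KOp.id _)) (by ring)
  · exact KOp.cast (KOp.extHom hκ.mem (KOp.id _)) (by ring)
  · exact KOp.cast (KOp.extHom (KOp.id _) hZ) (by ring)
  · exact KOp.cast (KOp.extHom hκ.mem hZ) (by ring)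

lemma sg_gr {κ : W.H X →ₗ[W.K] W.H X} (hκ : IsSign W X κ) {i j : ℕ} {a : W.H X} {b : W.H Z}
    (ha : a ∈ W.gr X i) (hb : b ∈ W.gr Z j) :
    sg W X Z κ (W.map (fst X Z) a * W.map (snd X Z) b) =
      (-1 : W.K) ^ (i * j) • (W.map (fst X Z) a * W.map (snd X Z) b) := by
  rw [sg, LinearMap.smul_apply, LinearMap.add_apply, LinearMap.add_apply, LinearMap.add_apply,
    LinearMap.smul_apply]
  simp only [extHom_tmul, LinearMap.id_apply]
  rw [hκ.apply i a ha, gsm_apply hb]
  simp only [map_smul, smul_mul_assoc, mul_smul_comm, smul_smul]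
  set c := W.map (fst X Z) a * W.map (snd X Z) b
  have h1 : c + (-1 : W.K) ^ i • c + (-1 : W.K) ^ j • c +
      (-1 * ((-1) ^ j * (-1) ^ i) : W.K) • c =
      (1 + (-1 : W.K) ^ i + (-1) ^ j + (-1 * ((-1) ^ i * (-1) ^ j))) • c := by
    rw [add_smul, add_smul, add_smul, one_smul, mul_comm ((-1 : W.K) ^ j) ((-1) ^ i)]
  rw [h1]
  rw [smul_smul]
  congr 1
  have h2 : (2 : W.K) ≠ 0 := two_ne_zero
  rcases Nat.even_or_odd i with hi | hi <;> rcases Nat.even_or_odd j with hj | hj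
  · rw [hi.neg_one_pow, hj.neg_one_pow, (hi.mul_right j).neg_one_pow]
    field_simp
    ring
  · rw [hi.neg_one_pow, hj.neg_one_pow, (hi.mul_right j).neg_one_pow]
    field_simp
    ring
  · rw [hi.neg_one_pow, hj.neg_one_pow, (hj.mul_left i).neg_one_pow]
    field_simp
    ring
  · rw [hi.neg_one_pow, hj.neg_one_pow, (hi.mul hj).neg_one_pow]
    field_simp
    ring

lemma sg_sg {κ : W.H X →ₗ[W.K] W.H X} (hκ : IsSign W X κ) :
    sg W X Z κ ∘ₗ sg W X Z κ = LinearMap.id := by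
  apply LinearMap.ext
  intro c
  refine W.kunneth_induction (p := fun c => (sg W X Z κ ∘ₗ sg W X Z κ) c = LinearMap.id c)
    ?_ ?_ c
  · intro a b ha hb
    rw [map_add, map_add, ha, hb]
  · intro i j a ha b hb
    rw [LinearMap.comp_apply, sg_gr hκ ha hb, map_smul, sg_gr hκ ha hb, smul_smul, ← pow_add,
      ← two_mul, pow_mul, neg_one_sq, one_pow, one_smul, LinearMap.id_apply]

lemma ext_sg {κ : W.H X →ₗ[W.K] W.H X} (hκ : IsSign W X κ) {T : W.H Z →ₗ[W.K] W.H Z}
    (hT : T ∈ KOp W Z Z 0) (a : W.H X) (b : W.H Z) :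
    (extHom W LinearMap.id T ∘ₗ sg W X Z κ) (W.map (fst X Z) a * W.map (snd X Z) b) =
      W.map (snd X Z) (T b) * W.map (fst X Z) a := by
  refine gr_induction (W.isInternal X) (p := fun a => (extHom W LinearMap.id T ∘ₗ sg W X Z κ)
    (W.map (fst X Z) a * W.map (snd X Z) b) = W.map (snd X Z) (T b) * W.map (fst X Z) a) ?_ ?_ a
  swap
  · intro a a' ha ha'
    rw [map_add, add_mul, map_add, ha, ha', mul_add]
  intro i a ha
  refine gr_induction (W.isInternal Z) (p := fun b => (extHom W LinearMap.id T ∘ₗ sg W X Z κ)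
    (W.map (fst X Z) a * W.map (snd X Z) b) = W.map (snd X Z) (T b) * W.map (fst X Z) a) ?_ ?_ b
  swap
  · intro b b' hb hb'
    rw [map_add, mul_add, map_add, hb, hb', map_add, map_add, add_mul]
  intro j b hb
  rw [LinearMap.comp_apply, sg_gr hκ ha hb, map_smul, extHom_tmul, LinearMap.id_apply,
    W.comm (W.map_mem (snd X Z) (Mot.hom_deg0 hT hb)) (W.map_mem (fst X Z) ha), mul_comm j i]

/-- **The exchange of the order of the factors.** -/
lemma exists_T {κ : W.H X →ₗ[W.K] W.H X} (hκ : IsSign W X κ) (hP : P.dim = 0) : ∀ n : ℕ,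
    ∃ T ∈ KOp W (pX X P n) (pX X P n) 0, ∃ T' ∈ KOp W (pX X P n) (pX X P n) 0,
      T' ∘ₗ T = LinearMap.id ∧ ∀ (x : Fin n → W.H X) (y : W.H P),
        T (box W n x y) = tv W n x y := by
  intro n
  induction n with
  | zero =>
    exact ⟨LinearMap.id, KOp.id _, LinearMap.id, KOp.id _, LinearMap.id_comp _, fun _ _ => rfl⟩
  | succ n ih =>
    obtain ⟨T, hT, T', hT', h1, h2⟩ := ih
    have hZ := gsm_mem hκ hP n
    refine ⟨extHom W LinearMap.id T ∘ₗ sg W X (pX X P n) κ,
      KOp.cast (KOp.comp (KOp.extHom (KOp.id _) hT) (sg_mem hκ hZ)) (by ring),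
      sg W X (pX X P n) κ ∘ₗ extHom W LinearMap.id T',
      KOp.cast (KOp.comp (sg_mem hκ hZ) (KOp.extHom (KOp.id _) hT')) (by ring), ?_, ?_⟩
    · calc (sg W X (pX X P n) κ ∘ₗ extHom W LinearMap.id T') ∘ₗ
          (extHom W LinearMap.id T ∘ₗ sg W X (pX X P n) κ)
          = sg W X (pX X P n) κ ∘ₗ (extHom W LinearMap.id T' ∘ₗ extHom W LinearMap.id T) ∘ₗ
            sg W X (pX X P n) κ := rfl
        _ = LinearMap.id := by
            rw [extHom_comp, h1, LinearMap.id_comp, extHom_id, LinearMap.id_comp, sg_sg hκ]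
    · intro x y
      have h3 := ext_sg hκ hT (x 0) (box W n (fun i => x i.succ) y)
      rw [h2] at h3
      exact h3

lemma slice_dual {b : ℕ} {β γ : Fin b → W.H X} (h : DualP (bil W X) β γ) (y : W.H (X.prod Y)) :
    y = ∑ j, W.map (fst X Y) (β j) * W.map (snd X Y) (sl W (bil W X (γ j)) y) := by
  have key : (LinearMap.id : W.H (X.prod Y) →ₗ[W.K] W.H (X.prod Y)) =
      ∑ i, LinearMap.mulLeft W.K (W.map (fst X Y) (β i)) ∘ₗ (W.map (snd X Y)).toLinearMap ∘ₗ
        sl W (bil W X (γ i)) := by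
    apply ext_kunneth_lin
    intro a c
    rw [LinearMap.sum_apply, LinearMap.id_apply]
    have h1 : ∀ i, (LinearMap.mulLeft W.K (W.map (fst X Y) (β i)) ∘ₗ
        (W.map (snd X Y)).toLinearMap ∘ₗ sl W (bil W X (γ i)))
        (W.map (fst X Y) a * W.map (snd X Y) c) =
        W.map (fst X Y) (bil W X (γ i) a • β i) * W.map (snd X Y) c := by
      intro i
      rw [LinearMap.comp_apply, LinearMap.comp_apply, sl_tmul, LinearMap.mulLeft_apply,
        AlgHom.toLinearMap_apply, map_smul, map_smul, mul_smul_comm, smul_mul_assoc]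
    rw [Finset.sum_congr rfl (fun i _ => h1 i), ← Finset.sum_mul, ← map_sum]
    congr 2
    exact h.exp_b a
  have h2 := congrArg (fun F => F y) key
  beta_reduce at h2
  rw [LinearMap.sum_apply, LinearMap.id_apply] at h2
  exact h2

lemma box_sum {α : Type*} (s : Finset α) : ∀ (n : ℕ) (x : Fin n → W.H X) (y : α → W.H Y),
    box W n x (∑ i ∈ s, y i) = ∑ i ∈ s, box W n x (y i) := by
  intro n
  induction n with
  | zero => exact fun _ _ => rfl
  | succ n ih =>
    intro x y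
    change W.map (fst X (pX X Y n)) (x 0) * W.map (snd X (pX X Y n))
      (box W n (fun i => x i.succ) (∑ i ∈ s, y i)) = _
    rw [ih, map_sum, Finset.mul_sum]
    rfl

lemma box_smul : ∀ (n : ℕ) (x : Fin n → W.H X) (c : W.K) (y : W.H Y),
    box W n x (c • y) = c • box W n x y := by
  intro n
  induction n with
  | zero => exact fun _ _ _ => rfl
  | succ n ih =>
    intro x c y
    change W.map (fst X (pX X Y n)) (x 0) * W.map (snd X (pX X Y n))
      (box W n (fun i => x i.succ) (c • y)) = _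
    rw [ih, map_smul, mul_smul_comm]
    rfl

lemma box_expand {b : ℕ} {β γ : Fin b → W.H X} (h : DualP (bil W X) β γ) :
    ∀ (n : ℕ) (x : W.H (pX X Y n)),
      x = ∑ I : Fin n → Fin b, box W n (fun s => β (I s)) (msr W n (fun s => bil W X (γ (I s))) x)
    := by
  intro n
  induction n with
  | zero =>
    intro x
    rw [Fintype.sum_unique]
    rfl
  | succ n ih =>
    intro x
    rw [← (Fin.consEquiv fun _ => Fin b).sum_comp, Fintype.sum_prod_type]
    conv_lhs => rw [slice_dual (Y := pX X Y n) h x]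
    refine Finset.sum_congr rfl fun j _ => ?_
    conv_lhs => rw [ih (sl W (bil W X (γ j)) x), map_sum, Finset.mul_sum]
    rfl

/-- **The intersection numbers in coordinates.** -/
lemma tr_T {b : ℕ} {β γ : Fin b → W.H X} (h : DualP (bil W X) β γ) (hP : P.dim = 0)
    (h1 : (1 : W.H P) ≠ 0) {n : ℕ} {T : W.H (pX X P n) →ₗ[W.K] W.H (pX X P n)}
    (hT : ∀ (x : Fin n → W.H X) (y : W.H P), T (box W n x y) = tv W n x y)
    (x y : W.H (pX X P n)) :
    W.tr P 1 * W.tr (pX X P n) (T x * y) = ∑ I : Fin n → Fin b,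
      Ph W X P n x (fun s => γ (I s)) * Ph W X P n y (fun s => β (I s)) := by
  have h2 := box_expand (Y := P) h n x
  have h3 : ∀ I : Fin n → Fin b, W.tr P 1 * W.tr (pX X P n)
      (T (box W n (fun s => β (I s)) (msr W n (fun s => bil W X (γ (I s))) x)) * y) =
      Ph W X P n x (fun s => γ (I s)) * Ph W X P n y (fun s => β (I s)) := by
    intro I
    obtain ⟨c, hc⟩ := pt_eq hP (msr W n (fun s => bil W X (γ (I s))) x)
    rw [hc, box_smul, map_smul, smul_mul_assoc, map_smul, hT, tr_tv, bil_one, Ph_apply, Ph_apply,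
      msl_msr n _ _ x, hc, map_smul, smul_eq_mul, smul_eq_mul]
    ring
  conv_lhs => rw [h2, map_sum, Finset.sum_mul, map_sum, Finset.mul_sum]
  exact Finset.sum_congr rfl fun I _ => h3 I

/-- **Nondegeneracy.** -/
lemma GF_nd {κ : W.H X →ₗ[W.K] W.H X} (hκ : IsSign W X κ) {b : ℕ} {β γ : Fin b → W.H X}
    (h : DualP (bil W X) β γ) (hP : P.dim = 0) (h1 : (1 : W.H P) ≠ 0) (m : ℕ)
    (f : (Fin m → W.H X) → W.K) (hf : f ∈ GF W X {P} False m)
    (h2 : ∀ g ∈ GF W X {P} False m, ∑ I : Fin m → Fin b, f (fun s => γ (I s)) *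
      g (fun s => β (I s)) = 0) : f ∈ GF W X {P} True m := by
  rw [GF_false hP h1] at hf
  obtain ⟨x, hx, rfl⟩ := hf
  obtain ⟨T, hT, T', hT', hTT, hTb⟩ := exists_T (P := P) hκ hP m
  rw [GF_true hP h1]
  refine ⟨x, ⟨hx, ?_⟩, rfl⟩
  have h3 : NumTriv W _ (T x) := by
    rw [numTriv_iff_all]
    intro y hy
    have h4 := tr_T h hP h1 hTb x y
    rw [h2 (Ph W X P m y) (by rw [GF_false hP h1]; exact ⟨y, hy, rfl⟩)] at h4
    exact (mul_eq_zero.1 h4).resolve_left (pt_tr hP h1)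
  have h5 : x = T' (T x) := by
    have h6 := congrArg (fun F => F x) hTT
    exact h6.symm
  change NumTriv W _ x
  rw [h5]
  exact NumTriv.op hT' h3

/-- The constant form. -/
lemma GF_one (hP : P.dim = 0) (h1 : (1 : W.H P) ≠ 0) :
    (fun _ => 1 : (Fin 0 → W.H X) → W.K) ∈ GF W X {P} False 0 := by
  rw [GF_false hP h1]
  refine ⟨(W.tr P 1)⁻¹ • (1 : W.H P), Submodule.smul_mem _ _ (span_le_all 0 (one_span P)), ?_⟩
  funext v
  rw [map_smul, Pi.smul_apply, smul_eq_mul]
  change (W.tr P 1)⁻¹ * W.tr P 1 = 1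
  exact inv_mul_cancel₀ (pt_tr hP h1)

/-- **The family.** -/
lemma famD {κ : W.H X →ₗ[W.K] W.H X} (hκ : IsSign W X κ) {b : ℕ} {β γ : Fin b → W.H X}
    (h : DualP (bil W X) β γ) (hP : P.dim = 0) (h1 : (1 : W.H P) ≠ 0) :
    FamD (bil W X) κ β γ (GF W X {P} False) (GF W X {P} True) where
  dual := h
  comm := fun x y => hκ.tr_comm x y
  adj := fun x y => hκ.tr_adj x y
  sq := hκ.sq
  multi := fun _ _ hF => GF_multi hF
  perm := fun _ _ π hF => GF_perm hκ π hF
  permF := fun _ _ π hF => GF_perm hκ π hF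
  ins := fun _ _ hF => GF_ins hκ hF
  mul := fun _ _ _ _ hF hF' => GF_mul' hκ hF hF' _ (Nat.add_comm _ _)
  mulF := fun _ _ _ _ hF hF' => GF_mul' hκ hF hF' _ (Nat.add_comm _ _)
  contr := fun _ _ hF => GF_contr h hF
  contrF := fun _ _ hF => GF_contr h hF
  one := GF_one hP h1
  zeroF := fun _ hF => GF_zero (fun _ hY => pt_hom (prod_dim hP hY)) hF
  le := fun m => GF_mono (fun h => h.elim) m
  var := GF_varS hκ.mem
  varF := GF_varS hκ.mem
  nd := GF_nd hκ h hP h1

end Pool.Agent.N180.Zl
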