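import Pool.Agent.N180.ZlGU
import Pool.Agent.N180.ZlJ
import Pool.Agent.N180.ZlBend
import Pool.Agent.N160.ZlFam
import Pool.Agent.N160.ZlGrD
import Pool.Agent.N558.ZL.Perm
import Pool.Agent.N565.ZL.Rank
import Pool.Agent.N776.ZL.F2
import Pool.Agent.N868.ZL.Kos3

/-!
# The zero-one law for the standard conjecture D
-/

open CategoryTheory AlgebraicGeometry TensorProduct Function Module

universe u v w w'

set_option linter.unusedSectionVars false

namespace Pool.Agent.N180.Zl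

open Pool.Agent.H914 Pool.Agent.H914.VarClass Pool.Agent.H914.VarClass.Obj
  Pool.Agent.H914.WeilCohomology Pool.Agent.R908 Pool.Agent.R908.Km
  Pool.Agent.H281R3.HT Pool.Agent.N180.Cf

/-- The parts of the proof. -/
lemma parts {K : Type*} [Field K] [CharZero K] {ι : Type*} [Fintype ι] [DecidableEq ι]
    (𝓣 : TFam K ι) : Parts 𝓣 where
  bend := bend 𝓣
  rename := Pool.Agent.N776.ZL.F2.rename 𝓣
  add := Pool.Agent.N776.ZL.F2.additive 𝓣
  rank := Pool.Agent.N565.ZL.rank_le 𝓣 (bend 𝓣)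
  full := Pool.Agent.N776.ZL.F2.fullcn 𝓣
  perm := Pool.Agent.N558.ZL.perm_lower 𝓣
  kos := Pool.Agent.N868.ZL.kos 𝓣 (Pool.Agent.N776.ZL.F2.rename 𝓣)
  gr := Pool.Agent.N160.ZlGr.graded 𝓣 (Pool.Agent.N565.ZL.rank_le 𝓣 (bend 𝓣))

variable {k : Type u} [Field k] {𝒱 : VarClass k} {ops : CycleOps 𝒱}
  {W : WeilCohomology.{u, v} ops} {X P Y Z V : 𝒱.Obj}

/-- Dual bases from a basis. -/
lemma dualP_of_basis {l : ℕ} (e : Module.Basis (Fin l) W.K (W.H X)) (γ : Fin l → W.H X)
    (hγ : ∀ i, bil W X (γ i) = e.coord i) : DualP (bil W X) e γ := by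
  have hdelta : ∀ i j, bil W X (γ i) (e j) = if i = j then 1 else 0 := by
    intro i j
    rw [hγ, Module.Basis.coord_apply, Module.Basis.repr_self, Finsupp.single_apply]
    by_cases hij : i = j
    · rw [if_pos hij, if_pos hij.symm]
    · rw [if_neg hij, if_neg (Ne.symm hij)]
  refine ⟨hdelta, ?_, ?_⟩
  · intro x
    conv_lhs => rw [← e.sum_repr x]
    refine Finset.sum_congr rfl fun i _ => ?_
    rw [hγ]
    rfl
  · intro x
    have h0 : ∀ a : W.H X, bil W X a = 0 → a = 0 := by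
      intro a ha
      apply W.nondeg
      intro b
      exact congrArg (fun F => F b) ha
    rw [← sub_eq_zero]
    apply h0
    apply e.ext
    intro j
    rw [map_sub, LinearMap.sub_apply, map_sum, LinearMap.sum_apply, LinearMap.zero_apply,
      Finset.sum_eq_single j, map_smul, LinearMap.smul_apply, hdelta, if_pos rfl, smul_eq_mul,
      mul_one, sub_self]
    · intro i _ hi
      rw [map_smul, LinearMap.smul_apply, hdelta, if_neg hi, smul_zero]
    · intro h0
      exact absurd (Finset.mem_univ _) h0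

lemma map_snd_inj (h1 : (1 : W.H X) ≠ 0) : Injective (W.map (snd X Z)).toLinearMap := by
  rw [injective_iff_map_eq_zero]
  intro b hb
  obtain ⟨y, -, hy⟩ := exists_top h1
  apply W.nondeg
  intro c
  have h2 := W.tr_prod (X := X) (Y := Z) y (b * c)
  rw [map_mul (W.map (snd X Z)) b c] at h2
  rw [AlgHom.toLinearMap_apply] at hb
  rw [hb, zero_mul, mul_zero, map_zero, hy, one_mul] at h2
  exact h2.symm

lemma homRank_le (h1 : (1 : W.H X) ≠ 0) : homRank W Z ≤ homRank W (X.prod Z) := by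
  rw [homRank, (Submodule.equivMapOfInjective _ (map_snd_inj (Z := Z) h1) _).finrank_eq, homRank]
  apply Submodule.finrank_mono
  rw [allCycles, Submodule.map_iSup]
  refine iSup_le fun p => ?_
  rintro _ ⟨x, hx, rfl⟩
  exact span_le_all (p : ℤ) (span_map (snd X Z) hx)

lemma hom_of_one_zero (h : (1 : W.H V) = 0) : HomEqNum W V := by
  intro j _ z _ _
  rw [← mul_one (W.cl V z), h, mul_zero]

lemma one_zero_pX (h : (1 : W.H P) = 0) : ∀ m : ℕ, (1 : W.H (pX X P m)) = 0 := by
  intro m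
  induction m with
  | zero => exact h
  | succ m ih =>
    have h1 : (1 : W.H (pX X P (m + 1))) = W.map (snd X (pX X P m)) 1 := (map_one _).symm
    rw [h1, ih, map_zero]

lemma one_zero_pX' (h : (1 : W.H X) = 0) (m : ℕ) : (1 : W.H (pX X P (m + 1))) = 0 := by
  have h1 : (1 : W.H (pX X P (m + 1))) = W.map (fst X (pX X P m)) 1 := (map_one _).symm
  rw [h1, h, map_zero]

lemma ne_of_not {m : ℕ} (hP : P.dim = 0) (hm : ¬ HomEqNum W (pX X P m)) :
    (1 : W.H P) ≠ 0 ∧ (1 : W.H X) ≠ 0 := by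
  refine ⟨fun h => hm (hom_of_one_zero (one_zero_pX h m)), fun h => hm ?_⟩
  rcases m with _ | m
  · exact pt_hom hP
  · exact hom_of_one_zero (one_zero_pX' h m)

/-- **The zero-one law.** -/
theorem zero_one (b m : ℕ) : ∃ C : ℝ, 0 < C ∧ ∀ {k : Type u} [Field k] {𝒱 : VarClass k}
    {ops : CycleOps 𝒱} (W : WeilCohomology.{u, v} ops) (X P : 𝒱.Obj), P.dim = 0 →
    SignOpAlgebraic W X → finrank W.K (W.H X) = b → ¬ HomEqNum W (pX X P m) → ∀ n : ℕ, 1 ≤ n →
    (numRank W (pX X P n) : ℝ) * (n : ℝ) ^ (1 / (4 * (2 * (b : ℝ) ^ (2 * m) + 1))) ≤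
      C * homRank W (pX X P n) := by
  classical
  rcases Nat.eq_zero_or_pos b with hb0 | hb1
  · refine ⟨1, one_pos, ?_⟩
    intro k _ 𝒱 ops W X P hP _ hb hm
    exfalso
    rw [hb0] at hb
    have hsub : Subsingleton (W.H X) := Module.finrank_zero_iff.1 hb
    exact (ne_of_not hP hm).2 (Subsingleton.elim _ _)
  obtain ⟨C, hC0, hC⟩ := zero_one_absU.{v} b m hb1
  refine ⟨C, hC0, ?_⟩
  intro k _ 𝒱 ops W X P hP hX hb hm
  obtain ⟨h1, hX1⟩ := ne_of_not hP hm
  obtain ⟨_, ⟨δ, hδ, rfl⟩, hδs⟩ := hX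
  set κ := W.corr δ with hκd
  have hκ : IsSign W X κ :=
    { mem := mem_KOp_iff.2 ⟨δ, by rw [add_zero]; exact hδ, rfl⟩
      apply := hδs }
  -- a numerically trivial class
  rw [HomEqNum] at hm
  push Not at hm
  obtain ⟨j, hj, z, hz, hdeg, hne⟩ := hm
  have hnum := numTriv_of_deg (W := W) hz hdeg
  have hx : W.cl (pX X P m) z ∈ spanCycles W (pX X P m) (j : ℤ) :=
    Submodule.subset_span ⟨j, rfl, z, hz, rfl⟩
  set F := Ph W X P m (W.cl (pX X P m) z) with hF
  have hFm : F ∈ GF W X {P} True m := by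
    rw [GF_true hP h1]
    exact ⟨_, ⟨span_le_all (j : ℤ) hx, hnum⟩, rfl⟩
  have hF0 : F ≠ 0 := by
    intro h0
    apply hne
    apply Ph_inj (W := W) hP m
    rw [← hF, h0, map_zero]
  have hY : ∀ Y, IsProductOf {P} Y → HomEqNum W Y := fun Y hY => pt_hom (prod_dim hP hY)
  have hm0 : m ≠ 0 := by
    rintro rfl
    exact hF0 (GF_zero hY hFm)
  have hF2 : GF W X {P} True (2 * m) ≠ ⊥ := by
    intro h0
    have h2 := (GF_mul' hκ hFm (GF_mono (fun h => h.elim) _ hFm) (2 * m) (by ring) :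
      (fun v : Fin (2 * m) → W.H X => F (fun i => v ⟨i, by omega⟩) *
        F (fun j => v ⟨m + j, by omega⟩)) ∈ GF W X {P} True (2 * m))
    rw [h0, Submodule.mem_bot] at h2
    obtain ⟨v, hv⟩ := Function.ne_iff.1 hF0
    have h3 := congrFun h2 (fun i : Fin (2 * m) => v ⟨i % m, Nat.mod_lt _
      (Nat.pos_of_ne_zero hm0)⟩)
    have h4 : (fun i : Fin m => v ⟨(i : ℕ) % m, Nat.mod_lt _ (Nat.pos_of_ne_zero hm0)⟩) = v := by
      funext i
      congr 1
      exact Fin.ext (Nat.mod_eq_of_lt i.2)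
    have h5 : (fun i : Fin m => v ⟨(m + (i : ℕ)) % m, Nat.mod_lt _
        (Nat.pos_of_ne_zero hm0)⟩) = v := by
      funext i
      congr 1
      apply Fin.ext
      change (m + (i : ℕ)) % m = i
      rw [Nat.add_mod_left, Nat.mod_eq_of_lt i.2]
    change F (fun i : Fin m => v ⟨(i : ℕ) % m, _⟩) *
      F (fun i : Fin m => v ⟨(m + (i : ℕ)) % m, _⟩) = 0 at h3
    rw [h4, h5] at h3
    exact (mul_ne_zero hv hv) h3
  have main := hC W.K (fun n => numRank W (pX X P n)) (fun n => homRank W (pX X P n)) parts ?_ ?_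
  · intro n hn
    have h2 := main n hn
    rwa [Nat.cast_pow] at h2
  · intro N
    obtain ⟨U, hU, -⟩ := exists_good hκ hY N
    obtain ⟨l, e, w, he, hw⟩ := exists_adapted U hU.jumps
    have hl : b = l := by
      have h2 := Module.finrank_eq_card_basis e
      rw [Fintype.card_fin] at h2
      omega
    subst hl
    choose γ hγU hγ using fun i => exists_dual hκ hU e w hw i
    have hdual := dualP_of_basis e γ hγ
    have hfam := famD hκ hdual hP h1
    obtain ⟨𝓣, h2, h3, h4, h5⟩ := Pool.Agent.N160.ZlFam.fam_main _ _ _ _ _ _ hfam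
    have hbv : ∀ (ε : Bool) (i : Fin b), bv (⇑e) γ ε i ∈ U (if ε then w i else - w i) := by
      intro ε i
      cases ε
      · exact hγU i
      · exact he i
    refine ⟨𝓣, w, ?_, ?_, ?_, ?_⟩
    · apply h4
      · intro m' hm' f hf ε I hfI
        exact hU.fform m' hm' f hf _ _ (fun s => hbv (ε s) (I s)) hfI
      · intro m' hm' f hf ε I hfI
        exact hU.tform m' hm' f hf _ _ (fun s => hbv (ε s) (I s)) hfI
    · intro S _ _ ε
      have h6 := h3 ε
      have h7 := finrank_true (W := W) (X := X) hP h1 (Fintype.card S)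
      have h8 := finrank_false (W := W) (X := X) hP h1 (Fintype.card S)
      omega
    · intro S _ ε
      rw [h2 ε, finrank_false hP h1]
    · exact h5 _ hF2
  · intro n
    exact homRank_le hX1

end Pool.Agent.N180.Zl
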